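import Pool.Agent.Helper93.WS.Frob

/-!
# Frobenius elements: existence, and independence of the trace outside the ramification
-/

open scoped Pointwise NumberField

namespace Pool.Agent.Helper93.WS

section AuxC

variable {k : Type*} [Field k] {K L : Type*}
  [Field K] [NumberField K] [Field L] [NumberField L] [Algebra K L] [IsGalois K L]

private theorem exists_frob_aux {v : Ideal (𝓞 K)} (hv : v.IsMaximal) :
    ∃ (φ : L ≃ₐ[K] L) (Q : Ideal (𝓞 L)), IsFrob K φ Q v := by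
  have hp : v.IsPrime := hv.isPrime
  obtain ⟨Q, hQ1, hQ2⟩ := Ideal.exists_maximal_ideal_liesOver_of_isIntegral (S := 𝓞 L) v
  have hQ3 : Q.IsMaximal := hQ1
  have hQ4 : Q.IsPrime := hQ3.isPrime
  have hQ5 : Q.comap (algebraMap (𝓞 K) (𝓞 L)) = v := hQ2.over.symm
  have h0 : Q ≠ ⊥ := by
    intro h0
    rw [h0] at hQ3
    exact NumberField.RingOfIntegers.not_isField L (Ring.isField_iff_maximal_bot.mpr hQ3)
  have hfin : Finite (𝓞 L ⧸ Q) := Ideal.finiteQuotientOfFreeOfNeBot Q h0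
  obtain ⟨σ, hσ⟩ := IsArithFrobAt.exists_of_isInvariant (𝓞 K) (L ≃ₐ[K] L) Q
  refine ⟨σ, Q, hQ3, hQ5, fun x => ?_⟩
  have h1 := hσ x
  have h2 : Q.under (𝓞 K) = v := hQ5
  rw [h2] at h1
  exact h1

private theorem frob_trace_aux (ρ : (L ≃ₐ[K] L) →* Matrix.GeneralLinearGroup (Fin 2) k) {N : ℕ}
    (hram : ∀ Q : Ideal (𝓞 L), Q.IsMaximal → (N : 𝓞 L) ∉ Q → ∀ τ : L ≃ₐ[K] L,
      (∀ x : 𝓞 L, τ • x - x ∈ Q) → ρ τ = 1)
    {v : Ideal (𝓞 K)} (hNv : (N : 𝓞 K) ∉ v) {φ φ' : L ≃ₐ[K] L} {Q Q' : Ideal (𝓞 L)}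
    (h : IsFrob K φ Q v) (h' : IsFrob K φ' Q' v) :
    Matrix.trace (ρ φ : Matrix (Fin 2) (Fin 2) k) =
      Matrix.trace (ρ φ' : Matrix (Fin 2) (Fin 2) k) := by
  obtain ⟨hQ, hc, hf⟩ := h
  obtain ⟨hQ', hc', hf'⟩ := h'
  have hQp : Q.IsPrime := hQ.isPrime
  have hQp' : Q'.IsPrime := hQ'.isPrime
  have hl : Q.LiesOver v := ⟨hc.symm⟩
  have hl' : Q'.LiesOver v := ⟨hc'.symm⟩
  obtain ⟨t, ht⟩ := Ideal.exists_smul_eq_of_isGaloisGroup v Q Q' (L ≃ₐ[K] L)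
  set ψ : L ≃ₐ[K] L := t * φ * t⁻¹ with hψ
  have h1 : ∀ x : 𝓞 L, ψ • x - x ^ Nat.card (𝓞 K ⧸ v) ∈ Q' := by
    intro x
    rw [← ht, Ideal.mem_pointwise_smul_iff_inv_smul_mem, smul_sub, smul_pow', hψ, smul_smul,
      ← mul_assoc, ← mul_assoc, inv_mul_cancel, one_mul, mul_smul]
    exact hf _
  have h2 : ∀ x : 𝓞 L, (ψ * φ'⁻¹) • x - x ∈ Q' := by
    intro x
    have h3 := h1 (φ'⁻¹ • x)
    have h4 := hf' (φ'⁻¹ • x)
    have h5 := Q'.sub_mem h3 h4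
    rw [sub_sub_sub_cancel_right, smul_smul, smul_smul, mul_inv_cancel, one_smul] at h5
    exact h5
  have hN : (N : 𝓞 L) ∉ Q' := by
    intro hN
    apply hNv
    rw [← hc', Ideal.mem_comap, map_natCast]
    exact hN
  have h3 := hram Q' hQ' hN _ h2
  rw [map_mul, map_inv, mul_inv_eq_one] at h3
  rw [← h3, hψ, map_mul, map_mul, map_inv, Units.val_mul, Units.val_mul, Matrix.trace_mul_comm,
    ← mul_assoc, Units.inv_mul, one_mul]

end AuxC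

variable {k : Type*} [Field k] {F F' L : Type*}
  [Field F] [NumberField F] [Field F'] [NumberField F'] [Field L] [NumberField L]
  [Algebra F F'] [Algebra F L] [Algebra F' L] [IsScalarTower F F' L]
  [IsGalois F F'] [IsGalois F L]

theorem exists_frob {v : Ideal (𝓞 F)} (hv : v.IsMaximal) :
    ∃ (φ : L ≃ₐ[F] L) (Q : Ideal (𝓞 L)), IsFrob F φ Q v :=
  exists_frob_aux hv

variable (F) in
include F in
/-- The same over `F'` (`L / F'` is Galois as well). -/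
theorem exists_frob' {w : Ideal (𝓞 F')} (hw : w.IsMaximal) :
    ∃ (φ : L ≃ₐ[F'] L) (Q : Ideal (𝓞 L)), IsFrob F' φ Q w := by
  have : IsGalois F' L := IsGalois.tower_top_of_isGalois F F' L
  exact exists_frob_aux hw

theorem frob_trace_unique (ρ : (L ≃ₐ[F] L) →* Matrix.GeneralLinearGroup (Fin 2) k) {N : ℕ}
    (hram : ∀ Q : Ideal (𝓞 L), Q.IsMaximal → (N : 𝓞 L) ∉ Q → ∀ τ : L ≃ₐ[F] L,
      (∀ x : 𝓞 L, τ • x - x ∈ Q) → ρ τ = 1)
    {v : Ideal (𝓞 F)} (hNv : (N : 𝓞 F) ∉ v) {φ φ' : L ≃ₐ[F] L} {Q Q' : Ideal (𝓞 L)}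
    (h : IsFrob F φ Q v) (h' : IsFrob F φ' Q' v) :
    Matrix.trace (ρ φ : Matrix (Fin 2) (Fin 2) k) =
      Matrix.trace (ρ φ' : Matrix (Fin 2) (Fin 2) k) :=
  frob_trace_aux ρ hram hNv h h'

theorem frob_trace_unique' (ρ : (L ≃ₐ[F] L) →* Matrix.GeneralLinearGroup (Fin 2) k) {N : ℕ}
    (hram : ∀ Q : Ideal (𝓞 L), Q.IsMaximal → (N : 𝓞 L) ∉ Q → ∀ τ : L ≃ₐ[F] L,
      (∀ x : 𝓞 L, τ • x - x ∈ Q) → ρ τ = 1)
    {w : Ideal (𝓞 F')} (hNw : (N : 𝓞 F') ∉ w) {φ φ' : L ≃ₐ[F'] L} {Q Q' : Ideal (𝓞 L)}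
    (h : IsFrob F' φ Q w) (h' : IsFrob F' φ' Q' w) :
    Matrix.trace (ρ (φ.restrictScalars F) : Matrix (Fin 2) (Fin 2) k) =
      Matrix.trace (ρ (φ'.restrictScalars F) : Matrix (Fin 2) (Fin 2) k) := by
  have hG : IsGalois F' L := IsGalois.tower_top_of_isGalois F F' L
  let ρ' : (L ≃ₐ[F'] L) →* Matrix.GeneralLinearGroup (Fin 2) k :=
    { toFun := fun φ => ρ (φ.restrictScalars F)
      map_one' := by
        have : (1 : L ≃ₐ[F'] L).restrictScalars F = 1 := rfl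
        rw [this, map_one]
      map_mul' := by
        intro a b
        have : (a * b).restrictScalars F = a.restrictScalars F * b.restrictScalars F := rfl
        rw [this, map_mul] }
  exact frob_trace_aux ρ' (fun R hR hN τ hτ => hram R hR hN (τ.restrictScalars F) hτ) hNw h h'

end Pool.Agent.Helper93.WS
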