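import Pool.Agent.Helper93.WS.Defs

/-!
# The abstract part: an invariant element of the generalised eigenspace not vanishing on the
fixed classes
-/

set_option autoImplicit false

open scoped Pointwise

namespace Pool.Agent.Helper93.WS

section Lin

variable {k V : Type*} [Field k] [AddCommGroup V] [Module k V]

private theorem exists_proj [FiniteDimensional k V] (S : Module.End k V) :
    ∃ e : Module.End k V, e * e = e ∧ (∀ x, e x = x ↔ ∃ j : ℕ, (S ^ j) x = 0) ∧
      ∀ φ : Module.End k V, φ * S = S * φ → φ * e = e * φ := by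
  have h := LinearMap.isCompl_iSup_ker_pow_iInf_range_pow S
  set K : Submodule k V := ⨆ n, LinearMap.ker (S ^ n) with hK
  set R : Submodule k V := ⨅ n, LinearMap.range (S ^ n) with hR
  have memK : ∀ x, x ∈ K ↔ ∃ j : ℕ, (S ^ j) x = 0 := by
    intro x
    rw [hK, Submodule.mem_iSup_of_directed]
    · simp only [LinearMap.mem_ker]
    · exact Monotone.directed_le (fun a b hab => S.iterateKer.monotone hab)
  have memR : ∀ x, x ∈ R ↔ ∀ j : ℕ, ∃ y, (S ^ j) y = x := by
    intro x
    rw [hR, Submodule.mem_iInf]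
    simp only [LinearMap.mem_range]
  refine ⟨K.projection R h, ?_, ?_, ?_⟩
  · ext x
    rw [Module.End.mul_apply]
    exact Submodule.projection_apply_of_mem_left h (Submodule.projection_apply_mem h x)
  · intro x
    rw [← memK]
    constructor
    · intro hx
      rw [← hx]
      exact Submodule.projection_apply_mem h x
    · exact Submodule.projection_apply_of_mem_left h
  · intro φ hφ
    have hc : ∀ (j : ℕ) (x : V), (S ^ j) (φ x) = φ ((S ^ j) x) := by
      intro j x
      have h1 : Commute φ (S ^ j) := Commute.pow_right (show Commute φ S from hφ) j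
      have h2 := congrArg (fun f : Module.End k V => f x) h1.eq
      simp only [Module.End.mul_apply] at h2
      exact h2.symm
    have hφK : ∀ x ∈ K, φ x ∈ K := by
      intro x hx
      obtain ⟨j, hj⟩ := (memK x).1 hx
      exact (memK _).2 ⟨j, by rw [hc, hj, map_zero]⟩
    have hφR : ∀ x ∈ R, φ x ∈ R := by
      intro x hx
      refine (memR _).2 fun j => ?_
      obtain ⟨y, hy⟩ := (memR x).1 hx j
      exact ⟨φ y, by rw [hc, hy]⟩
    ext x
    obtain ⟨a, ha, b, hb, rfl⟩ := Submodule.mem_sup.1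
      (show x ∈ K ⊔ R by rw [h.sup_eq_top]; exact Submodule.mem_top)
    simp only [Module.End.mul_apply, map_add]
    rw [Submodule.projection_apply_of_mem_left h ha, Submodule.projection_apply_of_mem_right h hb,
      Submodule.projection_apply_of_mem_left h (hφK a ha),
      Submodule.projection_apply_of_mem_right h (hφR b hb), map_zero]

private theorem exists_proj_finset [FiniteDimensional k V] {I : Type*} (S : I → Module.End k V)
    (hS : ∀ i j, S i * S j = S j * S i) (J : Finset I) :
    ∃ e : Module.End k V, e * e = e ∧ (∀ x, e x = x ↔ ∀ i ∈ J, ∃ j : ℕ, (S i ^ j) x = 0) ∧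
      ∀ φ : Module.End k V, (∀ i, φ * S i = S i * φ) → φ * e = e * φ := by
  classical
  induction J using Finset.induction_on with
  | empty =>
    refine ⟨1, by simp, by simp, fun φ _ => by simp⟩
  | insert i J _ ih =>
    obtain ⟨e, he1, he2, he3⟩ := ih
    obtain ⟨e', h1, h2, h3⟩ := exists_proj (S i)
    have hc : e * e' = e' * e := h3 e (he3 (S i) (fun j => hS i j)).symm
    refine ⟨e' * e, ?_, ?_, ?_⟩
    · rw [mul_assoc, ← mul_assoc e, hc, mul_assoc e', he1, ← mul_assoc, h1]
    · intro x
      constructor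
      · intro hx
        have e1 : e' x = x := by
          have := congrArg (fun f : Module.End k V => f (e x)) h1
          simp only [Module.End.mul_apply] at this hx
          rw [hx] at this
          exact this
        have e2 : e x = x := by
          have h4 := congrArg (fun f : Module.End k V => f x) hc
          simp only [Module.End.mul_apply] at h4 hx
          rw [hx, e1] at h4
          exact h4
        intro l hl
        rcases Finset.mem_insert.1 hl with rfl | hl
        · exact (h2 x).1 e1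
        · exact (he2 x).1 e2 l hl
      · intro hx
        have e1 : e' x = x := (h2 x).2 (hx i (Finset.mem_insert_self _ _))
        have e2 : e x = x := (he2 x).2 fun l hl => hx l (Finset.mem_insert_of_mem hl)
        rw [Module.End.mul_apply, e2, e1]
    · intro φ hφ
      have a1 := he3 φ hφ
      have a2 := h3 φ (hφ i)
      rw [← mul_assoc, a2, mul_assoc, a1, mul_assoc]

private theorem exists_proj_all [FiniteDimensional k V] {I : Type*} (S : I → Module.End k V)
    (hS : ∀ i j, S i * S j = S j * S i) :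
    ∃ e : Module.End k V, e * e = e ∧ (∀ x, e x = x ↔ ∀ i, ∃ j : ℕ, (S i ^ j) x = 0) ∧
      ∀ φ : Module.End k V, (∀ i, φ * S i = S i * φ) → φ * e = e * φ := by
  classical
  choose e h1 h2 h3 using exists_proj_finset S hS
  -- minimise the dimension
  let F : Finset I → Submodule k V := fun J => LinearMap.ker (e J - 1)
  have memF : ∀ J x, x ∈ F J ↔ ∀ i ∈ J, ∃ j : ℕ, (S i ^ j) x = 0 := by
    intro J x
    rw [← h2 J x, LinearMap.mem_ker, LinearMap.sub_apply, Module.End.one_apply, sub_eq_zero]
  obtain ⟨J, hJ⟩ : ∃ J, ∀ J', Module.finrank k (F J) ≤ Module.finrank k (F J') := by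
    obtain ⟨J, -, hJ⟩ := WellFounded.has_min
      (measure fun J : Finset I => Module.finrank k (F J)).wf Set.univ ⟨∅, trivial⟩
    exact ⟨J, fun J' => not_lt.1 (hJ J' trivial)⟩
  refine ⟨e J, h1 J, fun x => ⟨fun hx i => ?_, fun hx => (h2 J x).2 fun i _ => hx i⟩, h3 J⟩
  have hle : F (insert i J) ≤ F J := by
    intro y hy
    rw [memF] at hy ⊢
    exact fun l hl => hy l (Finset.mem_insert_of_mem hl)
  have heq : F (insert i J) = F J := Submodule.eq_of_le_of_finrank_le hle (hJ _)
  have hxJ : x ∈ F J := (memF J x).2 ((h2 J x).1 hx)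
  rw [← heq, memF] at hxJ
  exact hxJ i (Finset.mem_insert_self _ _)

end Lin

variable {k : Type*} [Field k] {X : Type*} {G P : Type*} [Group G] [Group P] [MulAction G X]
  [MulAction P X]

/-- Functions supported on `Y` and invariant under `G`. -/
def absForm (G : Type*) [Group G] [MulAction G X] (Y : Set X) (f : X → k) : Prop :=
  (∀ x, x ∉ Y → f x = 0) ∧ ∀ (g : G) (x : X), f (g • x) = f x

/-- The generalised eigenforms of the family `T` with eigenvalues `a`. -/
def absEigen (G : Type*) [Group G] [MulAction G X] (Y : Set X) {I : Type*}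
    (T : I → Module.End k (X → k)) (a : I → k) : Set (X → k) :=
  {f | absForm G Y f ∧ ∀ i, ∃ j : ℕ, (fun g => T i g - a i • g)^[j] f = 0}

/-- The forms as a submodule. -/
def formSub (k : Type*) [Field k] (G : Type*) [Group G] [MulAction G X] (Y : Set X) :
    Submodule k (X → k) where
  carrier := {f | absForm G Y f}
  zero_mem' := ⟨fun _ _ => rfl, fun _ _ => rfl⟩
  add_mem' := by
    rintro f g ⟨hf, hf'⟩ ⟨hg, hg'⟩
    exact ⟨fun x hx => by simp [hf x hx, hg x hx], fun a x => by simp [hf' a x, hg' a x]⟩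
  smul_mem' := by
    rintro c f ⟨hf, hf'⟩
    exact ⟨fun x hx => by simp [hf x hx], fun a x => by simp [hf' a x]⟩

theorem mem_formSub {Y : Set X} {f : X → k} : f ∈ formSub k G Y ↔ absForm G Y f := Iff.rfl

theorem iter_eq (T : Module.End k (X → k)) (a : k) (j : ℕ) (f : X → k) :
    (fun g => T g - a • g)^[j] f = ((T - a • (1 : Module.End k (X → k))) ^ j) f := by
  rw [Module.End.pow_apply]
  rfl

/-- The generalised eigenforms as a submodule. -/
def eigenSub (G : Type*) [Group G] [MulAction G X] (Y : Set X) {I : Type*}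
    (T : I → Module.End k (X → k)) (a : I → k) : Submodule k (X → k) where
  carrier := absEigen G Y T a
  zero_mem' := ⟨(formSub k G Y).zero_mem, fun i => ⟨0, rfl⟩⟩
  add_mem' := by
    rintro f g ⟨hf, hf'⟩ ⟨hg, hg'⟩
    refine ⟨(formSub k G Y).add_mem hf hg, fun i => ?_⟩
    obtain ⟨j, hj⟩ := hf' i
    obtain ⟨l, hl⟩ := hg' i
    refine ⟨j + l, ?_⟩
    rw [iter_eq] at hj hl ⊢
    rw [map_add, add_comm j l, pow_add, Module.End.mul_apply, hj, map_zero, zero_add, ← pow_add,
      add_comm l j, pow_add, Module.End.mul_apply, hl, map_zero]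
  smul_mem' := by
    rintro c f ⟨hf, hf'⟩
    refine ⟨(formSub k G Y).smul_mem c hf, fun i => ?_⟩
    obtain ⟨j, hj⟩ := hf' i
    refine ⟨j, ?_⟩
    rw [iter_eq] at hj ⊢
    rw [map_smul, hj, smul_zero]

theorem span_eigen (Y : Set X) {I : Type*} (T : I → Module.End k (X → k)) (a : I → k) :
    Submodule.span k (absEigen G Y T a) = eigenSub G Y T a :=
  (eigenSub G Y T a).span_eq

theorem formSub_finite (Y : Set X)
    (hfin : ∃ R : Finset X, ∀ y ∈ Y, ∃ g : G, ∃ r ∈ R, y = g • r) :
    FiniteDimensional k (formSub k G Y) := by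
  obtain ⟨R, hR⟩ := hfin
  let φ : formSub k G Y →ₗ[k] (R → k) :=
    { toFun := fun f r => (f : X → k) r
      map_add' := fun f g => rfl
      map_smul' := fun c f => rfl }
  refine FiniteDimensional.of_injective φ ?_
  rw [← LinearMap.ker_eq_bot, LinearMap.ker_eq_bot']
  intro f hf
  ext x
  by_cases hx : x ∈ Y
  · obtain ⟨g, r, hr, rfl⟩ := hR x hx
    have h1 := congrFun hf ⟨r, hr⟩
    rw [f.2.2 g r]
    exact h1
  · exact f.2.1 x hx

/-- The generalised eigenforms form a finite-dimensional subspace. -/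
theorem absEigen_submodule (Y : Set X)
    (hfin : ∃ R : Finset X, ∀ y ∈ Y, ∃ g : G, ∃ r ∈ R, y = g • r)
    {I : Type*} (T : I → Module.End k (X → k)) (a : I → k) :
    (∀ f ∈ Submodule.span k (absEigen G Y T a), f ∈ absEigen G Y T a) ∧
      FiniteDimensional k (Submodule.span k (absEigen G Y T a)) := by
  rw [span_eigen]
  refine ⟨fun f hf => hf, ?_⟩
  have := formSub_finite (k := k) (G := G) Y hfin
  exact Submodule.finiteDimensional_of_le (show eigenSub G Y T a ≤ formSub k G Y from
    fun f hf => hf.1)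

/-- translation of functions by `σ` -/
private def tr (k : Type*) [Field k] (σ : P) : Module.End k (X → k) where
  toFun f := fun x => f (σ • x)
  map_add' _ _ := rfl
  map_smul' _ _ := rfl

private theorem orb_iff (hcomp : ∀ (σ : P) (g : G), ∃ g' : G, ∀ x : X, σ • g • x = g' • σ • x)
    (σ : P) (x z : X) : σ • z ∈ MulAction.orbit G (σ • x) ↔ z ∈ MulAction.orbit G x := by
  have key : ∀ (τ : P) (u v : X), v ∈ MulAction.orbit G u →
      τ • v ∈ MulAction.orbit G (τ • u) := by
    rintro τ u _ ⟨g, rfl⟩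
    obtain ⟨g', hg'⟩ := hcomp τ g
    exact ⟨g', (hg' u).symm⟩
  refine ⟨fun h => ?_, key σ x z⟩
  have := key σ⁻¹ _ _ h
  rwa [inv_smul_smul, inv_smul_smul] at this

/-- weighted fixed point principle for p-groups -/
private theorem sum_eq_zero_of_fixed {p : ℕ} [Fact p.Prime] [CharP k p] [Finite P]
    (hP : IsPGroup p P) {C : Type*} [Fintype C] [MulAction P C] (s : C → k)
    (hs : ∀ (σ : P) (c : C), s (σ • c) = s c)
    (hfix : ∀ c ∈ MulAction.fixedPoints P C, s c = 0) : ∑ c, s c = 0 := by
  classical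
  have h1 := Finset.sum_comp (s := (Finset.univ : Finset C)) (fun v : k => v) s
  rw [h1]
  refine Finset.sum_eq_zero fun v _ => ?_
  by_cases hv : v = 0
  · rw [hv, smul_zero]
  let A : SubMulAction P C :=
    { carrier := {c | s c = v}
      smul_mem' := fun σ c hc => by
        show s (σ • c) = v
        rw [hs]
        exact hc }
  have h2 : Nat.card A ≡ Nat.card (MulAction.fixedPoints P A) [MOD p] :=
    hP.card_modEq_card_fixedPoints A
  have h3 : IsEmpty (MulAction.fixedPoints P A) := by
    refine ⟨fun x => ?_⟩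
    have hx : ((x : A) : C) ∈ MulAction.fixedPoints P C := by
      intro σ
      have := x.2 σ
      exact congrArg Subtype.val this
    have h4 : s ((x : A) : C) = v := (x : A).2
    exact hv (h4.symm.trans (hfix _ hx))
  have h7 : Nat.card (MulAction.fixedPoints P A) = 0 := Nat.card_of_isEmpty
  rw [h7] at h2
  have h5 : (Finset.univ.filter fun c => s c = v).card = Nat.card A := by
    rw [Nat.card_eq_fintype_card]
    exact (Fintype.card_subtype _).symm
  have h6 : ((Finset.univ.filter fun c => s c = v).card : k) = 0 := by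
    rw [h5, CharP.cast_eq_zero_iff k p]
    exact (Nat.modEq_zero_iff_dvd).1 h2
  rw [nsmul_eq_mul, h6, zero_mul]


section Main

/-- indicator function of the class of `x` (zero if `x` is not in `Y`) -/
private noncomputable def chi (k : Type*) [Field k] (G : Type*) [Group G] [MulAction G X]
    (Y : Set X) (x : X) : X → k := by
  classical
  exact fun z => if x ∈ Y ∧ z ∈ MulAction.orbit G x then 1 else 0

private theorem chi_apply (Y : Set X) (x z : X) [Decidable (x ∈ Y ∧ z ∈ MulAction.orbit G x)] :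
    chi k G Y x z = if x ∈ Y ∧ z ∈ MulAction.orbit G x then 1 else 0 := by
  unfold chi
  congr

private theorem chi_form (Y : Set X) (hY : ∀ (g : G) (x : X), g • x ∈ Y ↔ x ∈ Y) (x : X) :
    chi k G Y x ∈ formSub k G Y := by
  classical
  constructor
  · intro z hz
    rw [chi_apply, if_neg]
    rintro ⟨h1, g, h2⟩
    exact hz (by rw [← h2]; exact (hY g x).2 h1)
  · intro g z
    rw [chi_apply, chi_apply]
    have : g • z ∈ MulAction.orbit G x ↔ z ∈ MulAction.orbit G x := by
      rw [← MulAction.orbit_eq_iff, ← MulAction.orbit_eq_iff, MulAction.orbit_smul]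
    simp only [this]

private theorem chi_tr (Y : Set X) (hYP : ∀ (σ : P) (x : X), σ • x ∈ Y ↔ x ∈ Y)
    (hcomp : ∀ (σ : P) (g : G), ∃ g' : G, ∀ x : X, σ • g • x = g' • σ • x) (σ : P) (x z : X) :
    chi k G Y (σ • x) (σ • z) = chi k G Y x z := by
  classical
  rw [chi_apply, chi_apply]
  simp only [hYP, orb_iff hcomp]

private theorem chi_congr (Y : Set X) (hY : ∀ (g : G) (x : X), g • x ∈ Y ↔ x ∈ Y) {x x' : X}
    (h : x' ∈ MulAction.orbit G x) : chi k G Y x' = chi k G Y x := by
  classical
  obtain ⟨g, rfl⟩ := h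
  ext z
  rw [chi_apply, chi_apply]
  show (if g • x ∈ Y ∧ z ∈ MulAction.orbit G (g • x) then (1 : k) else 0) = _
  rw [hY, MulAction.orbit_smul]

/-- an equivariant projector onto the generalised eigenspace -/
theorem exists_equivariant {Y : Set X}
    (hYP : ∀ (σ : P) (x : X), σ • x ∈ Y ↔ x ∈ Y)
    (hcomp : ∀ (σ : P) (g : G), ∃ g' : G, ∀ x : X, σ • g • x = g' • σ • x)
    (hfin : ∃ R : Finset X, ∀ y ∈ Y, ∃ g : G, ∃ r ∈ R, y = g • r)
    {I : Type*} (T : I → Module.End k (X → k)) (a : I → k)
    (hT : ∀ i f, absForm G Y f → absForm G Y (T i f))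
    (hcomm : ∀ i j f, T i (T j f) = T j (T i f))
    (hTP : ∀ (σ : P) (i : I), ∃ i' : I, a i' = a i ∧ ∀ f : X → k,
      T i' (fun x => f (σ • x)) = fun x => T i f (σ • x)) :
    ∃ e : Module.End k (formSub k G Y), e * e = e ∧
      (∀ f : formSub k G Y, e f = f ↔ (f : X → k) ∈ absEigen G Y T a) ∧
      ∀ (σ : P) (f f' : formSub k G Y), (∀ x, (f' : X → k) x = (f : X → k) (σ • x)) →
        ∀ x, (e f' : X → k) x = (e f : X → k) (σ • x) := by
  have hfd := formSub_finite (k := k) (G := G) Y hfin
  let S : I → Module.End k (formSub k G Y) := fun i =>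
    (T i).restrict (fun f hf => hT i f hf) - a i • (1 : Module.End k (formSub k G Y))
  have Sapp : ∀ i (w : formSub k G Y), ((S i w : formSub k G Y) : X → k) =
      (T i - a i • (1 : Module.End k (X → k))) (w : X → k) := fun i w => rfl
  have Spow : ∀ i (j : ℕ) (w : formSub k G Y), (((S i ^ j) w : formSub k G Y) : X → k) =
      ((T i - a i • (1 : Module.End k (X → k))) ^ j) (w : X → k) := by
    intro i j
    induction j with
    | zero => intro w; rfl
    | succ j ih =>
      intro w
      rw [pow_succ', pow_succ', Module.End.mul_apply, Module.End.mul_apply, Sapp, ih]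
  have Sval : ∀ i (w : formSub k G Y), ((S i w : formSub k G Y) : X → k) =
      T i (w : X → k) - a i • (w : X → k) := fun i w => rfl
  have hS : ∀ i j, S i * S j = S j * S i := by
    intro i j
    ext w x
    simp only [Module.End.mul_apply]
    rw [Sval, Sval, Sval, Sval, map_sub, map_sub, map_smul, map_smul, hcomm i j]
    simp only [Pi.sub_apply, Pi.smul_apply, smul_eq_mul]
    ring
  obtain ⟨e, he1, he2, he3⟩ := exists_proj_all S hS
  have he2' : ∀ f : formSub k G Y, e f = f ↔ (f : X → k) ∈ absEigen G Y T a := by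
    intro f
    rw [he2]
    constructor
    · intro h
      refine ⟨f.2, fun i => ?_⟩
      obtain ⟨j, hj⟩ := h i
      refine ⟨j, ?_⟩
      rw [iter_eq, ← Spow, hj]
      rfl
    · rintro ⟨-, h⟩ i
      obtain ⟨j, hj⟩ := h i
      refine ⟨j, Subtype.ext ?_⟩
      rw [Spow, ← iter_eq, hj]
      rfl
  -- translations
  have hL : ∀ (σ : P), ∀ f ∈ formSub k G Y, tr k σ f ∈ formSub k G Y := by
    intro σ f hf
    constructor
    · intro x hx
      exact hf.1 _ (fun h => hx ((hYP σ x).1 h))
    · intro g x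
      obtain ⟨g', hg'⟩ := hcomp σ g
      show f (σ • g • x) = f (σ • x)
      rw [hg', hf.2]
  let L : P → Module.End k (formSub k G Y) := fun σ => (tr k σ).restrict (hL σ)
  have Lval : ∀ σ (w : formSub k G Y) x, ((L σ w : formSub k G Y) : X → k) x =
      (w : X → k) (σ • x) := fun σ w x => rfl
  have Linv : ∀ σ, L σ * L σ⁻¹ = 1 := by
    intro σ
    ext w x
    rw [Module.End.mul_apply, Lval, Lval, inv_smul_smul]
    rfl
  have Linv' : ∀ σ, L σ⁻¹ * L σ = 1 := by
    intro σ
    have := Linv σ⁻¹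
    rwa [inv_inv] at this
  have LS : ∀ σ i, ∃ i', S i' * L σ = L σ * S i := by
    intro σ i
    obtain ⟨i', h1, h2⟩ := hTP σ i
    refine ⟨i', ?_⟩
    ext w x
    rw [Module.End.mul_apply, Module.End.mul_apply, Lval, Sval, Sval]
    have h3 := congrFun (h2 (w : X → k)) x
    simp only [Pi.sub_apply, Pi.smul_apply, smul_eq_mul, h1]
    rw [← h3]
    rfl
  have LS' : ∀ σ i, ∃ i', S i * L σ = L σ * S i' := by
    intro σ i
    obtain ⟨i', h⟩ := LS σ⁻¹ i
    refine ⟨i', ?_⟩
    calc S i * L σ = (L σ * L σ⁻¹) * S i * L σ := by rw [Linv, one_mul]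
      _ = L σ * (L σ⁻¹ * S i) * L σ := by rw [mul_assoc (L σ)]
      _ = L σ * (S i' * L σ⁻¹) * L σ := by rw [h]
      _ = L σ * S i' * (L σ⁻¹ * L σ) := by simp only [mul_assoc]
      _ = L σ * S i' := by rw [Linv', mul_one]
  have Eσ : ∀ σ f, e f = f → e (L σ f) = L σ f := by
    intro σ f hf
    rw [he2] at hf ⊢
    intro i
    obtain ⟨i', h⟩ := LS' σ i
    obtain ⟨j, hj⟩ := hf i'
    refine ⟨j, ?_⟩
    have h1 : S i ^ j * L σ = L σ * S i' ^ j := by
      have h2 : SemiconjBy (L σ) (S i') (S i) := h.symm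
      exact (h2.pow_right j).eq.symm
    have h3 := congrArg (fun φ : Module.End k (formSub k G Y) => φ f) h1
    simp only [Module.End.mul_apply] at h3
    rw [h3, hj, map_zero]
  have comm : ∀ σ, L σ * e = e * L σ := by
    intro σ
    set e' := L σ * e * L σ⁻¹ with he'
    have c1 : ∀ i, e' * S i = S i * e' := by
      intro i
      obtain ⟨i', h⟩ := LS σ⁻¹ i
      have h' : L σ * S i' = S i * L σ := by
        calc L σ * S i' = L σ * S i' * (L σ⁻¹ * L σ) := by rw [Linv', mul_one]
          _ = L σ * (S i' * L σ⁻¹) * L σ := by simp only [mul_assoc]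
          _ = L σ * (L σ⁻¹ * S i) * L σ := by rw [h]
          _ = (L σ * L σ⁻¹) * S i * L σ := by simp only [mul_assoc]
          _ = S i * L σ := by rw [Linv, one_mul]
      have h4 : S i' * e = e * S i' := he3 (S i') (fun j => hS i' j)
      calc e' * S i = L σ * e * (L σ⁻¹ * S i) := by rw [he', mul_assoc]
        _ = L σ * e * (S i' * L σ⁻¹) := by rw [h]
        _ = L σ * (e * S i') * L σ⁻¹ := by simp only [mul_assoc]
        _ = L σ * (S i' * e) * L σ⁻¹ := by rw [h4]
        _ = (L σ * S i') * e * L σ⁻¹ := by simp only [mul_assoc]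
        _ = S i * e' := by rw [h', he']; simp only [mul_assoc]
    have c2 : e' * e = e * e' := he3 e' c1
    have idem : e' * e' = e' := by
      calc e' * e' = L σ * e * (L σ⁻¹ * L σ) * e * L σ⁻¹ := by rw [he']; simp only [mul_assoc]
        _ = L σ * (e * e) * L σ⁻¹ := by rw [Linv', mul_one]; simp only [mul_assoc]
        _ = e' := by rw [he1]
    have f1 : e * e' = e' := by
      ext1 w
      rw [Module.End.mul_apply]
      have h5 : e' w = L σ (e (L σ⁻¹ w)) := rfl
      rw [h5]
      refine Eσ σ _ ?_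
      exact congrArg (fun φ : Module.End k (formSub k G Y) => φ (L σ⁻¹ w)) he1
    have f2 : e' * e = e := by
      ext1 w
      rw [Module.End.mul_apply]
      have h5 : e' (e w) = L σ (e (L σ⁻¹ (e w))) := rfl
      have h6 : e (e w) = e w := congrArg (fun φ : Module.End k (formSub k G Y) => φ w) he1
      rw [h5, Eσ σ⁻¹ _ h6]
      exact congrArg (fun φ : Module.End k (formSub k G Y) => φ (e w)) (Linv σ)
    have f3 : e' = e := by rw [← f1, ← c2, f2]
    calc L σ * e = L σ * e * (L σ⁻¹ * L σ) := by rw [Linv', mul_one]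
      _ = e' * L σ := by rw [he']; simp only [mul_assoc]
      _ = e * L σ := by rw [f3]
  refine ⟨e, he1, he2', ?_⟩
  intro σ f f' hff' x
  have h1 : f' = L σ f := Subtype.ext (funext hff')
  rw [h1]
  have h2 := congrArg (fun φ : Module.End k (formSub k G Y) => (φ f : X → k) x) (comm σ)
  simp only [Module.End.mul_apply] at h2
  rw [← h2, Lval]

/-- the stabiliser of the class of `x` -/
private def stab (hcomp : ∀ (σ : P) (g : G), ∃ g' : G, ∀ x : X, σ • g • x = g' • σ • x) (x : X) :
    Subgroup P where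
  carrier := {σ | σ • x ∈ MulAction.orbit G x}
  one_mem' := by
    show (1 : P) • x ∈ MulAction.orbit G x
    rw [one_smul]
    exact MulAction.mem_orbit_self x
  mul_mem' := by
    intro σ τ hσ hτ
    show (σ * τ) • x ∈ MulAction.orbit G x
    have h1 : σ • τ • x ∈ MulAction.orbit G (σ • x) := (orb_iff hcomp σ x (τ • x)).2 hτ
    rw [MulAction.orbit_eq_iff.2 (show σ • x ∈ MulAction.orbit G x from hσ)] at h1
    rwa [mul_smul]
  inv_mem' := by
    intro σ hσ
    show σ⁻¹ • x ∈ MulAction.orbit G x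
    have h1 : σ⁻¹ • σ • x ∈ MulAction.orbit G (σ⁻¹ • x) := (orb_iff hcomp σ⁻¹ x (σ • x)).2 hσ
    rw [inv_smul_smul] at h1
    exact MulAction.mem_orbit_symm.1 h1

private theorem mem_stab {hcomp : ∀ (σ : P) (g : G), ∃ g' : G, ∀ x : X, σ • g • x = g' • σ • x}
    {x : X} {σ : P} : σ ∈ stab hcomp x ↔ σ • x ∈ MulAction.orbit G x := Iff.rfl

/-- the trace of the indicator function of a class -/
private theorem trace_chi [Finite P] (Y : Set X)
    (hcomp : ∀ (σ : P) (g : G), ∃ g' : G, ∀ x : X, σ • g • x = g' • σ • x) (r : X) (hr : r ∈ Y)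
    [Fintype (P ⧸ stab hcomp r)] (z : X) [Decidable (∃ τ : P, τ • z ∈ MulAction.orbit G r)] :
    ∑ c : P ⧸ stab hcomp r, chi k G Y r ((Quotient.out c)⁻¹ • z) =
      if ∃ τ : P, τ • z ∈ MulAction.orbit G r then 1 else 0 := by
  classical
  split_ifs with h
  · obtain ⟨τ, hτ⟩ := h
    rw [Finset.sum_eq_single ((τ⁻¹ : P) : P ⧸ stab hcomp r)]
    · rw [chi_apply, if_pos]
      refine ⟨hr, ?_⟩
      obtain ⟨q, hq⟩ := QuotientGroup.mk_out_eq_mul (stab hcomp r) τ⁻¹
      rw [show (Quotient.out ((τ⁻¹ : P) : P ⧸ stab hcomp r)) = τ⁻¹ * (q : P) from hq, mul_inv_rev,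
        inv_inv, mul_smul]
      have h1 : (q : P)⁻¹ • τ • z ∈ MulAction.orbit G ((q : P)⁻¹ • r) :=
        (orb_iff hcomp _ _ _).2 hτ
      have h2 : (q : P)⁻¹ • r ∈ MulAction.orbit G r := (stab hcomp r).inv_mem q.2
      rwa [MulAction.orbit_eq_iff.2 h2] at h1
    · intro c _ hc
      rw [chi_apply, if_neg]
      rintro ⟨-, h1⟩
      apply hc
      have h2 : (Quotient.out c)⁻¹ • z ∈ MulAction.orbit G ((Quotient.out c)⁻¹ • τ⁻¹ • r) := by
        rw [orb_iff hcomp]
        have := (orb_iff hcomp τ⁻¹ r (τ • z)).2 hτ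
        rwa [inv_smul_smul] at this
      have h3 : (Quotient.out c)⁻¹ • τ⁻¹ • r ∈ MulAction.orbit G r := by
        have h4 := MulAction.orbit_eq_iff.2 h1
        have h5 := MulAction.orbit_eq_iff.2 h2
        rw [← MulAction.orbit_eq_iff, ← h5, h4]
      rw [← mul_smul] at h3
      have h6 : (Quotient.out c)⁻¹ * τ⁻¹ ∈ stab hcomp r := h3
      rw [← Quotient.out_eq c]
      exact (QuotientGroup.eq.2 h6)
    · intro h1
      exact absurd (Finset.mem_univ _) h1
  · refine Finset.sum_eq_zero fun c _ => ?_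
    rw [chi_apply, if_neg]
    rintro ⟨-, h1⟩
    exact h ⟨_, h1⟩

private theorem key_traces [Finite P] {Y : Set X}
    (hY : ∀ (g : G) (x : X), g • x ∈ Y ↔ x ∈ Y)
    (hcomp : ∀ (σ : P) (g : G), ∃ g' : G, ∀ x : X, σ • g • x = g' • σ • x)
    (hYP : ∀ (σ : P) (x : X), σ • x ∈ Y ↔ x ∈ Y)
    (R : Finset X) (hR : ∀ y ∈ Y, ∃ g : G, ∃ r ∈ R, y = g • r)
    (E : Submodule k (X → k)) (e : Module.End k (formSub k G Y)) (he : e * e = e)
    (hE : ∀ f : formSub k G Y, e f = f → (f : X → k) ∈ E)
    (hσ : ∀ (σ : P) (f f' : formSub k G Y), (∀ x, (f' : X → k) x = (f : X → k) (σ • x)) →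
        ∀ x, (e f' : X → k) x = (e f : X → k) (σ • x)) :
    ∀ (n : ℕ) (h : formSub k G Y), (∀ (σ : P) x, (h : X → k) (σ • x) = (h : X → k) x) →
      (∀ y, (∀ σ : P, σ • y ∈ MulAction.orbit G y) → (h : X → k) y = 0) →
      Set.ncard {r : X | r ∈ R ∧ (h : X → k) r ≠ 0} ≤ n →
      ((e h : formSub k G Y) : X → k) ∈ properTraces P E := by
  classical
  intro n
  have hfinset : ∀ h : formSub k G Y, Set.Finite {r : X | r ∈ R ∧ (h : X → k) r ≠ 0} :=
    fun h => R.finite_toSet.subset fun r hr => hr.1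
  have hzero : ∀ h : formSub k G Y, (∀ r ∈ R, (h : X → k) r = 0) → h = 0 := by
    intro h hh
    ext x
    by_cases hx : x ∈ Y
    · obtain ⟨g, r, hr, rfl⟩ := hR x hx
      rw [h.2.2 g r, hh r hr]
      rfl
    · exact h.2.1 x hx
  induction n with
  | zero =>
    intro h h1 h2 h3
    have h4 : {r : X | r ∈ R ∧ (h : X → k) r ≠ 0} = ∅ := by
      rw [← Set.ncard_eq_zero (hfinset h)]
      omega
    have h5 : h = 0 := by
      refine hzero h fun r hr => ?_
      by_contra hne
      have : r ∈ {r : X | r ∈ R ∧ (h : X → k) r ≠ 0} := ⟨hr, hne⟩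
      rw [h4] at this
      exact this
    rw [h5, map_zero]
    exact Submodule.zero_mem _
  | succ n ih =>
    intro h h1 h2 h3
    by_cases h4 : ∀ r ∈ R, (h : X → k) r = 0
    · rw [hzero h h4, map_zero]
      exact Submodule.zero_mem _
    push Not at h4
    obtain ⟨r, hrR, hr0⟩ := h4
    have hrY : r ∈ Y := by
      by_contra hne
      exact hr0 (h.2.1 r hne)
    have : Fintype (P ⧸ stab hcomp r) := Fintype.ofFinite _
    set χ : formSub k G Y := ⟨chi k G Y r, chi_form Y hY r⟩ with hχ
    -- translates of the indicator function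
    have hmem : ∀ σ : P, (fun x => chi k G Y r (σ • x)) ∈ formSub k G Y := by
      intro σ
      constructor
      · intro x hx
        exact (chi_form Y hY r).1 _ (fun h => hx ((hYP σ x).1 h))
      · intro g x
        obtain ⟨g', hg'⟩ := hcomp σ g
        show chi k G Y r (σ • g • x) = chi k G Y r (σ • x)
        rw [hg', (chi_form Y hY r).2]
    let χσ : P → formSub k G Y := fun σ => ⟨fun x => chi k G Y r (σ • x), hmem σ⟩
    let t : formSub k G Y := ∑ c : P ⧸ stab hcomp r, χσ (Quotient.out c)⁻¹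
    have ht : ∀ z, (t : X → k) z = if ∃ τ : P, τ • z ∈ MulAction.orbit G r then 1 else 0 := by
      intro z
      rw [← trace_chi (k := k) Y hcomp r hrY z]
      show ((∑ c : P ⧸ stab hcomp r, χσ (Quotient.out c)⁻¹ : formSub k G Y) : X → k) z = _
      rw [Submodule.coe_sum, Finset.sum_apply]
    -- the class of r is not fixed
    have hnfix : stab hcomp r ≠ ⊤ := by
      intro htop
      apply hr0
      apply h2
      intro σ
      have : σ ∈ stab hcomp r := by rw [htop]; exact Subgroup.mem_top σ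
      exact this
    -- e t is a proper trace
    have het : ((e t : formSub k G Y) : X → k) ∈ properTraces P E := by
      refine Submodule.subset_span ⟨stab hcomp r, hnfix, (e χ : formSub k G Y), ?_, ?_, ?_⟩
      · refine hE _ ?_
        exact congrArg (fun φ : Module.End k (formSub k G Y) => φ χ) he
      · intro σ hs x
        refine (hσ σ χ χ (fun z => ?_) x).symm
        show chi k G Y r z = chi k G Y r (σ • z)
        rw [← chi_congr Y hY (mem_stab.1 hs), chi_tr Y hYP hcomp, chi_congr Y hY (mem_stab.1 hs)]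
      · ext x
        rw [finsum_eq_sum_of_fintype]
        show ((e (∑ c : P ⧸ stab hcomp r, χσ (Quotient.out c)⁻¹) : formSub k G Y) : X → k) x = _
        rw [map_sum, Submodule.coe_sum, Finset.sum_apply]
        refine Finset.sum_congr rfl fun c _ => ?_
        exact hσ (Quotient.out c)⁻¹ χ (χσ (Quotient.out c)⁻¹) (fun z => rfl) x
    -- subtract
    set h' : formSub k G Y := h - (h : X → k) r • t with hh'
    have hval : ∀ z, (h' : X → k) z = (h : X → k) z - (h : X → k) r * (t : X → k) z := by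
      intro z
      rw [hh']
      rfl
    have horb : ∀ z, (∃ τ : P, τ • z ∈ MulAction.orbit G r) → (h : X → k) z = (h : X → k) r := by
      rintro z ⟨τ, g, hg⟩
      rw [← h1 τ z, ← hg]
      exact h.2.2 g r
    have g1 : ∀ (σ : P) x, (h' : X → k) (σ • x) = (h' : X → k) x := by
      intro σ x
      have hiff : (∃ τ : P, τ • σ • x ∈ MulAction.orbit G r) ↔
          ∃ τ : P, τ • x ∈ MulAction.orbit G r := by
        constructor
        · rintro ⟨τ, h5⟩
          exact ⟨τ * σ, by rwa [mul_smul]⟩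
        · rintro ⟨τ, h5⟩
          exact ⟨τ * σ⁻¹, by rwa [mul_smul, inv_smul_smul]⟩
      rw [hval, hval, h1, ht, ht]
      simp only [hiff]
    have g2 : ∀ y, (∀ σ : P, σ • y ∈ MulAction.orbit G y) → (h' : X → k) y = 0 := by
      intro y hy
      rw [hval, h2 y hy, ht]
      by_cases h5 : ∃ τ : P, τ • y ∈ MulAction.orbit G r
      · rw [← horb y h5, h2 y hy]
        simp
      · rw [if_neg h5]
        simp
    have g3 : Set.ncard {s : X | s ∈ R ∧ (h' : X → k) s ≠ 0} ≤ n := by
      have h5 : {s : X | s ∈ R ∧ (h' : X → k) s ≠ 0} ⊂ {s : X | s ∈ R ∧ (h : X → k) s ≠ 0} := by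
        refine ⟨?_, ?_⟩
        · rintro s ⟨hs1, hs2⟩
          refine ⟨hs1, fun h0 => hs2 ?_⟩
          rw [hval, h0, ht, if_neg]
          · simp
          · intro h6
            exact hr0 (by rw [← horb s h6, h0])
        · intro h6
          have h7 : r ∈ {s : X | s ∈ R ∧ (h' : X → k) s ≠ 0} := h6 ⟨hrR, hr0⟩
          apply h7.2
          rw [hval, ht, if_pos]
          · simp
          · exact ⟨1, by rw [one_smul]; exact MulAction.mem_orbit_self r⟩
      have h8 := Set.ncard_lt_ncard h5 (hfinset h)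
      omega
    have g4 := ih h' g1 g2 g3
    have g5 : h = h' + (h : X → k) r • t := by rw [hh']; simp
    rw [g5, map_add, map_smul]
    exact Submodule.add_mem _ g4 (Submodule.smul_mem _ _ het)

/-- the action of `P` on the classes -/
@[instance_reducible] private def classAction (hcomp : ∀ (σ : P) (g : G), ∃ g' : G, ∀ x : X, σ • g • x = g' • σ • x) :
    MulAction P (MulAction.orbitRel.Quotient G X) where
  smul σ := Quotient.map' (fun x => σ • x) (fun x z h => by
    have h1 : x ∈ MulAction.orbit G z := h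
    exact (orb_iff hcomp σ z x).2 h1)
  one_smul q := by
    induction q using Quotient.inductionOn' with
    | h x =>
      show (Quotient.mk'' ((1 : P) • x) : MulAction.orbitRel.Quotient G X) = _
      rw [one_smul]
  mul_smul σ τ q := by
    induction q using Quotient.inductionOn' with
    | h x =>
      show (Quotient.mk'' ((σ * τ) • x) : MulAction.orbitRel.Quotient G X) = Quotient.mk'' (σ • τ • x)
      rw [mul_smul]

private theorem trace_case {p : ℕ} [Fact p.Prime] [CharP k p] [Finite P] (hP : IsPGroup p P)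
    {Y : Set X} (hY : ∀ (g : G) (x : X), g • x ∈ Y ↔ x ∈ Y)
    (hcomp : ∀ (σ : P) (g : G), ∃ g' : G, ∀ x : X, σ • g • x = g' • σ • x)
    (hYP : ∀ (σ : P) (x : X), σ • x ∈ Y ↔ x ∈ Y)
    (hfin : ∃ R : Finset X, ∀ y ∈ Y, ∃ g : G, ∃ r ∈ R, y = g • r)
    (E : Submodule k (X → k)) (e : Module.End k (formSub k G Y)) (he : e * e = e)
    (hE : ∀ f : formSub k G Y, e f = f ↔ (f : X → k) ∈ E) (hEW : E ≤ formSub k G Y)
    (hσ : ∀ (σ : P) (f f' : formSub k G Y), (∀ x, (f' : X → k) x = (f : X → k) (σ • x)) →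
        ∀ x, (e f' : X → k) x = (e f : X → k) (σ • x))
    (hdim : ¬ p ∣ Module.finrank k E) :
    ∃ y ∈ Y, (∀ σ : P, σ • y ∈ MulAction.orbit G y) ∧
      (e ⟨chi k G Y y, chi_form Y hY y⟩ : X → k) y ≠ 0 := by
  classical
  have hfd := formSub_finite (k := k) (G := G) Y hfin
  by_contra hcon
  push Not at hcon
  apply hdim
  let _ := classAction hcomp
  -- classes in Y
  let C : SubMulAction P (MulAction.orbitRel.Quotient G X) :=
    { carrier := {q | ∃ y ∈ Y, (Quotient.mk'' y : MulAction.orbitRel.Quotient G X) = q}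
      smul_mem' := by
        rintro σ _ ⟨y, hy, rfl⟩
        exact ⟨σ • y, (hYP σ y).2 hy, rfl⟩ }
  have hCfin : Finite C := by
    obtain ⟨R, hR⟩ := hfin
    have h1 : Set.Finite (C : Set (MulAction.orbitRel.Quotient G X)) := by
      refine (R.finite_toSet.image
        (fun x => (Quotient.mk'' x : MulAction.orbitRel.Quotient G X))).subset ?_
      rintro _ ⟨y, hy, rfl⟩
      obtain ⟨g, r, hr, rfl⟩ := hR y hy
      refine ⟨r, hr, ?_⟩
      exact (Quotient.sound' (show g • r ∈ MulAction.orbit G r from ⟨g, rfl⟩)).symm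
    exact h1
  have : Fintype C := Fintype.ofFinite _
  let rep : C → X := fun q => Quotient.out q.1
  have hrep : ∀ q : C, (Quotient.mk'' (rep q) : MulAction.orbitRel.Quotient G X) = q.1 :=
    fun q => Quotient.out_eq' q.1
  have hmk : ∀ x z : X, (Quotient.mk'' x : MulAction.orbitRel.Quotient G X) = Quotient.mk'' z ↔
      x ∈ MulAction.orbit G z := fun x z => Quotient.eq''
  have hrepY : ∀ q : C, rep q ∈ Y := by
    rintro ⟨_, y, hy, rfl⟩
    have h1 := hrep ⟨Quotient.mk'' y, y, hy, rfl⟩
    rw [hmk] at h1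
    obtain ⟨g, h2⟩ := h1
    rw [← h2]
    exact (hY g y).2 hy
  -- the linear equivalence
  let Φ : formSub k G Y →ₗ[k] (C → k) :=
    { toFun := fun f q => (f : X → k) (rep q)
      map_add' := fun f g => rfl
      map_smul' := fun c f => rfl }
  have hΦinj : Function.Injective Φ := by
    rw [← LinearMap.ker_eq_bot, LinearMap.ker_eq_bot']
    intro f hf
    ext x
    by_cases hx : x ∈ Y
    · have h1 := congrFun hf ⟨Quotient.mk'' x, x, hx, rfl⟩
      have h2 := hrep ⟨Quotient.mk'' x, x, hx, rfl⟩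
      rw [hmk] at h2
      obtain ⟨g, h3⟩ := h2
      have h4 : (f : X → k) (rep ⟨Quotient.mk'' x, x, hx, rfl⟩) = 0 := h1
      rw [← h3, f.2.2] at h4
      exact h4
    · exact f.2.1 x hx
  let χ : X → formSub k G Y := fun x => ⟨chi k G Y x, chi_form Y hY x⟩
  have hΦχ : ∀ q : C, Φ (χ (rep q)) = Pi.single q 1 := by
    intro q
    ext q'
    show chi k G Y (rep q) (rep q') = _
    rw [chi_apply, Pi.single_apply]
    have h1 : (rep q ∈ Y ∧ rep q' ∈ MulAction.orbit G (rep q)) ↔ q' = q := by
      rw [← hmk, hrep, hrep]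
      constructor
      · rintro ⟨-, h⟩
        exact Subtype.ext h
      · rintro rfl
        exact ⟨hrepY _, rfl⟩
    simp only [h1]
  have hΦsurj : Function.Surjective Φ := by
    intro φ
    refine ⟨∑ q, φ q • χ (rep q), ?_⟩
    rw [map_sum]
    simp only [map_smul, hΦχ]
    ext q
    simp [Finset.sum_apply, Pi.single_apply]
  let Ψ : formSub k G Y ≃ₗ[k] (C → k) := LinearEquiv.ofBijective Φ ⟨hΦinj, hΦsurj⟩
  let b : Module.Basis C k (formSub k G Y) := Module.Basis.ofEquivFun Ψ
  have hb : ∀ q, b q = χ (rep q) := by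
    intro q
    have h1 : b q = Ψ.symm (Pi.single q 1) := by
      simp [b, Module.Basis.coe_ofEquivFun]
    rw [h1, LinearEquiv.symm_apply_eq]
    exact (hΦχ q).symm
  have htr : LinearMap.trace k _ e = ∑ q : C, (e (χ (rep q)) : X → k) (rep q) := by
    rw [LinearMap.trace_eq_matrix_trace k b, Matrix.trace]
    refine Finset.sum_congr rfl fun q _ => ?_
    rw [Matrix.diag_apply, LinearMap.toMatrix_apply, hb]
    show b.equivFun (e (χ (rep q))) q = _
    rw [Module.Basis.equivFun_ofEquivFun]
    rfl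
  -- invariance
  have hinv : ∀ (σ : P) (x : X), (e (χ (σ • x)) : X → k) (σ • x) = (e (χ x) : X → k) x := by
    intro σ x
    exact (hσ σ (χ (σ • x)) (χ x) (fun z => (chi_tr Y hYP hcomp σ x z).symm) x).symm
  have hinv2 : ∀ (x x' : X), x' ∈ MulAction.orbit G x →
      (e (χ x') : X → k) x' = (e (χ x) : X → k) x := by
    rintro x x' ⟨g, rfl⟩
    have h1 : χ (g • x) = χ x := Subtype.ext (chi_congr Y hY ⟨g, rfl⟩)
    show (e (χ (g • x)) : X → k) (g • x) = _
    rw [h1, (e (χ x)).2.2]
  have hsum : ∑ q : C, (e (χ (rep q)) : X → k) (rep q) = 0 := by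
    refine sum_eq_zero_of_fixed hP _ ?_ ?_
    · intro σ q
      have h1 : rep (σ • q) ∈ MulAction.orbit G (σ • rep q) := by
        rw [← hmk, hrep]
        show σ • q.1 = _
        rw [← hrep q]
        rfl
      rw [hinv2 _ _ h1, hinv]
    · intro q hq
      refine hcon (rep q) (hrepY q) fun σ => ?_
      have h1 : σ • q = q := hq σ
      rw [← hmk, hrep]
      show (σ • (Quotient.mk'' (rep q) : MulAction.orbitRel.Quotient G X)) = q.1
      rw [hrep]
      exact congrArg Subtype.val h1
  -- the trace is the dimension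
  let m : Submodule k (formSub k G Y) := E.comap (formSub k G Y).subtype
  have hproj : LinearMap.IsProj m e := by
    constructor
    · intro f
      show ((e f : formSub k G Y) : X → k) ∈ E
      rw [← hE]
      exact congrArg (fun φ : Module.End k (formSub k G Y) => φ f) he
    · intro f hf
      exact (hE f).2 hf
  have hfr1 : Module.Free k m := Module.Free.of_divisionRing k m
  have hfr2 : Module.Free k (LinearMap.ker e) := Module.Free.of_divisionRing k (LinearMap.ker e)
  have h1 := hproj.trace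
  rw [htr, hsum] at h1
  have h2 : Module.finrank k m = Module.finrank k E :=
    LinearEquiv.finrank_eq (Submodule.comapSubtypeEquivOfLe hEW)
  rw [← h2]
  exact (CharP.cast_eq_zero_iff k p _).1 h1.symm

end Main

theorem abs_main {p : ℕ} [Fact p.Prime] [CharP k p] [Finite P] (hP : IsPGroup p P)
    (Y : Set X) (hY : ∀ (g : G) (x : X), g • x ∈ Y ↔ x ∈ Y)
    (hYP : ∀ (σ : P) (x : X), σ • x ∈ Y ↔ x ∈ Y)
    (hcomp : ∀ (σ : P) (g : G), ∃ g' : G, ∀ x : X, σ • g • x = g' • σ • x)
    (hfin : ∃ R : Finset X, ∀ y ∈ Y, ∃ g : G, ∃ r ∈ R, y = g • r)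
    {I : Type*} (T : I → Module.End k (X → k)) (a : I → k)
    (hT : ∀ i f, absForm G Y f → absForm G Y (T i f))
    (hcomm : ∀ i j f, T i (T j f) = T j (T i f))
    (hTP : ∀ (σ : P) (i : I), ∃ i' : I, a i' = a i ∧ ∀ f : X → k,
      T i' (fun x => f (σ • x)) = fun x => T i f (σ • x))
    (hE : ¬ p ∣ Module.finrank k (Submodule.span k (absEigen G Y T a)) ∨
      ∃ f ∈ Submodule.span k (absEigen G Y T a), (∀ (σ : P) x, f (σ • x) = f x) ∧
        f ∉ properTraces P (Submodule.span k (absEigen G Y T a))) :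
    ∃ f ∈ absEigen G Y T a, (∀ (σ : P) x, f (σ • x) = f x) ∧
      ∃ y ∈ Y, f y ≠ 0 ∧ ∀ σ : P, ∃ g : G, σ • y = g • y := by
  classical
  obtain ⟨e, he1, he2, he3⟩ := exists_equivariant hYP hcomp hfin T a hT hcomm hTP
  have hmemE : ∀ f : formSub k G Y, e f = f ↔
      (f : X → k) ∈ Submodule.span k (absEigen G Y T a) := by
    intro f
    rw [he2, span_eigen]
    rfl
  have hEW : Submodule.span k (absEigen G Y T a) ≤ formSub k G Y := by
    rw [span_eigen]
    exact fun f hf => hf.1
  rcases hE with hE | ⟨f, hf, hfP, hnt⟩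
  · obtain ⟨y, hy, hfix, hne⟩ := trace_case hP hY hcomp hYP hfin _ e he1 hmemE hEW he3 hE
    refine ⟨_, (he2 (e ⟨chi k G Y y, chi_form Y hY y⟩)).1 ?_, ?_, y, hy, hne, ?_⟩
    · exact congrArg (fun φ : Module.End k (formSub k G Y) => φ ⟨chi k G Y y, chi_form Y hY y⟩) he1
    · intro σ x
      refine (he3 σ _ _ (fun z => ?_) x).symm
      show chi k G Y y z = chi k G Y y (σ • z)
      rw [← chi_congr Y hY (hfix σ), chi_tr Y hYP hcomp, chi_congr Y hY (hfix σ)]
    · intro σ
      obtain ⟨g, hg⟩ := hfix σ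
      exact ⟨g, hg.symm⟩
  · have hf' : f ∈ absEigen G Y T a := by
      rw [span_eigen] at hf
      exact hf
    refine ⟨f, hf', hfP, ?_⟩
    by_contra hcon
    push Not at hcon
    apply hnt
    obtain ⟨R, hR⟩ := hfin
    have hef : e ⟨f, hf'.1⟩ = ⟨f, hf'.1⟩ := (he2 _).2 hf'
    have h1 := key_traces hY hcomp hYP R hR (Submodule.span k (absEigen G Y T a)) e he1
      (fun g hg => (hmemE g).1 hg) he3 _ ⟨f, hf'.1⟩ hfP (fun y hy => ?_) le_rfl
    · rw [hef] at h1
      exact h1
    · by_contra hne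
      by_cases hyY : y ∈ Y
      · obtain ⟨σ, hσ⟩ := hcon y hyY hne
        obtain ⟨g, hg⟩ := hy σ
        exact hσ g hg.symm
      · exact hne (hf'.1.1 y hyY)

end Pool.Agent.Helper93.WS
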