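import Pool.Agent.Helper93.WS.Abs

/-!
# The abstract converse
-/

open scoped Pointwise

namespace Pool.Agent.Helper93.WS

variable {k : Type*} [Field k] {X : Type*} {G P : Type*} [Group G] [Group P] [MulAction G X]
  [MulAction P X]

/-- Sums of proper traces vanish on the fixed classes. -/
theorem properTraces_vanish {p : ℕ} [Fact p.Prime] [CharP k p] [Finite P] (hP : IsPGroup p P)
    (E : Submodule k (X → k)) (hE : ∀ f ∈ E, ∀ (g : G) (x : X), f (g • x) = f x)
    {f : X → k} (hf : f ∈ properTraces P E) {y : X} (hy : ∀ σ : P, ∃ g : G, σ • y = g • y) :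
    f y = 0 := by
  classical
  unfold properTraces at hf
  induction hf using Submodule.span_induction with
  | mem t ht =>
    obtain ⟨Q, hQ, g, hg, hgQ, rfl⟩ := ht
    have hconst : ∀ c : P ⧸ Q, g ((Quotient.out c)⁻¹ • y) = g y := by
      intro c
      obtain ⟨a, ha⟩ := hy (Quotient.out c)⁻¹
      rw [ha]
      exact hE g hg a y
    have hidx : ((Nat.card (P ⧸ Q) : ℕ) : k) = 0 := by
      rw [CharP.cast_eq_zero_iff k p]
      obtain ⟨n, hn⟩ := hP.index Q
      have h1 : Q.index ≠ 1 := fun h => hQ (Subgroup.index_eq_one.1 h)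
      have h2 : Nat.card (P ⧸ Q) = Q.index := rfl
      rw [h2, hn]
      have hn0 : n ≠ 0 := by
        rintro rfl
        exact h1 (by simpa using hn)
      exact dvd_pow_self p hn0
    show (∑ᶠ c : P ⧸ Q, g ((Quotient.out c)⁻¹ • y)) = 0
    haveI := Fintype.ofFinite (P ⧸ Q)
    rw [finsum_eq_sum_of_fintype, Finset.sum_congr rfl (fun c _ => hconst c), Finset.sum_const,
      Finset.card_univ, nsmul_eq_mul, ← Nat.card_eq_fintype_card, hidx, zero_mul]
  | zero => rfl
  | add a b _ _ ha hb => simp only [Pi.add_apply, ha, hb, add_zero]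
  | smul c a _ ha => simp only [Pi.smul_apply, ha, smul_zero]

/-- The space of forms. -/
private def formM (k : Type*) [Field k] {X : Type*} (G : Type*) [Group G] [MulAction G X]
    (Y : Set X) : Submodule k (X → k) where
  carrier := {f | absForm G Y f}
  zero_mem' := ⟨fun _ _ => rfl, fun _ _ => rfl⟩
  add_mem' := by
    intro a b ha hb
    refine ⟨fun x hx => ?_, fun g x => ?_⟩
    · simp only [Pi.add_apply, ha.1 x hx, hb.1 x hx, add_zero]
    · simp only [Pi.add_apply, ha.2 g x, hb.2 g x]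
  smul_mem' := by
    intro c a ha
    refine ⟨fun x hx => ?_, fun g x => ?_⟩
    · simp only [Pi.smul_apply, ha.1 x hx, smul_zero]
    · simp only [Pi.smul_apply, ha.2 g x]

private theorem mem_formM {Y : Set X} {f : X → k} : f ∈ formM k G Y ↔ absForm G Y f := Iff.rfl

private theorem formM_finite (Y : Set X)
    (hfin : ∃ R : Finset X, ∀ y ∈ Y, ∃ g : G, ∃ r ∈ R, y = g • r) :
    FiniteDimensional k (formM k G Y) := by
  classical
  obtain ⟨R, hR⟩ := hfin
  let φ : formM k G Y →ₗ[k] (R → k) :=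
    { toFun := fun f r => (f : X → k) r.1
      map_add' := fun _ _ => rfl
      map_smul' := fun _ _ => rfl }
  have hφ : Function.Injective φ := by
    rw [injective_iff_map_eq_zero]
    intro f hf
    apply Subtype.ext
    funext x
    by_cases hx : x ∈ Y
    · obtain ⟨g, r, hr, rfl⟩ := hR x hx
      have h1 : (f : X → k) (g • r) = (f : X → k) r := f.2.2 g r
      rw [h1]
      exact congrFun hf ⟨r, hr⟩
    · exact f.2.1 x hx
  exact Module.Finite.of_injective φ hφ

private theorem eig_zero {Z : Type*} [AddCommGroup Z] [Module k Z] {J : Type*}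
    (S : J → Module.End k Z) (hS : ∀ i j, Commute (S i) (S j)) (c : J → k) {ι : Type*}
    (A : Finset ι) :
    ∀ (z : ι → Z) (v : Z), (∀ j, S j v = c j • v) → v = ∑ a ∈ A, z a →
      (∀ a ∈ A, ∃ (j : J) (μ : k) (s : ℕ), μ ≠ c j ∧
        ((S j - algebraMap k (Module.End k Z) μ) ^ s) (z a) = 0) → v = 0 := by
  classical
  induction A using Finset.induction_on with
  | empty =>
    intro z v _ hv _
    simpa using hv
  | insert a A ha ih =>
    intro z v hev hv hz
    obtain ⟨j, μ, s, hμ, hs⟩ := hz a (Finset.mem_insert_self a A)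
    have h1 : ∀ m : ℕ, ((S j - algebraMap k (Module.End k Z) μ) ^ m) v = (c j - μ) ^ m • v := by
      intro m
      induction m with
      | zero => simp
      | succ m ihm =>
        rw [pow_succ', Module.End.mul_apply, ihm, map_smul, LinearMap.sub_apply, hev j,
          Module.algebraMap_end_apply, ← sub_smul, smul_smul, ← pow_succ]
    have hcomm : ∀ (i : J) (ν : k) (m : ℕ),
        Commute ((S i - algebraMap k (Module.End k Z) ν) ^ m)
          ((S j - algebraMap k (Module.End k Z) μ) ^ s) := by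
      intro i ν m
      apply Commute.pow_pow
      apply Commute.sub_left
      · exact (hS i j).sub_right (Algebra.commutes μ (S i)).symm
      · exact Algebra.commutes ν _
    have h0 : ((S j - algebraMap k (Module.End k Z) μ) ^ s) v = 0 := by
      refine ih (fun b => ((S j - algebraMap k (Module.End k Z) μ) ^ s) (z b)) _ ?_ ?_ ?_
      · intro i
        rw [h1 s, map_smul, hev i, smul_comm]
      · conv_lhs => rw [hv]
        rw [Finset.sum_insert ha, map_add, hs, zero_add, map_sum]
      · intro b hb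
        obtain ⟨j', μ', s', hμ', hs'⟩ := hz b (Finset.mem_insert_of_mem hb)
        refine ⟨j', μ', s', hμ', ?_⟩
        rw [← Module.End.mul_apply, (hcomm j' μ' s').eq, Module.End.mul_apply, hs', map_zero]
    rw [h1 s] at h0
    exact (smul_eq_zero.1 h0).resolve_left (pow_ne_zero s (sub_ne_zero.2 hμ.symm))

private theorem sum_zero_of_free {p : ℕ} [Fact p.Prime] [CharP k p] [Finite P]
    (hP : IsPGroup p P) {B : Type*} [MulAction P B] (A : Finset B)
    (hA : ∀ (σ : P), ∀ b ∈ A, σ • b ∈ A) (hfree : ∀ b ∈ A, ∃ σ : P, σ • b ≠ b) (u : B → k)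
    (hu : ∀ (σ : P), ∀ b ∈ A, u (σ • b) = u b) : ∑ b ∈ A, u b = 0 := by
  classical
  have key : ∀ v : k, (((A.filter (fun b => u b = v)).card : ℕ) : k) = 0 := by
    intro v
    have hmem : ∀ (σ : P), ∀ b ∈ A.filter (fun b => u b = v),
        σ • b ∈ A.filter (fun b => u b = v) := by
      intro σ b hb
      rw [Finset.mem_filter] at hb ⊢
      exact ⟨hA σ b hb.1, by rw [hu σ b hb.1]; exact hb.2⟩
    letI : MulAction P {b : B // b ∈ A.filter (fun b => u b = v)} :=
      { smul := fun σ b => ⟨σ • b.1, hmem σ b.1 b.2⟩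
        one_smul := fun b => Subtype.ext (one_smul P b.1)
        mul_smul := fun σ τ b => Subtype.ext (mul_smul σ τ b.1) }
    have h1 := hP.card_modEq_card_fixedPoints {b : B // b ∈ A.filter (fun b => u b = v)}
    have h2 : Nat.card (MulAction.fixedPoints P {b : B // b ∈ A.filter (fun b => u b = v)})
        = 0 := by
      have : IsEmpty (MulAction.fixedPoints P {b : B // b ∈ A.filter (fun b => u b = v)}) := by
        refine ⟨fun b => ?_⟩
        obtain ⟨σ, hσ⟩ := hfree b.1.1 (Finset.mem_filter.1 b.1.2).1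
        exact hσ (congrArg Subtype.val (b.2 σ))
      exact Nat.card_of_isEmpty
    rw [h2, Nat.card_eq_fintype_card, Fintype.card_coe] at h1
    rw [CharP.cast_eq_zero_iff k p]
    exact (Nat.modEq_zero_iff_dvd).1 h1
  have h3 : ∑ b ∈ A, u b = ∑ v ∈ A.image u, (A.filter (fun b => u b = v)).card • v :=
    Finset.sum_comp (fun v : k => v) u
  rw [h3]
  apply Finset.sum_eq_zero
  intro v _
  rw [nsmul_eq_mul, key v, zero_mul]

theorem abs_converse {p : ℕ} [Fact p.Prime] [CharP k p] [IsAlgClosed k] [Finite P]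
    (hP : IsPGroup p P)
    (Y : Set X) (hY : ∀ (g : G) (x : X), g • x ∈ Y ↔ x ∈ Y)
    (hYP : ∀ (σ : P) (x : X), σ • x ∈ Y ↔ x ∈ Y)
    (hcomp : ∀ (σ : P) (g : G), ∃ g' : G, ∀ x : X, σ • g • x = g' • σ • x)
    (hfin : ∃ R : Finset X, ∀ y ∈ Y, ∃ g : G, ∃ r ∈ R, y = g • r)
    {I : Type*} [MulAction P I] (T : I → Module.End k (X → k))
    (hT : ∀ i f, absForm G Y f → absForm G Y (T i f))
    (hcomm : ∀ i j f, T i (T j f) = T j (T i f))
    (hTP : ∀ (σ : P) (i : I) (f : X → k) (x : X),
      T (σ • i) f (σ • x) = T i (fun z => f (σ • z)) x)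
    {Z : Type*} [AddCommGroup Z] [Module k Z] (π : (X → k) →ₗ[k] Z)
    (hπ : ∀ f, absForm G Y f → (∀ (σ : P) x, f (σ • x) = f x) →
      (∀ y ∈ Y, (∀ σ : P, ∃ g : G, σ • y = g • y) → f y = 0) → π f = 0)
    {J : Type*} (S : J → Module.End k Z) (hScomm : ∀ i j, Commute (S i) (S j))
    (W : J → Finset I) (c : J → k)
    (hnil : ∀ (j : J) (χ : I → k), ∀ f ∈ absEigen G Y T χ, (∀ (σ : P) x, f (σ • x) = f x) →
      ∃ s : ℕ, ((S j - algebraMap k (Module.End k Z) (∏ i ∈ W j, χ i)) ^ s) (π f) = 0)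
    (F : X → k) (hF : absForm G Y F) (hFP : ∀ (σ : P) x, F (σ • x) = F x) (hF0 : π F ≠ 0)
    (hFeig : ∀ j, S j (π F) = c j • π F)
    (Θ : I → k) (hΘ : ∀ χ : I → k, (∀ (σ : P) i, χ (σ • i) = χ i) →
      (∀ j, ∏ i ∈ W j, χ i = c j) → χ = Θ) :
    ∃ f ∈ absEigen G Y T Θ, (∀ (σ : P) x, f (σ • x) = f x) ∧ π f ≠ 0 := by
  classical
  haveI : FiniteDimensional k (formM k G Y) := formM_finite Y hfin
  -- the restricted operators
  let T' : I → Module.End k (formM k G Y) := fun i =>
    (T i).restrict (p := formM k G Y) (q := formM k G Y) (fun f hf => hT i f hf)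
  have hT'val : ∀ i (f : formM k G Y), ((T' i f : formM k G Y) : X → k) = T i (f : X → k) :=
    fun i f => rfl
  have hT'comm : ∀ i j, Commute (T' i) (T' j) := by
    intro i j
    apply LinearMap.ext
    intro f
    apply Subtype.ext
    exact hcomm i j _
  have hmaps : ∀ i j φ, Set.MapsTo (T' i) ((T' j).maxGenEigenspace φ)
      ((T' j).maxGenEigenspace φ) := fun i j φ =>
    Module.End.mapsTo_maxGenEigenspace_of_comm (hT'comm j i) φ
  have hind := Module.End.independent_iInf_maxGenEigenspace_of_forall_mapsTo T' hmaps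
  have htop := Module.End.iSup_iInf_maxGenEigenspace_eq_top_of_forall_mapsTo T' hmaps
    (fun i => Module.End.iSup_maxGenEigenspace_eq_top (T' i))
  have hFtop : (⟨F, hF⟩ : formM k G Y) ∈
      ⨆ χ : I → k, ⨅ i, (T' i).maxGenEigenspace (χ i) := by
    rw [htop]; exact Submodule.mem_top
  obtain ⟨Φ, hΦ, hΦsum⟩ := (Submodule.mem_iSup_iff_exists_finsupp _ _).1 hFtop
  have hmemE : ∀ (χ : I → k) (f : formM k G Y),
      f ∈ (⨅ i, (T' i).maxGenEigenspace (χ i)) ↔
        ∀ i, ∃ m : ℕ, ((T' i - algebraMap k (Module.End k (formM k G Y)) (χ i)) ^ m) f = 0 := by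
    intro χ f
    exact Module.End.mem_iInf_maxGenEigenspace_iff _ _ _
  -- the action of `P` on forms
  have hρmem : ∀ (σ : P) (f : X → k), absForm G Y f → absForm G Y (fun x => f (σ • x)) := by
    intro σ f hf
    refine ⟨fun x hx => hf.1 _ (fun h => hx ((hYP σ x).1 h)), fun g x => ?_⟩
    obtain ⟨g', hg'⟩ := hcomp σ g
    show f (σ • g • x) = f (σ • x)
    rw [hg' x, hf.2 g']
  let ρ : P → formM k G Y →ₗ[k] formM k G Y := fun σ =>
    { toFun := fun f => ⟨fun x => (f : X → k) (σ • x), hρmem σ _ f.2⟩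
      map_add' := fun _ _ => rfl
      map_smul' := fun _ _ => rfl }
  have hρval : ∀ (σ : P) (f : formM k G Y) (x : X),
      ((ρ σ f : formM k G Y) : X → k) x = (f : X → k) (σ • x) := fun _ _ _ => rfl
  have hTρ : ∀ (σ : P) (i : I) (f : formM k G Y), T' i (ρ σ f) = ρ σ (T' (σ • i) f) := by
    intro σ i f
    apply Subtype.ext
    funext x
    rw [hρval, hT'val, hT'val]
    exact (hTP σ i (f : X → k) x).symm
  have hρE : ∀ (σ : P) (χ : I → k) (f : formM k G Y),
      f ∈ (⨅ i, (T' i).maxGenEigenspace (χ i)) →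
        ρ σ f ∈ (⨅ i, (T' i).maxGenEigenspace (χ (σ • i))) := by
    intro σ χ f hf
    rw [hmemE χ] at hf
    refine (hmemE (fun i => χ (σ • i)) _).2 fun i => ?_
    obtain ⟨m, hm⟩ := hf (σ • i)
    refine ⟨m, ?_⟩
    have h1 : ∀ (m : ℕ) (h : formM k G Y),
        ((T' i - algebraMap k (Module.End k (formM k G Y)) (χ (σ • i))) ^ m) (ρ σ h) =
          ρ σ (((T' (σ • i) - algebraMap k (Module.End k (formM k G Y)) (χ (σ • i))) ^ m) h) := by
      intro m
      induction m with
      | zero => intro h; simp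
      | succ m ihm =>
        intro h
        rw [pow_succ, Module.End.mul_apply, pow_succ, Module.End.mul_apply, ← ihm]
        congr 1
        rw [LinearMap.sub_apply, LinearMap.sub_apply, hTρ, Module.algebraMap_end_apply,
          Module.algebraMap_end_apply, map_sub, map_smul]
    rw [h1, hm, map_zero]
  -- uniqueness of the decomposition
  have huniq : ∀ (σ : P) (χ : I → k), Φ (fun i => χ (σ • i)) = ρ σ (Φ χ) := by
    intro σ
    let sh : (I → k) → (I → k) := fun χ i => χ (σ • i)
    let sh' : (I → k) → (I → k) := fun χ i => χ (σ⁻¹ • i)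
    have hsh1 : ∀ χ, sh (sh' χ) = χ := by
      intro χ; funext i; show χ (σ⁻¹ • σ • i) = χ i; rw [inv_smul_smul]
    have hsh2 : ∀ χ, sh' (sh χ) = χ := by
      intro χ; funext i; show χ (σ • σ⁻¹ • i) = χ i; rw [smul_inv_smul]
    have hshinj : Function.Injective sh := Function.LeftInverse.injective hsh2
    let s : Finset (I → k) := Φ.support ∪ Φ.support.image sh
    have hall := (iSupIndep_iff_finsetSum_eq_imp_eq _).1 hind s (fun χ => Φ χ)
      (fun χ => ρ σ (Φ (sh' χ))) ?_ ?_
    · intro χ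
      by_cases hχ : χ ∈ Φ.support
      · have h1 : sh χ ∈ s := Finset.mem_union_right _ (Finset.mem_image_of_mem sh hχ)
        have h2 := hall (sh χ) h1
        simp only [hsh2] at h2
        exact h2
      · have h3 : Φ χ = 0 := Finsupp.notMem_support_iff.1 hχ
        rw [h3, map_zero]
        by_cases hχ' : sh χ ∈ Φ.support
        · have h2 := hall (sh χ) (Finset.mem_union_left _ hχ')
          simp only [hsh2, h3, map_zero] at h2
          exact h2
        · exact Finsupp.notMem_support_iff.1 hχ'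
    · intro χ _
      refine ⟨hΦ χ, ?_⟩
      have h1 := hρE σ (sh' χ) (Φ (sh' χ)) (hΦ (sh' χ))
      have h2 : (fun i => sh' χ (σ • i)) = χ := hsh1 χ
      have h3 : (⨅ i, (T' i).maxGenEigenspace (sh' χ (σ • i))) =
          ⨅ i, (T' i).maxGenEigenspace (χ i) := by
        apply iInf_congr
        intro i
        rw [show sh' χ (σ • i) = χ i from congrFun h2 i]
      rw [h3] at h1
      exact h1
    · have h1 : ∑ χ ∈ s, Φ χ = ⟨F, hF⟩ := by
        rw [← hΦsum]
        symm
        exact Finset.sum_subset Finset.subset_union_left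
          (fun χ _ hχ => Finsupp.notMem_support_iff.1 hχ)
      have h2 : ∑ χ ∈ s, ρ σ (Φ (sh' χ)) = ρ σ ⟨F, hF⟩ := by
        have h3 : ∑ χ ∈ s, ρ σ (Φ (sh' χ)) = ∑ χ ∈ Φ.support.image sh, ρ σ (Φ (sh' χ)) := by
          symm
          refine Finset.sum_subset Finset.subset_union_right (fun χ _ hχ => ?_)
          have h4 : sh' χ ∉ Φ.support := fun h => hχ (by
            rw [Finset.mem_image]
            exact ⟨sh' χ, h, hsh1 χ⟩)
          rw [Finsupp.notMem_support_iff.1 h4, map_zero]
        rw [h3, Finset.sum_image (fun a _ b _ hab => hshinj hab), ← hΦsum, Finsupp.sum, map_sum]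
        apply Finset.sum_congr rfl
        intro χ _
        rw [hsh2]
      have h5 : ρ σ ⟨F, hF⟩ = ⟨F, hF⟩ := by
        apply Subtype.ext
        funext x
        exact hFP σ x
      show ∑ χ ∈ s, Φ χ = ∑ χ ∈ s, ρ σ (Φ (sh' χ))
      rw [h1, h2, h5]
  -- the fixed and the free part
  let fix : (I → k) → Prop := fun χ => ∀ (σ : P) (i : I), χ (σ • i) = χ i
  let A := Φ.support.filter (fun χ => fix χ)
  let B := Φ.support.filter (fun χ => ¬ fix χ)
  have hsplit : ∑ χ ∈ A, Φ χ + ∑ χ ∈ B, Φ χ = ⟨F, hF⟩ := by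
    rw [← hΦsum]
    exact Finset.sum_filter_add_sum_filter_not Φ.support (fun χ => fix χ) (fun χ => Φ χ)
  have hAinv : ∀ χ ∈ A, ∀ σ : P, ρ σ (Φ χ) = Φ χ := by
    intro χ hχ σ
    rw [← huniq σ χ]
    congr 1
    funext i
    exact (Finset.mem_filter.1 hχ).2 σ i
  have hBinv : ∀ σ : P, ρ σ (∑ χ ∈ B, Φ χ) = ∑ χ ∈ B, Φ χ := by
    intro σ
    have h1 : ∑ χ ∈ B, Φ χ = ⟨F, hF⟩ - ∑ χ ∈ A, Φ χ := by rw [← hsplit]; abel
    have h5 : ρ σ ⟨F, hF⟩ = ⟨F, hF⟩ := by
      apply Subtype.ext
      funext x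
      exact hFP σ x
    rw [h1, map_sub, h5, map_sum]
    congr 1
    exact Finset.sum_congr rfl (fun χ hχ => hAinv χ hχ σ)
  have hBzero : π ((∑ χ ∈ B, Φ χ : formM k G Y) : X → k) = 0 := by
    apply hπ
    · exact (∑ χ ∈ B, Φ χ : formM k G Y).2
    · intro σ x
      have h1 := congrArg (fun f : formM k G Y => (f : X → k) x) (hBinv σ)
      exact h1
    · intro y hy hyfix
      have h1 : ((∑ χ ∈ B, Φ χ : formM k G Y) : X → k) y = ∑ χ ∈ B, ((Φ χ : X → k) y) := by
        rw [AddSubmonoidClass.coe_finset_sum, Finset.sum_apply]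
      rw [h1]
      letI : MulAction P (I → k) := arrowAction
      have hsm : ∀ (σ : P) (χ : I → k), σ • χ = fun i => χ (σ⁻¹ • i) := fun σ χ => rfl
      have hval : ∀ (σ : P) (χ : I → k), ((Φ (σ • χ) : formM k G Y) : X → k) y =
          ((Φ χ : formM k G Y) : X → k) y := by
        intro σ χ
        rw [hsm, huniq σ⁻¹ χ, hρval]
        obtain ⟨g, hg⟩ := hyfix σ⁻¹
        rw [hg]
        exact (Φ χ).2.2 g y
      refine sum_zero_of_free hP B ?_ ?_ (fun χ => ((Φ χ : formM k G Y) : X → k) y) ?_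
      · intro σ χ hχ
        rw [Finset.mem_filter] at hχ ⊢
        refine ⟨?_, ?_⟩
        · rw [Finsupp.mem_support_iff, hsm, huniq σ⁻¹ χ]
          intro h0
          have h2 : ρ σ (ρ σ⁻¹ (Φ χ)) = Φ χ := by
            apply Subtype.ext
            funext x
            rw [hρval, hρval, inv_smul_smul]
          rw [h0, map_zero] at h2
          exact (Finsupp.mem_support_iff.1 hχ.1) h2.symm
        · intro hfix
          apply hχ.2
          have h3 : ∀ i, χ i = (σ • χ) (σ • i) := by
            intro i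
            rw [hsm]
            show χ i = χ (σ⁻¹ • σ • i)
            rw [inv_smul_smul]
          intro τ i
          rw [h3 (τ • i), h3 i]
          rw [hfix σ (τ • i), hfix τ i, hfix σ i]
      · intro χ hχ
        have h2 := (Finset.mem_filter.1 hχ).2
        by_contra hcon
        push Not at hcon
        apply h2
        intro σ i
        have h3 := congrFun (hcon σ⁻¹) i
        rw [hsm, inv_inv] at h3
        exact h3
      · intro σ χ _
        exact hval σ χ
  have hΦeig : ∀ χ, ((Φ χ : formM k G Y) : X → k) ∈ absEigen G Y T χ := by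
    intro χ
    refine ⟨(Φ χ).2, fun i => ?_⟩
    obtain ⟨m, hm⟩ := (hmemE χ (Φ χ)).1 (hΦ χ) i
    refine ⟨m, ?_⟩
    have h1 : ∀ (m : ℕ) (h : formM k G Y),
        (fun g => T i g - χ i • g)^[m] (h : X → k) =
          ((((T' i - algebraMap k (Module.End k (formM k G Y)) (χ i)) ^ m) h : formM k G Y) :
            X → k) := by
      intro m
      induction m with
      | zero => intro h; simp
      | succ m ihm =>
        intro h
        rw [Function.iterate_succ_apply, pow_succ, Module.End.mul_apply, ← ihm]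
        congr 1
    rw [h1, hm]
    rfl
  have hπF : π F = ∑ χ ∈ A, π ((Φ χ : formM k G Y) : X → k) := by
    have h1 : F = ((∑ χ ∈ A, Φ χ : formM k G Y) : X → k) +
        ((∑ χ ∈ B, Φ χ : formM k G Y) : X → k) := by
      have h2 := congrArg (fun f : formM k G Y => (f : X → k)) hsplit
      exact h2.symm
    rw [h1, map_add, hBzero, add_zero, AddSubmonoidClass.coe_finset_sum, map_sum]
  by_contra hno
  push Not at hno
  have hAinv' : ∀ χ ∈ A, ∀ (σ : P) x, ((Φ χ : formM k G Y) : X → k) (σ • x) =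
      ((Φ χ : formM k G Y) : X → k) x := by
    intro χ hχ σ x
    exact congrArg (fun f : formM k G Y => (f : X → k) x) (hAinv χ hχ σ)
  apply hF0
  refine eig_zero S hScomm c (A.erase Θ) (fun χ => π ((Φ χ : formM k G Y) : X → k)) (π F)
    hFeig ?_ ?_
  · rw [hπF]
    by_cases hΘA : Θ ∈ A
    · rw [← Finset.add_sum_erase A _ hΘA, hno _ (hΦeig Θ) (hAinv' Θ hΘA), zero_add]
    · rw [Finset.erase_eq_of_notMem hΘA]
  · intro χ hχ
    rw [Finset.mem_erase] at hχ
    have hfixχ : fix χ := (Finset.mem_filter.1 hχ.2).2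
    have h1 : ¬ ∀ j, ∏ i ∈ W j, χ i = c j := fun h => hχ.1 (hΘ χ hfixχ h)
    push Not at h1
    obtain ⟨j, hj⟩ := h1
    obtain ⟨s, hs⟩ := hnil j χ _ (hΦeig χ) (hAinv' χ hχ.2)
    exact ⟨j, _, s, hj, hs⟩

end Pool.Agent.Helper93.WS
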