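import Pool.Agent.Helper93.WS.Level

/-!
# Multiplication by central elements on the pairs of `B`
-/

open scoped Pointwise NumberField

namespace Pool.Agent.Helper93.WS

section Aux

/-- A generator mod `n` generates up to an integer congruent to `1` mod `n`. -/
private theorem am_gen_int {K : Type*} [Field K] [NumberField K] {E : Type*} [DivisionRing E]
    [Algebra K E] {O : Subring E} (hO : IsOrder K O) {Λ : AddSubgroup E} (hΛ : IsLat K O Λ)
    {n : ℕ} {l : E} (hgen : ∀ z ∈ Λ, ∃ a ∈ O, ∃ z' ∈ Λ, z = l * a + (n : E) * z') :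
    ∃ r j : ℤ, r = 1 + n * j ∧ ∀ z ∈ Λ, ∃ a ∈ O, (r : E) * z = l * a := by
  have hfg : (AddSubgroup.toIntSubmodule Λ).FG := by
    rw [Submodule.fg_iff_addSubgroup_fg, AddSubgroup.toIntSubmodule_toAddSubgroup]
    exact hΛ.fg hO
  let M : AddSubgroup E := O.toAddSubgroup.map (AddMonoidHom.mulLeft l)
  have hle : AddSubgroup.toIntSubmodule Λ ≤ AddSubgroup.toIntSubmodule M ⊔
      (Ideal.span {(n : ℤ)}) • AddSubgroup.toIntSubmodule Λ := by
    intro z hz
    obtain ⟨a, ha, z', hz', e⟩ := hgen z hz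
    rw [e]
    apply Submodule.add_mem_sup
    · exact ⟨a, ha, rfl⟩
    · have h1 := Submodule.smul_mem_smul (Ideal.mem_span_singleton_self (n : ℤ))
        (show z' ∈ AddSubgroup.toIntSubmodule Λ from hz')
      simpa using h1
  obtain ⟨r, hr, hr2⟩ := Submodule.exists_sub_one_mem_and_smul_le_of_fg_of_le_sup hfg le_rfl hle
  obtain ⟨j, hj⟩ := Ideal.mem_span_singleton'.1 hr
  refine ⟨r, j, by rw [mul_comm, hj]; ring, ?_⟩
  intro z hz
  have h2 : r • z ∈ AddSubgroup.toIntSubmodule M :=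
    hr2 (Submodule.smul_mem_pointwise_smul z r _ hz)
  obtain ⟨a, ha, hae⟩ := h2
  refine ⟨a, ha, ?_⟩
  rw [← zsmul_eq_mul]
  exact hae.symm

/-- The second component of a pair contains a nonzero element. -/
private theorem am_nonzero {K : Type*} [Field K] [NumberField K] {E : Type*} [DivisionRing E]
    [Algebra K E] {O : Subring E} {n : ℕ} {H : Set E} (hn : n ≠ 0) (hH : IsLevel O n H)
    {y : AddSubgroup E × Set E} (hy : IsPair K O n H y) : ∃ l ∈ y.2, l ≠ 0 := by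
  obtain ⟨l, hl⟩ := hy.nonempty hH
  by_cases h0 : l = 0
  · obtain ⟨w, hw⟩ := Ideal.exists_maximal (𝓞 K)
    obtain ⟨x, hx, hx0, _⟩ := hy.1.2 w hw
    refine ⟨l + (n : E) * x, hy.add_mem hH hl hx, ?_⟩
    rw [h0, zero_add]
    refine mul_ne_zero ?_ hx0
    have h1 : (n : K) ≠ 0 := Nat.cast_ne_zero.2 hn
    have h2 : algebraMap K E (n : K) ≠ 0 := by
      intro h
      exact h1 ((algebraMap K E).injective (by rw [h, map_zero]))
    rwa [map_natCast] at h2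
  · exact ⟨l, hl, h0⟩

private theorem am_mem_smul {E : Type*} [Ring E] {d : Eˣ} {P : AddSubgroup E} {x : E} :
    x ∈ d • P ↔ ∃ s ∈ P, (d : E) * s = x :=
  Iff.rfl

private theorem am_mem_smul_set {E : Type*} [Ring E] {d : Eˣ} {P : Set E} {x : E} :
    x ∈ d • P ↔ ∃ s ∈ P, (d : E) * s = x :=
  Iff.rfl

/-- Divisibility by a local generator. -/
private theorem am_div {B D : Type*} [Ring B] [Ring D] {ι : B →+* D} {N : AddSubgroup B}
    {Λ : AddSubgroup D} {m x0 : B} (h : ∀ ν ∈ N, ∃ a ∈ OB ι Λ, m * ν = x0 * a) {p : D}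
    (hp : p ∈ prodLat ι N Λ) : ∃ x ∈ Λ, ι m * p = ι x0 * x := by
  induction hp using AddSubgroup.closure_induction with
  | mem p hp =>
    obtain ⟨β, hβ, x, hx, rfl⟩ := hp
    obtain ⟨a, ha, hae⟩ := h β hβ
    exact ⟨ι a * x, ha x hx, by rw [← mul_assoc, ← map_mul, hae, map_mul, mul_assoc]⟩
  | zero => exact ⟨0, Λ.zero_mem, by rw [mul_zero, mul_zero]⟩
  | add p q _ _ hp hq =>
    obtain ⟨x, hx, e⟩ := hp
    obtain ⟨x', hx', e'⟩ := hq
    exact ⟨x + x', Λ.add_mem hx hx', by rw [mul_add, mul_add, e, e']⟩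
  | neg p _ hp =>
    obtain ⟨x, hx, e⟩ := hp
    exact ⟨-x, Λ.neg_mem hx, by rw [mul_neg, mul_neg, e]⟩

/-- The two computations with local generators. -/
private theorem am_core {B D : Type*} [DivisionRing B] [DivisionRing D] {ι : B →+* D}
    {N N0 N0' : AddSubgroup B} {Λ : AddSubgroup D} {c : Dˣ} (hc : ∀ d : D, (c : D) * d = d * c)
    {m1 m2 m3 x0 y0 y0' : B} (hm1 : ∀ b : B, m1 * b = b * m1) (hm2 : ∀ b : B, m2 * b = b * m2)
    (hm3 : ∀ b : B, m3 * b = b * m3)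
    (hy0 : y0 ≠ 0) (hx0m : x0 ∈ N) (hy0m : y0 ∈ N0) (hy0'm : y0' ∈ N0')
    (h1 : ∀ ν ∈ N, ∃ a ∈ OB ι Λ, m1 * ν = x0 * a)
    (h2 : ∀ ν ∈ N0, ∃ a ∈ OB ι Λ, m2 * ν = y0 * a)
    (h3 : ∀ ν ∈ N0', ∃ a ∈ OB ι Λ, m3 * ν = y0' * a)
    (hN : prodLat ι N0' Λ = c • prodLat ι N0 Λ) :
    (∀ x ∈ Λ, ι (m2 * (x0 * y0⁻¹ * y0')) * x ∈ c • prodLat ι N Λ) ∧
    (∀ p ∈ c • prodLat ι N Λ, ∃ x ∈ Λ, ι (m1 * m3) * p = ι (x0 * y0⁻¹ * y0') * x) := by
  have hiy0 : ι y0 ≠ 0 := by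
    intro h
    exact hy0 (ι.injective (by rw [h, map_zero]))
  constructor
  · intro x hx
    have e1 : ι y0' * x ∈ c • prodLat ι N0 Λ := hN ▸ mem_prodLat hy0'm hx
    obtain ⟨p, hp, hpe⟩ := am_mem_smul.1 e1
    obtain ⟨x', hx', hxe⟩ := am_div h2 hp
    refine am_mem_smul.2 ⟨ι x0 * x', mem_prodLat hx0m hx', ?_⟩
    have e2 : m2 * (x0 * y0⁻¹ * y0') = x0 * y0⁻¹ * m2 * y0' := by
      rw [← mul_assoc, hm2]
    rw [e2, map_mul, mul_assoc (ι (x0 * y0⁻¹ * m2)), ← hpe]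
    rw [map_mul, map_mul, map_inv₀]
    calc (c : D) * (ι x0 * x')
        = ι x0 * (ι y0)⁻¹ * (c * (ι y0 * x')) := by
          rw [← mul_assoc (c : D) (ι y0), hc (ι y0), ← mul_assoc (c : D) (ι x0), hc (ι x0)]
          simp only [mul_assoc]
          rw [inv_mul_cancel_left₀ hiy0]
      _ = ι x0 * (ι y0)⁻¹ * ι m2 * (c * p) := by
          rw [← hxe, ← mul_assoc (c : D) (ι m2), hc (ι m2)]
          simp only [mul_assoc]
  · intro p hp
    obtain ⟨q, hq, rfl⟩ := am_mem_smul.1 hp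
    obtain ⟨x, hx, hxe⟩ := am_div h1 hq
    have e1 : (c : D) * (ι y0 * x) ∈ prodLat ι N0' Λ := by
      rw [hN]
      exact am_mem_smul.2 ⟨_, mem_prodLat hy0m hx, rfl⟩
    obtain ⟨x', hx', hxe'⟩ := am_div h3 e1
    refine ⟨x', hx', ?_⟩
    have e2 : ι m3 * ι (x0 * y0⁻¹) = ι (x0 * y0⁻¹) * ι m3 := by
      rw [← map_mul, ← map_mul, hm3]
    have e3 : ι (m1 * m3) * ((c : D) * q) = ι m3 * (c * (ι m1 * q)) := by
      rw [hm1 m3, map_mul, ← mul_assoc (c : D), hc (ι m1)]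
      simp only [mul_assoc]
    have e4 : (c : D) * (ι x0 * x) = ι (x0 * y0⁻¹) * (c * (ι y0 * x)) := by
      rw [map_mul, map_inv₀, ← mul_assoc (c : D) (ι y0), hc (ι y0), ← mul_assoc (c : D) (ι x0),
        hc (ι x0)]
      simp only [mul_assoc]
      rw [inv_mul_cancel_left₀ hiy0]
    rw [e3, hxe, e4, ← mul_assoc (ι m3), e2, mul_assoc, hxe', ← mul_assoc, ← map_mul]

end Aux


variable {F F' : Type*} [Field F] [NumberField F] [Field F'] [NumberField F'] [Algebra F F']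
  {B D : Type*} [DivisionRing B] [DivisionRing D] [Algebra F B] [Algebra F' D]
  [MulSemiringAction (F' ≃ₐ[F] F') D] {O : Subring D} {n : ℕ} {H : Set D}
  {y : AddSubgroup D × Set D} {γ : (F' ≃ₐ[F] F') → Dˣ} {ι : B →+* D}

/-- If multiplication by `c` maps one pair of `B` to a pair of `B`, it maps all pairs of `B` to
pairs of `B`. -/
theorem amb_exists (hdat : Datum O n H y γ ι) {c : F'ˣ} {b₀ b₀' b : AddSubgroup B × Set B}
    (hb₀ : IsPair F (OB ι y.1) n (HB ι y) b₀) (hb₀' : IsPair F (OB ι y.1) n (HB ι y) b₀')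
    (h : jmap ι n y b₀' = cen D c • jmap ι n y b₀)
    (hb : IsPair F (OB ι y.1) n (HB ι y) b) :
    ∃ b', IsPair F (OB ι y.1) n (HB ι y) b' ∧ jmap ι n y b' = cen D c • jmap ι n y b := by
  have hO := hdat.isOrder
  have hSL := hdat.subLevel_HB
  have hlev := hSL.lev
  have hcc : ∀ d : D, (cen D c : D) * d = d * cen D c := fun d => Algebra.commutes _ _
  have hN : prodLat ι b₀'.1 y.1 = cen D c • prodLat ι b₀.1 y.1 := congrArg Prod.fst h
  have hS : (jmap ι n y b₀').2 = cen D c • (jmap ι n y b₀).2 := congrArg Prod.snd h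
  have hP0 := hdat.isPair_jmap hSL hb₀
  have hP0' := hdat.isPair_jmap hSL hb₀'
  have hP := hdat.isPair_jmap hSL hb
  have hcP : IsPair F' O n H (cen D c • jmap ι n y b) := (isPair_units_smul _).2 hP
  have hcomm : ∀ (a : F) (x : B), algebraMap F B a * x = x * algebraMap F B a :=
    fun a x => Algebra.commutes _ _
  have hιi : ∀ x : B, x ≠ 0 → ι x ≠ 0 := by
    intro x hx h0
    exact hx (ι.injective (by rw [h0, map_zero]))
  -- the lattice
  let N'' : AddSubgroup B :=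
    { carrier := {β | ∀ x ∈ y.1, ι β * x ∈ cen D c • prodLat ι b.1 y.1}
      add_mem' := by
        intro p q hp hq x hx
        rw [map_add, add_mul]
        exact AddSubgroup.add_mem _ (hp x hx) (hq x hx)
      zero_mem' := by
        intro x hx
        rw [map_zero, zero_mul]
        exact AddSubgroup.zero_mem _
      neg_mem' := by
        intro p hp x hx
        rw [map_neg, neg_mul]
        exact AddSubgroup.neg_mem _ (hp x hx) }
  have hN''mem : ∀ {β : B}, β ∈ N'' ↔ ∀ x ∈ y.1, ι β * x ∈ cen D c • prodLat ι b.1 y.1 :=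
    fun {β} => Iff.rfl
  -- consequences of a local generator
  have hcore : ∀ {m1 m2 m3 : F} {x0 y0 y0' : B}, x0 ∈ b.1 → y0 ∈ b₀.1 → y0' ∈ b₀'.1 →
      x0 ≠ 0 → y0 ≠ 0 → y0' ≠ 0 →
      (∀ ν ∈ b.1, ∃ a ∈ OB ι y.1, algebraMap F B m1 * ν = x0 * a) →
      (∀ ν ∈ b₀.1, ∃ a ∈ OB ι y.1, algebraMap F B m2 * ν = y0 * a) →
      (∀ ν ∈ b₀'.1, ∃ a ∈ OB ι y.1, algebraMap F B m3 * ν = y0' * a) →
      algebraMap F B m2 * (x0 * y0⁻¹ * y0') ∈ N'' ∧
      (∀ p ∈ cen D c • prodLat ι b.1 y.1, ∃ x ∈ y.1,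
        ι (algebraMap F B (m1 * m3)) * p = ι (x0 * y0⁻¹ * y0') * x) ∧
      (∀ β ∈ N'', ∃ a ∈ OB ι y.1, algebraMap F B (m1 * m3) * β = (x0 * y0⁻¹ * y0') * a) := by
    intro m1 m2 m3 x0 y0 y0' hx0m hy0m hy0'm hx0 hy0 hy0' h1 h2 h3
    obtain ⟨hA, hB⟩ := am_core hcc (hcomm m1) (hcomm m2) (hcomm m3) hy0 hx0m hy0m hy0'm h1 h2 h3 hN
    rw [← map_mul] at hB
    refine ⟨hA, hB, ?_⟩
    intro β hβ
    have ht : x0 * y0⁻¹ * y0' ≠ 0 := mul_ne_zero (mul_ne_zero hx0 (inv_ne_zero hy0)) hy0'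
    refine ⟨(x0 * y0⁻¹ * y0')⁻¹ * (algebraMap F B (m1 * m3) * β), ?_, ?_⟩
    · intro x hx
      obtain ⟨x', hx', hxe⟩ := hB _ (hβ x hx)
      have e1 : ι ((x0 * y0⁻¹ * y0')⁻¹ * (algebraMap F B (m1 * m3) * β)) * x = x' := by
        rw [map_mul ι (x0 * y0⁻¹ * y0')⁻¹, map_inv₀ ι (x0 * y0⁻¹ * y0'),
          map_mul ι (algebraMap F B (m1 * m3)) β, mul_assoc,
          mul_assoc (ι (algebraMap F B (m1 * m3))), hxe, inv_mul_cancel_left₀ (hιi _ ht)]
      rw [e1]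
      exact hx'
    · rw [mul_inv_cancel_left₀ ht]
  have hN''lat : IsLat F (OB ι y.1) N'' := by
    refine ⟨?_, ?_⟩
    · intro β hβ a ha x hx
      rw [map_mul, mul_assoc]
      exact hβ _ (ha x hx)
    · intro v hv
      obtain ⟨x0, hx0m, hx0, m1, hm1, h1⟩ := hb.1.2 v hv
      obtain ⟨y0, hy0m, hy0, m2, hm2, h2⟩ := hb₀.1.2 v hv
      obtain ⟨y0', hy0'm, hy0', m3, hm3, h3⟩ := hb₀'.1.2 v hv
      obtain ⟨hA, _, hC⟩ := hcore hx0m hy0m hy0'm hx0 hy0 hy0' h1 h2 h3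
      have hm20 : algebraMap F B (m2 : F) ≠ 0 := by
        intro h0
        have h5 : (m2 : F) = 0 := (algebraMap F B).injective (by rw [h0, map_zero])
        have h6 : m2 = 0 := NumberField.RingOfIntegers.ext h5
        exact hm2 (by rw [h6]; exact v.zero_mem)
      refine ⟨_, hA, mul_ne_zero hm20 (mul_ne_zero (mul_ne_zero hx0 (inv_ne_zero hy0)) hy0'),
        m2 * (m1 * m3), ?_, ?_⟩
      · intro h0
        rcases hv.isPrime.mem_or_mem h0 with h0 | h0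
        · exact hm2 h0
        · rcases hv.isPrime.mem_or_mem h0 with h0 | h0
          · exact hm1 h0
          · exact hm3 h0
      · intro β hβ
        obtain ⟨a, ha, hae⟩ := hC β hβ
        refine ⟨a, ha, ?_⟩
        have e1 : ((m2 * (m1 * m3) : 𝓞 F) : F) = (m2 : F) * ((m1 : F) * (m3 : F)) := rfl
        rw [e1, map_mul, mul_assoc, hae]
        exact (mul_assoc _ _ _).symm
  -- the product of the new lattice with the lattice of `y`
  have hprod : prodLat ι N'' y.1 = cen D c • prodLat ι b.1 y.1 := by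
    apply le_antisymm
    · rw [prodLat_le_iff]
      intro β hβ x hx
      exact hβ x hx
    · intro p hp
      have hlat := hdat.isLat_prodLat hN''lat
      refine local_principle (K := F') (fun m x hx => hlat.smul_mem hdat.hO m hx) ?_
      intro w hw
      have hv : (w.comap (algebraMap (𝓞 F) (𝓞 F'))).IsMaximal :=
        Ideal.isMaximal_comap_of_isIntegral_of_isMaximal w
      obtain ⟨x0, hx0m, hx0, m1, hm1, h1⟩ := hb.1.2 _ hv
      obtain ⟨y0, hy0m, hy0, m2, hm2, h2⟩ := hb₀.1.2 _ hv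
      obtain ⟨y0', hy0'm, hy0', m3, hm3, h3⟩ := hb₀'.1.2 _ hv
      obtain ⟨hA, hB, _⟩ := hcore hx0m hy0m hy0'm hx0 hy0 hy0' h1 h2 h3
      refine ⟨algebraMap (𝓞 F) (𝓞 F') (m2 * (m1 * m3)), ?_, ?_⟩
      · intro h0
        have h0' : m2 * (m1 * m3) ∈ w.comap (algebraMap (𝓞 F) (𝓞 F')) := h0
        rcases hv.isPrime.mem_or_mem h0' with h0 | h0
        · exact hm2 h0
        · rcases hv.isPrime.mem_or_mem h0 with h0 | h0
          · exact hm1 h0
          · exact hm3 h0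
      · obtain ⟨x, hx, hxe⟩ := hB p hp
        have e1 : algebraMap F' D ((algebraMap (𝓞 F) (𝓞 F') (m2 * (m1 * m3)) : 𝓞 F') : F') =
            ι (algebraMap F B (m2 : F)) * ι (algebraMap F B ((m1 : F) * (m3 : F))) := by
          rw [← map_mul, ← map_mul, hdat.hι]
          rfl
        rw [e1, mul_assoc, hxe, ← mul_assoc, ← map_mul]
        exact mem_prodLat hA hx
  -- generators mod n
  obtain ⟨lB, hlB, hlB0⟩ := am_nonzero hdat.hn hlev hb
  obtain ⟨l0, hl0, hl00⟩ := am_nonzero hdat.hn hlev hb₀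
  obtain ⟨l0', hl0', hl0'0⟩ := am_nonzero hdat.hn hlev hb₀'
  obtain ⟨hlBm, hgB, hSB⟩ := hb.of_mem hlev hlB
  obtain ⟨hl0m, hg0, hS0⟩ := hb₀.of_mem hlev hl0
  obtain ⟨hl0'm, hg0', hS0'⟩ := hb₀'.of_mem hlev hl0'
  obtain ⟨r1, j1, hr1, hd1⟩ := am_gen_int hO hb.1 hgB
  obtain ⟨r2, j2, hr2, hd2⟩ := am_gen_int hO hb₀.1 hg0
  obtain ⟨r3, j3, hr3, hd3⟩ := am_gen_int hO hb₀'.1 hg0'
  have hcast : ∀ r : ℤ, algebraMap F B (r : F) = (r : B) := fun r => map_intCast _ r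
  obtain ⟨hA, hB, hC⟩ := hcore (m1 := (r1 : F)) (m2 := (r2 : F)) (m3 := (r3 : F))
    hlBm hl0m hl0'm hlB0 hl00 hl0'0 (by rw [hcast]; exact hd1) (by rw [hcast]; exact hd2)
    (by rw [hcast]; exact hd3)
  have hcast2 : algebraMap F B ((r1 : F) * (r3 : F)) = ((r1 * r3 : ℤ) : B) := by
    rw [← Int.cast_mul, hcast]
  rw [hcast] at hA
  rw [hcast2] at hB hC
  set t : B := lB * l0⁻¹ * l0' with ht
  have ht0 : t ≠ 0 := mul_ne_zero (mul_ne_zero hlB0 (inv_ne_zero hl00)) hl0'0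
  set l : B := (r2 : B) * t with hl
  obtain ⟨j, hj⟩ : ∃ j : ℤ, r1 * r3 * r2 = 1 + n * j := by
    refine ⟨j1 + j2 + j3 + n * (j1 * j2 + j1 * j3 + j2 * j3) + n * n * (j1 * j2 * j3), ?_⟩
    rw [hr1, hr2, hr3]
    ring
  have hjB : ((r1 * r3 : ℤ) : B) * (r2 : B) = 1 + (n : B) * (j : B) := by
    rw [← Int.cast_mul, hj]
    push_cast
    rfl
  have hjD : ((r1 * r3 : ℤ) : D) * (r2 : D) = 1 + (n : D) * (j : D) := by
    rw [← Int.cast_mul, hj]
    push_cast
    rfl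
  have hintc : ∀ (r : ℤ) (x : B), (r : B) * x = x * r := fun r x => Int.cast_comm r x
  have hintcD : ∀ (r : ℤ) (x : D), (r : D) * x = x * r := fun r x => Int.cast_comm r x
  -- generation of the new lattice mod n
  have hgen'' : ∀ z ∈ N'', ∃ a ∈ OB ι y.1, ∃ z' ∈ N'', z = l * a + (n : B) * z' := by
    intro z hz
    obtain ⟨a, ha, hae⟩ := hC z hz
    refine ⟨a, ha, -((j : B) * z), ?_, ?_⟩
    · apply N''.neg_mem
      rw [← zsmul_eq_mul]
      exact N''.zsmul_mem hz j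
    · have e1 : l * a = z + (n : B) * ((j : B) * z) := by
        rw [hl, mul_assoc, ← hae, ← mul_assoc, ← mul_assoc, ← hintc (r1 * r3) (r2 : B), hjB,
          add_mul, one_mul]
      rw [e1, mul_neg]
      abel
  -- cancellation
  have hcanc : ∀ x ∈ y.1, (∃ p ∈ cen D c • prodLat ι b.1 y.1, ι l * x = (n : D) * p) →
      ∃ x' ∈ y.1, x = (n : D) * x' := by
    rintro x hx ⟨p, hp, hpe⟩
    obtain ⟨x', hx', hxe⟩ := hB p hp
    rw [map_intCast] at hxe
    have e1 : ι l * x = ι t * ((r2 : D) * x) := by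
      rw [hl, map_mul, map_intCast, hintcD r2 (ι t), mul_assoc]
    have e2 : ι t * (((r1 * r3 : ℤ) : D) * ((r2 : D) * x)) = ι t * ((n : D) * x') := by
      rw [← mul_assoc, ← hintcD (r1 * r3) (ι t), mul_assoc, ← e1, hpe, ← mul_assoc,
        hintcD (r1 * r3) (n : D), mul_assoc, hxe, ← mul_assoc, ← mul_assoc,
        Nat.cast_comm n (ι t)]
    have e3 := mul_left_cancel₀ (hιi _ ht0) e2
    rw [← mul_assoc, hjD, add_mul, one_mul] at e3
    refine ⟨x' - (j : D) * x, y.1.sub_mem hx' ?_, ?_⟩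
    · rw [← zsmul_eq_mul]
      exact y.1.zsmul_mem hx j
    · rw [mul_sub, ← e3, ← mul_assoc]
      abel
  -- compatibility with the level structures
  have hSΛ : ∀ s ∈ y.2, s ∈ y.1 := fun s hs => (hdat.hy.of_mem hdat.hH hs).1
  have hlS : ∀ s ∈ y.2, ι l * s ∈ (cen D c • jmap ι n y b).2 := by
    intro s hs
    have e1 : ι l0' * s ∈ (jmap ι n y b₀').2 :=
      ⟨l0', hl0', s, hs, 0, AddSubgroup.zero_mem _, by rw [mul_zero, add_zero]⟩
    rw [hS] at e1
    obtain ⟨q, hq, hqe⟩ := am_mem_smul_set.1 e1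
    obtain ⟨β, hβ, s', hs', p0, hp0, rfl⟩ := hq
    rw [hS0] at hβ
    obtain ⟨g, hg, ν, hν, rfl⟩ := hβ
    have hgs : ι g * s' ∈ y.2 := hSL.stab g hg s' hs'
    -- the element of the product lattice
    have hp1 : ι ν * s' + p0 ∈ prodLat ι b₀.1 y.1 :=
      AddSubgroup.add_mem _ (mem_prodLat hν (hSΛ _ hs')) hp0
    obtain ⟨x, hx, hxe⟩ := am_div hd2 hp1
    rw [map_intCast] at hxe
    -- `ι l s = c (ι lB s'' + n (ι lB x + j2 ι lB s''))`
    refine am_mem_smul_set.2 ⟨ι lB * (ι g * s') + (n : D) * ((j2 : D) * (ι lB * (ι g * s')) +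
      ι lB * x), ?_, ?_⟩
    · refine ⟨lB, hlB, ι g * s', hgs, _, ?_, rfl⟩
      refine AddSubgroup.add_mem _ ?_ (mem_prodLat hlBm hx)
      rw [← zsmul_eq_mul]
      exact AddSubgroup.zsmul_mem _ (mem_prodLat hlBm (hSΛ _ hgs)) j2
    · have hr2D : (r2 : D) = 1 + (n : D) * (j2 : D) := by
        rw [hr2]
        push_cast
        rfl
      have hil0 : ι l0 ≠ 0 := hιi _ hl00
      have e2 : ι (l0 * g + (n : B) * ν) * s' + (n : D) * p0 =
          ι l0 * (ι g * s') + (n : D) * (ι ν * s' + p0) := by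
        rw [map_add, map_mul, map_mul, map_natCast, add_mul, mul_add, mul_assoc, mul_assoc,
          add_assoc]
      have e3 : ι l * s = ι (lB * l0⁻¹) * ((r2 : D) * (ι l0' * s)) := by
        rw [hl, ht, hintc r2, map_mul, map_mul, map_intCast, mul_assoc, mul_assoc,
          hintcD r2 (ι l0' * s), mul_assoc (ι l0'), hintcD r2 s]
      rw [e3, ← hqe, e2, ← mul_assoc (r2 : D), hintcD r2 (cen D c : D), mul_assoc, ← mul_assoc
        (ι (lB * l0⁻¹)), ← hcc (ι (lB * l0⁻¹)), mul_assoc]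
      congr 1
      rw [mul_add (r2 : D), ← mul_assoc (r2 : D) (n : D), hintcD r2 (n : D), mul_assoc (n : D),
        hxe, mul_add (ι (lB * l0⁻¹))]
      have e4 : ι (lB * l0⁻¹) * ((r2 : D) * (ι l0 * (ι g * s'))) =
          (r2 : D) * (ι lB * (ι g * s')) := by
        rw [← mul_assoc, ← hintcD r2 (ι (lB * l0⁻¹)), mul_assoc, map_mul, map_inv₀, mul_assoc,
          inv_mul_cancel_left₀ hil0]
      have e5 : ι (lB * l0⁻¹) * ((n : D) * (ι l0 * x)) = (n : D) * (ι lB * x) := by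
        rw [← mul_assoc, ← Nat.cast_comm n (ι (lB * l0⁻¹)), mul_assoc, map_mul, map_inv₀,
          mul_assoc, inv_mul_cancel_left₀ hil0]
      rw [e4, e5, hr2D, add_mul, one_mul, mul_add (n : D), mul_assoc (n : D)]
      abel
  -- the new pair
  let T'' : Set B := {β | β ∈ N'' ∧ ∀ s ∈ y.2, ι β * s ∈ (cen D c • jmap ι n y b).2}
  have hT''eq : T'' = {s | ∃ g ∈ HB ι y, ∃ z ∈ N'', s = l * g + (n : B) * z} := by
    ext β
    constructor
    · rintro ⟨hβN, hβS⟩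
      obtain ⟨a, ha, z, hz, rfl⟩ := hgen'' β hβN
      refine ⟨a, ⟨ha, ?_⟩, z, hz, rfl⟩
      intro s hs
      have e1 := hβS s hs
      rw [(hcP.of_mem hdat.hH (hlS s hs)).2.2] at e1
      obtain ⟨g, hg, p, hp, hpe⟩ := e1
      have hp' : p ∈ cen D c • prodLat ι b.1 y.1 := hp
      have hzs : ι z * s ∈ cen D c • prodLat ι b.1 y.1 := hz s (hSΛ s hs)
      have hsg : s * g ∈ y.2 := hdat.hy.mul_mem hdat.hH hs hg
      have e2 : ι l * (ι a * s - s * g) = (n : D) * (p - ι z * s) := by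
        have e3 : ι l * (ι a * s) + (n : D) * (ι z * s) = ι l * s * g + (n : D) * p := by
          rw [← hpe, map_add, map_mul ι l a, map_mul ι (n : B) z, map_natCast, add_mul,
            mul_assoc, mul_assoc]
        rw [mul_sub, mul_sub, ← mul_assoc (ι l) s g]
        rw [sub_eq_sub_iff_add_eq_add, e3, add_comm]
      obtain ⟨x', hx', hxe⟩ := hcanc (ι a * s - s * g)
        (y.1.sub_mem (ha s (hSΛ s hs)) (hSΛ _ hsg)) ⟨_, AddSubgroup.sub_mem _ hp' hzs, e2⟩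
      have e4 : ι a * s = s * g + (n : D) * x' := by
        rw [← hxe]
        abel
      rw [e4]
      exact hdat.hy.add_mem hdat.hH hsg hx'
    · rintro ⟨g, hg, z, hz, rfl⟩
      have hnz : (n : B) * z ∈ N'' := by
        rw [← nsmul_eq_mul]
        exact N''.nsmul_mem hz n
      refine ⟨N''.add_mem (hN''lat.1 l hA g hg.1) hnz, ?_⟩
      intro s hs
      have e1 : ι (l * g + (n : B) * z) * s = ι l * (ι g * s) + (n : D) * (ι z * s) := by
        rw [map_add, map_mul ι l g, map_mul ι (n : B) z, map_natCast, add_mul, mul_assoc,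
          mul_assoc]
      rw [e1]
      exact hcP.add_mem hdat.hH (hlS _ (hg.2 s hs)) (hz s (hSΛ s hs))
  have hpair : IsPair F (OB ι y.1) n (HB ι y) (N'', T'') :=
    ⟨hN''lat, l, hA, hgen'', hT''eq⟩
  refine ⟨(N'', T''), hpair, ?_⟩
  obtain ⟨s, hs⟩ := hdat.hy.nonempty hdat.hH
  have hlT : l ∈ T'' := by
    rw [hT''eq]
    exact ⟨1, hlev.one, 0, N''.zero_mem, by rw [mul_one, mul_zero, add_zero]⟩
  exact IsPair.eq_of_common hdat.hH (hdat.isPair_jmap hSL hpair) hcP hprod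
    ⟨l, hlT, s, hs, 0, AddSubgroup.zero_mem _, by rw [mul_zero, add_zero]⟩ (hlS s hs)

end Pool.Agent.Helper93.WS
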