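import Pool.Agent.Helper93.WS.Level

/-!
# Multiplication by central elements and neighbours
-/

open scoped Pointwise NumberField

namespace Pool.Agent.Helper93.WS

/-- A nonzero ideal is locally principal. -/
private theorem am_local_gen {K : Type*} [Field K] [NumberField K] {J : Ideal (𝓞 K)}
    (hJ : J ≠ ⊥) {w : Ideal (𝓞 K)} (hw : w.IsMaximal) :
    ∃ p ∈ J, p ≠ 0 ∧ ∃ c : 𝓞 K, c ∉ w ∧ ∀ a ∈ J, ∃ b : 𝓞 K, c * a = p * b := by
  have hne : J * w ≠ J := by
    intro h
    have h1 : J * w = J * 1 := by rw [h, mul_one]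
    have h2 : w = 1 := mul_left_cancel₀ (by rwa [Ideal.zero_eq_bot]) h1
    exact hw.ne_top (by rw [h2, Ideal.one_eq_top])
  have hlt : J * w < J := lt_of_le_of_ne Ideal.mul_le_left hne
  obtain ⟨p, hpJ, hp2⟩ := SetLike.exists_of_lt hlt
  have hp0 : p ≠ 0 := by
    rintro rfl
    exact hp2 (Ideal.zero_mem _)
  have hdvd : J ∣ Ideal.span {p} := by
    rw [Ideal.dvd_span_singleton]; exact hpJ
  obtain ⟨I, hI⟩ := hdvd
  have hnI : ¬ I ≤ w := by
    intro hle
    apply hp2
    have h1 : Ideal.span {p} ≤ J * w := by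
      rw [hI]
      exact Ideal.mul_mono_right hle
    exact h1 (Ideal.mem_span_singleton_self p)
  obtain ⟨c, hcI, hcw⟩ := SetLike.not_le_iff_exists.mp hnI
  refine ⟨p, hpJ, hp0, c, hcw, ?_⟩
  intro a ha
  have h2 : c * a ∈ Ideal.span {p} := by
    rw [hI, mul_comm J I]
    exact Ideal.mul_mem_mul hcI ha
  rw [Ideal.mem_span_singleton] at h2
  obtain ⟨b, hb⟩ := h2
  exact ⟨b, hb⟩

/-- The product of a nonzero ideal and a lattice is a lattice. -/
theorem isLat_idealMul {K : Type*} [Field K] [NumberField K] {D : Type*} [DivisionRing D]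
    [Algebra K D] {O : Subring D} (hO : IsOrder K O) {Λ : AddSubgroup D} (hΛ : IsLat K O Λ)
    {J : Ideal (𝓞 K)} (hJ : J ≠ ⊥) : IsLat K O (idealMul K J Λ) := by
  refine ⟨fun x hx a ha => idealMul_mul_mem (fun z hz => hΛ.1 z hz a ha) hx, ?_⟩
  intro w hw
  obtain ⟨x, hx, hx0, m, hm, hmΛ⟩ := hΛ.2 w hw
  obtain ⟨p, hp, hp0, c, hc, hcJ⟩ := am_local_gen hJ hw
  have hp1 : (p : K) ≠ 0 := by
    intro h
    exact hp0 (NumberField.RingOfIntegers.ext h)
  refine ⟨algebraMap K D (p : K) * x, mem_idealMul hp hx, mul_ne_zero ?_ hx0, c * m, ?_, ?_⟩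
  · rw [Ne, map_eq_zero]
    exact hp1
  · intro h
    rcases hw.isPrime.mem_or_mem h with h | h
    · exact hc h
    · exact hm h
  · intro z hz
    induction hz using AddSubgroup.closure_induction with
    | mem z hz =>
      obtain ⟨q, hq, t, ht, rfl⟩ := hz
      obtain ⟨b, hb⟩ := hcJ q hq
      obtain ⟨a, ha, hae⟩ := hmΛ t ht
      refine ⟨algebraMap K D (b : K) * a, O.mul_mem (hO.1 b) ha, ?_⟩
      have e0 : ((c * m : 𝓞 K) : K) * (q : K) = (p : K) * (b : K) * (m : K) := by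
        have e1 : (c : K) * (q : K) = (p : K) * (b : K) :=
          congrArg (fun z : 𝓞 K => (z : K)) hb
        have e2 : ((c * m : 𝓞 K) : K) = (c : K) * (m : K) := rfl
        rw [e2, ← e1]
        ring
      rw [← mul_assoc, ← map_mul, e0, map_mul, map_mul, mul_assoc, hae]
      have e3 : algebraMap K D (b : K) * (x * a) = x * (algebraMap K D (b : K) * a) := by
        rw [← mul_assoc, Algebra.commutes (b : K) x, mul_assoc]
      rw [mul_assoc, e3, mul_assoc]
    | zero => exact ⟨0, O.zero_mem, by rw [mul_zero, mul_zero]⟩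
    | add u v _ _ hu hv =>
      obtain ⟨a, ha, hua⟩ := hu
      obtain ⟨b, hb, hvb⟩ := hv
      exact ⟨a + b, O.add_mem ha hb, by rw [mul_add, mul_add, hua, hvb]⟩
    | neg u _ hu =>
      obtain ⟨a, ha, hua⟩ := hu
      exact ⟨-a, O.neg_mem ha, by rw [mul_neg, mul_neg, hua]⟩

variable {F F' : Type*} [Field F] [NumberField F] [Field F'] [NumberField F'] [Algebra F F']
  {B D : Type*} [DivisionRing B] [DivisionRing D] [Algebra F B] [Algebra F' D]
  [MulSemiringAction (F' ≃ₐ[F] F') D] {O : Subring D} {n : ℕ} {H : Set D}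
  {y : AddSubgroup D × Set D} {γ : (F' ≃ₐ[F] F') → Dˣ} {ι : B →+* D}

/-- products of lattices are stable under the integers -/
private theorem am_prodLat_smul (hdat : Datum O n H y γ ι) {N : AddSubgroup B} (a : 𝓞 F') {x : D}
    (hx : x ∈ prodLat ι N y.1) : algebraMap F' D (a : F') * x ∈ prodLat ι N y.1 := by
  induction hx using AddSubgroup.closure_induction with
  | mem x hx =>
    obtain ⟨β, hβ, z, hz, rfl⟩ := hx
    have e1 : algebraMap F' D (a : F') * (ι β * z) = ι β * (algebraMap F' D (a : F') * z) := by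
      rw [← mul_assoc, ← mul_assoc, Algebra.commutes (a : F') (ι β)]
    rw [e1]
    exact mem_prodLat hβ (IsLat.smul_mem hdat.hO hdat.hy.1 a hz)
  | zero => rw [mul_zero]; exact AddSubgroup.zero_mem _
  | add x x' _ _ h h' => rw [mul_add]; exact AddSubgroup.add_mem _ h h'
  | neg x _ h => rw [mul_neg]; exact AddSubgroup.neg_mem _ h

private theorem am_iota_alg (hdat : Datum O n H y γ ι) (a : 𝓞 F) (β : B) (z : D) :
    algebraMap F' D ((algebraMap (𝓞 F) (𝓞 F') a : 𝓞 F') : F') * (ι β * z) =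
      ι (algebraMap F B (a : F) * β) * z := by
  rw [map_mul, hdat.hι, mul_assoc]
  rfl

/-- `v (N Λ) = (v N) Λ` -/
private theorem am_prodLat_idealMul (hdat : Datum O n H y γ ι) (v : Ideal (𝓞 F))
    (N : AddSubgroup B) :
    prodLat ι (idealMul F v N) y.1 =
      idealMul F' (v.map (algebraMap (𝓞 F) (𝓞 F'))) (prodLat ι N y.1) := by
  apply le_antisymm
  · rw [prodLat_le_iff]
    intro β hβ x hx
    induction hβ using AddSubgroup.closure_induction with
    | mem β hβ =>
      obtain ⟨a, ha, β', hβ', rfl⟩ := hβ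
      rw [← am_iota_alg hdat]
      exact mem_idealMul (Ideal.mem_map_of_mem _ ha) (mem_prodLat hβ' hx)
    | zero => rw [map_zero, zero_mul]; exact AddSubgroup.zero_mem _
    | add β β' _ _ h h' => rw [map_add, add_mul]; exact AddSubgroup.add_mem _ h h'
    | neg β _ h => rw [map_neg, neg_mul]; exact AddSubgroup.neg_mem _ h
  · rw [idealMul_le_iff]
    intro a ha
    rw [Ideal.map] at ha
    induction ha using Submodule.span_induction with
    | mem a ha =>
      obtain ⟨a0, ha0, rfl⟩ := ha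
      intro x hx
      induction hx using AddSubgroup.closure_induction with
      | mem x hx =>
        obtain ⟨β, hβ, z, hz, rfl⟩ := hx
        rw [am_iota_alg hdat]
        exact mem_prodLat (mem_idealMul ha0 hβ) hz
      | zero => rw [mul_zero]; exact AddSubgroup.zero_mem _
      | add x x' _ _ h h' => rw [mul_add]; exact AddSubgroup.add_mem _ h h'
      | neg x _ h => rw [mul_neg]; exact AddSubgroup.neg_mem _ h
    | zero =>
      intro x _
      simp only [map_zero, zero_mul]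
      exact AddSubgroup.zero_mem _
    | add a a' _ _ h h' =>
      intro x hx
      have e1 : ((a + a' : 𝓞 F') : F') = (a : F') + (a' : F') := rfl
      rw [e1, map_add, add_mul]
      exact AddSubgroup.add_mem _ (h x hx) (h' x hx)
    | smul c a _ h =>
      intro x hx
      have e1 : ((c • a : 𝓞 F') : F') = (c : F') * (a : F') := rfl
      rw [e1, map_mul, mul_assoc]
      exact am_prodLat_smul hdat c (h x hx)

/-- Comparison of lattices of `B` through their products. -/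
private theorem am_le_of_prodLat (hdat : Datum O n H y γ ι) {N N' : AddSubgroup B}
    (hN' : IsLat F (OB ι y.1) N') (h : prodLat ι N y.1 ≤ prodLat ι N' y.1) : N ≤ N' :=
  fun _ hβ => hdat.recover hN' fun _ hx => h (mem_prodLat hβ hx)

/-- The image of the pair on a sublattice prime to `n`. -/
private theorem am_jmap_sub (hdat : Datum O n H y γ ι) {b : AddSubgroup B × Set B}
    (hb : IsPair F (OB ι y.1) n (HB ι y) b) {N : AddSubgroup B}
    (hN : IsLat F (OB ι y.1) N) (hle : N ≤ b.1) {v : Ideal (𝓞 F)} (hv : v.IsMaximal)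
    (hnv : (n : 𝓞 F) ∉ v) (hvN : idealMul F v b.1 ≤ N) :
    IsPair F (OB ι y.1) n (HB ι y) (N, b.2 ∩ (N : Set B)) ∧
      jmap ι n y (N, b.2 ∩ (N : Set B)) =
        (prodLat ι N y.1, (jmap ι n y b).2 ∩ (prodLat ι N y.1 : Set D)) := by
  have hsub := hdat.subLevel_HB
  have hcond : ∀ w : Ideal (𝓞 F), w.IsMaximal → v ≤ w → (n : 𝓞 F) ∉ w := by
    intro w hw hvw
    rw [← hv.eq_of_le hw.ne_top hvw]
    exact hnv
  obtain ⟨u, hu, t, hut⟩ := exists_unit_mod hcond
  have hq : IsPair F (OB ι y.1) n (HB ι y) (N, b.2 ∩ (N : Set B)) :=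
    IsPair.sub_pair hdat.isOrder hsub.lev hb hN hle (fun x hx => hvN (mem_idealMul hu hx)) hut
  refine ⟨hq, ?_⟩
  have hpb := hdat.isPair_jmap hsub hb
  have hpq := hdat.isPair_jmap hsub hq
  have hvM : idealMul F' (v.map (algebraMap (𝓞 F) (𝓞 F'))) (prodLat ι b.1 y.1) ≤
      prodLat ι N y.1 := by
    rw [← am_prodLat_idealMul hdat]
    exact prodLat_mono hvN y.1
  have hu' : ∀ x ∈ (jmap ι n y b).1,
      algebraMap F' D ((algebraMap (𝓞 F) (𝓞 F') u : 𝓞 F') : F') * x ∈ prodLat ι N y.1 :=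
    fun x hx => hvM (mem_idealMul (Ideal.mem_map_of_mem _ hu) hx)
  have hut' : algebraMap (𝓞 F) (𝓞 F') u = 1 + (n : 𝓞 F') * algebraMap (𝓞 F) (𝓞 F') t := by
    rw [hut, map_add, map_one, map_mul, map_natCast]
  have hsp : IsPair F' O n H
      (prodLat ι N y.1, (jmap ι n y b).2 ∩ (prodLat ι N y.1 : Set D)) :=
    IsPair.sub_pair hdat.hO hdat.hH hpb (hdat.isLat_prodLat hN) (prodLat_mono hle y.1) hu' hut'
  obtain ⟨β, hβ⟩ := IsPair.nonempty hsub.lev hq
  obtain ⟨s, hs⟩ := IsPair.nonempty hdat.hH hdat.hy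
  have hs1 : s ∈ y.1 := (IsPair.of_mem hdat.hH hdat.hy hs).1
  have hc1 : ι β * s ∈ (jmap ι n y (N, b.2 ∩ (N : Set B))).2 :=
    ⟨β, hβ, s, hs, 0, AddSubgroup.zero_mem _, by rw [mul_zero, add_zero]⟩
  have hc2 : ι β * s ∈ (jmap ι n y b).2 :=
    ⟨β, hβ.1, s, hs, 0, AddSubgroup.zero_mem _, by rw [mul_zero, add_zero]⟩
  have hc3 : ι β * s ∈ prodLat ι N y.1 := mem_prodLat hβ.2 hs1
  exact IsPair.eq_of_common hdat.hH hpq hsp rfl hc1 ⟨hc2, hc3⟩

/-- Multiplication by `c` respects the neighbour relation of `B`. -/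
theorem nb_cen (hdat : Datum O n H y γ ι) {c : F'ˣ} {b b₁ b' b₁' : AddSubgroup B × Set B}
    (hb' : IsPair F (OB ι y.1) n (HB ι y) b') (hb₁' : IsPair F (OB ι y.1) n (HB ι y) b₁')
    (h : jmap ι n y b' = cen D c • jmap ι n y b) (h₁ : jmap ι n y b₁' = cen D c • jmap ι n y b₁)
    {v : Ideal (𝓞 F)} (hv : v.IsMaximal) (hnv : (n : 𝓞 F) ∉ v)
    (hnb : Nb F (OB ι y.1) n (HB ι y) v b b₁) : Nb F (OB ι y.1) n (HB ι y) v b' b₁' := by
  obtain ⟨hb, hb₁, hlt, hlt₁, hb₁2⟩ := hnb
  have hv0 : v ≠ ⊥ :=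
    Ring.ne_bot_of_isMaximal_of_not_isField hv (NumberField.RingOfIntegers.not_isField F)
  have e : prodLat ι b'.1 y.1 = cen D c • prodLat ι b.1 y.1 := congrArg Prod.fst h
  have e₁ : prodLat ι b₁'.1 y.1 = cen D c • prodLat ι b₁.1 y.1 := congrArg Prod.fst h₁
  have eS : (jmap ι n y b').2 = cen D c • (jmap ι n y b).2 := congrArg Prod.snd h
  have ev : prodLat ι (idealMul F v b'.1) y.1 =
      cen D c • prodLat ι (idealMul F v b.1) y.1 := by
    rw [am_prodLat_idealMul hdat, am_prodLat_idealMul hdat, e, idealMul_units_smul]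
  -- first components
  have h1 : b₁'.1 ≤ b'.1 := by
    apply am_le_of_prodLat hdat hb'.1
    rw [e, e₁]
    exact AddSubgroup.pointwise_smul_le_pointwise_smul_iff.2 (prodLat_mono hlt₁.le y.1)
  have h2 : ¬ b'.1 ≤ b₁'.1 := by
    intro hle
    apply not_le_of_gt hlt₁
    apply am_le_of_prodLat hdat hb₁.1
    have h3 := prodLat_mono (ι := ι) hle y.1
    rw [e, e₁] at h3
    exact AddSubgroup.pointwise_smul_le_pointwise_smul_iff.1 h3
  have h3 : idealMul F v b'.1 ≤ b₁'.1 := by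
    apply am_le_of_prodLat hdat hb₁'.1
    rw [ev, e₁]
    exact AddSubgroup.pointwise_smul_le_pointwise_smul_iff.2 (prodLat_mono hlt.le y.1)
  have h4 : ¬ b₁'.1 ≤ idealMul F v b'.1 := by
    intro hle
    apply not_le_of_gt hlt
    apply am_le_of_prodLat hdat (isLat_idealMul hdat.isOrder hb.1 hv0)
    have h5 := prodLat_mono (ι := ι) hle y.1
    rw [ev, e₁] at h5
    exact AddSubgroup.pointwise_smul_le_pointwise_smul_iff.1 h5
  -- second components
  obtain ⟨hq, hjq⟩ := am_jmap_sub hdat hb hb₁.1 hlt₁.le hv hnv hlt.le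
  obtain ⟨hq', hjq'⟩ := am_jmap_sub hdat hb' hb₁'.1 h1 hv hnv h3
  have hbq : b₁ = (b₁.1, b.2 ∩ (b₁.1 : Set B)) := Prod.ext rfl hb₁2
  have h5 : jmap ι n y b₁' = jmap ι n y (b₁'.1, b'.2 ∩ (b₁'.1 : Set B)) := by
    rw [h₁, hjq', hbq, hjq, eS, e₁]
    refine Prod.ext rfl ?_
    change cen D c • ((jmap ι n y b).2 ∩ (prodLat ι b₁.1 y.1 : Set D)) =
      cen D c • (jmap ι n y b).2 ∩ ((cen D c • prodLat ι b₁.1 y.1 : AddSubgroup D) : Set D)
    rw [Set.smul_set_inter]
    rfl
  have h6 := hdat.jmap_injective hb₁' hq' h5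
  refine ⟨hb', hb₁', lt_of_le_not_ge h3 h4, lt_of_le_not_ge h1 h2, congrArg Prod.snd h6⟩

end Pool.Agent.Helper93.WS
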