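import Pool.Agent.Helper93.WS.Latt
import Pool.Agent.Helper7.WS.Fin

/-!
# Finiteness of the number of classes of pairs
-/

open scoped Pointwise NumberField

namespace Pool.Agent.Helper93.WS

variable {K : Type*} [Field K] [NumberField K] {D : Type*} [DivisionRing D] [Algebra K D]
  [FiniteDimensional K D] {O : Subring D} {n : ℕ} {H : Set D}

/-- A finitely generated group has finitely many classes modulo `n`. -/
private lemma exists_reps {D : Type*} [Ring D] {L : AddSubgroup D} (hL : L.FG) {n : ℕ}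
    (hn : n ≠ 0) :
    ∃ F : Set D, F.Finite ∧ ∀ x ∈ L, ∃ f ∈ F, ∃ z ∈ L, x = f + (n : D) * z := by
  classical
  obtain ⟨G, hG⟩ := hL
  have : NeZero n := ⟨hn⟩
  refine ⟨Set.range (fun c : G → Fin n => ∑ g : G, ((c g : ℕ) : D) * (g : D)),
    Set.finite_range _, fun x hx => ?_⟩
  rw [← hG] at hx ⊢
  have hn' : (n : ℤ) ≠ 0 := by exact_mod_cast hn
  have hx' : ∃ a : G → ℤ, x = ∑ g : G, (a g : D) * (g : D) := by
    induction hx using AddSubgroup.closure_induction with
    | mem x hx =>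
      refine ⟨fun g => if g = ⟨x, hx⟩ then 1 else 0, ?_⟩
      rw [Finset.sum_eq_single ⟨x, hx⟩]
      · simp
      · intro b _ hb
        simp [hb]
      · intro h
        exact (h (Finset.mem_univ _)).elim
    | zero => exact ⟨0, by simp⟩
    | add x y _ _ hx hy =>
      obtain ⟨a, ha⟩ := hx
      obtain ⟨b, hb⟩ := hy
      exact ⟨a + b, by rw [ha, hb, ← Finset.sum_add_distrib]; simp [add_mul]⟩
    | neg x _ hx =>
      obtain ⟨a, ha⟩ := hx
      exact ⟨-a, by rw [ha, ← Finset.sum_neg_distrib]; simp⟩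
  obtain ⟨a, ha⟩ := hx'
  have hlt : ∀ g, (a g % (n : ℤ)).toNat < n := by
    intro g
    have h1 := Int.emod_lt_of_pos (a g) (by omega : (0 : ℤ) < n)
    have h2 := Int.emod_nonneg (a g) hn'
    omega
  refine ⟨_, ⟨fun g => ⟨(a g % (n : ℤ)).toNat, hlt g⟩, rfl⟩,
    ∑ g : G, ((a g / (n : ℤ) : ℤ) : D) * (g : D), ?_, ?_⟩
  · refine AddSubgroup.sum_mem _ fun g _ => ?_
    rw [← zsmul_eq_mul]
    exact AddSubgroup.zsmul_mem _ (AddSubgroup.subset_closure g.2) _
  · rw [ha, Finset.mul_sum, ← Finset.sum_add_distrib]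
    refine Finset.sum_congr rfl fun g _ => ?_
    rw [← mul_assoc, ← add_mul]
    congr 1
    have h1 : (((a g % (n : ℤ)).toNat : ℕ) : ℤ) = a g % (n : ℤ) :=
      Int.toNat_of_nonneg (Int.emod_nonneg _ hn')
    have h2 : a g = (((a g % (n : ℤ)).toNat : ℕ) : ℤ) + (n : ℤ) * (a g / (n : ℤ)) := by
      rw [h1]
      exact (Int.emod_add_mul_ediv _ _).symm
    have h3 := congrArg (Int.cast : ℤ → D) h2
    push_cast at h3
    exact h3

theorem finite_classes (hO : IsOrder K O) (hn : n ≠ 0) (hH : IsLevel O n H) :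
    ∃ R : Finset (AddSubgroup D × Set D), ∀ y, IsPair K O n H y →
      ∃ d : Dˣ, ∃ r ∈ R, y = d • r := by
  classical
  have : CharZero D := charZero_of_injective_algebraMap (algebraMap K D).injective
  have : IsScalarTower ℚ K D := inferInstance
  have : FiniteDimensional ℚ D := FiniteDimensional.trans ℚ K D
  obtain ⟨T, hT, hTL⟩ := Pool.Agent.Helper7.WS.finite_classes O (fun d => by
    obtain ⟨m, hm, hm'⟩ := hO.2.2 d
    refine ⟨m, Nat.pos_of_ne_zero hm, ?_⟩
    have : (m : ℚ) • d = (m : D) * d := by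
      rw [Nat.cast_smul_eq_nsmul ℚ m d, nsmul_eq_mul]
    rw [this]
    exact hm')
  -- for each lattice finitely many level structures
  have hS : ∀ L : AddSubgroup D, {S : Set D | IsPair K O n H (L, S)}.Finite := by
    intro L
    by_cases hL : L.FG
    · obtain ⟨F, hF, hFL⟩ := exists_reps hL hn
      refine Set.Finite.of_injOn (f := fun S => S ∩ F) (t := {S | S ⊆ F})
        (fun S _ => Set.inter_subset_right) ?_ hF.finite_subsets
      have key : ∀ S ∈ {S : Set D | IsPair K O n H (L, S)},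
          ∀ S' ∈ {S : Set D | IsPair K O n H (L, S)}, S ∩ F = S' ∩ F → S ⊆ S' := by
        intro S hS S' hS' h s hs
        have hsL : s ∈ L := (IsPair.of_mem hH hS hs).1
        obtain ⟨f, hf, z, hz, hsf⟩ := hFL s hsL
        have h1 : f ∈ S := by
          have : f = s + (n : D) * (-z) := by rw [hsf]; simp
          rw [this]
          exact IsPair.add_mem hH hS hs (L.neg_mem hz)
        have h2 : f ∈ S' ∩ F := h ▸ ⟨h1, hf⟩
        rw [hsf]
        exact IsPair.add_mem hH hS' h2.1 hz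
      intro S hS S' hS' h
      exact Set.Subset.antisymm (key S hS S' hS' h) (key S' hS' S hS h.symm)
    · have h0 : {S : Set D | IsPair K O n H (L, S)} = ∅ :=
        Set.eq_empty_of_forall_notMem fun S h => hL (IsLat.fg hO h.1)
      rw [h0]
      exact Set.finite_empty
  have hR : {r : AddSubgroup D × Set D | r.1 ∈ T ∧ IsPair K O n H r}.Finite := by
    refine (hT.biUnion fun L _ => (hS L).image (fun S => (L, S))).subset ?_
    rintro ⟨L, S⟩ ⟨h1, h2⟩
    exact Set.mem_biUnion h1 ⟨S, h2, rfl⟩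
  refine ⟨hR.toFinset, fun y hy => ?_⟩
  have hne : y.1 ≠ ⊥ := by
    obtain ⟨m, hm, hm'⟩ := IsLat.full hO hy.1 (1 : D)
    intro hb
    rw [hb, mul_one, AddSubgroup.mem_bot] at hm'
    exact hm (by exact_mod_cast hm')
  obtain ⟨d, hd, hdT⟩ := hTL y.1 (IsLat.fg hO hy.1) hne (fun x hx o ho => hy.1.1 x hx o ho)
  set u : Dˣ := Units.mk0 d hd with hu
  refine ⟨u⁻¹, u • y, ?_, by rw [inv_smul_smul]⟩
  rw [Set.Finite.mem_toFinset]
  refine ⟨?_, (isPair_units_smul u).2 hy⟩
  have : (u • y).1 = y.1.map (AddMonoidHom.mulLeft d) := by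
    ext x
    constructor
    · rintro ⟨a, ha, rfl⟩
      exact ⟨a, ha, rfl⟩
    · rintro ⟨a, ha, rfl⟩
      exact ⟨a, ha, rfl⟩
  rw [this]
  exact hdT

end Pool.Agent.Helper93.WS
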