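import Mathlib

/-!
# Small algebraic lemmas
-/

namespace Pool.Agent.Helper93.WS

private theorem card_cast_eq {p : ℕ} [Fact p.Prime] {k : Type*} [Field k] [CharP k p]
    {P : Type*} [Group P] [Finite P] (hP : IsPGroup p P) {X : Type*} (S : Set X) (hS : S.Finite)
    (act : P → X → X) (h1 : ∀ x ∈ S, act 1 x = x)
    (hmul : ∀ σ τ, ∀ x ∈ S, act (σ * τ) x = act σ (act τ x))
    (hst : ∀ σ, ∀ x ∈ S, act σ x ∈ S) :
    (Nat.card S : k) = (Nat.card {x : X // x ∈ S ∧ ∀ σ, act σ x = x} : k) := by
  classical
  letI : MulAction P S :=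
    { smul := fun σ x => ⟨act σ x.1, hst σ x.1 x.2⟩
      one_smul := fun x => Subtype.ext (h1 x.1 x.2)
      mul_smul := fun σ τ x => Subtype.ext (hmul σ τ x.1 x.2) }
  haveI : Finite S := hS
  have h := hP.card_modEq_card_fixedPoints (α := S)
  have h2 : (Nat.card S : k) = (Nat.card (MulAction.fixedPoints P S) : k) :=
    (CharP.natCast_eq_natCast k p).mpr h
  rw [h2]
  congr 1
  refine Nat.card_congr
    { toFun := fun x => ⟨x.1.1, x.1.2, fun σ => congrArg Subtype.val (x.2 σ)⟩
      invFun := fun x => ⟨⟨x.1, x.2.1⟩, fun σ => Subtype.ext (x.2.2 σ)⟩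
      left_inv := fun x => rfl
      right_inv := fun x => rfl }

/-- Cancellation of the non-fixed orbits of a `p`-group in characteristic `p`. -/
theorem finsum_eq_finsum_fixed {p : ℕ} [Fact p.Prime] {k : Type*} [Field k] [CharP k p]
    {P : Type*} [Group P] [Finite P] (hP : IsPGroup p P) {X : Type*} (S : Set X) (hS : S.Finite)
    (act : P → X → X) (h1 : ∀ x ∈ S, act 1 x = x)
    (hmul : ∀ σ τ, ∀ x ∈ S, act (σ * τ) x = act σ (act τ x))
    (hst : ∀ σ, ∀ x ∈ S, act σ x ∈ S) (f : X → k) (hf : ∀ σ, ∀ x ∈ S, f (act σ x) = f x) :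
    ∑ᶠ (x : X) (_ : x ∈ S), f x = ∑ᶠ (x : X) (_ : x ∈ S ∧ ∀ σ, act σ x = x), f x := by
  classical
  have hS' : Set.Finite {x : X | x ∈ S ∧ ∀ σ, act σ x = x} := hS.subset fun x hx => hx.1
  have e2 : ∑ᶠ (x : X) (_ : x ∈ S ∧ ∀ σ, act σ x = x), f x = ∑ x ∈ hS'.toFinset, f x :=
    finsum_mem_eq_finite_toFinset_sum f hS'
  rw [finsum_mem_eq_finite_toFinset_sum f hS, e2]
  rw [← Finset.sum_fiberwise_of_maps_to (s := hS.toFinset) (t := hS.toFinset.image f) (g := f)
      (fun x hx => Finset.mem_image_of_mem f hx) f,
    ← Finset.sum_fiberwise_of_maps_to (s := hS'.toFinset) (t := hS.toFinset.image f) (g := f)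
      (fun x hx => Finset.mem_image_of_mem f (hS.mem_toFinset.mpr (hS'.mem_toFinset.mp hx).1)) f]
  refine Finset.sum_congr rfl fun y _ => ?_
  have key : ∀ s : Finset X, ∑ x ∈ s with f x = y, f x = ((s.filter fun x => f x = y).card : k) * y
      := by
    intro s
    rw [Finset.sum_congr rfl (fun x hx => (Finset.mem_filter.mp hx).2 : ∀ x ∈ s.filter (fun x => f x = y), f x = y),
      Finset.sum_const, nsmul_eq_mul]
  rw [key, key]
  congr 1
  have hc := card_cast_eq (k := k) hP {x : X | x ∈ S ∧ f x = y} (hS.subset fun x hx => hx.1) act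
    (fun x hx => h1 x hx.1) (fun σ τ x hx => hmul σ τ x hx.1)
    (fun σ x hx => ⟨hst σ x hx.1, (hf σ x hx.1).trans hx.2⟩)
  have c1 : Nat.card {x : X | x ∈ S ∧ f x = y} = (hS.toFinset.filter fun x => f x = y).card := by
    rw [← Nat.card_eq_finsetCard]
    refine Nat.card_congr (Equiv.subtypeEquivRight fun x => ?_)
    simp
  have c2 : Nat.card {x : X // x ∈ {x : X | x ∈ S ∧ f x = y} ∧ ∀ σ, act σ x = x}
      = (hS'.toFinset.filter fun x => f x = y).card := by
    rw [← Nat.card_eq_finsetCard]
    refine Nat.card_congr (Equiv.subtypeEquivRight fun x => ?_)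
    simp only [Set.mem_ofPred_eq, Finset.mem_filter, Set.Finite.mem_toFinset]
    tauto
  rw [c1, c2] at hc
  exact hc

private theorem exists_common_aux {k : Type*} [Field k] {V : Type*} [AddCommGroup V] [Module k V]
    {I : Type*} (T : I → Module.End k V) (a : I → k) (n : ℕ) :
    ∀ (W : Submodule k V) [FiniteDimensional k W], W ≠ ⊥ → Module.finrank k W ≤ n →
    (∀ i, ∀ f ∈ W, T i f ∈ W) →
    (∀ i j, ∀ f ∈ W, T i (T j f) = T j (T i f)) →
    (∀ i, ∀ f ∈ W, ∃ j : ℕ, ((T i - algebraMap k (Module.End k V) (a i)) ^ j) f = 0) →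
    ∃ g ∈ W, g ≠ 0 ∧ ∀ i, T i g = a i • g := by
  induction n with
  | zero =>
    intro W _ hW hn _ _ _
    exact absurd (Submodule.finrank_eq_zero.mp (Nat.le_zero.mp hn)) hW
  | succ n ih =>
    intro W _ hW hn hstab hcomm hnil
    by_cases h : ∀ i, ∀ f ∈ W, T i f = a i • f
    · obtain ⟨g, hg, hg0⟩ := Submodule.exists_mem_ne_zero_of_ne_bot hW
      exact ⟨g, hg, hg0, fun i => h i g hg⟩
    · simp only [not_forall] at h
      obtain ⟨i, f, hf, hne⟩ := h
      set N : Module.End k V := T i - algebraMap k (Module.End k V) (a i) with hN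
      have hNa : ∀ g, N g = T i g - a i • g := fun g => by
        rw [hN, LinearMap.sub_apply, Module.algebraMap_end_apply]
      have hNW : ∀ g ∈ W, N g ∈ W := fun g hg => by
        rw [hNa]
        exact W.sub_mem (hstab i g hg) (W.smul_mem _ hg)
      have hpow : ∀ j : ℕ, (N ^ j) f ∈ W := by
        intro j
        induction j with
        | zero => simpa using hf
        | succ j hj =>
          rw [pow_succ', Module.End.mul_apply]
          exact hNW _ hj
      set K : Submodule k V := W ⊓ LinearMap.ker N with hK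
      have hKW : K ≤ W := inf_le_left
      haveI : FiniteDimensional k K := Submodule.finiteDimensional_of_le hKW
      have hKmem : ∀ g, g ∈ K ↔ g ∈ W ∧ T i g = a i • g := fun g => by
        rw [hK, Submodule.mem_inf, LinearMap.mem_ker, hNa, sub_eq_zero]
      have hfK : f ∉ K := fun hk => hne ((hKmem f).mp hk).2
      have hlt : K < W := lt_of_le_of_ne hKW fun he => hfK (he ▸ hf)
      have hKne : K ≠ ⊥ := by
        have hex := hnil i f hf
        classical
        have hj := Nat.find_spec hex
        have hj0 : Nat.find hex ≠ 0 := by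
          intro h0
          rw [h0, pow_zero, Module.End.one_apply] at hj
          exact hfK (hj ▸ K.zero_mem)
        obtain ⟨m, hm⟩ := Nat.exists_eq_succ_of_ne_zero hj0
        have hm1 : (N ^ m) f ≠ 0 := Nat.find_min hex (by omega)
        have hm2 : N ((N ^ m) f) = 0 := by
          have := hj
          rw [hm, Nat.succ_eq_add_one, pow_succ', Module.End.mul_apply] at this
          exact this
        intro hbot
        have : (N ^ m) f ∈ K := by
          rw [hK, Submodule.mem_inf]
          exact ⟨hpow m, LinearMap.mem_ker.mpr hm2⟩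
        rw [hbot, Submodule.mem_bot] at this
        exact hm1 this
      have hfr : Module.finrank k K ≤ n := by
        have := Submodule.finrank_lt_finrank_of_lt hlt
        omega
      obtain ⟨g, hg, hg0, hgi⟩ := ih K hKne hfr
        (fun j g hg => by
          rw [hKmem] at hg ⊢
          refine ⟨hstab j g hg.1, ?_⟩
          rw [hcomm i j g hg.1, hg.2, map_smul])
        (fun j l g hg => hcomm j l g (hKW hg))
        (fun j g hg => hnil j g (hKW hg))
      exact ⟨g, hKW hg, hg0, hgi⟩

/-- A commuting family of operators, each of them having one generalised eigenvalue `a i` on a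
nonzero finite-dimensional invariant subspace `W`, has a common eigenvector in `W`. -/
theorem exists_common_eigenvector {k : Type*} [Field k] {V : Type*} [AddCommGroup V] [Module k V]
    (W : Submodule k V) [FiniteDimensional k W] (hW : W ≠ ⊥) {I : Type*} (T : I → Module.End k V)
    (a : I → k) (hstab : ∀ i, ∀ f ∈ W, T i f ∈ W)
    (hcomm : ∀ i j, ∀ f ∈ W, T i (T j f) = T j (T i f))
    (hnil : ∀ i, ∀ f ∈ W, ∃ j : ℕ, ((T i - algebraMap k (Module.End k V) (a i)) ^ j) f = 0) :
    ∃ g ∈ W, g ≠ 0 ∧ ∀ i, T i g = a i • g :=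
  exists_common_aux T a (Module.finrank k W) W hW le_rfl hstab hcomm hnil

/-- Iterates of `g ↦ T g - a g` as powers of a linear map. -/
theorem iterate_eq_pow {k : Type*} [Field k] {V : Type*} [AddCommGroup V] [Module k V]
    (T : Module.End k V) (a : k) (j : ℕ) (f : V) :
    (fun g => T g - a • g)^[j] f = ((T - algebraMap k (Module.End k V) a) ^ j) f := by
  induction j with
  | zero => simp
  | succ j ih =>
    rw [Function.iterate_succ_apply', ih, pow_succ', Module.End.mul_apply, LinearMap.sub_apply,
      Module.algebraMap_end_apply]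

/-- Products of commuting operators which are locally unipotent up to scalars. -/
theorem mul_nil {k : Type*} [Field k] {V : Type*} [AddCommGroup V] [Module k V]
    (S T : Module.End k V) (hST : Commute S T) (a b : k) (f : V)
    (hS : ∃ j : ℕ, ((S - algebraMap k (Module.End k V) a) ^ j) f = 0)
    (hT : ∃ j : ℕ, ((T - algebraMap k (Module.End k V) b) ^ j) f = 0) :
    ∃ j : ℕ, ((S * T - algebraMap k (Module.End k V) (a * b)) ^ j) f = 0 := by
  obtain ⟨m, hm⟩ := hS
  obtain ⟨n, hn⟩ := hT
  set A : Module.End k V := S - algebraMap k (Module.End k V) a with hA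
  set B : Module.End k V := T - algebraMap k (Module.End k V) b with hB
  have cAB : Commute A B := by
    refine Commute.sub_left (Commute.sub_right hST ?_) (Commute.sub_right ?_ ?_)
    · exact Algebra.commute_algebraMap_right _ _
    · exact Algebra.commute_algebraMap_left _ _
    · exact Algebra.commute_algebraMap_left _ _
  have cAT : Commute A T := Commute.sub_left hST (Algebra.commute_algebraMap_left _ _)
  have cBT : Commute B T := Commute.sub_left (Commute.refl _) (Algebra.commute_algebraMap_left _ _)
  have e : S * T - algebraMap k (Module.End k V) (a * b)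
      = A * T + algebraMap k (Module.End k V) a * B := by
    rw [hA, hB, map_mul, sub_mul, mul_sub]
    abel
  have c1 : Commute (A * T) (algebraMap k (Module.End k V) a * B) :=
    Commute.mul_left (Commute.mul_right (Algebra.commute_algebraMap_right _ _) cAB)
      (Commute.mul_right (Algebra.commute_algebraMap_right _ _) cBT.symm)
  refine ⟨m + n, ?_⟩
  rw [e, c1.add_pow, LinearMap.sum_apply]
  refine Finset.sum_eq_zero fun i hi => ?_
  have hle : i ≤ m + n := Nat.lt_succ_iff.mp (Finset.mem_range.mp hi)
  have h1 : (A * T) ^ i = T ^ i * A ^ i := by rw [cAT.mul_pow, (cAT.pow_pow i i).eq]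
  have h2 : (algebraMap k (Module.End k V) a * B) ^ (m + n - i)
      = algebraMap k (Module.End k V) a ^ (m + n - i) * B ^ (m + n - i) :=
    (Algebra.commute_algebraMap_left a B).mul_pow _
  have cc : ∀ (x : ℕ) (Z : Module.End k V), Commute (x : Module.End k V) Z :=
    fun x Z => Nat.cast_commute x Z
  rcases Nat.lt_or_ge i m with hlt | hge
  · -- then `n ≤ m + n - i`
    obtain ⟨r, hr⟩ := Nat.exists_eq_add_of_le (show n ≤ m + n - i by omega)
    have hz : (B ^ (m + n - i)) f = 0 := by
      rw [hr, add_comm, pow_add, Module.End.mul_apply, hn, map_zero]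
    rw [(cc _ _).eq.symm, h2]
    simp only [Module.End.mul_apply, hz, map_zero]
  · obtain ⟨r, hr⟩ := Nat.exists_eq_add_of_le hge
    have hz : (A ^ i) f = 0 := by
      rw [hr, add_comm, pow_add, Module.End.mul_apply, hm, map_zero]
    have h3 : (A * T) ^ i * (algebraMap k (Module.End k V) a * B) ^ (m + n - i)
        = (algebraMap k (Module.End k V) a * B) ^ (m + n - i) * (T ^ i * A ^ i) := by
      rw [(c1.pow_pow i (m + n - i)).eq, h1]
    rw [(cc _ _).eq.symm, h3]
    simp only [Module.End.mul_apply, hz, map_zero]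

private theorem add_adjugate {k : Type*} [Field k] (A : Matrix (Fin 2) (Fin 2) k) :
    A + A.adjugate = Matrix.scalar (Fin 2) A.trace := by
  rw [Matrix.adjugate_fin_two, Matrix.trace_fin_two]
  ext i j
  fin_cases i <;> fin_cases j <;> simp [Matrix.scalar_apply, add_comm]

/-- In characteristic `p`, `tr (A ^ (p ^ j)) = (tr A) ^ (p ^ j)`. -/
theorem trace_pow_char_pow {p : ℕ} [Fact p.Prime] {k : Type*} [Field k] [CharP k p]
    (A : Matrix (Fin 2) (Fin 2) k) (j : ℕ) :
    Matrix.trace (A ^ (p ^ j)) = Matrix.trace A ^ (p ^ j) := by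
  have hc : Commute A A.adjugate := by
    have : A.adjugate = Matrix.scalar (Fin 2) A.trace - A := by
      rw [← add_adjugate]; abel
    rw [this]
    exact Commute.sub_right (Matrix.scalar_commute _ (fun _ => Commute.all _ _) _).symm
      (Commute.refl _)
  have h1 : (A + A.adjugate) ^ (p ^ j) = A ^ (p ^ j) + A.adjugate ^ (p ^ j) :=
    add_pow_char_pow_of_commute p j hc
  rw [← Matrix.adjugate_pow, add_adjugate, add_adjugate, ← map_pow] at h1
  have h2 := congrFun (congrFun h1 0) 0
  simpa [Matrix.scalar_apply] using h2.symm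

private def polar {κ : Type*} [Field κ] (A B : Matrix (Fin 2) (Fin 2) κ) : κ :=
  A 0 0 * B 1 1 + A 1 1 * B 0 0 - A 0 1 * B 1 0 - A 1 0 * B 0 1

/-- An additive subgroup of `2 × 2` matrices over a field which spans contains an invertible
matrix. -/
theorem exists_det_ne_zero {κ : Type*} [Field κ] (V : AddSubgroup (Matrix (Fin 2) (Fin 2) κ))
    (hV : Submodule.span κ (V : Set (Matrix (Fin 2) (Fin 2) κ)) = ⊤) :
    ∃ A ∈ V, A.det ≠ 0 := by
  by_contra hcon
  have h0 : ∀ A ∈ V, A.det = 0 := fun A hA => by
    by_contra h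
    exact hcon ⟨A, hA, h⟩
  have hpol : ∀ A ∈ V, ∀ B ∈ V, polar A B = 0 := fun A hA B hB => by
    have h1 := h0 A hA
    have h2 := h0 B hB
    have h3 := h0 (A + B) (V.add_mem hA hB)
    rw [Matrix.det_fin_two] at h1 h2 h3
    simp only [Matrix.add_apply] at h3
    unfold polar
    linear_combination h3 - h1 - h2
  have hpol2 : ∀ A ∈ V, ∀ B, polar A B = 0 := fun A hA B => by
    have hB : B ∈ Submodule.span κ (V : Set (Matrix (Fin 2) (Fin 2) κ)) := hV ▸ Submodule.mem_top
    induction hB using Submodule.span_induction with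
    | mem x hx => exact hpol A hA x hx
    | zero => simp [polar]
    | add x y _ _ hx hy =>
      unfold polar at hx hy ⊢
      simp only [Matrix.add_apply]
      linear_combination hx + hy
    | smul c x _ hx =>
      unfold polar at hx ⊢
      simp only [Matrix.smul_apply, smul_eq_mul]
      linear_combination c * hx
  have hpol3 : ∀ A B : Matrix (Fin 2) (Fin 2) κ, polar A B = 0 := fun A B => by
    have hA : A ∈ Submodule.span κ (V : Set (Matrix (Fin 2) (Fin 2) κ)) := hV ▸ Submodule.mem_top
    induction hA using Submodule.span_induction with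
    | mem x hx => exact hpol2 x hx B
    | zero => simp [polar]
    | add x y _ _ hx hy =>
      unfold polar at hx hy ⊢
      simp only [Matrix.add_apply]
      linear_combination hx + hy
    | smul c x _ hx =>
      unfold polar at hx ⊢
      simp only [Matrix.smul_apply, smul_eq_mul]
      linear_combination c * hx
  have := hpol3 !![1, 0; 0, 0] !![0, 0; 0, 1]
  simp [polar] at this

end Pool.Agent.Helper93.WS
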