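import Pool.Agent.Helper93.WS.Prod
import Pool.Agent.Helper93.WS.Small
import Pool.Agent.Helper93.WS.Abs

/-!
# Hecke operators as linear maps, and their local nilpotency modulo scalars
-/

open scoped Pointwise NumberField

namespace Pool.Agent.Helper93.WS

section Aux

variable {P D : Type*} [Group P] [DivisionRing D] [MulSemiringAction P D]

theorem gal_units_smul_pair (σ : P) (g : Dˣ) (x : AddSubgroup D × Set D) :
    σ • g • x = (Units.map (MulSemiringAction.toRingHom P D σ : D →* D) g) • σ • x := by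
  have key : ∀ z : D, σ • g • z =
      (Units.map (MulSemiringAction.toRingHom P D σ : D →* D) g) • σ • z := by
    intro z
    show σ • ((g : D) * z) = (σ • (g : D)) * (σ • z)
    exact smul_mul' _ _ _
  apply Prod.ext
  · apply AddSubgroup.ext
    intro z
    constructor
    · rintro ⟨z₁, ⟨z₂, hz₂, rfl⟩, rfl⟩
      exact ⟨σ • z₂, ⟨z₂, hz₂, rfl⟩, (key z₂).symm⟩
    · rintro ⟨z₁, ⟨z₂, hz₂, rfl⟩, rfl⟩
      exact ⟨g • z₂, ⟨z₂, hz₂, rfl⟩, key z₂⟩
  · ext z
    constructor
    · rintro ⟨z₁, ⟨z₂, hz₂, rfl⟩, rfl⟩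
      exact ⟨σ • z₂, ⟨z₂, hz₂, rfl⟩, (key z₂).symm⟩
    · rintro ⟨z₁, ⟨z₂, hz₂, rfl⟩, rfl⟩
      exact ⟨g • z₂, ⟨z₂, hz₂, rfl⟩, key z₂⟩

end Aux

section Lin

variable {K : Type*} [Field K] [NumberField K] {D : Type*} [DivisionRing D] [Algebra K D]
  {O : Subring D} {n : ℕ} {H : Set D} {k : Type*} [Field k]

/-- The Hecke operator as a linear map. -/
noncomputable def heckeLin (hO : IsOrder K O) (n : ℕ) (H : Set D) {w : Ideal (𝓞 K)}
    (hw : w.IsMaximal) : Module.End k (AddSubgroup D × Set D → k) where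
  toFun f := hecke K O n H w f
  map_add' f g := by
    funext y
    exact finsum_mem_add_distrib (s := {z | Nb K O n H w y z}) (nb_finite hO hw y)
  map_smul' c f := by
    funext y
    have h := smul_finsum_mem (s := {z | Nb K O n H w y z}) (f := f) (nb_finite hO hw y) (r := c)
    exact h.symm

theorem heckeLin_apply (hO : IsOrder K O) (n : ℕ) (H : Set D) {w : Ideal (𝓞 K)}
    (hw : w.IsMaximal) (f : AddSubgroup D × Set D → k) :
    heckeLin hO n H hw f = hecke K O n H w f := rfl

/-- The Hecke operator of a finite set of primes as a linear map. -/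
noncomputable def heckeWLin (hO : IsOrder K O) (n : ℕ) (H : Set D) {W : Finset (Ideal (𝓞 K))}
    (hW : ∀ w ∈ W, w.IsMaximal) : Module.End k (AddSubgroup D × Set D → k) where
  toFun f := heckeW K O n H W f
  map_add' f g := by
    funext y
    exact finsum_mem_add_distrib (s := {z | NbW K O n H W y z}) (nbW_finite hO hW y)
  map_smul' c f := by
    funext y
    have h := smul_finsum_mem (s := {z | NbW K O n H W y z}) (f := f) (nbW_finite hO hW y)
      (r := c)
    exact h.symm

theorem heckeWLin_apply (hO : IsOrder K O) (n : ℕ) (H : Set D) {W : Finset (Ideal (𝓞 K))}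
    (hW : ∀ w ∈ W, w.IsMaximal) (f : AddSubgroup D × Set D → k) :
    heckeWLin hO n H hW f = heckeW K O n H W f := rfl

open Classical in
theorem heckeW_empty_apply (hO : IsOrder K O) (hH : IsLevel O n H) (f : AddSubgroup D × Set D → k)
    (y : AddSubgroup D × Set D) :
    heckeW K O n H ∅ f y = if IsPair K O n H y then f y else 0 := by
  unfold heckeW
  simp_rw [nbW_empty hO hH]
  by_cases hy : IsPair K O n H y
  · rw [if_pos hy]
    have h1 : ∀ z : AddSubgroup D × Set D,
        (∑ᶠ (_ : IsPair K O n H y ∧ z = y), f z) = ∑ᶠ (_ : z = y), f z := by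
      intro z
      simp [hy]
    simp_rw [h1]
    exact finsum_cond_eq_left
  · rw [if_neg hy]
    simp [hy]

theorem hecke_heckeW_empty (hO : IsOrder K O) (hH : IsLevel O n H) (w : Ideal (𝓞 K))
    (f : AddSubgroup D × Set D → k) :
    hecke K O n H w (heckeW K O n H ∅ f) = heckeW K O n H ∅ (hecke K O n H w f) := by
  funext y
  rw [heckeW_empty_apply hO hH]
  unfold hecke
  by_cases hy : IsPair K O n H y
  · rw [if_pos hy]
    apply finsum_congr
    intro z
    apply finsum_congr
    intro hz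
    rw [heckeW_empty_apply hO hH, if_pos hz.2.1]
  · rw [if_neg hy]
    have h1 : ∀ z : AddSubgroup D × Set D, ¬ Nb K O n H w y z := fun z hz => hy hz.1
    simp [h1]

theorem hecke_heckeW_comm (hO : IsOrder K O) (hH : IsLevel O n H)
    {w : Ideal (𝓞 K)} (hw : w.IsMaximal) (hnw : (n : 𝓞 K) ∉ w) (W : Finset (Ideal (𝓞 K)))
    (hW : ∀ w ∈ W, w.IsMaximal ∧ (n : 𝓞 K) ∉ w) (f : AddSubgroup D × Set D → k) :
    hecke K O n H w (heckeW K O n H W f) = heckeW K O n H W (hecke K O n H w f) := by
  classical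
  induction W using Finset.induction_on generalizing f with
  | empty => exact hecke_heckeW_empty hO hH w f
  | insert w' W hw'W ih =>
    have h1 := hW w' (Finset.mem_insert_self _ _)
    have h2 : ∀ w ∈ W, w.IsMaximal ∧ (n : 𝓞 K) ∉ w :=
      fun v hv => hW v (Finset.mem_insert_of_mem hv)
    rw [heckeW_insert hO hH h1.1 (fun v hv => (h2 v hv).1) hw'W h1.2,
      heckeW_insert hO hH h1.1 (fun v hv => (h2 v hv).1) hw'W h1.2,
      hecke_comm hO hH hw h1.1 hnw h1.2, ih h2]

theorem heckeW_nil (hO : IsOrder K O) (hH : IsLevel O n H)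
    (W : Finset (Ideal (𝓞 K)))
    (hW : ∀ w ∈ W, w.IsMaximal ∧ (n : 𝓞 K) ∉ w) (hW' : ∀ w ∈ W, w.IsMaximal)
    (c : Ideal (𝓞 K) → k)
    {f : AddSubgroup D × Set D → k} (hf : IsForm K O n H f)
    (hnil : ∀ w ∈ W, ∃ j : ℕ, (fun g => hecke K O n H w g - c w • g)^[j] f = 0) :
    ∃ j : ℕ, ((heckeWLin hO n H hW' -
      algebraMap k (Module.End k (AddSubgroup D × Set D → k)) (∏ w ∈ W, c w)) ^ j :
        Module.End k (AddSubgroup D × Set D → k)) f = 0 := by
  classical
  induction W using Finset.induction_on with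
  | empty =>
    refine ⟨1, ?_⟩
    rw [pow_one, LinearMap.sub_apply, heckeWLin_apply, heckeW_empty hO hH hf]
    simp
  | insert w W hwW ih =>
    have h1 := hW w (Finset.mem_insert_self _ _)
    have h2 : ∀ w ∈ W, w.IsMaximal ∧ (n : 𝓞 K) ∉ w :=
      fun v hv => hW v (Finset.mem_insert_of_mem hv)
    have h3 : ∀ w ∈ W, w.IsMaximal := fun v hv => (h2 v hv).1
    obtain ⟨j₁, hj₁⟩ := hnil w (Finset.mem_insert_self _ _)
    have hj₁' : ((heckeLin hO n H h1.1 -
        algebraMap k (Module.End k (AddSubgroup D × Set D → k)) (c w)) ^ j₁ :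
        Module.End k (AddSubgroup D × Set D → k)) f = 0 := by
      rw [← iterate_eq_pow]
      exact hj₁
    have hih := ih h2 h3 (fun v hv => hnil v (Finset.mem_insert_of_mem hv))
    have hcomm : Commute (heckeLin (k := k) hO n H h1.1) (heckeWLin hO n H h3) := by
      apply LinearMap.ext
      intro g
      exact hecke_heckeW_comm hO hH h1.1 h1.2 W h2 g
    have hprod := mul_nil _ _ hcomm (c w) (∏ w ∈ W, c w) f ⟨j₁, hj₁'⟩ hih
    have heq : heckeWLin (k := k) hO n H hW' =
        heckeLin hO n H h1.1 * heckeWLin hO n H h3 := by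
      apply LinearMap.ext
      intro g
      exact heckeW_insert hO hH h1.1 h3 hwW h1.2 g
    rw [heq, Finset.prod_insert hwW]
    exact hprod

theorem isForm_heckeW (hO : IsOrder K O) (hH : IsLevel O n H) (W : Finset (Ideal (𝓞 K)))
    (hW : ∀ w ∈ W, w.IsMaximal ∧ (n : 𝓞 K) ∉ w) {f : AddSubgroup D × Set D → k}
    (hf : IsForm K O n H f) : IsForm K O n H (heckeW K O n H W f) := by
  classical
  induction W using Finset.induction_on with
  | empty =>
    rw [heckeW_empty hO hH hf]
    exact hf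
  | insert w W hwW ih =>
    have h1 := hW w (Finset.mem_insert_self _ _)
    have h2 : ∀ w ∈ W, w.IsMaximal ∧ (n : 𝓞 K) ∉ w :=
      fun v hv => hW v (Finset.mem_insert_of_mem hv)
    rw [heckeW_insert hO hH h1.1 (fun v hv => (h2 v hv).1) hwW h1.2]
    exact IsForm.hecke w (ih h2)

theorem heckeW_gal_smul {P : Type*} [Group P] [MulSemiringAction P K] [MulSemiringAction P D]
    (hact : ∀ (σ : P) (a : K), σ • algebraMap K D a = algebraMap K D (σ • a))
    (hOP : ∀ (σ : P), ∀ a ∈ O, σ • a ∈ O) (hHP : ∀ (σ : P), ∀ h ∈ H, σ • h ∈ H) (σ : P)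
    {W W' : Finset (Ideal (𝓞 K))} (hW : ∀ w, w ∈ W ↔ σ • w ∈ W')
    (f : AddSubgroup D × Set D → k) (y : AddSubgroup D × Set D) :
    heckeW K O n H W' f (σ • y) = heckeW K O n H W (fun z => f (σ • z)) y := by
  unfold heckeW
  rw [← finsum_comp_equiv (MulAction.toPerm σ)]
  apply finsum_congr
  intro z
  apply finsum_congr_Prop
  · intro _
    rfl
  · exact propext (nbW_gal_smul hact hOP hHP σ hW)

/-- The Hecke operator of a finite set of primes preserves the generalised eigenspaces. -/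
theorem heckeW_gen (hO : IsOrder K O) (hH : IsLevel O n H)
    {w : Ideal (𝓞 K)} (hw : w.IsMaximal) (hnw : (n : 𝓞 K) ∉ w) (W : Finset (Ideal (𝓞 K)))
    (hW : ∀ w ∈ W, w.IsMaximal ∧ (n : 𝓞 K) ∉ w) (hW' : ∀ w ∈ W, w.IsMaximal) (a : k)
    {f : AddSubgroup D × Set D → k}
    (hf : ∃ j : ℕ, (fun g => hecke K O n H w g - a • g)^[j] f = 0) :
    ∃ j : ℕ, (fun g => hecke K O n H w g - a • g)^[j] (heckeW K O n H W f) = 0 := by
  obtain ⟨j, hj⟩ := hf
  refine ⟨j, ?_⟩
  have hcomm : Commute (heckeLin (k := k) hO n H hw) (heckeWLin hO n H hW') := by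
    apply LinearMap.ext
    intro g
    exact hecke_heckeW_comm hO hH hw hnw W hW g
  have hcomm2 : Commute ((heckeLin (k := k) hO n H hw -
      algebraMap k (Module.End k (AddSubgroup D × Set D → k)) a) ^ j)
      (heckeWLin hO n H hW') :=
    (hcomm.sub_left (Algebra.commute_algebraMap_left a _)).pow_left j
  have h1 := iterate_eq_pow (heckeLin (k := k) hO n H hw) a j f
  have h2 := iterate_eq_pow (heckeLin (k := k) hO n H hw) a j (heckeW K O n H W f)
  have h3 := congrArg (fun S : Module.End k (AddSubgroup D × Set D → k) => S f) hcomm2.eq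
  simp only [Module.End.mul_apply] at h3
  have h4 : (fun g => heckeLin (k := k) hO n H hw g - a • g) =
      (fun g => hecke K O n H w g - a • g) := rfl
  rw [h4] at h1 h2
  rw [h2]
  have h5 : heckeWLin (k := k) hO n H hW' f = heckeW K O n H W f := rfl
  rw [← h5, h3, ← h1, hj, map_zero]

end Lin

end Pool.Agent.Helper93.WS
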