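import Pool.Agent.Helper93.WS.Amb1
import Pool.Agent.Helper93.WS.Amb2
import Pool.Agent.Helper93.WS.FinCl
import Pool.Agent.Helper93.WS.Small
import Pool.Agent.Helper93.WS.Abs
import Pool.Agent.Helper93.WS.Main1

/-!
# Eigenforms invariant under the ambiguous central elements
-/

open scoped Pointwise NumberField

namespace Pool.Agent.Helper93.WS

section AmbAux

variable {k : Type*} [Field k]

open Classical in
/-- Composition with a map `a`, on functions supported on `Y`. -/
private noncomputable def opR {X : Type*} (k : Type*) [Field k] (Y : Set X) (a : X → X) :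
    Module.End k (X → k) where
  toFun g := fun x => if x ∈ Y then g (a x) else 0
  map_add' f g := by
    funext x
    by_cases hx : x ∈ Y <;> simp [hx]
  map_smul' c f := by
    funext x
    by_cases hx : x ∈ Y <;> simp [hx]

private theorem opR_mem {X : Type*} {Y : Set X} {a : X → X} {g : X → k} {x : X} (hx : x ∈ Y) :
    opR k Y a g x = g (a x) := if_pos hx

private theorem opR_not_mem {X : Type*} {Y : Set X} {a : X → X} {g : X → k} {x : X}
    (hx : x ∉ Y) : opR k Y a g x = 0 := if_neg hx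

private theorem opR_pow {X : Type*} {Y : Set X} {a : X → X} (ha : ∀ x ∈ Y, a x ∈ Y) {g : X → k}
    (m : ℕ) {x : X} (hx : x ∈ Y) :
    (opR k Y a ^ m) g x = g (a^[m] x) := by
  induction m generalizing x with
  | zero => simp
  | succ m ih =>
    rw [pow_succ', Module.End.mul_apply, opR_mem hx, ih (ha x hx), Function.iterate_succ_apply]

private theorem opR_pow_not_mem {X : Type*} {Y : Set X} {a : X → X} {g : X → k}
    (hg : ∀ x, x ∉ Y → g x = 0) (m : ℕ) {x : X} (hx : x ∉ Y) :
    (opR k Y a ^ m) g x = 0 := by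
  cases m with
  | zero => simpa using hg x hx
  | succ m => rw [pow_succ', Module.End.mul_apply, opR_not_mem hx]

/-- Commuting maps of order a power of `p` in characteristic `p`. -/
private theorem abs_inv {p : ℕ} [Fact p.Prime] [CharP k p] {X I : Type*}
    (Y : Set X) (W : Submodule k (X → k)) [FiniteDimensional k W] (hW : W ≠ ⊥)
    (hWY : ∀ g ∈ W, ∀ x, x ∉ Y → g x = 0)
    (act : I → X → X) (hact : ∀ i, ∀ x ∈ Y, act i x ∈ Y)
    (hcomm : ∀ i j, ∀ x ∈ Y, act i (act j x) = act j (act i x))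
    (s : ℕ) (hpow : ∀ i, ∀ g ∈ W, ∀ x ∈ Y, g ((act i)^[p ^ s] x) = g x)
    (hst : ∀ i, ∀ g ∈ W, opR k Y (act i) g ∈ W) :
    ∃ g ∈ W, g ≠ 0 ∧ ∀ i, ∀ x ∈ Y, g (act i x) = g x := by
  obtain ⟨g, hg, hg0, h⟩ := exists_common_eigenvector W hW (fun i => opR k Y (act i))
    (fun _ => (1 : k)) hst
    (by
      intro i j f hf
      funext x
      by_cases hx : x ∈ Y
      · rw [opR_mem hx, opR_mem (hact i x hx), opR_mem hx, opR_mem (hact j x hx), hcomm i j x hx]
      · rw [opR_not_mem hx, opR_not_mem hx])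
    (by
      intro i f hf
      refine ⟨p ^ s, ?_⟩
      have h1 : ((opR k Y (act i)) ^ (p ^ s)) f = f := by
        funext x
        by_cases hx : x ∈ Y
        · rw [opR_pow (hact i) _ hx, hpow i f hf x hx]
        · rw [opR_pow_not_mem (hWY f hf) _ hx, hWY f hf x hx]
      have h2 : (Polynomial.X - 1 : Polynomial k) ^ (p ^ s) = Polynomial.X ^ (p ^ s) - 1 := by
        rw [sub_pow_char_pow, one_pow]
      have h3 := congrArg (fun q => Polynomial.aeval (opR k Y (act i)) q f) h2
      simp only [map_pow, map_sub, Polynomial.aeval_X, map_one] at h3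
      rw [map_one, h3, LinearMap.sub_apply, h1, Module.End.one_apply, sub_self])
  refine ⟨g, hg, hg0, fun i x hx => ?_⟩
  have := congrFun (h i) x
  rw [opR_mem hx, one_smul] at this
  exact this

variable {K : Type*} [Field K] [NumberField K] {D : Type*} [DivisionRing D] [Algebra K D]
  {O : Subring D} {n : ℕ} {H : Set D}

/-- Spaces of forms are finite-dimensional. -/
private theorem forms_fin [FiniteDimensional K D] (hO : IsOrder K O) (hn : n ≠ 0)
    (hH : IsLevel O n H) (W : Submodule k (AddSubgroup D × Set D → k))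
    (hW : ∀ f ∈ W, IsForm K O n H f) : FiniteDimensional k W := by
  obtain ⟨R, hR⟩ := finite_classes hO hn hH
  let φ : W →ₗ[k] (R → k) :=
    (LinearMap.funLeft k k (fun r : R => (r : AddSubgroup D × Set D))).comp W.subtype
  have hφ : Function.Injective φ := by
    rw [← LinearMap.ker_eq_bot, LinearMap.ker_eq_bot']
    intro f hf
    apply Subtype.ext
    funext y
    by_cases hy : IsPair K O n H y
    · obtain ⟨d, r, hr, rfl⟩ := hR y hy
      rw [(hW f f.2).2]
      exact congrFun hf ⟨r, hr⟩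
    · exact (hW f f.2).1 y hy
  exact FiniteDimensional.of_injective φ hφ

end AmbAux

variable {k : Type*} [Field k] {F F' : Type*} [Field F] [NumberField F] [Field F']
  [NumberField F'] [Algebra F F'] [IsGalois F F']
  {B D : Type*} [DivisionRing B] [DivisionRing D] [Algebra F B] [Algebra F' D]
  [MulSemiringAction (F' ≃ₐ[F] F') D] {O : Subring D} {n : ℕ} {H : Set D}
  {y : AddSubgroup D × Set D} {γ : (F' ≃ₐ[F] F') → Dˣ} {ι : B →+* D}

omit [NumberField F'] in
private theorem cen_mul (a b : F'ˣ) : cen D (a * b) = cen D a * cen D b := map_mul _ a b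

omit [NumberField F'] in
private theorem cen_comm (a : F'ˣ) (u : Dˣ) : cen D a * u = u * cen D a := by
  apply Units.ext
  exact Algebra.commutes _ _

omit [IsGalois F F'] [MulSemiringAction (F' ≃ₐ[F] F') D] in
/-- Products of conjugates act as powers. -/
private theorem amb_prod {a : F'ˣ} (ha : Amb (F := F) O n H a) {z : AddSubgroup D × Set D}
    (hz : IsPair F' O n H z) (S : Finset (F' ≃ₐ[F] F')) :
    cen D (∏ σ ∈ S, Units.map ((σ : F' →+* F') : F' →* F') a) • z = (cen D a) ^ S.card • z := by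
  classical
  induction S using Finset.induction_on with
  | empty =>
    rw [Finset.prod_empty, Finset.card_empty, pow_zero]
    congr 1
    exact map_one _
  | insert σ S hσ ih =>
    rw [Finset.prod_insert hσ, cen_mul, mul_smul, ih, Finset.card_insert_of_notMem hσ, pow_succ',
      mul_smul]
    exact ha σ _ ((isPair_units_smul _).2 hz)

/-- If there is a nonzero eigenform `g` then there is one which takes the same values at pairs
`b₁, b₂` of `B` with `j(b₁) = c j(b₂)` for an ambiguous central element `c`. -/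
theorem exists_amb_invariant [FiniteDimensional F B] {p : ℕ} [Fact p.Prime] [CharP k p]
    (hP : IsPGroup p (F' ≃ₐ[F] F')) (hdat : Datum O n H y γ ι)
    (V : Set (Ideal (𝓞 F))) (hV : ∀ v ∈ V, v.IsMaximal ∧ (n : 𝓞 F) ∉ v) (c : Ideal (𝓞 F) → k)
    {g : AddSubgroup B × Set B → k} (hg : IsForm F (OB ι y.1) n (HB ι y) g) (hg0 : g ≠ 0)
    (hgeig : ∀ v ∈ V, hecke F (OB ι y.1) n (HB ι y) v g = c v • g) :
    ∃ g' : AddSubgroup B × Set B → k, IsForm F (OB ι y.1) n (HB ι y) g' ∧ g' ≠ 0 ∧
      (∀ v ∈ V, hecke F (OB ι y.1) n (HB ι y) v g' = c v • g') ∧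
      ∀ (a : F'ˣ), Amb (F := F) O n H a → ∀ b₁ b₂,
        IsPair F (OB ι y.1) n (HB ι y) b₁ → IsPair F (OB ι y.1) n (HB ι y) b₂ →
        jmap ι n y b₁ = cen D a • jmap ι n y b₂ → g' b₁ = g' b₂ := by
  classical
  have hOB : IsOrder F (OB ι y.1) := hdat.isOrder
  have hHB : IsLevel (OB ι y.1) n (HB ι y) := hdat.subLevel_HB.lev
  have hjp : ∀ {b : AddSubgroup B × Set B}, IsPair F (OB ι y.1) n (HB ι y) b →
      IsPair F' O n H (jmap ι n y b) := fun hb => hdat.isPair_jmap hdat.subLevel_HB hb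
  -- the space of eigenforms
  let W : Submodule k (AddSubgroup B × Set B → k) :=
    { carrier := {f | IsForm F (OB ι y.1) n (HB ι y) f ∧
        ∀ v ∈ V, hecke F (OB ι y.1) n (HB ι y) v f = c v • f}
      add_mem' := by
        rintro f₁ f₂ ⟨h1, h2⟩ ⟨h3, h4⟩
        refine ⟨⟨fun z hz => ?_, fun d z => ?_⟩, fun v hv => ?_⟩
        · rw [Pi.add_apply, h1.1 z hz, h3.1 z hz, add_zero]
        · rw [Pi.add_apply, Pi.add_apply, h1.2, h3.2]
        · have h5 := (heckeLin (k := k) hOB n (HB ι y) (hV v hv).1).map_add f₁ f₂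
          simp only [heckeLin_apply] at h5
          rw [h5, h2 v hv, h4 v hv, smul_add]
      zero_mem' := by
        refine ⟨⟨fun z hz => rfl, fun d z => rfl⟩, fun v hv => ?_⟩
        have h5 := (heckeLin (k := k) hOB n (HB ι y) (hV v hv).1).map_zero
        simp only [heckeLin_apply] at h5
        rw [h5, smul_zero]
      smul_mem' := by
        rintro e f₁ ⟨h1, h2⟩
        refine ⟨⟨fun z hz => ?_, fun d z => ?_⟩, fun v hv => ?_⟩
        · rw [Pi.smul_apply, h1.1 z hz, smul_zero]
        · rw [Pi.smul_apply, Pi.smul_apply, h1.2]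
        · have h5 := (heckeLin (k := k) hOB n (HB ι y) (hV v hv).1).map_smul e f₁
          simp only [heckeLin_apply] at h5
          rw [h5, h2 v hv, smul_comm] }
  have hWmem : ∀ f, f ∈ W ↔ IsForm F (OB ι y.1) n (HB ι y) f ∧
      ∀ v ∈ V, hecke F (OB ι y.1) n (HB ι y) v f = c v • f := fun f => Iff.rfl
  have : FiniteDimensional k W := forms_fin hOB hdat.hn hHB W (fun f hf => hf.1)
  have hWne : W ≠ ⊥ := by
    intro h
    have : g ∈ W := ⟨hg, hgeig⟩
    rw [h, Submodule.mem_bot] at this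
    exact hg0 this
  -- the index set and the action
  let A : Type _ := {a : F'ˣ // Amb (F := F) O n H a ∧ ∃ b₀ b₀' : AddSubgroup B × Set B,
    IsPair F (OB ι y.1) n (HB ι y) b₀ ∧ IsPair F (OB ι y.1) n (HB ι y) b₀' ∧
      jmap ι n y b₀' = cen D a • jmap ι n y b₀}
  let Y : Set (AddSubgroup B × Set B) := {b | IsPair F (OB ι y.1) n (HB ι y) b}
  have hex : ∀ (a : A) (b : AddSubgroup B × Set B), ∃ b' : AddSubgroup B × Set B,
      b ∈ Y → b' ∈ Y ∧ jmap ι n y b' = cen D a.1 • jmap ι n y b := by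
    intro a b
    by_cases hb : b ∈ Y
    · obtain ⟨b₀, b₀', h1, h2, h3⟩ := a.2.2
      obtain ⟨b', h4, h5⟩ := amb_exists hdat h1 h2 h3 hb
      exact ⟨b', fun _ => ⟨h4, h5⟩⟩
    · exact ⟨b, fun h => (hb h).elim⟩
  choose act hact using hex
  have hact1 : ∀ a : A, ∀ b ∈ Y, act a b ∈ Y := fun a b hb => (hact a b hb).1
  have hact2 : ∀ a : A, ∀ b ∈ Y, jmap ι n y (act a b) = cen D a.1 • jmap ι n y b :=
    fun a b hb => (hact a b hb).2
  have huniq : ∀ (a : A) (b b' : AddSubgroup B × Set B), b ∈ Y → b' ∈ Y →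
      jmap ι n y b' = cen D a.1 • jmap ι n y b → act a b = b' := by
    intro a b b' hb hb' h
    exact hdat.jmap_injective (hact1 a b hb) hb' ((hact2 a b hb).trans h.symm)
  have hinv : ∀ (a : A), ∀ b ∈ Y, ∃ b' ∈ Y, act a b' = b := by
    intro a b hb
    obtain ⟨b₀, b₀', h1, h2, h3⟩ := a.2.2
    have h3' : jmap ι n y b₀ = cen D (a.1)⁻¹ • jmap ι n y b₀' := by
      rw [h3, ← mul_smul, ← cen_mul, inv_mul_cancel]
      have : cen D (1 : F'ˣ) = 1 := map_one _
      rw [this, one_smul]
    obtain ⟨b', h4, h5⟩ := amb_exists hdat h2 h1 h3' hb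
    refine ⟨b', h4, huniq a b' b h4 hb ?_⟩
    rw [h5, ← mul_smul, ← cen_mul, mul_inv_cancel]
    have : cen D (1 : F'ˣ) = 1 := map_one _
    rw [this, one_smul]
  have hsmulY : ∀ (u : Bˣ) (b : AddSubgroup B × Set B), u • b ∈ Y ↔ b ∈ Y :=
    fun u b => isPair_units_smul u
  have hactu : ∀ (a : A) (u : Bˣ), ∀ b ∈ Y, act a (u • b) = u • act a b := by
    intro a u b hb
    refine huniq a _ _ ((hsmulY u b).2 hb) ((hsmulY u _).2 (hact1 a b hb)) ?_
    rw [jmap_units_smul hdat, hact2 a b hb, jmap_units_smul hdat, ← mul_smul, ← mul_smul,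
      cen_comm]
  -- the power
  obtain ⟨s, hs⟩ := (IsPGroup.iff_card.1 hP)
  have hiter : ∀ (a : A) (m : ℕ), ∀ b ∈ Y, (act a)^[m] b ∈ Y ∧
      jmap ι n y ((act a)^[m] b) = (cen D a.1) ^ m • jmap ι n y b := by
    intro a m
    induction m with
    | zero =>
      intro b hb
      exact ⟨hb, by simp⟩
    | succ m ih =>
      intro b hb
      obtain ⟨h1, h2⟩ := ih b hb
      rw [Function.iterate_succ_apply']
      refine ⟨hact1 a _ h1, ?_⟩
      rw [hact2 a _ h1, h2, pow_succ', mul_smul]
  have hpow : ∀ (a : A), ∀ f ∈ W, ∀ b ∈ Y, f ((act a)^[p ^ s] b) = f b := by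
    intro a f hf b hb
    have hN : Algebra.norm F (a.1 : F') ≠ 0 := by
      rw [Ne, Algebra.norm_eq_zero_iff]
      exact a.1.ne_zero
    let u : Bˣ := Units.mk0 (algebraMap F B (Algebra.norm F (a.1 : F')))
      (by
        rw [Ne, map_eq_zero]
        exact hN)
    have hu : Units.map (ι : B →* D) u =
        cen D (∏ σ : F' ≃ₐ[F] F', Units.map ((σ : F' →+* F') : F' →* F') a.1) := by
      apply Units.ext
      change ι (algebraMap F B (Algebra.norm F (a.1 : F'))) = algebraMap F' D
        ((∏ σ : F' ≃ₐ[F] F', Units.map ((σ : F' →+* F') : F' →* F') a.1 : F'ˣ) : F')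
      rw [hdat.hι, Algebra.norm_eq_prod_automorphisms, Units.coe_prod]
      rfl
    have h1 : jmap ι n y (u • b) = jmap ι n y ((act a)^[p ^ s] b) := by
      rw [jmap_units_smul hdat, hu, amb_prod a.2.1 (hjp hb), (hiter a _ b hb).2, Finset.card_univ,
        ← Nat.card_eq_fintype_card, hs]
    have h2 := hdat.jmap_injective ((hsmulY u b).2 hb) (hiter a _ b hb).1 h1
    rw [← h2]
    exact hf.1.2 u b
  -- stability
  have hst : ∀ a : A, ∀ f ∈ W, opR k Y (act a) f ∈ W := by
    intro a f hf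
    refine ⟨⟨fun z hz => opR_not_mem hz, fun d z => ?_⟩, fun v hv => ?_⟩
    · by_cases hz : z ∈ Y
      · rw [opR_mem hz, opR_mem ((hsmulY d z).2 hz), hactu a d z hz]
        exact hf.1.2 d _
      · rw [opR_not_mem hz, opR_not_mem (fun h => hz ((hsmulY d z).1 h))]
    · funext b
      rw [Pi.smul_apply]
      by_cases hb : b ∈ Y
      · rw [opR_mem hb]
        have h1 := congrFun (hf.2 v hv) (act a b)
        rw [Pi.smul_apply] at h1
        rw [← h1]
        have hL : hecke F (OB ι y.1) n (HB ι y) v (opR k Y (act a) f) b =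
            ∑ᶠ z ∈ {z | Nb F (OB ι y.1) n (HB ι y) v b z}, f (act a z) := by
          refine finsum_congr fun z => ?_
          refine finsum_congr_Prop rfl fun hz => ?_
          exact opR_mem hz.2.1
        have hR : hecke F (OB ι y.1) n (HB ι y) v f (act a b) =
            ∑ᶠ z ∈ {z | Nb F (OB ι y.1) n (HB ι y) v (act a b) z}, f z := rfl
        rw [hL, hR]
        refine finsum_mem_eq_of_bijOn (act a) ⟨?_, ?_, ?_⟩ (fun z _ => rfl)
        · intro z hz
          exact nb_cen hdat (hact1 a b hb) (hact1 a z hz.2.1) (hact2 a b hb)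
            (hact2 a z hz.2.1) (hV v hv).1 (hV v hv).2 hz
        · intro z hz z' hz' h
          refine hdat.jmap_injective hz.2.1 hz'.2.1 ?_
          have h2 := hact2 a z hz.2.1
          rw [h, hact2 a z' hz'.2.1] at h2
          exact (smul_left_cancel _ h2).symm
        · intro z' hz'
          obtain ⟨z, hz, rfl⟩ := hinv a z' hz'.2.1
          refine ⟨z, ?_, rfl⟩
          have h3 : ∀ x ∈ Y, jmap ι n y x = cen D (a.1)⁻¹ • jmap ι n y (act a x) := by
            intro x hx
            rw [hact2 a x hx, ← mul_smul, ← cen_mul, inv_mul_cancel]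
            have : cen D (1 : F'ˣ) = 1 := map_one _
            rw [this, one_smul]
          exact nb_cen hdat hb hz (h3 b hb) (h3 z hz) (hV v hv).1 (hV v hv).2 hz'
      · rw [opR_not_mem hb, smul_zero]
        have h4 : ∀ z : AddSubgroup B × Set B, ¬ Nb F (OB ι y.1) n (HB ι y) v b z :=
          fun z hz => hb hz.1
        unfold hecke
        simp [h4]
  obtain ⟨g', hg', hg'0, hinvar⟩ := abs_inv (k := k) (p := p) Y W hWne (fun f hf => hf.1.1) act
    hact1
    (by
      intro a a' b hb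
      refine huniq a _ _ (hact1 a' b hb) (hact1 a' _ (hact1 a b hb)) ?_
      rw [hact2 a' _ (hact1 a b hb), hact2 a b hb, hact2 a' b hb, ← mul_smul, ← mul_smul,
        cen_comm])
    s hpow hst
  refine ⟨g', hg'.1, hg'0, hg'.2, ?_⟩
  intro a ha b₁ b₂ hb₁ hb₂ h
  have h1 := hinvar ⟨a, ha, b₂, b₁, hb₂, hb₁, h⟩ b₂ hb₂
  rw [huniq ⟨a, ha, b₂, b₁, hb₂, hb₁, h⟩ b₂ b₁ hb₂ hb₁ h] at h1
  exact h1

end Pool.Agent.Helper93.WS
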