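import Pool.Agent.Helper93.WS.Defs2

/-!
# Good primes
-/

open scoped Pointwise NumberField

namespace Pool.Agent.Helper93.WS

variable {F F' : Type*} [Field F] [NumberField F] [Field F'] [NumberField F'] [Algebra F F']

private theorem overSet_eq {v : Ideal (𝓞 F)} (hv : v.IsMaximal) :
    overSet F' v = v.primesOver (𝓞 F') := by
  ext w
  constructor
  · rintro ⟨h1, h2⟩
    exact ⟨h1.isPrime, ⟨h2.symm⟩⟩
  · rintro ⟨h1, h2⟩
    have h3 : w.comap (algebraMap (𝓞 F) (𝓞 F')) = v := h2.over.symm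
    refine ⟨?_, h3⟩
    apply Ideal.isMaximal_of_isIntegral_of_isMaximal_comap (R := 𝓞 F) w
    rw [h3]
    exact hv

theorem overSet_finite {v : Ideal (𝓞 F)} (hv : v.IsMaximal) : (overSet F' v).Finite := by
  rw [overSet_eq hv]
  exact IsDedekindDomain.primesOver_finite v (𝓞 F')

theorem overSet_nonempty {v : Ideal (𝓞 F)} (hv : v.IsMaximal) : (overSet F' v).Nonempty := by
  obtain ⟨P, hPm, hp⟩ := Ideal.exists_maximal_ideal_liesOver_of_isIntegral (S := 𝓞 F') v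
  exact ⟨P, hPm, hp.over.symm⟩

private theorem smul_algebraMap' (σ : F' ≃ₐ[F] F') (a : 𝓞 F) :
    σ • algebraMap (𝓞 F) (𝓞 F') a = algebraMap (𝓞 F) (𝓞 F') a := by
  apply NumberField.RingOfIntegers.ext
  change σ (algebraMap F F' (a : F)) = algebraMap F F' (a : F)
  exact σ.commutes _

private theorem comap_smul (σ : F' ≃ₐ[F] F') (w : Ideal (𝓞 F')) :
    (σ • w).comap (algebraMap (𝓞 F) (𝓞 F')) = w.comap (algebraMap (𝓞 F) (𝓞 F')) := by
  ext a
  rw [Ideal.mem_comap, Ideal.mem_comap, Ideal.mem_pointwise_smul_iff_inv_smul_mem,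
    smul_algebraMap']

private theorem isMaximal_smul (σ : F' ≃ₐ[F] F') {w : Ideal (𝓞 F')} (hw : w.IsMaximal) :
    (σ • w).IsMaximal := by
  rw [Ideal.pointwise_smul_eq_comap]
  exact Ideal.comap_isMaximal_of_equiv _

theorem overSet_smul (σ : F' ≃ₐ[F] F') {v : Ideal (𝓞 F)} {w : Ideal (𝓞 F')} :
    σ • w ∈ overSet F' v ↔ w ∈ overSet F' v := by
  constructor
  · rintro ⟨h1, h2⟩
    refine ⟨?_, by rw [← comap_smul σ]; exact h2⟩
    have := isMaximal_smul σ⁻¹ h1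
    rwa [inv_smul_smul] at this
  · rintro ⟨h1, h2⟩
    exact ⟨isMaximal_smul σ h1, by rw [comap_smul σ]; exact h2⟩

theorem overSet_transitive [IsGalois F F'] {v : Ideal (𝓞 F)} {w w' : Ideal (𝓞 F')}
    (hw : w ∈ overSet F' v) (hw' : w' ∈ overSet F' v) : ∃ σ : F' ≃ₐ[F] F', w' = σ • w := by
  have h1 : w.IsPrime := hw.1.isPrime
  have h2 : w'.IsPrime := hw'.1.isPrime
  have h3 : w.LiesOver v := ⟨hw.2.symm⟩
  have h4 : w'.LiesOver v := ⟨hw'.2.symm⟩
  obtain ⟨σ, hσ⟩ := Ideal.exists_smul_eq_of_isGaloisGroup v w w' (F' ≃ₐ[F] F')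
  exact ⟨σ, hσ.symm⟩

/-- Lying over: an ideal of the big ring which is contained in no maximal ideal over `v` contains
an element of the small ring outside `v`. -/
theorem exists_notMem_of_forall {v : Ideal (𝓞 F)} (hv : v.IsMaximal) {I : Ideal (𝓞 F')}
    (hI : ∀ w ∈ overSet F' v, ¬ I ≤ w) :
    ∃ u : 𝓞 F, u ∉ v ∧ algebraMap (𝓞 F) (𝓞 F') u ∈ I := by
  by_contra hcon
  push Not at hcon
  have h1 : I.comap (algebraMap (𝓞 F) (𝓞 F')) ≤ v := by
    intro u hu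
    by_contra h
    exact hcon u h hu
  have hp : v.IsPrime := hv.isPrime
  obtain ⟨Q, hQ1, hQ2, hQ3⟩ := Ideal.exists_ideal_over_prime_of_isIntegral v I h1
  refine hI Q ?_ hQ1
  rw [overSet_eq hv]
  exact ⟨hQ2, ⟨hQ3.symm⟩⟩

variable [IsGalois F F'] {r : ℕ} {e e' : Fin r → 𝓞 F'} {m : ℕ}

theorem Good.mem_map_of_forall {v : Ideal (𝓞 F)} (hg : Good e e' m v) {x : 𝓞 F'}
    (hx : ∀ w ∈ overSet F' v, x ∈ w) : x ∈ v.map (algebraMap (𝓞 F) (𝓞 F')) := by
  classical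
  obtain ⟨w0, hw0⟩ := overSet_nonempty (F' := F') hg.max
  -- the traces
  have htr : ∀ i, ∃ t : 𝓞 F, t ∈ v ∧
      algebraMap (𝓞 F) (𝓞 F') t = ∑ σ : F' ≃ₐ[F] F', σ • (e' i * x) := by
    intro i
    have hinv : ∀ τ : F' ≃ₐ[F] F', τ • (∑ σ : F' ≃ₐ[F] F', σ • (e' i * x)) =
        ∑ σ : F' ≃ₐ[F] F', σ • (e' i * x) := by
      intro τ
      rw [Finset.smul_sum]
      simp_rw [smul_smul]
      exact Fintype.sum_equiv (Equiv.mulLeft τ) _ _ (fun σ => rfl)
    obtain ⟨t, ht⟩ := Algebra.IsInvariant.isInvariant (A := 𝓞 F) (G := F' ≃ₐ[F] F') _ hinv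
    refine ⟨t, ?_, ht⟩
    rw [← hw0.2, Ideal.mem_comap, ht]
    refine Ideal.sum_mem _ fun σ _ => ?_
    have h1 : σ⁻¹ • w0 ∈ overSet F' v := (overSet_smul σ⁻¹).2 hw0
    have h2 : e' i * x ∈ σ⁻¹ • w0 := Ideal.mul_mem_left _ _ (hx _ h1)
    rw [Ideal.mem_pointwise_smul_iff_inv_smul_mem, inv_inv] at h2
    exact h2
  choose t ht1 ht2 using htr
  have hsum : (m : 𝓞 F') * x = ∑ i, e i * algebraMap (𝓞 F) (𝓞 F') (t i) := by
    simp_rw [ht2, Finset.mul_sum, smul_mul']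
    rw [Finset.sum_comm]
    have h1 : ∀ σ : F' ≃ₐ[F] F', ∑ i, e i * (σ • e' i * σ • x) =
        (∑ i, e i * σ • e' i) * σ • x := by
      intro σ
      rw [Finset.sum_mul]
      exact Finset.sum_congr rfl fun i _ => by ring
    simp_rw [h1]
    rw [Finset.sum_eq_single (1 : F' ≃ₐ[F] F')]
    · simp_rw [one_smul]
      rw [hg.cas1]
    · intro σ _ hσ
      rw [hg.cas σ hσ, zero_mul]
    · intro h
      exact absurd (Finset.mem_univ _) h
  have hmx : (m : 𝓞 F') * x ∈ v.map (algebraMap (𝓞 F) (𝓞 F')) := by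
    rw [hsum]
    exact Ideal.sum_mem _ fun i _ => Ideal.mul_mem_left _ _ (Ideal.mem_map_of_mem _ (ht1 i))
  obtain ⟨a, b, hb, hab⟩ := hg.max.exists_inv hg.mv
  have h2 : x = algebraMap (𝓞 F) (𝓞 F') a * ((m : 𝓞 F') * x) + algebraMap (𝓞 F) (𝓞 F') b * x := by
    have h3 : algebraMap (𝓞 F) (𝓞 F') a * (m : 𝓞 F') + algebraMap (𝓞 F) (𝓞 F') b = 1 := by
      rw [← map_natCast (algebraMap (𝓞 F) (𝓞 F')) m, ← map_mul, ← map_add, hab, map_one]
    calc x = (algebraMap (𝓞 F) (𝓞 F') a * (m : 𝓞 F') + algebraMap (𝓞 F) (𝓞 F') b) * x := by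
          rw [h3, one_mul]
      _ = _ := by ring
  rw [h2]
  exact Ideal.add_mem _ (Ideal.mul_mem_left _ _ hmx)
    (Ideal.mul_mem_right _ _ (Ideal.mem_map_of_mem _ hb))

/-- A good prime is unramified: the intersection of the primes over `v` is `v 𝓞 F'`. -/
theorem Good.prod_eq {v : Ideal (𝓞 F)} (hg : Good e e' m v) :
    ∏ w ∈ (overSet_finite (F' := F') hg.max).toFinset, w =
      v.map (algebraMap (𝓞 F) (𝓞 F')) := by
  apply le_antisymm
  · intro x hx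
    apply hg.mem_map_of_forall
    intro w hw
    have h1 : ∏ w ∈ (overSet_finite (F' := F') hg.max).toFinset, w ≤ w :=
      Ideal.le_of_dvd (Finset.dvd_prod_of_mem (fun w => w)
        ((overSet_finite (F' := F') hg.max).mem_toFinset.2 hw))
    exact h1 hx
  · rw [Ideal.prod_eq_iInf_of_pairwise_isCoprime]
    · refine le_iInf₂ fun w hw => ?_
      rw [Set.Finite.mem_toFinset] at hw
      rw [Ideal.map_le_iff_le_comap, hw.2]
    · intro w hw w' hw' hne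
      rw [Set.Finite.coe_toFinset] at hw hw'
      have h1 : w.IsMaximal := hw.1
      have h2 : w'.IsMaximal := hw'.1
      exact Ideal.isCoprime_of_isMaximal hne

/-- The inertia groups at good primes are trivial. -/
theorem Good.inertia {v : Ideal (𝓞 F)} (hg : Good e e' m v) {w : Ideal (𝓞 F')}
    (hw : w ∈ overSet F' v) {σ : F' ≃ₐ[F] F'} (hσ : ∀ x : 𝓞 F', σ • x - x ∈ w) : σ = 1 := by
  by_contra hne
  apply hg.mv
  rw [← hw.2, Ideal.mem_comap, map_natCast, ← hg.cas1]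
  have h1 : ∑ i, e i * e' i = ∑ i, e i * σ • e' i - ∑ i, e i * (σ • e' i - e' i) := by
    rw [← Finset.sum_sub_distrib]
    exact Finset.sum_congr rfl fun i _ => by ring
  rw [h1, hg.cas σ hne, zero_sub]
  exact neg_mem (Ideal.sum_mem _ fun i _ => Ideal.mul_mem_left _ _ (hσ _))

/-- Counting: with `N(w) = N(v)^f` one has `f * g = |Gal|`. -/
theorem Good.count {v : Ideal (𝓞 F)} (hg : Good e e' m v) :
    ∃ f : ℕ, f * (overSet F' v).ncard = Nat.card (F' ≃ₐ[F] F') ∧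
      ∀ w ∈ overSet F' v, Nat.card (𝓞 F' ⧸ w) = Nat.card (𝓞 F ⧸ v) ^ f := by
  have hvm : v.IsMaximal := hg.max
  have hvp : v.IsPrime := hvm.isPrime
  have hfin : Finite (𝓞 F ⧸ v) :=
    v.finiteQuotientOfFreeOfNeBot (v.bot_lt_of_maximal (NumberField.RingOfIntegers.not_isField F)).ne'
  have key : ∀ w ∈ overSet F' v, (overSet F' v).ncard * w.inertiaDeg (𝓞 F) =
      Nat.card (F' ≃ₐ[F] F') := by
    intro w hw
    have h1 : w.IsPrime := hw.1.isPrime
    have h3 : w.LiesOver v := ⟨hw.2.symm⟩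
    have h4 := Ideal.ncard_primesOver_mul_card_inertia_mul_finrank (G := F' ≃ₐ[F] F') v w
    have h5 : Nat.card (w.inertia (F' ≃ₐ[F] F')) = 1 := by
      rw [Nat.card_eq_one_iff_unique]
      refine ⟨⟨fun a b => ?_⟩, ⟨1⟩⟩
      have ha : (a : F' ≃ₐ[F] F') = 1 := hg.inertia hw (fun x => a.2 x)
      have hb : (b : F' ≃ₐ[F] F') = 1 := hg.inertia hw (fun x => b.2 x)
      exact Subtype.ext (ha.trans hb.symm)
    rw [h5, mul_one, ← overSet_eq hvm] at h4
    exact h4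
  obtain ⟨w0, hw0⟩ := overSet_nonempty (F' := F') hvm
  refine ⟨w0.inertiaDeg (𝓞 F), by rw [mul_comm]; exact key w0 hw0, fun w hw => ?_⟩
  have hpos : 0 < (overSet F' v).ncard :=
    (Set.ncard_pos (overSet_finite hvm)).2 ⟨w0, hw0⟩
  have h1 : w0.inertiaDeg (𝓞 F) = w.inertiaDeg (𝓞 F) :=
    Nat.eq_of_mul_eq_mul_left hpos ((key w0 hw0).trans (key w hw).symm)
  have h2 : w.IsMaximal := hw.1
  have h3 : w.LiesOver v := ⟨hw.2.symm⟩
  rw [h1, Ideal.inertiaDeg_eq_of_isMaximal v w]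
  let : Field (𝓞 F ⧸ v) := Ideal.Quotient.field v
  exact Module.natCard_eq_pow_finrank

end Pool.Agent.Helper93.WS
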