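import Pool.Agent.Helper93.WS.JM
import Pool.Agent.Helper93.WS.GoodP

/-!
# Forward direction: neighbours of `B` give fixed neighbours; injectivity
-/

open scoped Pointwise NumberField

namespace Pool.Agent.Helper93.WS

variable {F F' : Type*} [Field F] [NumberField F] [Field F'] [NumberField F'] [Algebra F F']
  [IsGalois F F']
  {B D : Type*} [DivisionRing B] [DivisionRing D] [Algebra F B] [Algebra F' D]
  [MulSemiringAction (F' ≃ₐ[F] F') D] {O : Subring D} {n : ℕ} {H : Set D}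
  {y : AddSubgroup D × Set D} {γ : (F' ≃ₐ[F] F') → Dˣ} {ι : B →+* D}
  {r : ℕ} {e e' : Fin r → 𝓞 F'} {m : ℕ}

section Aux

variable {K : Type*} [Field K] [NumberField K] {E : Type*} [DivisionRing E] [Algebra K E]

private lemma ba_idealMul_sup (J : Ideal (𝓞 K)) (Λ Λ' : AddSubgroup E) :
    idealMul K J (Λ ⊔ Λ') ≤ idealMul K J Λ ⊔ idealMul K J Λ' := by
  rw [idealMul_le_iff]
  intro a ha x hx
  rw [AddSubgroup.mem_sup] at hx
  obtain ⟨u, hu, w, hw, rfl⟩ := hx
  rw [mul_add]
  exact AddSubgroup.add_mem_sup (mem_idealMul ha hu) (mem_idealMul ha hw)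

private lemma ba_idealMul_one (M : AddSubgroup E) : M ≤ idealMul K (1 : Ideal (𝓞 K)) M := by
  intro x hx
  have h : (1 : 𝓞 K) ∈ (1 : Ideal (𝓞 K)) := by
    rw [Ideal.one_eq_top]; trivial
  have := mem_idealMul (K := K) h hx
  simpa using this

private lemma ba_sup_prod {M M1 : AddSubgroup E}
    (hs1 : ∀ (a : 𝓞 K), ∀ x ∈ M1, algebraMap K E (a : K) * x ∈ M1)
    (W : Finset (Ideal (𝓞 K)))
    (h : ∀ w ∈ W, M ≤ M1 ⊔ idealMul K w M) : M ≤ M1 ⊔ idealMul K (∏ w ∈ W, w) M := by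
  classical
  induction W using Finset.induction_on with
  | empty =>
    rw [Finset.prod_empty]
    exact le_trans (ba_idealMul_one M) le_sup_right
  | insert a s ha ih =>
    rw [Finset.prod_insert ha]
    have h1 := ih (fun w hw => h w (Finset.mem_insert_of_mem hw))
    have h2 := h a (Finset.mem_insert_self a s)
    have h3 : idealMul K a M ≤ M1 ⊔ idealMul K (a * ∏ w ∈ s, w) M := by
      refine le_trans (idealMul_mono (le_refl a) h1) ?_
      refine le_trans (ba_idealMul_sup a M1 _) ?_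
      apply sup_le
      · refine le_trans ?_ le_sup_left
        rw [idealMul_le_iff]
        intro b _ x hx
        exact hs1 b x hx
      · rw [idealMul_mul]
        exact le_sup_right
    exact le_trans h2 (sup_le le_sup_left h3)

private lemma ba_inter_prod {M M1 : AddSubgroup E}
    (W : Finset (Ideal (𝓞 K))) (hW : ∀ w ∈ W, w.IsMaximal) (hle : M1 ≤ M)
    (h : ∀ w ∈ W, M1 ≤ idealMul K w M) : M1 ≤ idealMul K (∏ w ∈ W, w) M := by
  classical
  induction W using Finset.induction_on with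
  | empty =>
    rw [Finset.prod_empty]
    exact le_trans hle (ba_idealMul_one M)
  | insert a s ha ih =>
    rw [Finset.prod_insert ha]
    have h1 := ih (fun w hw => hW w (Finset.mem_insert_of_mem hw))
      (fun w hw => h w (Finset.mem_insert_of_mem hw))
    have h2 := h a (Finset.mem_insert_self a s)
    have hcop : IsCoprime a (∏ w ∈ s, w) := by
      apply IsCoprime.prod_right
      intro w hw
      have hne : a ≠ w := fun h' => ha (h' ▸ hw)
      rw [Ideal.isCoprime_iff_sup_eq]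
      exact (hW a (Finset.mem_insert_self a s)).coprime_of_ne
        (hW w (Finset.mem_insert_of_mem hw)) hne
    rw [Ideal.isCoprime_iff_exists] at hcop
    obtain ⟨p, hp, q, hq, hpq⟩ := hcop
    intro x hx
    have e1 : x = algebraMap K E (p : K) * x + algebraMap K E (q : K) * x := by
      rw [← add_mul, ← map_add]
      have : ((p : K) + (q : K)) = 1 := by
        have := congrArg (fun z : 𝓞 K => (z : K)) hpq
        simpa using this
      rw [this, map_one, one_mul]
    rw [e1]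
    apply AddSubgroup.add_mem
    · have := mem_idealMul (K := K) hp (h1 hx)
      rwa [idealMul_mul] at this
    · have := mem_idealMul (K := K) hq (h2 hx)
      rwa [idealMul_mul, mul_comm] at this

/-- local uniformiser -/
private lemma ba_uniformizer {v : Ideal (𝓞 K)} (hv : v.IsMaximal) (hv0 : v ≠ ⊥) :
    ∃ p ∈ v, p ≠ 0 ∧ ∃ c : 𝓞 K, c ∉ v ∧ ∀ a ∈ v, ∃ b : 𝓞 K, c * a = p * b := by
  have hlt : v ^ 2 < v := by
    have := Ideal.pow_right_strictAnti v hv0 hv.ne_top (show 1 < 2 by norm_num)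
    simpa using this
  obtain ⟨p, hpv, hp2⟩ := SetLike.exists_of_lt hlt
  have hp0 : p ≠ 0 := by
    rintro rfl
    exact hp2 (Ideal.zero_mem _)
  have hdvd : v ∣ Ideal.span {p} := by
    rw [Ideal.dvd_span_singleton]; exact hpv
  obtain ⟨I, hI⟩ := hdvd
  have hnI : ¬ I ≤ v := by
    intro hle
    apply hp2
    have h1 : Ideal.span {p} ≤ v ^ 2 := by
      rw [hI, pow_two]
      exact Ideal.mul_mono_right hle
    exact h1 (Ideal.mem_span_singleton_self p)
  obtain ⟨c, hcI, hcv⟩ := SetLike.not_le_iff_exists.mp hnI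
  refine ⟨p, hpv, hp0, c, hcv, ?_⟩
  intro a ha
  have h2 : c * a ∈ Ideal.span {p} := by
    rw [hI, mul_comm v I]
    exact Ideal.mul_mem_mul hcI ha
  rw [Ideal.mem_span_singleton] at h2
  obtain ⟨b, hb⟩ := h2
  exact ⟨b, hb⟩

end Aux

/-- products of lattices are stable under the integers -/
private lemma ba_prodLat_smul (hdat : Datum O n H y γ ι) {N : AddSubgroup B} (a : 𝓞 F') {x : D}
    (hx : x ∈ prodLat ι N y.1) : algebraMap F' D (a : F') * x ∈ prodLat ι N y.1 := by
  induction hx using AddSubgroup.closure_induction with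
  | mem x hx =>
    obtain ⟨β, hβ, z, hz, rfl⟩ := hx
    have e1 : algebraMap F' D (a : F') * (ι β * z) = ι β * (algebraMap F' D (a : F') * z) := by
      rw [← mul_assoc, ← mul_assoc, Algebra.commutes (a : F') (ι β)]
    rw [e1]
    exact mem_prodLat hβ (IsLat.smul_mem hdat.hO hdat.hy.1 a hz)
  | zero => rw [mul_zero]; exact AddSubgroup.zero_mem _
  | add x x' _ _ h h' => rw [mul_add]; exact AddSubgroup.add_mem _ h h'
  | neg x _ h => rw [mul_neg]; exact AddSubgroup.neg_mem _ h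

private lemma ba_map_le (hdat : Datum O n H y γ ι) {v : Ideal (𝓞 F)} {N N1 : AddSubgroup B}
    (h : idealMul F v N ≤ N1) :
    idealMul F' (v.map (algebraMap (𝓞 F) (𝓞 F'))) (prodLat ι N y.1) ≤ prodLat ι N1 y.1 := by
  rw [idealMul_le_iff]
  intro a ha
  rw [Ideal.map] at ha
  induction ha using Submodule.span_induction with
  | mem a ha =>
    obtain ⟨a0, ha0, rfl⟩ := ha
    intro x hx
    induction hx using AddSubgroup.closure_induction with
    | mem x hx =>
      obtain ⟨β, hβ, z, hz, rfl⟩ := hx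
      have e1 : algebraMap F' D ((algebraMap (𝓞 F) (𝓞 F') a0 : 𝓞 F') : F') * (ι β * z) =
          ι (algebraMap F B (a0 : F) * β) * z := by
        rw [map_mul, hdat.hι, mul_assoc]
        rfl
      rw [e1]
      exact mem_prodLat (h (mem_idealMul ha0 hβ)) hz
    | zero => rw [mul_zero]; exact AddSubgroup.zero_mem _
    | add x x' _ _ h h' => rw [mul_add]; exact AddSubgroup.add_mem _ h h'
    | neg x _ h => rw [mul_neg]; exact AddSubgroup.neg_mem _ h
  | zero =>
    intro x _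
    simp only [map_zero, zero_mul]
    exact AddSubgroup.zero_mem _
  | add a a' _ _ h h' =>
    intro x hx
    have e1 : ((a + a' : 𝓞 F') : F') = (a : F') + (a' : F') := rfl
    rw [e1, map_add, add_mul]
    exact AddSubgroup.add_mem _ (h x hx) (h' x hx)
  | smul c a _ h =>
    intro x hx
    have e1 : ((c • a : 𝓞 F') : F') = (c : F') * (a : F') := rfl
    rw [e1, map_mul, mul_assoc]
    exact ba_prodLat_smul hdat c (h x hx)


private lemma ba_smul_sup {G A : Type*} [Group G] [AddGroup A] [DistribMulAction G A] (g : G)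
    (S T : AddSubgroup A) : g • (S ⊔ T) = g • S ⊔ g • T :=
  AddSubgroup.map_sup S T _

/-- equivariance of the first components -/
private lemma ba_smul_fst (hdat : Datum O n H y γ ι) (σ : F' ≃ₐ[F] F') (b : AddSubgroup B × Set B) :
    σ • prodLat ι b.1 y.1 = γ σ • prodLat ι b.1 y.1 :=
  congrArg Prod.fst (hdat.jmap_fixed b σ)

private lemma ba_smul_idealMul (hdat : Datum O n H y γ ι) (σ : F' ≃ₐ[F] F') (J : Ideal (𝓞 F'))
    (b : AddSubgroup B × Set B) :
    σ • idealMul F' J (prodLat ι b.1 y.1) = γ σ • idealMul F' (σ • J) (prodLat ι b.1 y.1) := by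
  rw [← idealMul_gal_smul (P := F' ≃ₐ[F] F') (fun τ a => hdat.hact τ a) σ J,
    ba_smul_fst hdat σ b, idealMul_units_smul]

private lemma ba_sup_smul (hdat : Datum O n H y γ ι) (σ : F' ≃ₐ[F] F') {w : Ideal (𝓞 F')}
    {b b₁ : AddSubgroup B × Set B}
    (h : prodLat ι b.1 y.1 ≤ prodLat ι b₁.1 y.1 ⊔ idealMul F' w (prodLat ι b.1 y.1)) :
    prodLat ι b.1 y.1 ≤ prodLat ι b₁.1 y.1 ⊔ idealMul F' (σ • w) (prodLat ι b.1 y.1) := by
  have h1 : σ • prodLat ι b.1 y.1 ≤
      σ • prodLat ι b₁.1 y.1 ⊔ σ • idealMul F' w (prodLat ι b.1 y.1) := by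
    rw [← ba_smul_sup]
    exact AddSubgroup.pointwise_smul_le_pointwise_smul_iff.mpr h
  rw [ba_smul_fst hdat σ b, ba_smul_fst hdat σ b₁, ba_smul_idealMul hdat σ w b] at h1
  intro x hx
  have h2 : (γ σ) • x ∈ (γ σ) • prodLat ι b.1 y.1 := AddSubgroup.smul_mem_pointwise_smul _ _ _ hx
  have h3 := h1 h2
  have h4 : γ σ • (prodLat ι b₁.1 y.1 ⊔ idealMul F' (σ • w) (prodLat ι b.1 y.1)) =
      γ σ • prodLat ι b₁.1 y.1 ⊔ γ σ • idealMul F' (σ • w) (prodLat ι b.1 y.1) :=
    AddSubgroup.map_sup _ _ _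
  rw [← h4] at h3
  exact (AddSubgroup.smul_mem_pointwise_smul_iff).mp h3

private lemma ba_le_smul (hdat : Datum O n H y γ ι) (σ : F' ≃ₐ[F] F') {w : Ideal (𝓞 F')}
    {b b₁ : AddSubgroup B × Set B}
    (h : prodLat ι b₁.1 y.1 ≤ idealMul F' w (prodLat ι b.1 y.1)) :
    prodLat ι b₁.1 y.1 ≤ idealMul F' (σ • w) (prodLat ι b.1 y.1) := by
  have h1 : σ • prodLat ι b₁.1 y.1 ≤ σ • idealMul F' w (prodLat ι b.1 y.1) :=
    AddSubgroup.pointwise_smul_le_pointwise_smul_iff.mpr h
  rw [ba_smul_fst hdat σ b₁, ba_smul_idealMul hdat σ w b] at h1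
  exact AddSubgroup.pointwise_smul_le_pointwise_smul_iff.mp h1


private lemma ba_map_div {v : Ideal (𝓞 F)} {p c : 𝓞 F}
    (hcp : ∀ a ∈ v, ∃ b : 𝓞 F, c * a = p * b) {q : 𝓞 F'}
    (hq : q ∈ v.map (algebraMap (𝓞 F) (𝓞 F'))) :
    ∃ s : 𝓞 F', algebraMap (𝓞 F) (𝓞 F') c * q = algebraMap (𝓞 F) (𝓞 F') p * s := by
  rw [Ideal.map] at hq
  induction hq using Submodule.span_induction with
  | mem a ha =>
    obtain ⟨a0, ha0, rfl⟩ := ha
    obtain ⟨b, hb⟩ := hcp a0 ha0
    exact ⟨algebraMap _ _ b, by rw [← map_mul, ← map_mul, hb]⟩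
  | zero => exact ⟨0, by rw [mul_zero, mul_zero]⟩
  | add a a' _ _ h h' =>
    obtain ⟨s, hs⟩ := h
    obtain ⟨s', hs'⟩ := h'
    exact ⟨s + s', by rw [mul_add, mul_add, hs, hs']⟩
  | smul t a _ h =>
    obtain ⟨s, hs⟩ := h
    exact ⟨t * s, by rw [smul_eq_mul, mul_left_comm, hs, mul_left_comm]⟩

private lemma ba_div (hdat : Datum O n H y γ ι) {v : Ideal (𝓞 F)} {p c : 𝓞 F} (hp0 : p ≠ 0)
    (hcp : ∀ a ∈ v, ∃ b : 𝓞 F, c * a = p * b) {N : AddSubgroup B} {z : D}
    (hz : z ∈ idealMul F' (v.map (algebraMap (𝓞 F) (𝓞 F'))) (prodLat ι N y.1)) :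
    algebraMap F' D (algebraMap F F' ((p : F)⁻¹ * (c : F))) * z ∈ prodLat ι N y.1 := by
  induction hz using AddSubgroup.closure_induction with
  | mem z hz =>
    obtain ⟨q, hq, x, hx, rfl⟩ := hz
    obtain ⟨s, hs⟩ := ba_map_div hcp hq
    have hp1 : (p : F) ≠ 0 := by
      intro h
      exact hp0 (NumberField.RingOfIntegers.ext h)
    have hp2 : algebraMap F F' (p : F) ≠ 0 := by
      rw [Ne, map_eq_zero]; exact hp1
    have e0 : algebraMap F F' (c : F) * (q : F') = algebraMap F F' (p : F) * (s : F') :=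
      congrArg (fun z : 𝓞 F' => (z : F')) hs
    have e1 : algebraMap F F' ((p : F)⁻¹ * (c : F)) * (q : F') = (s : F') := by
      rw [map_mul, map_inv₀, mul_assoc, e0, ← mul_assoc, inv_mul_cancel₀ hp2, one_mul]
    rw [← mul_assoc, ← map_mul, e1]
    exact ba_prodLat_smul hdat s hx
  | zero => rw [mul_zero]; exact AddSubgroup.zero_mem _
  | add x x' _ _ h h' => rw [mul_add]; exact AddSubgroup.add_mem _ h h'
  | neg x _ h => rw [mul_neg]; exact AddSubgroup.neg_mem _ h

theorem nbW_jmap (hdat : Datum O n H y γ ι) {H₁ : Set B} (hH₁ : SubLevel ι n y H₁)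
    {v : Ideal (𝓞 F)} (hg : Good e e' m v)
    (hnv : (n : 𝓞 F) ∉ v) {b b₁ : AddSubgroup B × Set B}
    (hb : Nb F (OB ι y.1) n H₁ v b b₁) :
    NbW F' O n H (overSet_finite (F' := F') hg.max).toFinset (jmap ι n y b) (jmap ι n y b₁) := by
  obtain ⟨hb0, hb1, hlt, hlt1, hb2⟩ := hb
  have hpb := hdat.isPair_jmap hH₁ hb0
  have hpb1 := hdat.isPair_jmap hH₁ hb1
  have hle : prodLat ι b₁.1 y.1 ≤ prodLat ι b.1 y.1 := prodLat_mono hlt1.le y.1
  have hvM : idealMul F' (v.map (algebraMap (𝓞 F) (𝓞 F'))) (prodLat ι b.1 y.1) ≤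
      prodLat ι b₁.1 y.1 := ba_map_le hdat hlt.le
  have hvmax := hg.max
  refine ⟨hpb, hpb1, ?_, hle, ?_, ?_⟩
  · rw [Good.prod_eq hg]
    exact hvM
  · intro w hw
    rw [Set.Finite.mem_toFinset] at hw
    constructor
    · intro heq
      have h1 : ∀ w' ∈ (overSet_finite (F' := F') hg.max).toFinset,
          prodLat ι b.1 y.1 ≤ prodLat ι b₁.1 y.1 ⊔ idealMul F' w' (prodLat ι b.1 y.1) := by
        intro w' hw'
        rw [Set.Finite.mem_toFinset] at hw'
        obtain ⟨σ, rfl⟩ := overSet_transitive hw hw'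
        exact ba_sup_smul hdat σ (le_of_eq heq.symm)
      have h2 := ba_sup_prod (K := F') (fun a x hx => ba_prodLat_smul hdat a hx) _ h1
      rw [Good.prod_eq hg] at h2
      have h3 : prodLat ι b.1 y.1 ≤ prodLat ι b₁.1 y.1 := le_trans h2 (sup_le le_rfl hvM)
      apply lt_irrefl b.1
      refine lt_of_le_of_lt ?_ hlt1
      intro β hβ
      exact hdat.recover hb1.1 (fun x hx => h3 (mem_prodLat hβ hx))
    · intro hle1
      have h1 : ∀ w' ∈ (overSet_finite (F' := F') hg.max).toFinset,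
          prodLat ι b₁.1 y.1 ≤ idealMul F' w' (prodLat ι b.1 y.1) := by
        intro w' hw'
        rw [Set.Finite.mem_toFinset] at hw'
        obtain ⟨σ, rfl⟩ := overSet_transitive hw hw'
        exact ba_le_smul hdat σ hle1
      have h2 := ba_inter_prod (K := F') _ (fun w' hw' => by
        rw [Set.Finite.mem_toFinset] at hw'
        exact hw'.1) hle h1
      rw [Good.prod_eq hg] at h2
      have hv0 : v ≠ ⊥ :=
        Ring.ne_bot_of_isMaximal_of_not_isField hvmax (NumberField.RingOfIntegers.not_isField F)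
      obtain ⟨p, hp, hp0, c, hc, hcp⟩ := ba_uniformizer hvmax hv0
      apply not_le_of_gt hlt
      intro β hβ
      have hp1 : (p : F) ≠ 0 := by
        intro h
        exact hp0 (NumberField.RingOfIntegers.ext h)
      have hA : algebraMap F B ((p : F)⁻¹ * (c : F)) * β ∈ b.1 := by
        apply hdat.recover hb0.1
        intro x hx
        rw [map_mul, hdat.hι, mul_assoc]
        exact ba_div hdat hp0 hcp (h2 (mem_prodLat hβ hx))
      have hB : algebraMap F B (c : F) * β ∈ idealMul F v b.1 := by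
        have := mem_idealMul (K := F) hp hA
        rwa [← mul_assoc, ← map_mul, ← mul_assoc, mul_inv_cancel₀ hp1, one_mul] at this
      obtain ⟨s, i, hi, hsi⟩ := hvmax.exists_inv hc
      have e1 : β = algebraMap F B (s : F) * (algebraMap F B (c : F) * β) +
          algebraMap F B (i : F) * β := by
        rw [← mul_assoc, ← map_mul, ← add_mul, ← map_add]
        have : (s : F) * (c : F) + (i : F) = 1 := congrArg (fun z : 𝓞 F => (z : F)) hsi
        rw [this, map_one, one_mul]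
      rw [e1]
      exact AddSubgroup.add_mem _ (idealMul_smul_mem s hB) (mem_idealMul hi (hlt1.le hβ))
  · have hcond : ∀ w : Ideal (𝓞 F), w.IsMaximal → v ≤ w → (n : 𝓞 F) ∉ w := by
      intro w hw hvw
      rw [← hvmax.eq_of_le hw.ne_top hvw]
      exact hnv
    obtain ⟨u, hu, t, hut⟩ := exists_unit_mod hcond
    have hu' : ∀ x ∈ prodLat ι b.1 y.1,
        algebraMap F' D ((algebraMap (𝓞 F) (𝓞 F') u : 𝓞 F') : F') * x ∈ prodLat ι b₁.1 y.1 :=
      fun x hx => hvM (mem_idealMul (Ideal.mem_map_of_mem _ hu) hx)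
    have hut' : algebraMap (𝓞 F) (𝓞 F') u = 1 + (n : 𝓞 F') * algebraMap (𝓞 F) (𝓞 F') t := by
      rw [hut, map_add, map_one, map_mul, map_natCast]
    have hsub := IsPair.sub_pair hdat.hO hdat.hH hpb hpb1.1 hle hu' hut'
    have hO' := hH₁.lev
    obtain ⟨β, hβ⟩ := IsPair.nonempty hO' hb1
    obtain ⟨s, hs⟩ := IsPair.nonempty hdat.hH hdat.hy
    have hβ1 : β ∈ b.2 ∧ β ∈ b₁.1 := by
      rw [hb2] at hβ
      exact hβ
    have hs1 : s ∈ y.1 := (IsPair.of_mem hdat.hH hdat.hy hs).1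
    have hc1 : ι β * s ∈ (jmap ι n y b₁).2 :=
      ⟨β, hβ, s, hs, 0, AddSubgroup.zero_mem _, by rw [mul_zero, add_zero]⟩
    have hc2 : ι β * s ∈ (jmap ι n y b).2 :=
      ⟨β, hβ1.1, s, hs, 0, AddSubgroup.zero_mem _, by rw [mul_zero, add_zero]⟩
    have hc3 : ι β * s ∈ prodLat ι b₁.1 y.1 := mem_prodLat hβ1.2 hs1
    have hfin := IsPair.eq_of_common hdat.hH hpb1 hsub rfl hc1 ⟨hc2, hc3⟩
    exact congrArg Prod.snd hfin

theorem jmap_inj_of_nb (hdat : Datum O n H y γ ι) {H₁ : Set B} {v : Ideal (𝓞 F)}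
    {b b₁ b₂ : AddSubgroup B × Set B}
    (hb₁ : Nb F (OB ι y.1) n H₁ v b b₁)
    (hb₂ : Nb F (OB ι y.1) n H₁ v b b₂)
    (h : jmap ι n y b₁ = jmap ι n y b₂) : b₁ = b₂ := by
  have h1 : prodLat ι b₁.1 y.1 = prodLat ι b₂.1 y.1 := congrArg Prod.fst h
  have h2 : b₁.1 = b₂.1 := by
    apply le_antisymm
    · intro β hβ
      exact hdat.recover hb₂.2.1.1 (fun x hx => h1 ▸ mem_prodLat hβ hx)
    · intro β hβ
      exact hdat.recover hb₁.2.1.1 (fun x hx => h1 ▸ mem_prodLat hβ hx)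
  apply Prod.ext h2
  rw [hb₁.2.2.2.2, hb₂.2.2.2.2, h2]

end Pool.Agent.Helper93.WS
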