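import Pool.Agent.Helper93.WS.Defs2

/-!
# Casimir elements and Galois descent for the twisted fixed ring
-/

open scoped Pointwise NumberField TensorProduct

namespace Pool.Agent.Helper93.WS

section Casimir

variable {F F' : Type*} [Field F] [NumberField F] [Field F'] [NumberField F'] [Algebra F F']
  [IsGalois F F']

open Classical in
/-- Casimir elements with coefficients in the field. -/
private lemma casimir_field : ∃ (r : ℕ) (e e' : Fin r → F'),
    ∀ σ : F' ≃ₐ[F] F', ∑ i, e i * σ (e' i) = if σ = 1 then 1 else 0 := by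
  let b := Module.finBasis F F'
  refine ⟨Module.finrank F F', b.traceDual, b, ?_⟩
  have hexp : ∀ x : F', x = ∑ i, Algebra.trace F F' (x * b i) • b.traceDual i := by
    intro x
    conv_lhs => rw [← b.traceDual.sum_repr x]
    refine Finset.sum_congr rfl fun i _ => ?_
    rw [Module.Basis.traceDual_repr_apply, Algebra.traceForm_apply]
  have hexp2 : ∀ x : F', ∑ σ : F' ≃ₐ[F] F', (∑ i, b.traceDual i * σ (b i)) * σ x = x := by
    intro x
    conv_rhs => rw [hexp x]
    simp only [Algebra.smul_def, trace_eq_sum_automorphisms, Finset.sum_mul, map_mul]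
    rw [Finset.sum_comm]
    refine Finset.sum_congr rfl fun i _ => Finset.sum_congr rfl fun σ _ => ?_
    ring
  have hli : LinearIndependent F' (fun (σ : F' ≃ₐ[F] F') (x : F') => σ x) := by
    have h := (linearIndependent_monoidHom F' F').comp
      (fun σ : F' ≃ₐ[F] F' => ((σ : F' →ₐ[F] F') : F' →* F')) (by
        intro σ τ h
        ext x
        exact DFunLike.congr_fun h x)
    exact h
  have h0 := Fintype.linearIndependent_iff.mp hli
    (fun σ => (∑ i, b.traceDual i * σ (b i)) - if σ = 1 then 1 else 0) (by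
      funext x
      rw [Finset.sum_apply]
      simp only [Pi.smul_apply, smul_eq_mul, sub_mul, Finset.sum_sub_distrib, hexp2, ite_mul,
        one_mul, zero_mul, Finset.sum_ite_eq', Finset.mem_univ, if_true, AlgEquiv.one_apply,
        sub_self, Pi.zero_apply])
  intro σ
  exact sub_eq_zero.mp (h0 σ)

/-- Existence of Casimir elements: `∑ e_i σ(e'_i) = m δ_{σ,1}` (take a basis of `F'` over `F`,
its dual basis for the trace form, and clear denominators). -/
theorem exists_casimir : ∃ (r : ℕ) (e e' : Fin r → 𝓞 F') (m : ℕ), m ≠ 0 ∧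
    ∑ i, e i * e' i = (m : 𝓞 F') ∧
    ∀ σ : F' ≃ₐ[F] F', σ ≠ 1 → ∑ i, e i * σ • e' i = 0 := by
  classical
  obtain ⟨r, e, e', h⟩ := casimir_field (F := F) (F' := F')
  obtain ⟨y, hy0, hy⟩ := exists_integral_multiples ℤ ℚ (Finset.univ.image e ∪ Finset.univ.image e')
  have he : ∀ i, ∃ E : 𝓞 F', algebraMap (𝓞 F') F' E = (y : F') * e i := by
    intro i
    have h1 : IsIntegral ℤ (y • e i) := hy _ (by simp)
    exact ⟨⟨y • e i, h1⟩, zsmul_eq_mul (e i) y⟩
  have he' : ∀ i, ∃ E : 𝓞 F', algebraMap (𝓞 F') F' E = (y : F') * e' i := by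
    intro i
    have h1 : IsIntegral ℤ (y • e' i) := hy _ (by simp)
    exact ⟨⟨y • e' i, h1⟩, zsmul_eq_mul (e' i) y⟩
  choose E hE using he
  choose E' hE' using he'
  have hm : ((y.natAbs * y.natAbs : ℕ) : F') = (y : F') * (y : F') := by
    have h1 : ((y.natAbs * y.natAbs : ℕ) : ℤ) = y * y := Int.natAbs_mul_self
    have h2 : (((y.natAbs * y.natAbs : ℕ) : ℤ) : F') = ((y * y : ℤ) : F') := by rw [h1]
    rw [Int.cast_natCast, Int.cast_mul] at h2
    exact h2
  have hact : ∀ (σ : F' ≃ₐ[F] F') (i : Fin r),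
      algebraMap (𝓞 F') F' (E i * σ • E' i) = (y : F') * (y : F') * (e i * σ (e' i)) := by
    intro σ i
    have h2 : algebraMap (𝓞 F') F' (σ • E' i) = σ (algebraMap (𝓞 F') F' (E' i)) := rfl
    rw [map_mul, h2, hE, hE', map_mul, map_intCast]
    ring
  refine ⟨r, E, E', y.natAbs * y.natAbs, ?_, ?_, ?_⟩
  · simp [hy0]
  · apply NumberField.RingOfIntegers.coe_injective
    rw [map_sum, map_natCast, hm]
    have h1 := h 1
    rw [if_pos rfl] at h1
    calc ∑ i, algebraMap (𝓞 F') F' (E i * E' i)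
        = ∑ i, (y : F') * (y : F') * (e i * (1 : F' ≃ₐ[F] F') (e' i)) := by
          refine Finset.sum_congr rfl fun i _ => ?_
          have h3 := hact 1 i
          rw [one_smul] at h3
          exact h3
      _ = (y : F') * (y : F') := by rw [← Finset.mul_sum, h1, mul_one]
  · intro σ hσ
    apply NumberField.RingOfIntegers.coe_injective
    rw [map_sum, map_zero]
    have h1 := h σ
    rw [if_neg hσ] at h1
    calc ∑ i, algebraMap (𝓞 F') F' (E i * σ • E' i)
        = ∑ i, (y : F') * (y : F') * (e i * σ (e' i)) :=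
          Finset.sum_congr rfl fun i _ => hact σ i
      _ = 0 := by rw [← Finset.mul_sum, h1, mul_zero]

end Casimir

section Tw

variable {F F' : Type*} [Field F] [NumberField F] [Field F'] [NumberField F'] [Algebra F F']
  {D : Type*} [DivisionRing D] [Algebra F' D] [MulSemiringAction (F' ≃ₐ[F] F') D]

/-- The twisted action `d ↦ γ_σ⁻¹ σ(d) γ_σ`. -/
private def tw (γ : (F' ≃ₐ[F] F') → Dˣ) (σ : F' ≃ₐ[F] F') : D →+ D where
  toFun d := (((γ σ)⁻¹ : Dˣ) : D) * (σ • d) * (γ σ : D)
  map_zero' := by rw [smul_zero, mul_zero, zero_mul]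
  map_add' := by
    intro a b
    rw [smul_add, mul_add, add_mul]

private lemma tw_apply (γ : (F' ≃ₐ[F] F') → Dˣ) (σ : F' ≃ₐ[F] F') (d : D) :
    tw γ σ d = (((γ σ)⁻¹ : Dˣ) : D) * (σ • d) * (γ σ : D) := rfl

private lemma tw_alg
    (hact : ∀ (σ : F' ≃ₐ[F] F') (a : F'), σ • algebraMap F' D a = algebraMap F' D (σ a))
    (γ : (F' ≃ₐ[F] F') → Dˣ) (σ : F' ≃ₐ[F] F') (a : F') (d : D) :
    tw γ σ (algebraMap F' D a * d) = algebraMap F' D (σ a) * tw γ σ d := by
  rw [tw_apply, tw_apply, smul_mul', hact, ← mul_assoc, ← mul_assoc, ← mul_assoc,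
    Algebra.commutes (σ a)]

private lemma tw_eq_self (γ : (F' ≃ₐ[F] F') → Dˣ) (σ : F' ≃ₐ[F] F') (d : D) :
    tw γ σ d = d ↔ (σ • d) * (γ σ : D) = (γ σ : D) * d := by
  rw [tw_apply, mul_assoc, Units.inv_mul_eq_iff_eq_mul]

private lemma tw_one {γ : (F' ≃ₐ[F] F') → Dˣ} (hcen1 : ∃ a : F', (γ 1 : D) = algebraMap F' D a)
    (d : D) : tw γ 1 d = d := by
  rw [tw_eq_self, one_smul]
  obtain ⟨a, ha⟩ := hcen1
  rw [ha]
  exact (Algebra.commutes a d).symm

private lemma tw_mul {γ : (F' ≃ₐ[F] F') → Dˣ}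
    (hcen : ∀ σ τ, ∃ a : F',
      (γ (σ * τ) : D) = (σ • (γ τ : D)) * (γ σ : D) * algebraMap F' D a)
    (σ τ : F' ≃ₐ[F] F') (d : D) : tw γ (σ * τ) d = tw γ σ (tw γ τ d) := by
  obtain ⟨a, ha⟩ := hcen σ τ
  rw [tw_apply γ (σ * τ), mul_assoc, Units.inv_mul_eq_iff_eq_mul, ha, tw_apply, tw_apply,
    smul_mul', smul_mul', mul_smul]
  have h1 : (σ • (γ τ : D)) * (σ • (((γ τ)⁻¹ : Dˣ) : D)) = 1 := by
    rw [← smul_mul', Units.mul_inv, smul_one]
  have h2 : ∀ x : D, algebraMap F' D a * x = x * algebraMap F' D a := Algebra.commutes a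
  calc σ • τ • d * ((σ • (γ τ : D)) * (γ σ : D) * algebraMap F' D a)
      = ((σ • (γ τ : D)) * (σ • (((γ τ)⁻¹ : Dˣ) : D))) * (σ • τ • d) * (σ • (γ τ : D))
          * (γ σ : D) * algebraMap F' D a := by
        rw [h1, one_mul]
        simp only [mul_assoc]
    _ = (σ • (γ τ : D)) * ((γ σ : D) * (((γ σ)⁻¹ : Dˣ) : D)) * (σ • (((γ τ)⁻¹ : Dˣ) : D))
          * (σ • τ • d) * (σ • (γ τ : D)) * (γ σ : D) * algebraMap F' D a := by
        rw [Units.mul_inv, mul_one]
    _ = _ := by
        rw [mul_assoc _ (algebraMap F' D a), h2]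
        simp only [mul_assoc]

/-- The average for the twisted action. -/
private noncomputable def twTr (γ : (F' ≃ₐ[F] F') → Dˣ) : D →+ D := ∑ σ, tw γ σ

private lemma twTr_apply (γ : (F' ≃ₐ[F] F') → Dˣ) (d : D) : twTr γ d = ∑ σ, tw γ σ d := by
  rw [twTr, AddMonoidHom.finsetSum_apply]

private lemma twTr_fixed {γ : (F' ≃ₐ[F] F') → Dˣ}
    (hcen : ∀ σ τ, ∃ a : F',
      (γ (σ * τ) : D) = (σ • (γ τ : D)) * (γ σ : D) * algebraMap F' D a)
    (d : D) (σ : F' ≃ₐ[F] F') : tw γ σ (twTr γ d) = twTr γ d := by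
  rw [twTr_apply, map_sum]
  simp only [← tw_mul hcen]
  exact Equiv.sum_comp (Equiv.mulLeft σ) (fun τ => tw γ τ d)

private lemma sum_twTr
    (hact : ∀ (σ : F' ≃ₐ[F] F') (a : F'), σ • algebraMap F' D a = algebraMap F' D (σ a))
    {γ : (F' ≃ₐ[F] F') → Dˣ} (hcen1 : ∃ a : F', (γ 1 : D) = algebraMap F' D a)
    {r : ℕ} {e e' : Fin r → 𝓞 F'} {m : ℕ}
    (cas1 : ∑ i, e i * e' i = (m : 𝓞 F'))
    (cas : ∀ σ : F' ≃ₐ[F] F', σ ≠ 1 → ∑ i, e i * σ • e' i = 0) (d : D) :
    ∑ i, algebraMap F' D (e i : F') * twTr γ (algebraMap F' D (e' i : F') * d) = (m : D) * d := by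
  classical
  have h1 : ∀ σ : F' ≃ₐ[F] F', ∑ i, algebraMap F' D (e i : F') *
      algebraMap F' D (σ (e' i : F')) = if σ = 1 then (m : D) else 0 := by
    intro σ
    have h2 : ∑ i, algebraMap F' D (e i : F') * algebraMap F' D (σ (e' i : F')) =
        algebraMap F' D (algebraMap (𝓞 F') F' (∑ i, e i * σ • e' i)) := by
      rw [map_sum, map_sum]
      refine Finset.sum_congr rfl fun i _ => ?_
      rw [map_mul, map_mul]
      rfl
    rw [h2]
    by_cases hσ : σ = 1
    · subst hσ
      rw [if_pos rfl]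
      simp only [one_smul]
      rw [cas1, map_natCast, map_natCast]
    · rw [if_neg hσ, cas σ hσ, map_zero, map_zero]
  calc ∑ i, algebraMap F' D (e i : F') * twTr γ (algebraMap F' D (e' i : F') * d)
      = ∑ i, ∑ σ, algebraMap F' D (e i : F') * algebraMap F' D (σ (e' i : F')) * tw γ σ d := by
        refine Finset.sum_congr rfl fun i _ => ?_
        rw [twTr_apply, Finset.mul_sum]
        refine Finset.sum_congr rfl fun σ _ => ?_
        rw [tw_alg hact, mul_assoc]
    _ = ∑ σ, (∑ i, algebraMap F' D (e i : F') * algebraMap F' D (σ (e' i : F'))) * tw γ σ d := by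
        rw [Finset.sum_comm]
        refine Finset.sum_congr rfl fun σ _ => ?_
        rw [Finset.sum_mul]
    _ = (m : D) * d := by
        simp only [h1, ite_mul, zero_mul, Finset.sum_ite_eq', Finset.mem_univ, if_true]
        rw [tw_one hcen1]

end Tw

section Descent

variable {F F' : Type*} [Field F] [NumberField F] [Field F'] [NumberField F'] [Algebra F F']
  [IsGalois F F'] {D : Type*} [DivisionRing D]
  [Algebra F' D] [MulSemiringAction (F' ≃ₐ[F] F') D]

/-- Galois descent: the twisted fixed ring is an `F`-form of `D`. -/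
theorem descent_form
    (hact : ∀ (σ : F' ≃ₐ[F] F') (a : F'), σ • algebraMap F' D a = algebraMap F' D (σ a))
    (γ : (F' ≃ₐ[F] F') → Dˣ) (hcen1 : ∃ a : F', (γ 1 : D) = algebraMap F' D a)
    (hcen : ∀ σ τ, ∃ a : F',
      (γ (σ * τ) : D) = (σ • (γ τ : D)) * (γ σ : D) * algebraMap F' D a) :
    letI := algFix hact γ
    Nonempty ((F' ⊗[F] (twFix γ)) ≃ₐ[F'] D) := by
  classical
  let _ := algFix hact γ
  let _ : Algebra F D := Algebra.compHom D (algebraMap F F')
  have _ : IsScalarTower F F' D := IsScalarTower.of_algebraMap_eq (fun _ => rfl)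
  let g : (twFix γ) →ₐ[F] D :=
    { (twFix γ).subtype with
      commutes' := fun _ => rfl }
  have hg : ∀ b : twFix γ, g b = (b : D) := fun _ => rfl
  let f : F' →ₐ[F'] D := Algebra.ofId F' D
  have hf : ∀ a : F', f a = algebraMap F' D a := fun _ => rfl
  let Φ : (F' ⊗[F] (twFix γ)) →ₐ[F'] D :=
    Algebra.TensorProduct.lift f g (fun x y => Algebra.commutes x (g y))
  have hΦ : ∀ (a : F') (b : twFix γ), Φ (a ⊗ₜ[F] b) = algebraMap F' D a * (b : D) := by
    intro a b
    exact Algebra.TensorProduct.lift_tmul f g _ a b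
  obtain ⟨r, e, e', m, hm0, cas1, cas⟩ := exists_casimir (F := F) (F' := F')
  have hmF : (m : F') ≠ 0 := Nat.cast_ne_zero.mpr hm0
  -- the averages
  let T : Fin r → D → twFix γ := fun i d =>
    ⟨twTr γ (algebraMap F' D (e' i : F') * d),
      fun σ => (tw_eq_self γ σ _).1 (twTr_fixed hcen _ σ)⟩
  have hT : ∀ i d, ((T i d : twFix γ) : D) = twTr γ (algebraMap F' D (e' i : F') * d) :=
    fun _ _ => rfl
  have hTadd : ∀ i d d', T i (d + d') = T i d + T i d' := by
    intro i d d'
    apply Subtype.ext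
    rw [Subfield.coe_add, hT, hT, hT, mul_add, map_add]
  let ψ : D → F' ⊗[F] (twFix γ) := fun d => ∑ i, ((m : F')⁻¹ * (e i : F')) ⊗ₜ[F] T i d
  have hψadd : ∀ d d', ψ (d + d') = ψ d + ψ d' := by
    intro d d'
    simp only [ψ, hTadd, TensorProduct.tmul_add, Finset.sum_add_distrib]
  have hΦψ : ∀ d, Φ (ψ d) = d := by
    intro d
    simp only [ψ]
    rw [map_sum]
    simp only [hΦ, hT, map_mul, mul_assoc]
    rw [← Finset.mul_sum, sum_twTr hact hcen1 cas1 cas, ← mul_assoc]
    have h1 : algebraMap F' D (m : F')⁻¹ * (m : D) = 1 := by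
      rw [← map_natCast (algebraMap F' D), ← map_mul, inv_mul_cancel₀ hmF, map_one]
    rw [h1, one_mul]
  have hψΦ : ∀ x, ψ (Φ x) = x := by
    intro x
    induction x using TensorProduct.induction_on with
    | zero =>
      have h0 := hψadd 0 0
      rw [add_zero] at h0
      rw [map_zero]
      exact (add_eq_left.mp h0.symm)
    | tmul a b =>
      have hTb : ∀ i, T i (Φ (a ⊗ₜ[F] b)) = Algebra.trace F F' ((e' i : F') * a) • b := by
        intro i
        apply Subtype.ext
        have hfix : ∀ σ : F' ≃ₐ[F] F', tw γ σ (b : D) = b := fun σ =>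
          (tw_eq_self γ σ _).2 (b.2 σ)
        have hs : ((Algebra.trace F F' ((e' i : F') * a) • b : twFix γ) : D) =
            algebraMap F' D (algebraMap F F' (Algebra.trace F F' ((e' i : F') * a))) * (b : D) :=
          rfl
        rw [hT, hΦ, hs, trace_eq_sum_automorphisms, ← mul_assoc, ← map_mul, twTr_apply, map_sum,
          Finset.sum_mul]
        refine Finset.sum_congr rfl fun σ _ => ?_
        rw [tw_alg hact, hfix]
      have hsum : ∑ i, Algebra.trace F F' ((e' i : F') * a) • ((m : F')⁻¹ * (e i : F')) = a := by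
        have hc : ∀ σ : F' ≃ₐ[F] F', ∑ i, (e i : F') * σ (e' i : F') =
            if σ = 1 then (m : F') else 0 := by
          intro σ
          have h2 : ∑ i, (e i : F') * σ (e' i : F') =
              algebraMap (𝓞 F') F' (∑ i, e i * σ • e' i) := by
            rw [map_sum]
            refine Finset.sum_congr rfl fun i _ => ?_
            rw [map_mul]
            rfl
          rw [h2]
          by_cases hσ : σ = 1
          · subst hσ
            rw [if_pos rfl]
            simp only [one_smul]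
            rw [cas1, map_natCast]
          · rw [if_neg hσ, cas σ hσ, map_zero]
        calc ∑ i, Algebra.trace F F' ((e' i : F') * a) • ((m : F')⁻¹ * (e i : F'))
            = ∑ i, ∑ σ : F' ≃ₐ[F] F', (m : F')⁻¹ * (((e i : F') * σ (e' i : F')) * σ a) := by
              refine Finset.sum_congr rfl fun i _ => ?_
              rw [Algebra.smul_def, trace_eq_sum_automorphisms, Finset.sum_mul]
              refine Finset.sum_congr rfl fun σ _ => ?_
              rw [map_mul]
              ring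
          _ = ∑ σ : F' ≃ₐ[F] F', (m : F')⁻¹ * ((∑ i, (e i : F') * σ (e' i : F')) * σ a) := by
              rw [Finset.sum_comm]
              refine Finset.sum_congr rfl fun σ _ => ?_
              rw [Finset.sum_mul, Finset.mul_sum]
          _ = a := by
              simp only [hc, ite_mul, zero_mul, mul_ite, mul_zero, Finset.sum_ite_eq',
                Finset.mem_univ, if_true]
              rw [AlgEquiv.one_apply, ← mul_assoc, inv_mul_cancel₀ hmF, one_mul]
      calc ψ (Φ (a ⊗ₜ[F] b))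
          = ∑ i, ((m : F')⁻¹ * (e i : F')) ⊗ₜ[F]
              (Algebra.trace F F' ((e' i : F') * a) • b) := by
            simp only [ψ, hTb]
        _ = ∑ i, (Algebra.trace F F' ((e' i : F') * a) • ((m : F')⁻¹ * (e i : F'))) ⊗ₜ[F] b := by
            refine Finset.sum_congr rfl fun i _ => ?_
            rw [TensorProduct.smul_tmul]
        _ = a ⊗ₜ[F] b := by
            rw [← TensorProduct.sum_tmul, hsum]
    | add x y hx hy => rw [map_add, hψadd, hx, hy]
  exact ⟨AlgEquiv.ofBijective Φ ⟨fun x y h => by rw [← hψΦ x, h, hψΦ], fun d => ⟨ψ d, hΦψ d⟩⟩⟩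

end Descent

section Average

variable {F F' : Type*} [Field F] [NumberField F] [Field F'] [NumberField F'] [Algebra F F']
  {B D : Type*} [DivisionRing B] [DivisionRing D] [Algebra F B] [Algebra F' D]
  [MulSemiringAction (F' ≃ₐ[F] F') D] {O : Subring D} {n : ℕ} {H : Set D}
  {y : AddSubgroup D × Set D} {γ : (F' ≃ₐ[F] F') → Dˣ} {ι : B →+* D}

/-- If the additive group `M` is stable under the ring of integers and under the twisted action,
and `d Λ ⊆ M`, then `m d` is a combination, with coefficients in the ring of integers of `F'`,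
of elements `β` of `B` with `β Λ ⊆ M`. -/
theorem average_mem (hdat : Datum O n H y γ ι) {r : ℕ} {e e' : Fin r → 𝓞 F'} {m : ℕ}
    (cas1 : ∑ i, e i * e' i = (m : 𝓞 F'))
    (cas : ∀ σ : F' ≃ₐ[F] F', σ ≠ 1 → ∑ i, e i * σ • e' i = 0)
    {M : AddSubgroup D} (hM : ∀ (a : 𝓞 F'), ∀ x ∈ M, algebraMap F' D (a : F') * x ∈ M)
    (hMγ : ∀ σ, σ • M = γ σ • M) {d : D} (hd : ∀ x ∈ y.1, d * x ∈ M) :
    (m : D) * d ∈ AddSubgroup.closure
      {z | ∃ (a : 𝓞 F') (β : B), (∀ x ∈ y.1, ι β * x ∈ M) ∧
        z = algebraMap F' D (a : F') * ι β} := by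
  rw [← sum_twTr hdat.hact hdat.hcen1 cas1 cas d]
  refine AddSubgroup.sum_mem _ fun i _ => AddSubgroup.subset_closure ?_
  obtain ⟨β, hβ⟩ := (hdat.hB (twTr γ (algebraMap F' D (e' i : F') * d))).2
    (fun σ => (tw_eq_self γ σ _).1 (twTr_fixed hdat.hcen _ σ))
  refine ⟨e i, β, ?_, by rw [hβ]⟩
  intro x hx
  rw [hβ, twTr_apply, Finset.sum_mul]
  refine AddSubgroup.sum_mem _ fun σ _ => ?_
  have h1 : γ σ • x ∈ σ • y.1 := by
    have h2 : σ • y.1 = γ σ • y.1 := congrArg Prod.fst (hdat.hγ σ)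
    rw [h2]
    exact AddSubgroup.smul_mem_pointwise_smul _ _ _ hx
  obtain ⟨x', hx', hx'2⟩ := h1
  have hx'3 : σ • x' = (γ σ : D) * x := hx'2
  have h3 : algebraMap F' D (e' i : F') * d * x' ∈ M := by
    rw [mul_assoc]
    exact hM _ _ (hd _ hx')
  have h4 : σ • (algebraMap F' D (e' i : F') * d * x') ∈ γ σ • M := by
    rw [← hMγ]
    exact AddSubgroup.smul_mem_pointwise_smul _ _ _ h3
  obtain ⟨z, hz, hz2⟩ := h4
  have hz3 : (γ σ : D) * z = σ • (algebraMap F' D (e' i : F') * d * x') := hz2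
  have h5 : tw γ σ (algebraMap F' D (e' i : F') * d) * x = z := by
    rw [tw_apply, mul_assoc, mul_assoc, Units.inv_mul_eq_iff_eq_mul, hz3, ← hx'3, ← smul_mul']
  rw [h5]
  exact hz

end Average

end Pool.Agent.Helper93.WS
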