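import Pool.Agent.Helper93.WS.JM
import Pool.Agent.Helper93.WS.GoodP
import Pool.Agent.Helper93.WS.Cas
import Pool.Agent.Helper93.WS.Small

/-!
# A local generator of the descended lattice at a good prime
-/

open scoped Pointwise NumberField

namespace Pool.Agent.Helper93.WS

/-- The order as a module over the ring of integers. -/
private def orderSub {K : Type*} [Field K] [NumberField K] {D : Type*} [DivisionRing D]
    [Algebra K D] {O : Subring D} (hO : IsOrder K O) : Submodule (𝓞 K) D where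
  carrier := O
  add_mem' := fun ha hb => O.add_mem ha hb
  zero_mem' := O.zero_mem
  smul_mem' := by
    intro c x hx
    have h1 : c • x = algebraMap K D (c : K) * x := by
      rw [← Algebra.smul_def]
      exact (algebraMap_smul K c x).symm
    rw [h1]
    exact O.mul_mem (hO.1 c) hx

private theorem smul_eq {K : Type*} [Field K] [NumberField K] {D : Type*} [DivisionRing D]
    [Algebra K D] (c : 𝓞 K) (x : D) : c • x = algebraMap K D (c : K) * x := by
  rw [← Algebra.smul_def]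
  exact (algebraMap_smul K c x).symm

/-- The right ideal `a O` as a module over the ring of integers. -/
private def rightSub {K : Type*} [Field K] [NumberField K] {D : Type*} [DivisionRing D]
    [Algebra K D] {O : Subring D} (hO : IsOrder K O) (a : D) : Submodule (𝓞 K) D where
  carrier := {d | ∃ x ∈ O, d = a * x}
  add_mem' := by
    rintro _ _ ⟨x, hx, rfl⟩ ⟨x', hx', rfl⟩
    exact ⟨x + x', O.add_mem hx hx', (mul_add _ _ _).symm⟩
  zero_mem' := ⟨0, O.zero_mem, (mul_zero _).symm⟩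
  smul_mem' := by
    rintro c _ ⟨x, hx, rfl⟩
    refine ⟨algebraMap K D (c : K) * x, O.mul_mem (hO.1 c) hx, ?_⟩
    rw [smul_eq, ← mul_assoc, ← mul_assoc, Algebra.commutes]

/-- Nakayama: if `a` is invertible modulo `w O` then `a O` contains an element of the ring of
integers outside `w`. -/
theorem exists_mul_eq_of_mod {K : Type*} [Field K] [NumberField K] {D : Type*} [DivisionRing D]
    [Algebra K D] {O : Subring D} (hO : IsOrder K O) {w : Ideal (𝓞 K)} (hw : w.IsMaximal)
    {a a' : D} (ha : a ∈ O) (ha' : a' ∈ O)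
    (h : a * a' - 1 ∈ idealMul K w O.toAddSubgroup) :
    ∃ a'' ∈ O, ∃ m : 𝓞 K, m ∉ w ∧ a * a'' = algebraMap K D (m : K) := by
  have hfg : (orderSub hO).FG := by
    obtain ⟨S, hS⟩ := hO.2.1
    refine ⟨S, le_antisymm ?_ ?_⟩
    · rw [Submodule.span_le]
      intro s hs
      have : s ∈ AddSubgroup.closure (S : Set D) := AddSubgroup.subset_closure hs
      rw [hS] at this
      exact this
    · intro x hx
      have hx' : x ∈ AddSubgroup.closure (S : Set D) := by
        rw [hS]; exact hx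
      have hle : AddSubgroup.closure (S : Set D) ≤
          (Submodule.span (𝓞 K) (S : Set D)).toAddSubgroup := by
        rw [AddSubgroup.closure_le]
        intro s hs
        exact Submodule.subset_span hs
      exact hle hx'
  have key : ∀ d ∈ idealMul K w O.toAddSubgroup, ∀ x ∈ O,
      (rightSub hO a).mkQ (d * x) ∈ w • (orderSub hO).map (rightSub hO a).mkQ := by
    intro d hd x hx
    unfold idealMul at hd
    induction hd using AddSubgroup.closure_induction with
    | mem d hd =>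
      obtain ⟨m, hm, y, hy, rfl⟩ := hd
      rw [mul_assoc, ← smul_eq, map_smul]
      exact Submodule.smul_mem_smul hm (Submodule.mem_map_of_mem (O.mul_mem hy hx))
    | zero => rw [zero_mul, map_zero]; exact Submodule.zero_mem _
    | add d d' _ _ h1 h2 => rw [add_mul, map_add]; exact Submodule.add_mem _ h1 h2
    | neg d _ h1 => rw [neg_mul, map_neg]; exact Submodule.neg_mem _ h1
  have hle : (orderSub hO).map (rightSub hO a).mkQ ≤
      w • (orderSub hO).map (rightSub hO a).mkQ := by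
    rintro _ ⟨x, hx, rfl⟩
    have hx' : x ∈ O := hx
    have h1 := key _ h x hx'
    have h2 : (rightSub hO a).mkQ ((a * a' - 1) * x) = - (rightSub hO a).mkQ x := by
      rw [sub_mul, one_mul, map_sub]
      have h3 : (rightSub hO a).mkQ (a * a' * x) = 0 := by
        rw [Submodule.mkQ_apply, Submodule.Quotient.mk_eq_zero]
        exact ⟨a' * x, O.mul_mem ha' hx', mul_assoc _ _ _⟩
      rw [h3, zero_sub]
    rw [h2] at h1
    have h4 := Submodule.neg_mem _ h1
    rwa [neg_neg] at h4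
  obtain ⟨r, hr1, hr2⟩ := Submodule.exists_sub_one_mem_and_smul_eq_zero_of_fg_of_le_smul w _
    (hfg.map _) hle
  have h1 := hr2 ((rightSub hO a).mkQ 1) (Submodule.mem_map_of_mem (show (1 : D) ∈ O from O.one_mem))
  rw [← map_smul, Submodule.mkQ_apply, Submodule.Quotient.mk_eq_zero] at h1
  obtain ⟨x, hx, hx2⟩ := h1
  refine ⟨x, hx, r, ?_, ?_⟩
  · intro hrw
    apply hw.ne_top
    rw [Ideal.eq_top_iff_one]
    have := w.sub_mem hrw hr1
    simpa using this
  · rw [← hx2, smul_eq, mul_one]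

variable {F F' : Type*} [Field F] [NumberField F] [Field F'] [NumberField F'] [Algebra F F']
  [IsGalois F F']
  {B D : Type*} [DivisionRing B] [DivisionRing D] [Algebra F B] [Algebra F' D]
  [MulSemiringAction (F' ≃ₐ[F] F') D] {O : Subring D} {n : ℕ} {H : Set D}
  {y : AddSubgroup D × Set D} {γ : (F' ≃ₐ[F] F') → Dˣ} {ι : B →+* D}
  {r : ℕ} {e e' : Fin r → 𝓞 F'} {m : ℕ}

/-- At one prime `w` over a good `v`: there is `β` in `B` with `β Λ ⊆ M`, with equality at `w`. -/
theorem exists_generator_at (hdat : Datum O n H y γ ι) {v : Ideal (𝓞 F)} (hg : Good e e' m v)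
    {w : Ideal (𝓞 F')} (hw : w ∈ overSet F' v) (hsplit : Split F' O w)
    {M : AddSubgroup D} (hM : IsLat F' O M) (hMγ : ∀ σ, σ • M = γ σ • M) :
    ∃ β : B, β ≠ 0 ∧ (∀ x ∈ y.1, ι β * x ∈ M) ∧
      ∃ c : 𝓞 F', c ∉ w ∧ ∀ x ∈ M, ∃ x' ∈ y.1, algebraMap F' D (c : F') * x = ι β * x' := by
  have hwmax : w.IsMaximal := hw.1
  have hmw : (m : 𝓞 F') ∉ w := by
    intro h
    apply hg.mv
    rw [← hw.2, Ideal.mem_comap, map_natCast]
    exact h
  obtain ⟨π, hπs, hπ0, hπm⟩ := hsplit
  obtain ⟨x, hx, hx0, m0, hm0, hgen0⟩ := hdat.hy.1.2 w hwmax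
  obtain ⟨x1, hx1, hx10, m1, hm1, hgen1⟩ := hM.2 w hwmax
  let : Field (𝓞 F' ⧸ w) := Ideal.Quotient.field w
  have hinj : Function.Injective (algebraMap F' D) := (algebraMap F' D).injective
  have hne : ∀ c : 𝓞 F', c ∉ w → algebraMap F' D (c : F') ≠ 0 := by
    intro c hc h0
    apply hc
    have h1 : (c : F') = 0 := by
      apply hinj
      rw [h0, map_zero]
    have h2 : c = 0 := NumberField.RingOfIntegers.ext h1
    rw [h2]
    exact w.zero_mem
  -- the group of values
  let V : AddSubgroup (Matrix (Fin 2) (Fin 2) (𝓞 F' ⧸ w)) :=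
    { carrier := {A | ∃ β : B, (∀ z ∈ y.1, ι β * z ∈ M) ∧ ∃ a : O,
        algebraMap F' D (m1 : F') * (ι β * x) = x1 * (a : D) ∧ π a = A}
      add_mem' := by
        rintro _ _ ⟨β, hβ, a, ha, rfl⟩ ⟨β', hβ', a', ha', rfl⟩
        refine ⟨β + β', ?_, a + a', ?_, map_add _ _ _⟩
        · intro z hz
          rw [map_add, add_mul]
          exact M.add_mem (hβ z hz) (hβ' z hz)
        · rw [map_add, add_mul, mul_add, ha, ha', Subring.coe_add, mul_add]
      zero_mem' := by
        refine ⟨0, ?_, 0, ?_, map_zero _⟩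
        · intro z hz
          rw [map_zero, zero_mul]
          exact M.zero_mem
        · rw [map_zero, zero_mul, mul_zero, Subring.coe_zero, mul_zero]
      neg_mem' := by
        rintro _ ⟨β, hβ, a, ha, rfl⟩
        refine ⟨-β, ?_, -a, ?_, map_neg _ _⟩
        · intro z hz
          rw [map_neg, neg_mul]
          exact M.neg_mem (hβ z hz)
        · rw [map_neg, neg_mul, mul_neg, ha, Subring.coe_neg, mul_neg] }
  have hMst : ∀ (a : 𝓞 F'), ∀ x ∈ M, algebraMap F' D (a : F') * x ∈ M :=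
    fun a x hx => hM.smul_mem hdat.hO a hx
  have hP : ∀ d ∈ AddSubgroup.closure
      {z | ∃ (a : 𝓞 F') (β : B), (∀ x ∈ y.1, ι β * x ∈ M) ∧
        z = algebraMap F' D (a : F') * ι β},
      ∃ a : O, algebraMap F' D (m1 : F') * (d * x) = x1 * (a : D) ∧
        π a ∈ Submodule.span (𝓞 F' ⧸ w) (V : Set (Matrix (Fin 2) (Fin 2) (𝓞 F' ⧸ w))) := by
    intro d hd
    induction hd using AddSubgroup.closure_induction with
    | mem d hd =>
      obtain ⟨c, β, hβ, rfl⟩ := hd
      obtain ⟨a, haO, ha⟩ := hgen1 _ (hβ x hx)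
      refine ⟨⟨algebraMap F' D (c : F') * a, O.mul_mem (hdat.hO.1 c) haO⟩, ?_, ?_⟩
      · show algebraMap F' D (m1 : F') * (algebraMap F' D (c : F') * ι β * x) =
          x1 * (algebraMap F' D (c : F') * a)
        rw [mul_assoc, ← mul_assoc, ← mul_assoc x1, ← Algebra.commutes (c : F') x1,
          Algebra.commutes (m1 : F') (algebraMap F' D (c : F')), mul_assoc, ha, mul_assoc]
      · rw [hπm c ⟨a, haO⟩ ⟨algebraMap F' D (c : F') * a, O.mul_mem (hdat.hO.1 c) haO⟩ rfl]
        apply Submodule.smul_mem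
        apply Submodule.subset_span
        exact ⟨β, hβ, ⟨a, haO⟩, ha, rfl⟩
    | zero =>
      refine ⟨0, ?_, ?_⟩
      · rw [zero_mul, mul_zero, Subring.coe_zero, mul_zero]
      · rw [map_zero]; exact Submodule.zero_mem _
    | add d d' _ _ h1 h2 =>
      obtain ⟨a, ha, ha2⟩ := h1
      obtain ⟨a', ha', ha2'⟩ := h2
      refine ⟨a + a', ?_, ?_⟩
      · rw [add_mul, mul_add, ha, ha', Subring.coe_add, mul_add]
      · rw [map_add]; exact Submodule.add_mem _ ha2 ha2'
    | neg d _ h1 =>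
      obtain ⟨a, ha, ha2⟩ := h1
      refine ⟨-a, ?_, ?_⟩
      · rw [neg_mul, mul_neg, ha, Subring.coe_neg, mul_neg]
      · rw [map_neg]; exact Submodule.neg_mem _ ha2
  have hspan : Submodule.span (𝓞 F' ⧸ w)
      (V : Set (Matrix (Fin 2) (Fin 2) (𝓞 F' ⧸ w))) = ⊤ := by
    rw [Submodule.eq_top_iff']
    intro A
    obtain ⟨⟨a', ha'⟩, hA⟩ := hπs A
    -- the element d
    have hd : ∀ z ∈ y.1, (algebraMap F' D (m0 : F') * (x1 * a' * x⁻¹)) * z ∈ M := by
      intro z hz
      obtain ⟨b, hb, hb2⟩ := hgen0 z hz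
      have h1 : (algebraMap F' D (m0 : F') * (x1 * a' * x⁻¹)) * z = x1 * (a' * b) := by
        rw [Algebra.commutes (m0 : F') (x1 * a' * x⁻¹), mul_assoc, hb2, mul_assoc, mul_assoc,
          inv_mul_cancel_left₀ hx0]
      rw [h1]
      exact hM.1 _ hx1 _ (O.mul_mem ha' hb)
    have h1 := average_mem hdat hg.cas1 hg.cas hMst hMγ hd
    obtain ⟨a, ha, ha2⟩ := hP _ h1
    have h2 : (a : D) = algebraMap F' D ((m1 * ((m : 𝓞 F') * m0) : 𝓞 F') : F') * a' := by
      apply mul_left_cancel₀ hx10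
      rw [← ha, ← mul_assoc x1, ← Algebra.commutes _ x1]
      simp only [map_mul, map_natCast, mul_assoc]
      rw [inv_mul_cancel₀ hx0, mul_one]
    have h3 := hπm (m1 * ((m : 𝓞 F') * m0)) ⟨a', ha'⟩ a h2
    have h4 : (Ideal.Quotient.mk w (m1 * ((m : 𝓞 F') * m0))) ≠ 0 := by
      rw [Ne, Ideal.Quotient.eq_zero_iff_mem]
      intro h
      rcases hwmax.isPrime.mem_or_mem h with h | h
      · exact hm1 h
      · rcases hwmax.isPrime.mem_or_mem h with h | h
        · exact hmw h
        · exact hm0 h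
    rw [h3, hA] at ha2
    exact (Submodule.smul_mem_iff _ h4).1 ha2
  obtain ⟨A, ⟨β, hβ, a, ha, haA⟩, hdet⟩ := exists_det_ne_zero V hspan
  -- invert A
  have hunit : IsUnit A.det := isUnit_iff_ne_zero.2 hdet
  obtain ⟨a', ha'⟩ := hπs A⁻¹
  have h0 : π (a * a' - 1) = 0 := by
    rw [map_sub, map_mul, map_one, haA, ha', Matrix.mul_nonsing_inv A hunit, sub_self]
  have h1 : (a : D) * (a' : D) - 1 ∈ idealMul F' w O.toAddSubgroup := (hπ0 _).1 h0
  obtain ⟨a'', ha'', m2, hm2, hm2'⟩ := exists_mul_eq_of_mod hdat.hO hwmax a.2 a'.2 h1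
  have hβ0 : β ≠ 0 := by
    rintro rfl
    rw [map_zero, zero_mul, mul_zero] at ha
    have h2 : (a : D) = 0 := by
      rcases mul_eq_zero.1 ha.symm with h | h
      · exact absurd h hx10
      · exact h
    rw [h2, zero_mul] at hm2'
    exact hne m2 hm2 hm2'.symm
  refine ⟨β, hβ0, hβ, m2, hm2, ?_⟩
  intro z hz
  obtain ⟨b, hb, hb2⟩ := hgen1 z hz
  refine ⟨x * (a'' * b), hdat.hy.1.1 _ hx _ (O.mul_mem ha'' hb), ?_⟩
  apply mul_left_cancel₀ (hne m1 hm1)
  rw [← mul_assoc, Algebra.commutes (m1 : F') (algebraMap F' D (m2 : F')), mul_assoc, hb2,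
    ← mul_assoc, Algebra.commutes (m2 : F') x1, ← hm2', mul_assoc, mul_assoc, ← mul_assoc x1, ← ha]
  simp only [mul_assoc]

/-- The same with a denominator in `F` prime to `v`. -/
theorem exists_generator (hdat : Datum O n H y γ ι) {v : Ideal (𝓞 F)} (hg : Good e e' m v)
    (hsplit : ∀ w ∈ overSet F' v, Split F' O w)
    {M : AddSubgroup D} (hM : IsLat F' O M) (hMγ : ∀ σ, σ • M = γ σ • M) :
    ∃ β : B, β ≠ 0 ∧ (∀ x ∈ y.1, ι β * x ∈ M) ∧
      ∃ c : 𝓞 F, c ∉ v ∧ ∀ x ∈ M, ∃ x' ∈ y.1,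
        algebraMap F' D (algebraMap F F' (c : F)) * x = ι β * x' := by
  obtain ⟨w0, hw0⟩ := overSet_nonempty (F' := F') hg.max
  obtain ⟨β, hβ0, hβ, c0, hc0, hc0'⟩ := exists_generator_at hdat hg hw0 (hsplit w0 hw0) hM hMγ
  refine ⟨β, hβ0, hβ, ?_⟩
  have hΛ : ∀ σ : F' ≃ₐ[F] F', σ • y.1 = γ σ • y.1 := fun σ => congrArg Prod.fst (hdat.hγ σ)
  have hβσ : ∀ σ : F' ≃ₐ[F] F', (σ • ι β) * (γ σ : D) = (γ σ : D) * ι β :=
    (hdat.hB (ι β)).1 ⟨β, rfl⟩
  -- the ideal of denominators
  let I : Ideal (𝓞 F') :=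
    { carrier := {c | ∀ z ∈ M, ∃ x' ∈ y.1, algebraMap F' D (c : F') * z = ι β * x'}
      add_mem' := by
        intro c c' hc hc' z hz
        obtain ⟨x, hx, h1⟩ := hc z hz
        obtain ⟨x', hx', h1'⟩ := hc' z hz
        exact ⟨x + x', y.1.add_mem hx hx', by
          rw [mul_add, ← h1, ← h1', ← add_mul, ← map_add]; rfl⟩
      zero_mem' := by
        intro z hz
        exact ⟨0, y.1.zero_mem, by simp⟩
      smul_mem' := by
        intro t c hc z hz
        obtain ⟨x, hx, h1⟩ := hc z hz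
        refine ⟨algebraMap F' D (t : F') * x, hdat.hy.1.smul_mem hdat.hO t hx, ?_⟩
        show algebraMap F' D ((t : F') * (c : F')) * z = ι β * (algebraMap F' D (t : F') * x)
        rw [map_mul, mul_assoc, h1, ← mul_assoc, ← mul_assoc, Algebra.commutes (t : F') (ι β)] }
  have hI : ∀ w ∈ overSet F' v, ¬ I ≤ w := by
    intro w hw hIw
    obtain ⟨σ, rfl⟩ := overSet_transitive hw0 hw
    apply hc0
    have hmem : σ • c0 ∈ I := by
      intro z hz
      have h1 : (γ σ : D) * z ∈ σ • M := by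
        rw [hMγ σ]
        exact AddSubgroup.smul_mem_pointwise_smul z (γ σ) M hz
      obtain ⟨z0, hz0, hz0'⟩ := (AddSubgroup.mem_smul_pointwise_iff_exists _ _ _).1 h1
      obtain ⟨x0, hx0, h2⟩ := hc0' z0 hz0
      have h3 : σ • x0 ∈ γ σ • y.1 := by
        rw [← hΛ σ]
        exact AddSubgroup.smul_mem_pointwise_smul x0 σ y.1 hx0
      obtain ⟨x2, hx2, hx2'⟩ := (AddSubgroup.mem_smul_pointwise_iff_exists _ _ _).1 h3
      refine ⟨x2, hx2, ?_⟩
      have h4 : σ • (algebraMap F' D (c0 : F') * z0) = σ • (ι β * x0) := by rw [h2]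
      rw [smul_mul', smul_mul', hdat.hact, hz0', ← hx2', Units.smul_def, smul_eq_mul,
        ← mul_assoc, ← mul_assoc, hβσ σ, Algebra.commutes, mul_assoc, mul_assoc] at h4
      exact mul_left_cancel₀ (γ σ).ne_zero h4
    have h5 := hIw hmem
    rwa [Ideal.smul_mem_pointwise_smul_iff] at h5
  obtain ⟨u, hu, huI⟩ := exists_notMem_of_forall hg.max hI
  exact ⟨u, hu, fun z hz => huI z hz⟩

end Pool.Agent.Helper93.WS
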