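import Pool.Agent.Helper93.WS.BijB1

/-!
# Backward direction: fixed neighbours come from neighbours of `B`
-/

open scoped Pointwise NumberField

namespace Pool.Agent.Helper93.WS

variable {F F' : Type*} [Field F] [NumberField F] [Field F'] [NumberField F'] [Algebra F F']
  [IsGalois F F']
  {B D : Type*} [DivisionRing B] [DivisionRing D] [Algebra F B] [Algebra F' D]
  [MulSemiringAction (F' ≃ₐ[F] F') D] {O : Subring D} {n : ℕ} {H : Set D}
  {y : AddSubgroup D × Set D} {γ : (F' ≃ₐ[F] F') → Dˣ} {ι : B →+* D}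
  {r : ℕ} {e e' : Fin r → 𝓞 F'} {m : ℕ}

/-- the elements of `B` which multiply `Λ` into `M` -/
private def colon (ι : B →+* D) (Λ M : AddSubgroup D) : AddSubgroup B where
  carrier := {b | ∀ x ∈ Λ, ι b * x ∈ M}
  add_mem' := by
    intro a b ha hb x hx
    rw [map_add, add_mul]
    exact M.add_mem (ha _ hx) (hb _ hx)
  zero_mem' := by
    intro x hx
    rw [map_zero, zero_mul]
    exact M.zero_mem
  neg_mem' := by
    intro a ha x hx
    rw [map_neg, neg_mul]
    exact M.neg_mem (ha _ hx)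

private theorem mem_colon {Λ M : AddSubgroup D} {β : B} :
    β ∈ colon ι Λ M ↔ ∀ x ∈ Λ, ι β * x ∈ M := Iff.rfl

omit [NumberField F] [NumberField F'] [IsGalois F F'] in
/-- the image of a ring of integers element of `F` in `D` -/
private theorem iota_int (hdat : Datum O n H y γ ι) (a : 𝓞 F) :
    ι (algebraMap F B (a : F)) =
      algebraMap F' D ((algebraMap (𝓞 F) (𝓞 F') a : 𝓞 F') : F') := by
  rw [hdat.hι]
  rfl

/-- a multiple by an element of `v` of an element of `N` multiplies `Λ` into `J (N Λ)` -/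
private theorem mul_mem_idealMul (hdat : Datum O n H y γ ι) {v : Ideal (𝓞 F)}
    {J : Ideal (𝓞 F')} {t : 𝓞 F} (_ht : t ∈ v) (htJ : algebraMap (𝓞 F) (𝓞 F') t ∈ J)
    {N : AddSubgroup B} {β : B} (hβ : β ∈ N) {x : D} (hx : x ∈ y.1) :
    ι (algebraMap F B (t : F) * β) * x ∈ idealMul F' J (prodLat ι N y.1) := by
  rw [map_mul, iota_int hdat, mul_assoc]
  exact mem_idealMul htJ (mem_prodLat hβ hx)

/-- `N Λ` is stable under the ring of integers of `F'` -/
private theorem prodLat_smul_mem (hdat : Datum O n H y γ ι) (N : AddSubgroup B) (a : 𝓞 F')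
    {x : D} (hx : x ∈ prodLat ι N y.1) : algebraMap F' D (a : F') * x ∈ prodLat ι N y.1 := by
  let M : AddSubgroup D :=
    { carrier := {d | algebraMap F' D (a : F') * d ∈ prodLat ι N y.1}
      add_mem' := by
        intro c d hc hd
        show algebraMap F' D (a : F') * (c + d) ∈ prodLat ι N y.1
        rw [mul_add]
        exact (prodLat ι N y.1).add_mem hc hd
      zero_mem' := by
        show algebraMap F' D (a : F') * 0 ∈ prodLat ι N y.1
        rw [mul_zero]
        exact (prodLat ι N y.1).zero_mem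
      neg_mem' := by
        intro c hc
        show algebraMap F' D (a : F') * (-c) ∈ prodLat ι N y.1
        rw [mul_neg]
        exact (prodLat ι N y.1).neg_mem hc }
  have h : prodLat ι N y.1 ≤ M := by
    rw [prodLat_le_iff]
    intro β hβ u hu
    show algebraMap F' D (a : F') * (ι β * u) ∈ prodLat ι N y.1
    have e1 : algebraMap F' D (a : F') * (ι β * u) = ι β * (algebraMap F' D (a : F') * u) := by
      rw [← mul_assoc, Algebra.commutes, mul_assoc]
    rw [e1]
    exact mem_prodLat hβ (hdat.hy.1.smul_mem hdat.hO a hu)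
  exact h hx

/-- if `t N ⊆ N'` then `t (N Λ) ⊆ N' Λ` -/
private theorem prodLat_mul_mem (hdat : Datum O n H y γ ι) {N N' : AddSubgroup B} {t : 𝓞 F}
    (hN : ∀ β ∈ N, algebraMap F B (t : F) * β ∈ N') {x : D} (hx : x ∈ prodLat ι N y.1) :
    algebraMap F' D ((algebraMap (𝓞 F) (𝓞 F') t : 𝓞 F') : F') * x ∈ prodLat ι N' y.1 := by
  let M : AddSubgroup D :=
    { carrier := {d | algebraMap F' D ((algebraMap (𝓞 F) (𝓞 F') t : 𝓞 F') : F') * d ∈
        prodLat ι N' y.1}
      add_mem' := by
        intro c d hc hd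
        show algebraMap F' D ((algebraMap (𝓞 F) (𝓞 F') t : 𝓞 F') : F') * (c + d) ∈
          prodLat ι N' y.1
        rw [mul_add]
        exact (prodLat ι N' y.1).add_mem hc hd
      zero_mem' := by
        show algebraMap F' D ((algebraMap (𝓞 F) (𝓞 F') t : 𝓞 F') : F') * 0 ∈ prodLat ι N' y.1
        rw [mul_zero]
        exact (prodLat ι N' y.1).zero_mem
      neg_mem' := by
        intro c hc
        show algebraMap F' D ((algebraMap (𝓞 F) (𝓞 F') t : 𝓞 F') : F') * (-c) ∈
          prodLat ι N' y.1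
        rw [mul_neg]
        exact (prodLat ι N' y.1).neg_mem hc }
  have h : prodLat ι N y.1 ≤ M := by
    rw [prodLat_le_iff]
    intro β hβ u hu
    show algebraMap F' D ((algebraMap (𝓞 F) (𝓞 F') t : 𝓞 F') : F') * (ι β * u) ∈
      prodLat ι N' y.1
    rw [← iota_int hdat, ← mul_assoc, ← map_mul]
    exact mem_prodLat (hN β hβ) hu
  exact h hx

theorem exists_nb_of_fixed (hdat : Datum O n H y γ ι) {H₁ : Set B}
    (hH₁ : SubLevel ι n y H₁) {v : Ideal (𝓞 F)} (hg : Good e e' m v)
    (hnv : (n : 𝓞 F) ∉ v) (hsplit : ∀ w ∈ overSet F' v, Split F' O w)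
    {b : AddSubgroup B × Set B} (hb : IsPair F (OB ι y.1) n H₁ b)
    {z : AddSubgroup D × Set D}
    (hz : NbW F' O n H (overSet_finite (F' := F') hg.max).toFinset (jmap ι n y b) z)
    (hzγ : ∀ σ, σ • z = γ σ • z) :
    ∃ b₁, Nb F (OB ι y.1) n H₁ v b b₁ ∧ jmap ι n y b₁ = z := by
  obtain ⟨hz0, hz1, hz2, hz3, hz4, hz5⟩ := hz
  have hOB := hdat.isOrder
  have hLev := hH₁.lev
  have hzγ1 : ∀ σ : F' ≃ₐ[F] F', σ • z.1 = γ σ • z.1 := fun σ => congrArg Prod.fst (hzγ σ)
  have hjfst : (jmap ι n y b).1 = prodLat ι b.1 y.1 := rfl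
  rw [hjfst] at hz2 hz3
  have hvmax := hg.max
  obtain ⟨w₀, hw₀⟩ := overSet_nonempty (F' := F') hvmax
  have hw₀' : w₀ ∈ (overSet_finite (F' := F') hvmax).toFinset := by
    rw [Set.Finite.mem_toFinset]
    exact hw₀
  obtain ⟨β₀, hβ₀, hβ₀Λ, c, hcv, hc⟩ := exists_generator hdat hg hsplit hz1.1 hzγ1
  set N₁ : AddSubgroup B := colon ι y.1 z.1 with hN₁
  have hβ₀N : β₀ ∈ N₁ := hβ₀Λ
  -- (a)
  have hN₁b : N₁ ≤ b.1 := by
    intro β hβ
    exact hdat.recover hb.1 fun x hx => hz3 (hβ x hx)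
  -- elements of `v` times `b.1` are in `N₁`
  have hvN : ∀ t ∈ v, ∀ β ∈ b.1, algebraMap F B (t : F) * β ∈ N₁ := by
    intro t ht β hβ x hx
    refine hz2 ?_
    rw [hg.prod_eq]
    exact mul_mem_idealMul hdat ht (Ideal.mem_map_of_mem _ ht) hβ hx
  -- (b)
  have hLat : IsLat F (OB ι y.1) N₁ := by
    refine ⟨?_, ?_⟩
    · intro x hx a ha t ht
      rw [map_mul, mul_assoc]
      exact hx _ (ha t ht)
    · intro v' hv'
      by_cases hvv : v' = v
      · subst hvv
        refine ⟨β₀, hβ₀N, hβ₀, c, hcv, ?_⟩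
        intro β hβ
        refine ⟨β₀⁻¹ * (algebraMap F B (c : F) * β), ?_, ?_⟩
        · intro x hx
          obtain ⟨x', hx', hxx⟩ := hc _ (hβ x hx)
          have e1 : ι (β₀⁻¹ * (algebraMap F B (c : F) * β)) * x = x' := by
            rw [map_mul, map_mul, hdat.hι, mul_assoc, mul_assoc, hxx, ← mul_assoc, ← map_mul,
              inv_mul_cancel₀ hβ₀, map_one, one_mul]
          rw [e1]
          exact hx'
        · rw [← mul_assoc, mul_inv_cancel₀ hβ₀, one_mul]
      · obtain ⟨t, ht, htv'⟩ : ∃ t ∈ v, t ∉ v' := by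
          by_contra hcon
          push Not at hcon
          exact hvv (hvmax.eq_of_le hv'.ne_top hcon).symm
        obtain ⟨x, hx, hx0, m', hm', hgen⟩ := hb.1.2 v' hv'
        have ht0 : (t : F) ≠ 0 := by
          intro h
          apply htv'
          have : t = 0 := by
            apply NumberField.RingOfIntegers.coe_injective
            simpa using h
          rw [this]
          exact v'.zero_mem
        refine ⟨algebraMap F B (t : F) * x, hvN t ht x hx, ?_, t * m', ?_, ?_⟩
        · refine mul_ne_zero ?_ hx0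
          rw [Ne, map_eq_zero]
          exact ht0
        · intro h
          rcases hv'.isPrime.mem_or_mem h with h | h
          · exact htv' h
          · exact hm' h
        · intro β hβ
          obtain ⟨a, ha, hae⟩ := hgen β (hN₁b hβ)
          refine ⟨a, ha, ?_⟩
          have e1 : algebraMap F B ((t * m' : 𝓞 F) : F)
              = algebraMap F B (t : F) * algebraMap F B (m' : F) := by
            rw [← map_mul]
            simp
          rw [e1, mul_assoc, hae, mul_assoc]
  -- (d)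
  have hprod : prodLat ι N₁ y.1 = z.1 := by
    apply le_antisymm
    · rw [prodLat_le_iff]
      intro β hβ x hx
      exact hβ x hx
    · intro x hx
      refine local_principle (K := F') (fun a u hu => prodLat_smul_mem hdat N₁ a hu) ?_
      intro w hw
      by_cases hwv : w ∈ overSet F' v
      · refine ⟨algebraMap (𝓞 F) (𝓞 F') c, ?_, ?_⟩
        · intro h
          apply hcv
          have h2 : c ∈ w.comap (algebraMap (𝓞 F) (𝓞 F')) := h
          rwa [hwv.2] at h2
        · obtain ⟨x', hx', hxx⟩ := hc x hx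
          have e1 : algebraMap F' D ((algebraMap (𝓞 F) (𝓞 F') c : 𝓞 F') : F') * x = ι β₀ * x' :=
            hxx
          rw [e1]
          exact mem_prodLat hβ₀N hx'
      · obtain ⟨t, ht, htw⟩ : ∃ t ∈ v, algebraMap (𝓞 F) (𝓞 F') t ∉ w := by
          by_contra hcon
          push Not at hcon
          apply hwv
          refine ⟨hw, ?_⟩
          have hne : w.comap (algebraMap (𝓞 F) (𝓞 F')) ≠ ⊤ := Ideal.comap_ne_top _ hw.ne_top
          exact (hvmax.eq_of_le hne hcon).symm
        exact ⟨_, htw, prodLat_mul_mem hdat (hvN t ht) (hz3 hx)⟩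
  -- the pair
  obtain ⟨u, huv, t, hut⟩ := exists_unit_mod (K := F) (n := n) (J := v) (by
    intro w hw hvw
    have : v = w := hvmax.eq_of_le hw.ne_top hvw
    rw [← this]
    exact hnv)
  have hpair : IsPair F (OB ι y.1) n H₁ (N₁, b.2 ∩ (N₁ : Set B)) :=
    hb.sub_pair hOB hLev hLat hN₁b (fun x hx => hvN u huv x hx) hut
  have hle1 : idealMul F v b.1 ≤ N₁ := by
    rw [idealMul_le_iff]
    intro t ht x hx
    exact hvN t ht x hx
  have hMle : idealMul F' w₀ (prodLat ι b.1 y.1) ≤ prodLat ι b.1 y.1 :=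
    idealMul_le_self hdat.hO (hdat.isLat_prodLat hb.1) w₀
  refine ⟨(N₁, b.2 ∩ (N₁ : Set B)), ⟨hb, hpair, ?_, ?_, rfl⟩, ?_⟩
  · refine lt_of_le_not_ge hle1 ?_
    intro hcon
    apply (hz4 w₀ hw₀').2
    rw [hjfst, ← hprod, prodLat_le_iff]
    intro β hβ x hx
    have hβ2 : β ∈ idealMul F v b.1 := hcon hβ
    -- `idealMul F v b.1 ≤ colon Λ (w₀ M)`
    have h3 : idealMul F v b.1 ≤ colon ι y.1 (idealMul F' w₀ (prodLat ι b.1 y.1)) := by
      rw [idealMul_le_iff]
      intro t ht β' hβ' x' hx'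
      refine mul_mem_idealMul hdat ht ?_ hβ' hx'
      have h4 : t ∈ w₀.comap (algebraMap (𝓞 F) (𝓞 F')) := by
        rw [hw₀.2]
        exact ht
      exact h4
    exact h3 hβ2 x hx
  · refine lt_of_le_not_ge hN₁b ?_
    intro hcon
    apply (hz4 w₀ hw₀').1
    rw [hjfst]
    apply le_antisymm
    · exact sup_le hz3 hMle
    · refine le_sup_of_le_left ?_
      rw [← hprod]
      exact prodLat_mono hcon y.1
  · obtain ⟨β, hβ⟩ := hpair.nonempty hLev
    obtain ⟨t, ht⟩ := hdat.hy.nonempty hdat.hH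
    have ht1 : t ∈ y.1 := (hdat.hy.of_mem hdat.hH ht).1
    refine IsPair.eq_of_common hdat.hH (hdat.isPair_jmap hH₁ hpair) hz1 hprod (s := ι β * t) ?_ ?_
    · exact ⟨β, hβ, t, ht, 0, AddSubgroup.zero_mem _, by rw [mul_zero, add_zero]⟩
    · rw [hz5]
      refine ⟨?_, ?_⟩
      · exact ⟨β, hβ.1, t, ht, 0, AddSubgroup.zero_mem _, by rw [mul_zero, add_zero]⟩
      · exact hβ.2 t ht1

end Pool.Agent.Helper93.WS
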