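import Mathlib

/-!
# Lattice pairs, quaternionic forms mod p and Hecke operators without adeles

`K` is a number field and `D` a finite-dimensional division algebra over `K`
(used for quaternion algebras).
-/

open scoped Pointwise NumberField

namespace Pool.Agent.Helper93.WS

section Lattices

variable (K : Type*) [Field K] [NumberField K] {D : Type*} [Ring D] [Algebra K D]

/-- `O` is an order of the `K`-algebra `D` over the ring of integers of `K`. -/
def IsOrder (O : Subring D) : Prop :=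
  (∀ a : 𝓞 K, algebraMap K D (a : K) ∈ O) ∧ O.toAddSubgroup.FG ∧
    ∀ d : D, ∃ m : ℕ, m ≠ 0 ∧ (m : D) * d ∈ O

/-- `Λ` is a locally principal right `O`-lattice: it is stable under `O`, and at every maximal
ideal `w` of the ring of integers it is generated, up to a denominator `m` prime to `w`, by one
nonzero element. -/
def IsLat (O : Subring D) (Λ : AddSubgroup D) : Prop :=
  (∀ x ∈ Λ, ∀ a ∈ O, x * a ∈ Λ) ∧
    ∀ w : Ideal (𝓞 K), w.IsMaximal → ∃ x ∈ Λ, x ≠ 0 ∧ ∃ m : 𝓞 K, m ∉ w ∧
      ∀ y ∈ Λ, ∃ a ∈ O, algebraMap K D (m : K) * y = x * a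

/-- `H` is a level group mod `n`: the preimage in `O` of a group of units of `O / n O`. -/
structure IsLevel (O : Subring D) (n : ℕ) (H : Set D) : Prop where
  sub : ∀ h ∈ H, h ∈ O
  one : (1 : D) ∈ H
  add : ∀ h ∈ H, ∀ a ∈ O, h + (n : D) * a ∈ H
  mul : ∀ h ∈ H, ∀ h' ∈ H, h * h' ∈ H
  inv : ∀ h ∈ H, ∃ h' ∈ H, ∃ a ∈ O, h * h' = 1 + (n : D) * a

/-- The full level group mod `n` (the smallest one). -/
def fullLevel (O : Subring D) (n : ℕ) : Set D := {h | ∃ a ∈ O, h = 1 + (n : D) * a}

/-- Pairs `(Λ, S)`: a locally principal right `O`-lattice `Λ` with an `H`-orbit `S` of generators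
of `Λ` modulo `n Λ`. -/
def IsPair (O : Subring D) (n : ℕ) (H : Set D) (y : AddSubgroup D × Set D) : Prop :=
  IsLat K O y.1 ∧ ∃ l ∈ y.1,
    (∀ z ∈ y.1, ∃ a ∈ O, ∃ z' ∈ y.1, z = l * a + (n : D) * z') ∧
    y.2 = {s | ∃ h ∈ H, ∃ z ∈ y.1, s = l * h + (n : D) * z}

/-- The product `w Λ` of an ideal of the ring of integers and a lattice. -/
def idealMul (w : Ideal (𝓞 K)) (Λ : AddSubgroup D) : AddSubgroup D :=
  AddSubgroup.closure {d | ∃ m ∈ w, ∃ x ∈ Λ, d = algebraMap K D (m : K) * x}

/-- `z` is a `w`-neighbour of `y`: the lattice of `z` lies strictly between `w Λ` and `Λ`, where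
`Λ` is the lattice of `y`, with the level structure of `y`. -/
def Nb (O : Subring D) (n : ℕ) (H : Set D) (w : Ideal (𝓞 K)) (y z : AddSubgroup D × Set D) :
    Prop :=
  IsPair K O n H y ∧ IsPair K O n H z ∧ idealMul K w y.1 < z.1 ∧ z.1 < y.1 ∧
    z.2 = y.2 ∩ (z.1 : Set D)

/-- The Hecke operator at `w`: sum over the `w`-neighbours. -/
noncomputable def hecke {k : Type*} [AddCommMonoid k] (O : Subring D) (n : ℕ) (H : Set D)
    (w : Ideal (𝓞 K)) (f : AddSubgroup D × Set D → k) : AddSubgroup D × Set D → k :=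
  fun y => ∑ᶠ (z : AddSubgroup D × Set D) (_ : Nb K O n H w y z), f z

/-- Forms of level `H` on `D` with values in `k`: functions on the pairs (extended by zero to all
`AddSubgroup D × Set D`) invariant under left multiplication by the units of `D`. -/
def IsForm {k : Type*} [Zero k] (O : Subring D) (n : ℕ) (H : Set D)
    (f : AddSubgroup D × Set D → k) : Prop :=
  (∀ y, ¬ IsPair K O n H y → f y = 0) ∧ ∀ (d : Dˣ) (y : AddSubgroup D × Set D), f (d • y) = f y

/-- `O / w O` is the algebra of `2 × 2` matrices over the residue field of `w`. -/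
def Split (O : Subring D) (w : Ideal (𝓞 K)) : Prop :=
  ∃ π : O →+* Matrix (Fin 2) (Fin 2) (𝓞 K ⧸ w), Function.Surjective π ∧
    (∀ a : O, π a = 0 ↔ (a : D) ∈ idealMul K w O.toAddSubgroup) ∧
    ∀ (m : 𝓞 K) (a b : O), (b : D) = algebraMap K D (m : K) * (a : D) →
      π b = (Ideal.Quotient.mk w m) • π a

end Lattices

/-- `φ` is a Frobenius element over `w` for the prime `Q` of `L` (with `K ⊆ L` number fields). -/
def IsFrob (K : Type*) [Field K] [NumberField K] {L : Type*} [Field L] [NumberField L]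
    [Algebra K L] (φ : L ≃ₐ[K] L) (Q : Ideal (𝓞 L)) (w : Ideal (𝓞 K)) : Prop :=
  Q.IsMaximal ∧ Q.comap (algebraMap (𝓞 K) (𝓞 L)) = w ∧
    ∀ x : 𝓞 L, φ • x - x ^ Nat.card (𝓞 K ⧸ w) ∈ Q

section Forms

variable {k : Type*} [Field k] (F F' : Type*) {L : Type*}
  [Field F] [NumberField F] [Field F'] [NumberField F'] [Field L] [NumberField L]
  [Algebra F F'] [Algebra F L] [Algebra F' L] [IsScalarTower F F' L]
  {D : Type*} [DivisionRing D] [Algebra F' D]

/-- The forms `f` on `D` (over `F'`) which lie, for all maximal ideals `w` of `F'` prime to `N`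
and all Frobenius elements `φ` over `w`, in the generalised eigenspace of the Hecke operator at
`w` for the eigenvalue `tr ρ(φ)`. This set is a linear subspace; `eigenSpace` is its span. -/
def eigenSet (ρ : (L ≃ₐ[F] L) →* Matrix.GeneralLinearGroup (Fin 2) k) (O : Subring D) (n : ℕ)
    (H : Set D) (N : ℕ) : Set (AddSubgroup D × Set D → k) :=
  {f | IsForm F' O n H f ∧ ∀ w : Ideal (𝓞 F'), w.IsMaximal → (N : 𝓞 F') ∉ w →
    ∀ (φ : L ≃ₐ[F'] L) (Q : Ideal (𝓞 L)), IsFrob F' φ Q w →
      ∃ j : ℕ, (fun g => hecke F' O n H w g -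
        Matrix.trace (ρ (φ.restrictScalars F) : Matrix (Fin 2) (Fin 2) k) • g)^[j] f = 0}

/-- The generalised eigenspace of `ρ` restricted to the Galois group of `F'`. -/
def eigenSpace (ρ : (L ≃ₐ[F] L) →* Matrix.GeneralLinearGroup (Fin 2) k) (O : Subring D) (n : ℕ)
    (H : Set D) (N : ℕ) : Submodule k (AddSubgroup D × Set D → k) :=
  Submodule.span k (eigenSet F F' ρ O n H N)

/-- Sums of traces from proper subgroups `Q` of a group `P` acting on a space `E` of functions. -/
noncomputable def properTraces (P : Type*) [Group P] {X : Type*} [MulAction P X]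
    (E : Submodule k (X → k)) : Submodule k (X → k) :=
  Submodule.span k {t | ∃ Q : Subgroup P, Q ≠ ⊤ ∧ ∃ g ∈ E, (∀ σ ∈ Q, ∀ x, g (σ • x) = g x) ∧
    t = fun x => ∑ᶠ c : P ⧸ Q, g ((Quotient.out c)⁻¹ • x)}

end Forms

end Pool.Agent.Helper93.WS
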