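import Pool.Agent.Helper93.WS.Defs

/-!
# Auxiliary definitions for the descent theorem
-/

open scoped Pointwise NumberField

namespace Pool.Agent.Helper93.WS

section Prod

variable (K : Type*) [Field K] [NumberField K] {D : Type*} [Ring D] [Algebra K D]

/-- `z` is a `W`-neighbour of `y` for a finite set `W` of maximal ideals. -/
def NbW (O : Subring D) (n : ℕ) (H : Set D) (W : Finset (Ideal (𝓞 K)))
    (y z : AddSubgroup D × Set D) : Prop :=
  IsPair K O n H y ∧ IsPair K O n H z ∧ idealMul K (∏ w ∈ W, w) y.1 ≤ z.1 ∧ z.1 ≤ y.1 ∧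
    (∀ w ∈ W, z.1 ⊔ idealMul K w y.1 ≠ y.1 ∧ ¬ z.1 ≤ idealMul K w y.1) ∧
    z.2 = y.2 ∩ (z.1 : Set D)

/-- The Hecke operator of a finite set `W` of maximal ideals. -/
noncomputable def heckeW {k : Type*} [AddCommMonoid k] (O : Subring D) (n : ℕ) (H : Set D)
    (W : Finset (Ideal (𝓞 K))) (f : AddSubgroup D × Set D → k) : AddSubgroup D × Set D → k :=
  fun y => ∑ᶠ (z : AddSubgroup D × Set D) (_ : NbW K O n H W y z), f z

end Prod

section Fix

/-- The twisted fixed ring of a family of units. -/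
def twFix {P D : Type*} [Group P] [DivisionRing D] [MulSemiringAction P D] (γ : P → Dˣ) :
    Subfield D where
  carrier := {d | ∀ σ, (σ • d) * (γ σ : D) = (γ σ : D) * d}
  mul_mem' := by
    intro a b ha hb σ
    rw [smul_mul', mul_assoc, hb σ, ← mul_assoc, ha σ, mul_assoc]
  one_mem' := by
    intro σ
    rw [smul_one, one_mul, mul_one]
  add_mem' := by
    intro a b ha hb σ
    rw [smul_add, add_mul, ha σ, hb σ, mul_add]
  zero_mem' := by
    intro σ
    rw [smul_zero, zero_mul, mul_zero]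
  neg_mem' := by
    intro a ha σ
    rw [smul_neg, neg_mul, ha σ, mul_neg]
  inv_mem' := by
    intro a ha σ
    by_cases h0 : a = 0
    · subst h0
      rw [inv_zero, smul_zero, zero_mul, mul_zero]
    · have h1 : σ • a ≠ 0 := by
        intro h
        exact h0 (by simpa using congrArg (fun x => σ⁻¹ • x) h)
      have h2 : σ • a⁻¹ = (σ • a)⁻¹ := by
        apply eq_inv_of_mul_eq_one_left
        rw [← smul_mul', inv_mul_cancel₀ h0, smul_one]
      rw [h2, inv_mul_eq_iff_eq_mul₀ h1, ← mul_assoc, ha σ, mul_assoc, mul_inv_cancel₀ h0,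
        mul_one]

variable {F F' : Type*} [Field F] [Field F'] [Algebra F F'] {D : Type*} [DivisionRing D]
  [Algebra F' D] [MulSemiringAction (F' ≃ₐ[F] F') D]

/-- The `F`-algebra structure of the twisted fixed ring. -/
@[reducible] def algFix (hact : ∀ (σ : F' ≃ₐ[F] F') (a : F'), σ • algebraMap F' D a = algebraMap F' D (σ a))
    (γ : (F' ≃ₐ[F] F') → Dˣ) : Algebra F (twFix γ) :=
  RingHom.toAlgebra' (RingHom.codRestrict ((algebraMap F' D).comp (algebraMap F F')) (twFix γ)
    (by
      intro a σ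
      simp only [RingHom.comp_apply]
      rw [hact, AlgEquiv.commutes]
      exact Algebra.commutes _ _))
    (by
      intro a x
      apply Subtype.ext
      exact Algebra.commutes _ _)

end Fix

section J

variable {B D : Type*} [Ring B] [Ring D] (ι : B →+* D)

/-- The elements of `B` which multiply `Λ` into itself. -/
def OB (Λ : AddSubgroup D) : Subring B where
  carrier := {b | ∀ x ∈ Λ, ι b * x ∈ Λ}
  mul_mem' := by
    intro a b ha hb x hx
    rw [map_mul, mul_assoc]
    exact ha _ (hb _ hx)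
  one_mem' := by
    intro x hx
    rwa [map_one, one_mul]
  add_mem' := by
    intro a b ha hb x hx
    rw [map_add, add_mul]
    exact Λ.add_mem (ha _ hx) (hb _ hx)
  zero_mem' := by
    intro x hx
    rw [map_zero, zero_mul]
    exact Λ.zero_mem
  neg_mem' := by
    intro a ha x hx
    rw [map_neg, neg_mul]
    exact Λ.neg_mem (ha _ hx)

/-- The product of `N ⊆ B` and `Λ ⊆ D`. -/
def prodLat (N : AddSubgroup B) (Λ : AddSubgroup D) : AddSubgroup D :=
  AddSubgroup.closure {d | ∃ β ∈ N, ∃ x ∈ Λ, d = ι β * x}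

/-- The map from pairs of `B` to pairs of `D` attached to a pair `y` of `D`. -/
def jmap (n : ℕ) (y : AddSubgroup D × Set D) (b : AddSubgroup B × Set B) :
    AddSubgroup D × Set D :=
  (prodLat ι b.1 y.1, {s | ∃ β ∈ b.2, ∃ t ∈ y.2, ∃ z ∈ prodLat ι b.1 y.1,
    s = ι β * t + (n : D) * z})

/-- The level group of `B` attached to a pair `y` of `D`. -/
def HB (y : AddSubgroup D × Set D) : Set B :=
  {b | b ∈ OB ι y.1 ∧ ∀ s ∈ y.2, ι b * s ∈ y.2}

/-- `H₁` is a level group of `OB ι y.1` which preserves the level structure of `y`. -/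
structure SubLevel (n : ℕ) (y : AddSubgroup D × Set D) (H₁ : Set B) : Prop where
  lev : IsLevel (OB ι y.1) n H₁
  stab : ∀ h ∈ H₁, ∀ s ∈ y.2, ι h * s ∈ y.2

end J

section Cen

variable {F' D : Type*} [Field F'] [DivisionRing D] [Algebra F' D]

/-- The central unit attached to a unit of `F'`. -/
def cen (D : Type*) [DivisionRing D] [Algebra F' D] (c : F'ˣ) : Dˣ :=
  Units.map ((algebraMap F' D : F' →+* D) : F' →* D) c

/-- Elements `c` of `F'` such that `σ(c) / c` fixes all pairs, for all `σ`. -/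
def Amb {F F' : Type*} [Field F] [NumberField F] [Field F'] [NumberField F'] [Algebra F F']
    {D : Type*} [DivisionRing D] [Algebra F' D] (O : Subring D) (n : ℕ) (H : Set D)
    (c : F'ˣ) : Prop :=
  ∀ (σ : F' ≃ₐ[F] F') (z : AddSubgroup D × Set D), IsPair F' O n H z →
    cen D (Units.map ((σ : F' →+* F') : F' →* F') c) • z = cen D c • z

end Cen

section Good

variable {F F' : Type*} [Field F] [NumberField F] [Field F'] [NumberField F'] [Algebra F F']

/-- The maximal ideals of `F'` over a maximal ideal `v` of `F`. -/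
def overSet (F' : Type*) [Field F'] [NumberField F'] [Algebra F F'] (v : Ideal (𝓞 F)) :
    Set (Ideal (𝓞 F')) :=
  {w | w.IsMaximal ∧ w.comap (algebraMap (𝓞 F) (𝓞 F')) = v}

/-- Good primes: prime to the denominator of a system of Casimir elements. -/
structure Good {r : ℕ} (e e' : Fin r → 𝓞 F') (m : ℕ) (v : Ideal (𝓞 F)) : Prop where
  max : v.IsMaximal
  cas1 : ∑ i, e i * e' i = (m : 𝓞 F')
  cas : ∀ σ : F' ≃ₐ[F] F', σ ≠ 1 → ∑ i, e i * σ • e' i = 0
  mv : (m : 𝓞 F) ∉ v

end Good

section Datum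

variable {F F' : Type*} [Field F] [NumberField F] [Field F'] [NumberField F'] [Algebra F F']
  {B D : Type*} [DivisionRing B] [DivisionRing D] [Algebra F B] [Algebra F' D]
  [MulSemiringAction (F' ≃ₐ[F] F') D]

/-- The descent datum: a pair `y` of `D` fixed by the Galois group up to the units `γ σ`, and
`B` (embedded by `ι`) the twisted fixed ring. -/
structure Datum (O : Subring D) (n : ℕ) (H : Set D) (y : AddSubgroup D × Set D)
    (γ : (F' ≃ₐ[F] F') → Dˣ) (ι : B →+* D) : Prop where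
  hact : ∀ (σ : F' ≃ₐ[F] F') (a : F'), σ • algebraMap F' D a = algebraMap F' D (σ a)
  hO : IsOrder F' O
  hOP : ∀ (σ : F' ≃ₐ[F] F'), ∀ a ∈ O, σ • a ∈ O
  hn : n ≠ 0
  hH : IsLevel O n H
  hHP : ∀ (σ : F' ≃ₐ[F] F'), ∀ h ∈ H, σ • h ∈ H
  hy : IsPair F' O n H y
  hγ : ∀ σ, σ • y = γ σ • y
  hγ1 : ∀ z, IsPair F' O n H z → γ 1 • z = z
  hγmul : ∀ σ τ z, IsPair F' O n H z →
    (γ (σ * τ))⁻¹ • (σ * τ) • z = (γ σ)⁻¹ • σ • (γ τ)⁻¹ • τ • z
  hι : ∀ a : F, ι (algebraMap F B a) = algebraMap F' D (algebraMap F F' a)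
  hB : ∀ d : D, (∃ b, ι b = d) ↔ ∀ σ, (σ • d) * (γ σ : D) = (γ σ : D) * d
  hcen1 : ∃ a : F', (γ 1 : D) = algebraMap F' D a
  hcen : ∀ σ τ, ∃ a : F',
    (γ (σ * τ) : D) = (σ • (γ τ : D)) * (γ σ : D) * algebraMap F' D a

end Datum

end Pool.Agent.Helper93.WS
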