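import Pool.Agent.Helper93.WS.Defs2

/-!
# Totally definite algebras
-/

open scoped TensorProduct

namespace Pool.Agent.Helper93.WS

/-- `B` is definite at the real embedding `τ`: the algebra `ℝ ⊗ B` has no zero divisors. -/
def DefiniteAt {F : Type*} [Field F] (τ : F →+* ℝ) (B : Type*) [Ring B] [Algebra F B] : Prop :=
  letI : Algebra F ℝ := τ.toAlgebra
  NoZeroDivisors (ℝ ⊗[F] B)

/-- `B` is totally definite: definite at all real embeddings of `F`. -/
def TotallyDefinite (F : Type*) [Field F] (B : Type*) [Ring B] [Algebra F B] : Prop :=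
  ∀ τ : F →+* ℝ, DefiniteAt τ B

/-- A real embedding of `F` extends to a totally real extension. -/
private theorem exists_ext {F F' : Type*} [Field F] [NumberField F] [Field F']
    [NumberField F'] [Algebra F F'] [NumberField.IsTotallyReal F'] (τ : F →+* ℝ) :
    ∃ τ' : F' →+* ℝ, τ'.comp (algebraMap F F') = τ := by
  letI : Algebra F ℂ := (Complex.ofRealHom.comp τ).toAlgebra
  haveI : Algebra.IsAlgebraic F F' := by
    haveI : Algebra.IsAlgebraic ℚ F' := inferInstance
    exact Algebra.IsAlgebraic.tower_top (K := ℚ) F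
  let φ : F' →ₐ[F] ℂ := IsAlgClosed.lift
  have hr : NumberField.ComplexEmbedding.IsReal (φ : F' →+* ℂ) :=
    NumberField.IsTotallyReal.complexEmbedding_isReal _
  refine ⟨hr.embedding, ?_⟩
  apply RingHom.ext
  intro x
  have h1 : ((hr.embedding (algebraMap F F' x) : ℝ) : ℂ) = φ (algebraMap F F' x) :=
    NumberField.ComplexEmbedding.IsReal.coe_embedding_apply hr _
  rw [AlgHom.commutes] at h1
  have h2 : algebraMap F ℂ x = ((τ x : ℝ) : ℂ) := rfl
  rw [h2] at h1
  exact_mod_cast h1

/-- Total definiteness descends: every real embedding of `F` extends to the totally real field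
`F'`. -/
theorem TotallyDefinite.descend {F F' : Type*} [Field F] [NumberField F] [Field F']
    [NumberField F'] [Algebra F F'] [NumberField.IsTotallyReal F'] {B D : Type*}
    [DivisionRing B] [DivisionRing D] [Algebra F B] [Algebra F' D]
    (e : (F' ⊗[F] B) ≃ₐ[F'] D) (hD : TotallyDefinite F' D) : TotallyDefinite F B := by
  intro τ
  obtain ⟨τ', hτ'⟩ := exists_ext (F := F) (F' := F') τ
  letI : Algebra F ℝ := τ.toAlgebra
  letI : Algebra F' ℝ := τ'.toAlgebra
  haveI : IsScalarTower F F' ℝ := IsScalarTower.of_algebraMap_eq' hτ'.symm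
  have hnz : NoZeroDivisors (ℝ ⊗[F'] D) := hD τ'
  change NoZeroDivisors (ℝ ⊗[F] B)
  let L : (ℝ ⊗[F] B) ≃ₗ[ℝ] (ℝ ⊗[F'] D) :=
    (TensorProduct.AlgebraTensorModule.cancelBaseChange F F' ℝ ℝ B).symm.trans
      (TensorProduct.AlgebraTensorModule.congr (LinearEquiv.refl ℝ ℝ) e.toLinearEquiv)
  have hL : ∀ (a : ℝ) (b : B), L (a ⊗ₜ b) = a ⊗ₜ (e (1 ⊗ₜ b)) := by
    intro a b
    simp [L]
  have hmul : ∀ x y : ℝ ⊗[F] B, L (x * y) = L x * L y := by
    intro x y
    refine LinearMap.map_mul_of_map_mul_tmul (f := (L : (ℝ ⊗[F] B) →ₗ[ℝ] (ℝ ⊗[F'] D))) ?_ x y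
    intro a₁ a₂ b₁ b₂
    simp only [LinearEquiv.coe_coe, hL, Algebra.TensorProduct.tmul_mul_tmul, ← map_mul, mul_one]
  exact Function.Injective.noZeroDivisors L L.injective (map_zero L) hmul

end Pool.Agent.Helper93.WS
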