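import Pool.Agent.Helper93.WS.Defs2
import Pool.Agent.Helper93.WS.PosDef

/-!
# The forms of `D` over `F` attached to pairs whose class is fixed by the Galois group
-/

open scoped Pointwise NumberField TensorProduct

namespace Pool.Agent.Helper93.WS

variable {F F' : Type*} [Field F] [NumberField F] [Field F'] [NumberField F'] [Algebra F F']
  {B D : Type*} [DivisionRing B] [DivisionRing D] [Algebra F B] [Algebra F' D]
  [MulSemiringAction (F' ≃ₐ[F] F') D]

/-- `y` is a pair of `D` with `σ y = γ_σ y` for all `σ` in the Galois group, and `ι` identifies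
the `F`-algebra `B` with the ring of all `d` in `D` with `σ(d) γ_σ = γ_σ d` for all `σ`. -/
structure IsTwistedForm (O : Subring D) (n : ℕ) (H : Set D) (y : AddSubgroup D × Set D)
    (γ : (F' ≃ₐ[F] F') → Dˣ) (ι : B →+* D) : Prop where
  pair : IsPair F' O n H y
  fixed : ∀ σ, σ • y = γ σ • y
  scalars : ∀ a : F, ι (algebraMap F B a) = algebraMap F' D (algebraMap F F' a)
  range : ∀ d : D, (∃ b, ι b = d) ↔ ∀ σ, (σ • d) * (γ σ : D) = (γ σ : D) * d

end Pool.Agent.Helper93.WS
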