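import Pool.Agent.Helper93.WS.JM

/-!
# Hilbert 90: two fixed pairs in the same class differ by a unit of `B` and an ambiguous element
-/

open scoped Pointwise NumberField

namespace Pool.Agent.Helper93.WS

variable {F F' : Type*} [Field F] [NumberField F] [Field F'] [NumberField F'] [Algebra F F']
  [IsGalois F F']
  {B D : Type*} [DivisionRing B] [DivisionRing D] [Algebra F B] [Algebra F' D]
  [MulSemiringAction (F' ≃ₐ[F] F') D] {O : Subring D} {n : ℕ} {H : Set D}
  {y : AddSubgroup D × Set D} {γ : (F' ≃ₐ[F] F') → Dˣ} {ι : B →+* D}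

omit [NumberField F] [NumberField F'] [IsGalois F F'] in
private theorem smul_unit_smul (σ : F' ≃ₐ[F] F') (d : Dˣ) (z : AddSubgroup D × Set D) :
    σ • d • z = (Units.map (MulDistribMulAction.toMonoidHom D σ) d) • σ • z := by
  have key : ∀ x : D, σ • (d • x) = (Units.map (MulDistribMulAction.toMonoidHom D σ) d) • σ • x := by
    intro x
    rw [Units.smul_def, Units.smul_def, smul_eq_mul, smul_eq_mul, smul_mul']
    rfl
  apply Prod.ext
  · change σ • d • z.1 = (Units.map (MulDistribMulAction.toMonoidHom D σ) d) • σ • z.1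
    ext x
    constructor
    · rintro ⟨_, ⟨x, hx, rfl⟩, rfl⟩
      exact ⟨σ • x, ⟨x, hx, rfl⟩, (key x).symm⟩
    · rintro ⟨_, ⟨x, hx, rfl⟩, rfl⟩
      exact ⟨d • x, ⟨x, hx, rfl⟩, key x⟩
  · change σ • d • z.2 = (Units.map (MulDistribMulAction.toMonoidHom D σ) d) • σ • z.2
    ext x
    constructor
    · rintro ⟨_, ⟨x, hx, rfl⟩, rfl⟩
      exact ⟨σ • x, ⟨x, hx, rfl⟩, (key x).symm⟩
    · rintro ⟨_, ⟨x, hx, rfl⟩, rfl⟩
      exact ⟨d • x, ⟨x, hx, rfl⟩, key x⟩

theorem exists_central_of_smul_eq (hdat : Datum O n H y γ ι)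
    (hsmall : ∀ y, IsPair F' O n H y → ∀ d : Dˣ, d • y = y → ∃ a : F', (d : D) = algebraMap F' D a)
    {z₁ z₂ : AddSubgroup D × Set D} (hz₁ : IsPair F' O n H z₁) (hz₂ : IsPair F' O n H z₂)
    (h₁ : ∀ σ, σ • z₁ = γ σ • z₁) (h₂ : ∀ σ, σ • z₂ = γ σ • z₂) {d : Dˣ} (hd : z₁ = d • z₂) :
    ∃ (u : Bˣ) (c : F'ˣ), d = Units.map (ι : B →* D) u * cen D c ∧ Amb (F := F) O n H c := by
  classical
  have : FiniteDimensional F F' := Module.Finite.of_restrictScalars_finite ℚ F F'
  -- the units `u σ`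
  let sd : (F' ≃ₐ[F] F') → Dˣ := fun σ => Units.map (MulDistribMulAction.toMonoidHom D σ) d
  have hfix : ∀ σ, (d⁻¹ * (γ σ)⁻¹ * sd σ * γ σ) • z₂ = z₂ := by
    intro σ
    have e1 : σ • z₁ = (sd σ * γ σ) • z₂ := by
      rw [hd, smul_unit_smul, h₂ σ, mul_smul]
    have e2 : σ • z₁ = (γ σ * d) • z₂ := by
      rw [h₁ σ, hd, mul_smul]
    have e3 : (sd σ * γ σ) • z₂ = (γ σ * d) • z₂ := by rw [← e1, e2]
    have e4 : d⁻¹ * (γ σ)⁻¹ * sd σ * γ σ = (γ σ * d)⁻¹ * (sd σ * γ σ) := by
      rw [mul_inv_rev]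
      simp only [mul_assoc]
    rw [e4, mul_smul, e3, inv_smul_smul]
  have hex : ∀ σ, ∃ a : F'ˣ, ((d⁻¹ * (γ σ)⁻¹ * sd σ * γ σ : Dˣ) : D) = algebraMap F' D a := by
    intro σ
    obtain ⟨a, ha⟩ := hsmall z₂ hz₂ _ (hfix σ)
    have ha0 : a ≠ 0 := by
      intro h0
      rw [h0, map_zero] at ha
      exact Units.ne_zero _ ha
    exact ⟨Units.mk0 a ha0, ha⟩
  choose a ha using hex
  have hcent : ∀ (x : D) (b : F'), x * algebraMap F' D b = algebraMap F' D b * x :=
    fun x b => (Algebra.commutes b x).symm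
  have hsd : ∀ σ, (sd σ : D) = σ • (d : D) := fun σ => rfl
  -- `σ(d) γ σ = γ σ d a σ`
  have hrel : ∀ σ, (σ • (d : D)) * (γ σ : D) = (γ σ : D) * d * algebraMap F' D (a σ) := by
    intro σ
    have h := ha σ
    rw [← hsd, ← h, ← Units.val_mul, ← Units.val_mul, ← Units.val_mul]
    congr 1
    group
  -- the cocycle relation
  have hcoc : ∀ σ τ, (a (σ * τ) : F') = σ (a τ) * (a σ : F') := by
    intro σ τ
    obtain ⟨c, hc⟩ := hdat.hcen σ τ
    have hA : ∀ (x : D) (b : F'), x * algebraMap F' D b = algebraMap F' D b * x := hcent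
    have e1 := hrel (σ * τ)
    have e2 : ((σ * τ) • (d : D)) * (γ (σ * τ) : D) =
        (γ (σ * τ) : D) * d * algebraMap F' D (σ (a τ) * (a σ : F')) := by
      calc ((σ * τ) • (d : D)) * (γ (σ * τ) : D)
          = (σ • (τ • (d : D))) * ((σ • (γ τ : D)) * (γ σ : D) * algebraMap F' D c) := by
            rw [mul_smul, hc]
        _ = (σ • ((τ • (d : D)) * (γ τ : D))) * (γ σ : D) * algebraMap F' D c := by
            rw [smul_mul']
            simp only [mul_assoc]
        _ = ((σ • (γ τ : D)) * (σ • (d : D)) * algebraMap F' D (σ (a τ))) * (γ σ : D) *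
              algebraMap F' D c := by
            rw [hrel τ, smul_mul', smul_mul', hdat.hact]
        _ = (σ • (γ τ : D)) * ((σ • (d : D)) * (γ σ : D)) * algebraMap F' D (σ (a τ)) *
              algebraMap F' D c := by
            rw [mul_assoc _ (algebraMap F' D (σ (a τ))) (γ σ : D), ← hA (γ σ : D)]
            simp only [mul_assoc]
        _ = (σ • (γ τ : D)) * ((γ σ : D) * d * algebraMap F' D (a σ)) *
              algebraMap F' D (σ (a τ)) * algebraMap F' D c := by
            rw [hrel σ]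
        _ = ((σ • (γ τ : D)) * (γ σ : D) * algebraMap F' D c) * d *
              algebraMap F' D (σ (a τ) * (a σ : F')) := by
            rw [map_mul, hA ((σ • (γ τ : D)) * (γ σ : D)) c]
            rw [hA _ c, hA (algebraMap F' D (σ (a τ))) (a σ : F')]
            simp only [mul_assoc]
        _ = (γ (σ * τ) : D) * d * algebraMap F' D (σ (a τ) * (a σ : F')) := by
            rw [hc]
    rw [e2] at e1
    have h3 : (γ (σ * τ) : D) * (d : D) ≠ 0 := mul_ne_zero (Units.ne_zero _) (Units.ne_zero _)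
    exact ((algebraMap F' D).injective (mul_left_cancel₀ h3 e1)).symm
  -- Hilbert 90
  have hmc : groupCohomology.IsMulCocycle₁ a := by
    intro σ τ
    apply Units.ext
    rw [Units.val_mul, hcoc, AlgEquiv.smul_units_def]
    rfl
  obtain ⟨c, hc⟩ := groupCohomology.isMulCoboundary₁_of_isMulCocycle₁_of_aut_to_units a hmc
  have hc' : ∀ σ : F' ≃ₐ[F] F', σ (c : F') = (a σ : F') * c := by
    intro σ
    have h := hc σ
    rw [div_eq_iff_eq_mul] at h
    have h' := congrArg (fun x : F'ˣ => (x : F')) h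
    rw [AlgEquiv.smul_units_def] at h'
    simpa using h'
  -- the element of `B`
  have hx : ∀ σ : F' ≃ₐ[F] F', (σ • ((d : D) * algebraMap F' D (c : F')⁻¹)) * (γ σ : D) =
      (γ σ : D) * ((d : D) * algebraMap F' D (c : F')⁻¹) := by
    intro σ
    have ha0 : (a σ : F') ≠ 0 := Units.ne_zero _
    have hc0 : (c : F') ≠ 0 := Units.ne_zero _
    rw [smul_mul', hdat.hact, mul_assoc, ← hcent, ← mul_assoc, hrel σ, mul_assoc _ (algebraMap F' D (a σ)),
      ← map_mul, ← mul_assoc]
    congr 2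
    rw [map_inv₀, hc' σ]
    field_simp
  obtain ⟨b, hb⟩ := (hdat.hB _).2 hx
  have hb0 : b ≠ 0 := by
    intro h0
    rw [h0, map_zero] at hb
    have h1 : (d : D) * algebraMap F' D (c : F')⁻¹ ≠ 0 := by
      apply mul_ne_zero (Units.ne_zero _)
      rw [Ne, map_eq_zero]
      exact inv_ne_zero (Units.ne_zero _)
    exact h1 hb.symm
  refine ⟨Units.mk0 b hb0, c, ?_, ?_⟩
  · apply Units.ext
    change (d : D) = ι b * algebraMap F' D (c : F')
    rw [hb, mul_assoc, ← map_mul, inv_mul_cancel₀ (Units.ne_zero _), map_one, mul_one]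
  · intro σ z hz
    have e1 : cen D (Units.map ((σ : F' →+* F') : F' →* F') c) =
        cen D c * (d⁻¹ * (γ σ)⁻¹ * sd σ * γ σ) := by
      apply Units.ext
      rw [Units.val_mul, ha σ]
      change algebraMap F' D (σ (c : F')) = algebraMap F' D (c : F') * algebraMap F' D (a σ : F')
      rw [hc' σ, map_mul]
      exact (Algebra.commutes _ _)
    rw [e1, mul_smul, central_fixes hdat.hO hdat.hn hdat.hH hz₂ (ha σ) (hfix σ) z hz]

end Pool.Agent.Helper93.WS
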