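import Pool.Agent.Helper93.WS.JM

/-!
# The level group of `B` attached to a pair, injectivity of the map on pairs
-/

open scoped Pointwise NumberField

namespace Pool.Agent.Helper93.WS

section Aux

variable {E : Type*} [DivisionRing E]

private theorem nat_comm (N : ℕ) (x : E) : (N : E) * x = x * N := Nat.cast_comm N x

private theorem natMul_mem' (M : AddSubgroup E) (N : ℕ) {x : E} (hx : x ∈ M) :
    (N : E) * x ∈ M := by
  rw [← nsmul_eq_mul]
  exact M.nsmul_mem hx N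

private theorem finite_quot' {Λ M : AddSubgroup E} (hfg : Λ.FG)
    (h : ∀ x ∈ Λ, ∃ N : ℕ, N ≠ 0 ∧ (N : E) * x ∈ M) : Finite (Λ ⧸ M.addSubgroupOf Λ) := by
  have : AddGroup.FG Λ := (AddGroup.fg_iff_addSubgroup_fg Λ).2 hfg
  refine AddCommGroup.finite_of_fg_isAddTorsion _ ?_
  intro q
  obtain ⟨x, rfl⟩ := QuotientAddGroup.mk_surjective q
  obtain ⟨N, hN, hNx⟩ := h x x.2
  rw [isOfFinAddOrder_iff_nsmul_eq_zero]
  refine ⟨N, Nat.pos_of_ne_zero hN, ?_⟩
  rw [← QuotientAddGroup.mk_nsmul, QuotientAddGroup.eq_zero_iff, AddSubgroup.mem_addSubgroupOf]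
  rw [AddSubgroup.coe_nsmul, nsmul_eq_mul]
  exact hNx

private theorem relIndex_n' {n : ℕ} (hn : (n : E) ≠ 0) {Λ M : AddSubgroup E} (hle : M ≤ Λ)
    (hfin : M.relIndex Λ ≠ 0) :
    (Λ.map (AddMonoidHom.mulLeft (n : E))).relIndex Λ =
      (M.map (AddMonoidHom.mulLeft (n : E))).relIndex M := by
  have hinj : Function.Injective (AddMonoidHom.mulLeft (n : E)) := by
    intro a b hab
    exact mul_left_cancel₀ hn hab
  have hnΛ : Λ.map (AddMonoidHom.mulLeft (n : E)) ≤ Λ := by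
    rintro _ ⟨x, hx, rfl⟩
    exact natMul_mem' _ _ hx
  have hnM : M.map (AddMonoidHom.mulLeft (n : E)) ≤ M := by
    rintro _ ⟨x, hx, rfl⟩
    exact natMul_mem' _ _ hx
  have hnn : M.map (AddMonoidHom.mulLeft (n : E)) ≤ Λ.map (AddMonoidHom.mulLeft (n : E)) :=
    AddSubgroup.map_mono hle
  have e1 := AddSubgroup.relIndex_mul_relIndex _ _ _ hnM hle
  have e2 := AddSubgroup.relIndex_mul_relIndex _ _ _ hnn hnΛ
  rw [AddSubgroup.relIndex_map_map_of_injective _ _ hinj] at e2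
  rw [← e2, mul_comm] at e1
  exact (Nat.eq_of_mul_eq_mul_left (Nat.pos_of_ne_zero hfin) e1).symm

/-- `Λ / n Λ` and `P / n P` have the same number of elements if `x Λ ≤ P` has finite index. -/
private theorem card_eq {n : ℕ} (hn : (n : E) ≠ 0) {Λ P : AddSubgroup E} {x : E} (hx : x ≠ 0)
    (hxP : ∀ z ∈ Λ, x * z ∈ P) (hP : P.FG)
    (hfull : ∀ d : E, ∃ m : ℕ, m ≠ 0 ∧ (m : E) * d ∈ Λ) :
    (Λ.map (AddMonoidHom.mulLeft (n : E))).relIndex Λ =
      (P.map (AddMonoidHom.mulLeft (n : E))).relIndex P := by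
  set M : AddSubgroup E := Λ.map (AddMonoidHom.mulLeft x) with hM
  have hMP : M ≤ P := by
    rintro _ ⟨a, ha, rfl⟩
    exact hxP a ha
  have hMfin : M.relIndex P ≠ 0 := by
    have : Finite (P ⧸ M.addSubgroupOf P) := finite_quot' hP (fun y _ => by
      obtain ⟨m, hm, hmd⟩ := hfull (x⁻¹ * y)
      refine ⟨m, hm, _, hmd, ?_⟩
      rw [AddMonoidHom.coe_mulLeft, ← mul_assoc, ← nat_comm m x, mul_assoc,
        mul_inv_cancel_left₀ hx])
    exact AddSubgroup.index_ne_zero_of_finite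
  have hxinj : Function.Injective (AddMonoidHom.mulLeft x) := by
    intro a b hab
    exact mul_left_cancel₀ hx hab
  rw [relIndex_n' hn hMP hMfin]
  have h2 : M.map (AddMonoidHom.mulLeft (n : E)) =
      (Λ.map (AddMonoidHom.mulLeft (n : E))).map (AddMonoidHom.mulLeft x) := by
    rw [hM, AddSubgroup.map_map, AddSubgroup.map_map]
    congr 1
    ext z
    change (n : E) * (x * z) = x * ((n : E) * z)
    rw [← mul_assoc, nat_comm n x, mul_assoc]
  rw [h2, hM, AddSubgroup.relIndex_map_map_of_injective _ _ hxinj]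

/-- A multiplication which is surjective modulo `n` is injective modulo `n`. -/
private theorem cancel_of_card {n : ℕ} (hn : n ≠ 0) {Λ P : AddSubgroup E} {b : E}
    (hΛ : Λ.FG) (hP : P.FG)
    (hcard : (Λ.map (AddMonoidHom.mulLeft (n : E))).relIndex Λ =
      (P.map (AddMonoidHom.mulLeft (n : E))).relIndex P)
    (hbP : ∀ x ∈ Λ, b * x ∈ P)
    (hgen : ∀ z ∈ P, ∃ x ∈ Λ, ∃ z' ∈ P, z = b * x + (n : E) * z') {u : E} (hu : u ∈ Λ)
    (hbu : ∃ z ∈ P, b * u = (n : E) * z) : ∃ v ∈ Λ, u = (n : E) * v := by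
  set ν := AddMonoidHom.mulLeft (n : E) with hν
  have hΛfin : Finite (Λ ⧸ (Λ.map ν).addSubgroupOf Λ) := finite_quot' hΛ
    (fun y hy => ⟨n, hn, y, hy, rfl⟩)
  have hPfin : Finite (P ⧸ (P.map ν).addSubgroupOf P) := finite_quot' hP
    (fun y hy => ⟨n, hn, y, hy, rfl⟩)
  let φ : Λ →+ P :=
    { toFun := fun a => ⟨b * a, hbP a a.2⟩
      map_zero' := by
        apply Subtype.ext
        change b * ((0 : Λ) : E) = 0
        rw [AddSubgroup.coe_zero, mul_zero]
      map_add' := by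
        intro a c
        apply Subtype.ext
        change b * ((a + c : Λ) : E) = b * a + b * c
        rw [AddSubgroup.coe_add, mul_add] }
  have hφ : (Λ.map ν).addSubgroupOf Λ ≤ ((P.map ν).addSubgroupOf P).comap φ := by
    intro a ha
    rw [AddSubgroup.mem_addSubgroupOf] at ha
    obtain ⟨c, hc, hac⟩ := ha
    rw [AddSubgroup.mem_comap, AddSubgroup.mem_addSubgroupOf]
    refine ⟨b * c, hbP c hc, ?_⟩
    change (n : E) * (b * c) = b * a
    rw [← hac]
    change (n : E) * (b * c) = b * ((n : E) * c)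
    rw [← mul_assoc, nat_comm n b, mul_assoc]
  let Φ := QuotientAddGroup.map _ _ φ hφ
  have hsurj : Function.Surjective Φ := by
    intro q
    obtain ⟨z, rfl⟩ := QuotientAddGroup.mk_surjective q
    obtain ⟨a, ha, z', hz', hza⟩ := hgen z z.2
    refine ⟨QuotientAddGroup.mk (⟨a, ha⟩ : Λ), ?_⟩
    change QuotientAddGroup.mk (φ ⟨a, ha⟩) = _
    rw [QuotientAddGroup.eq, AddSubgroup.mem_addSubgroupOf]
    refine ⟨z', hz', ?_⟩
    change (n : E) * z' = -(b * a) + z
    rw [hza]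
    abel
  have hbij : Function.Bijective Φ :=
    (Nat.bijective_iff_surjective_and_card Φ).2 ⟨hsurj, hcard⟩
  have hzero : Φ (QuotientAddGroup.mk (⟨u, hu⟩ : Λ)) = Φ 0 := by
    rw [map_zero]
    change QuotientAddGroup.mk (φ ⟨u, hu⟩) = _
    rw [QuotientAddGroup.eq_zero_iff, AddSubgroup.mem_addSubgroupOf]
    obtain ⟨z, hz, h⟩ := hbu
    exact ⟨z, hz, h.symm⟩
  have h3 := hbij.1 hzero
  rw [QuotientAddGroup.eq_zero_iff, AddSubgroup.mem_addSubgroupOf] at h3
  obtain ⟨v, hv, hvu⟩ := h3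
  exact ⟨v, hv, hvu.symm⟩

end Aux

variable {F F' : Type*} [Field F] [NumberField F] [Field F'] [NumberField F'] [Algebra F F']
  {B D : Type*} [DivisionRing B] [DivisionRing D] [Algebra F B] [Algebra F' D]
  [MulSemiringAction (F' ≃ₐ[F] F') D] {O : Subring D} {n : ℕ} {H : Set D}
  {y : AddSubgroup D × Set D} {γ : (F' ≃ₐ[F] F') → Dˣ} {ι : B →+* D}

private theorem natCast_ne' (K : Type*) [Field K] [NumberField K] {E : Type*} [DivisionRing E]
    [Algebra K E] {m : ℕ} (hm : m ≠ 0) : (m : E) ≠ 0 := by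
  have h1 : (m : K) ≠ 0 := Nat.cast_ne_zero.2 hm
  have h2 : algebraMap K E (m : K) ≠ 0 := by
    intro h
    exact h1 ((algebraMap K E).injective (by rw [h, map_zero]))
  rwa [map_natCast] at h2

/-- Elements of `HB` cancel modulo `n O_B`. -/
private theorem Datum.HB_cancel (hdat : Datum O n H y γ ι) {h : B} (hh : h ∈ HB ι y) {x : B}
    (hx : x ∈ OB ι y.1) (hhx : ∃ w ∈ OB ι y.1, h * x = (n : B) * w) :
    ∃ w ∈ OB ι y.1, x = (n : B) * w := by
  have hnB : (n : B) ≠ 0 := natCast_ne' F hdat.hn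
  have hnD : (n : D) ≠ 0 := natCast_ne' F' hdat.hn
  obtain ⟨w, hw, hw'⟩ := hhx
  have hfg := hdat.hy.1.fg hdat.hO
  obtain ⟨l, hl⟩ := hdat.hy.nonempty hdat.hH
  obtain ⟨hl1, hgen, hS⟩ := hdat.hy.of_mem hdat.hH hl
  have hhl := hh.2 l hl
  rw [hS] at hhl
  obtain ⟨c, hc, z₀, hz₀, hcl⟩ := hhl
  obtain ⟨c', hc', b, hb, hcc⟩ := hdat.hH.inv c hc
  -- multiplication by `ι h` is surjective modulo `n`
  have hsurj : ∀ z ∈ y.1, ∃ x ∈ y.1, ∃ z' ∈ y.1, z = ι h * x + (n : D) * z' := by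
    intro z hz
    obtain ⟨a, ha, z', hz', hza⟩ := hgen z hz
    have e1 : ι h * (l * c') = l + (n : D) * (l * b) + (n : D) * (z₀ * c') := by
      rw [← mul_assoc, hcl, add_mul, mul_assoc, hcc, mul_add, mul_one, ← mul_assoc l,
        ← nat_comm n l, mul_assoc, mul_assoc]
    have e2 : l = ι h * (l * c') + (n : D) * (-(l * b) - z₀ * c') := by
      rw [e1, mul_sub, mul_neg]
      abel
    refine ⟨l * c' * a, hdat.hy.1.1 _ (hdat.hy.1.1 _ hl1 _ (hdat.hH.sub _ hc')) _ ha,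
      (-(l * b) - z₀ * c') * a + z', y.1.add_mem (hdat.hy.1.1 _ (y.1.sub_mem
        (y.1.neg_mem (hdat.hy.1.1 _ hl1 _ hb)) (hdat.hy.1.1 _ hz₀ _ (hdat.hH.sub _ hc'))) _ ha)
        hz', ?_⟩
    rw [hza]
    conv_lhs => rw [e2]
    rw [add_mul, mul_assoc, mul_assoc (n : D), mul_add, add_assoc]
  refine ⟨(n : B)⁻¹ * x, ?_, ?_⟩
  · intro z hz
    have h1 : ∃ v ∈ y.1, ι x * z = (n : D) * v := by
      refine cancel_of_card (b := ι h) hdat.hn hfg hfg rfl (fun t ht => hh.1 t ht) hsurj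
        (hx z hz) ⟨ι w * z, hw z hz, ?_⟩
      rw [← mul_assoc, ← map_mul, hw', map_mul, map_natCast, mul_assoc]
    obtain ⟨v, hv, hv'⟩ := h1
    have h2 : ι ((n : B)⁻¹ * x) * z = v := by
      rw [map_mul, map_inv₀, map_natCast, mul_assoc, hv', inv_mul_cancel_left₀ hnD]
    rw [h2]
    exact hv
  · rw [mul_inv_cancel_left₀ hnB]

/-- `HB ι y` is a level group mod `n` of `OB ι y.1`. -/
theorem Datum.subLevel_HB (hdat : Datum O n H y γ ι) : SubLevel ι n y (HB ι y) := by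
  have hS1 : ∀ s ∈ y.2, s ∈ y.1 := fun s hs => (hdat.hy.of_mem hdat.hH hs).1
  have hone : (1 : B) ∈ HB ι y := by
    refine ⟨(OB ι y.1).one_mem, ?_⟩
    intro s hs
    rwa [map_one, one_mul]
  have hmul : ∀ h ∈ HB ι y, ∀ h' ∈ HB ι y, h * h' ∈ HB ι y := by
    intro h hh h' hh'
    refine ⟨(OB ι y.1).mul_mem hh.1 hh'.1, ?_⟩
    intro s hs
    rw [map_mul, mul_assoc]
    exact hh.2 _ (hh'.2 _ hs)
  refine ⟨⟨fun h hh => hh.1, hone, ?_, hmul, ?_⟩, fun h hh => hh.2⟩
  · intro h hh a ha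
    refine ⟨(OB ι y.1).add_mem hh.1 ((OB ι y.1).mul_mem (natCast_mem _ n) ha), ?_⟩
    intro s hs
    rw [map_add, map_mul, map_natCast, add_mul, mul_assoc]
    exact hdat.hy.add_mem hdat.hH (hh.2 s hs) (ha s (hS1 s hs))
  · intro h hh
    have hpow : ∀ i : ℕ, h ^ i ∈ HB ι y := by
      intro i
      induction i with
      | zero => rw [pow_zero]; exact hone
      | succ i ih => rw [pow_succ]; exact hmul _ ih _ hh
    set A : AddSubgroup B := (OB ι y.1).toAddSubgroup with hA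
    have hAfg : A.FG := (hdat.isOrder).2.1
    set ν := AddMonoidHom.mulLeft (n : B) with hν
    have hfin : Finite (A ⧸ (A.map ν).addSubgroupOf A) := finite_quot' hAfg
      (fun y hy => ⟨n, hdat.hn, y, hy, rfl⟩)
    obtain ⟨i, j, hij, he⟩ := Finite.exists_ne_map_eq_of_infinite
      (fun i : ℕ => (QuotientAddGroup.mk (⟨h ^ i, (hpow i).1⟩ : A) :
        A ⧸ (A.map ν).addSubgroupOf A))
    -- a general form for `i < j`
    have key : ∀ i j : ℕ, i < j →
        (∃ w ∈ OB ι y.1, h ^ j - h ^ i = (n : B) * w) →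
        ∃ h' ∈ HB ι y, ∃ a ∈ OB ι y.1, h * h' = 1 + (n : B) * a := by
      intro i j hij hw
      have hc : ∀ (i : ℕ) (x : B), x ∈ OB ι y.1 → (∃ w ∈ OB ι y.1, h ^ i * x = (n : B) * w) →
          ∃ w ∈ OB ι y.1, x = (n : B) * w := by
        intro i
        induction i with
        | zero =>
          intro x _ hxw
          rwa [pow_zero, one_mul] at hxw
        | succ i ih =>
          intro x hx hxw
          rw [pow_succ, mul_assoc] at hxw
          exact hdat.HB_cancel hh hx (ih (h * x) ((OB ι y.1).mul_mem hh.1 hx) hxw)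
      obtain ⟨k, rfl⟩ := Nat.exists_eq_add_of_lt hij
      have h1 : h ^ (i + k + 1) - h ^ i = h ^ i * (h ^ (k + 1) - 1) := by
        rw [mul_sub, mul_one, ← pow_add, add_assoc]
      rw [h1] at hw
      obtain ⟨a, ha, hae⟩ := hc i _ ((OB ι y.1).sub_mem (hpow (k + 1)).1
        (OB ι y.1).one_mem) hw
      refine ⟨h ^ k, hpow k, a, ha, ?_⟩
      rw [← hae, ← pow_succ']
      abel
    rw [QuotientAddGroup.eq, AddSubgroup.mem_addSubgroupOf] at he
    obtain ⟨w, hw, hwe⟩ := he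
    have hwe' : (n : B) * w = -h ^ i + h ^ j := hwe
    rcases lt_or_gt_of_ne hij with hlt | hgt
    · exact key i j hlt ⟨w, hw, by rw [hwe']; abel⟩
    · exact key j i hgt ⟨-w, (OB ι y.1).neg_mem hw, by rw [mul_neg, hwe']; abel⟩

/-- The map `jmap` is injective on pairs of level `HB ι y`. -/
theorem Datum.jmap_injective (hdat : Datum O n H y γ ι) {b₁ b₂ : AddSubgroup B × Set B}
    (hb₁ : IsPair F (OB ι y.1) n (HB ι y) b₁) (hb₂ : IsPair F (OB ι y.1) n (HB ι y) b₂)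
    (h : jmap ι n y b₁ = jmap ι n y b₂) : b₁ = b₂ := by
  have hS1 : ∀ s ∈ y.2, s ∈ y.1 := fun s hs => (hdat.hy.of_mem hdat.hH hs).1
  have hlev := hdat.subLevel_HB
  have e1 : prodLat ι b₁.1 y.1 = prodLat ι b₂.1 y.1 := congrArg Prod.fst h
  have e2 : (jmap ι n y b₁).2 = (jmap ι n y b₂).2 := congrArg Prod.snd h
  have hN : b₁.1 = b₂.1 := by
    apply le_antisymm
    · intro β hβ
      refine hdat.recover hb₂.1 ?_
      intro x hx
      rw [← e1]
      exact mem_prodLat hβ hx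
    · intro β hβ
      refine hdat.recover hb₁.1 ?_
      intro x hx
      rw [e1]
      exact mem_prodLat hβ hx
  obtain ⟨β, hβ⟩ := hb₁.nonempty hlev.lev
  obtain ⟨β₂, hβ₂⟩ := hb₂.nonempty hlev.lev
  have hβN : β ∈ b₂.1 := by
    rw [← hN]
    exact (hb₁.of_mem hlev.lev hβ).1
  obtain ⟨hβ₂N, hgen₂, hS₂⟩ := hb₂.of_mem hlev.lev hβ₂
  refine hb₁.eq_of_common hlev.lev hb₂ hN hβ ?_
  obtain ⟨c, hc, ν, hν, hβe⟩ := hgen₂ β hβN
  rw [hS₂]
  refine ⟨c, ⟨hc, ?_⟩, ν, hν, hβe⟩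
  intro s hs
  set P : AddSubgroup D := prodLat ι b₂.1 y.1 with hPdef
  have hnι : ∀ a : B, (n : D) * ι a = ι a * n := fun a => nat_comm n (ι a)
  -- the element `ι β * s`
  have h1 : ι β * s ∈ (jmap ι n y b₂).2 := by
    rw [← e2]
    exact ⟨β, hβ, s, hs, 0, AddSubgroup.zero_mem _, by rw [mul_zero, add_zero]⟩
  obtain ⟨β', hβ', t, ht, z, hz, hze⟩ := h1
  rw [hS₂] at hβ'
  obtain ⟨g, hg, ν', hν', rfl⟩ := hβ'
  -- `s' = ι g * t`
  have hs' : ι g * t ∈ y.2 := hg.2 t ht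
  have hPfg : P.FG := (hdat.isLat_prodLat hb₂.1).fg hdat.hO
  have hfg := hdat.hy.1.fg hdat.hO
  have h2 : ∃ v ∈ y.1, ι c * s - ι g * t = (n : D) * v := by
    obtain ⟨w, hw⟩ := Ideal.exists_maximal (𝓞 F)
    obtain ⟨x, hx, hx0, _⟩ := hb₂.1.2 w hw
    have hιx : ι x ≠ 0 := by
      intro h0
      exact hx0 (ι.injective (by rw [h0, map_zero]))
    have hcard := card_eq (natCast_ne' F' hdat.hn : (n : D) ≠ 0) (Λ := y.1) (P := P) hιx
      (fun z hz => mem_prodLat hx hz) hPfg (fun d => hdat.hy.1.full hdat.hO d)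
    refine cancel_of_card (b := ι β₂) hdat.hn hfg hPfg hcard
      (fun x hx => mem_prodLat hβ₂N hx) ?_
      (y.1.sub_mem (hc s (hS1 s hs)) (hS1 _ hs')) ?_
    · intro z hz
      let M : AddSubgroup D :=
        { carrier := {z | ∃ x ∈ y.1, ∃ z' ∈ P, z = ι β₂ * x + (n : D) * z'}
          add_mem' := by
            rintro p q ⟨x, hx, z, hz, rfl⟩ ⟨x', hx', z', hz', rfl⟩
            refine ⟨x + x', y.1.add_mem hx hx', z + z', P.add_mem hz hz', ?_⟩
            rw [mul_add, mul_add]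
            abel
          zero_mem' := ⟨0, y.1.zero_mem, 0, P.zero_mem, by simp⟩
          neg_mem' := by
            rintro p ⟨x, hx, z, hz, rfl⟩
            refine ⟨-x, y.1.neg_mem hx, -z, P.neg_mem hz, ?_⟩
            rw [mul_neg, mul_neg]
            abel }
      have hle : P ≤ M := by
        rw [hPdef, prodLat_le_iff]
        intro b hb x hx
        obtain ⟨a, ha, μ, hμ, rfl⟩ := hgen₂ b hb
        refine ⟨ι a * x, ha x hx, ι μ * x, mem_prodLat hμ hx, ?_⟩
        rw [map_add, map_mul, map_mul, map_natCast, add_mul, mul_assoc, mul_assoc]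
      exact hle hz
    · refine ⟨ι ν' * t + z - ι ν * s, P.sub_mem (P.add_mem (mem_prodLat hν' (hS1 t ht)) hz)
        (mem_prodLat hν (hS1 s hs)), ?_⟩
      have e3 : ι β * s = ι β₂ * (ι c * s) + (n : D) * (ι ν * s) := by
        rw [hβe, map_add, map_mul, map_mul, map_natCast, add_mul, mul_assoc, mul_assoc]
      have e4 : ι (β₂ * g + (n : B) * ν') * t = ι β₂ * (ι g * t) + (n : D) * (ι ν' * t) := by
        rw [map_add, map_mul, map_mul, map_natCast, add_mul, mul_assoc, mul_assoc]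
      rw [e3, e4] at hze
      rw [mul_sub, mul_sub, mul_add]
      rw [eq_sub_of_add_eq hze]
      abel
  obtain ⟨v, hv, hve⟩ := h2
  rw [sub_eq_iff_eq_add] at hve
  rw [hve, add_comm]
  exact hdat.hy.add_mem hdat.hH hs' hv

end Pool.Agent.Helper93.WS
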