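import Pool.Agent.Helper93.WS.Main2
import Pool.Agent.Helper93.WS.Level
import Pool.Agent.Helper93.WS.Hilb

/-!
# Extension of a form of `B` to an invariant form of `D`
-/

open scoped Pointwise NumberField

namespace Pool.Agent.Helper93.WS

section Aux

variable {P E : Type*} [Group P] [Ring E] [MulSemiringAction P E]

/-- The action of `σ` on a unit. -/
private def extUnit (σ : P) (d : Eˣ) : Eˣ :=
  Units.map (MulSemiringAction.toRingHom P E σ : E →* E) d

private theorem ext_unit_smul_elt (σ : P) (d : Eˣ) (x : E) :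
    σ • (d • x) = extUnit σ d • (σ • x) := by
  have h : ((extUnit σ d : Eˣ) : E) = σ • (d : E) := rfl
  rw [Units.smul_def, Units.smul_def, h, smul_eq_mul, smul_eq_mul, smul_mul']

private theorem ext_unit_smul (σ : P) (d : Eˣ) (z : AddSubgroup E × Set E) :
    σ • (d • z) = extUnit σ d • (σ • z) := by
  apply Prod.ext
  · change σ • (d • z.1) = extUnit σ d • (σ • z.1)
    ext x
    simp only [AddSubgroup.mem_smul_pointwise_iff_exists]
    constructor
    · rintro ⟨_, ⟨s, hs, rfl⟩, rfl⟩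
      exact ⟨σ • s, ⟨s, hs, rfl⟩, (ext_unit_smul_elt σ d s).symm⟩
    · rintro ⟨_, ⟨s, hs, rfl⟩, rfl⟩
      exact ⟨d • s, ⟨s, hs, rfl⟩, ext_unit_smul_elt σ d s⟩
  · change σ • (d • z.2) = extUnit σ d • (σ • z.2)
    ext x
    simp only [Set.mem_smul_set]
    constructor
    · rintro ⟨_, ⟨s, hs, rfl⟩, rfl⟩
      exact ⟨σ • s, ⟨s, hs, rfl⟩, (ext_unit_smul_elt σ d s).symm⟩
    · rintro ⟨_, ⟨s, hs, rfl⟩, rfl⟩
      exact ⟨d • s, ⟨s, hs, rfl⟩, ext_unit_smul_elt σ d s⟩

end Aux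

variable {k : Type*} [Field k] {F F' : Type*} [Field F] [NumberField F] [Field F']
  [NumberField F'] [Algebra F F'] [IsGalois F F']
  {B D : Type*} [DivisionRing B] [DivisionRing D] [Algebra F B] [Algebra F' D]
  [MulSemiringAction (F' ≃ₐ[F] F') D] {O : Subring D} {n : ℕ} {H : Set D}
  {y : AddSubgroup D × Set D} {γ : (F' ≃ₐ[F] F') → Dˣ} {ι : B →+* D}

theorem exists_extension (hdat : Datum O n H y γ ι)
    (hsmall : ∀ y, IsPair F' O n H y → ∀ d : Dˣ, d • y = y → ∃ a : F', (d : D) = algebraMap F' D a)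
    {g : AddSubgroup B × Set B → k} (hg : IsForm F (OB ι y.1) n (HB ι y) g)
    (hinv : ∀ (a : F'ˣ), Amb (F := F) O n H a → ∀ b₁ b₂,
      IsPair F (OB ι y.1) n (HB ι y) b₁ → IsPair F (OB ι y.1) n (HB ι y) b₂ →
      jmap ι n y b₁ = cen D a • jmap ι n y b₂ → g b₁ = g b₂) :
    ∃ f : AddSubgroup D × Set D → k, IsForm F' O n H f ∧
      (∀ (σ : F' ≃ₐ[F] F') x, f (σ • x) = f x) ∧ pull k F n (HB ι y) y ι f = g := by
  classical
  have hsub : SubLevel ι n y (HB ι y) := hdat.subLevel_HB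
  -- the value does not depend on the representation
  have key : ∀ (d₁ d₂ : Dˣ) (b₁ b₂ : AddSubgroup B × Set B),
      IsPair F (OB ι y.1) n (HB ι y) b₁ → IsPair F (OB ι y.1) n (HB ι y) b₂ →
      d₁ • jmap ι n y b₁ = d₂ • jmap ι n y b₂ → g b₁ = g b₂ := by
    intro d₁ d₂ b₁ b₂ hb₁ hb₂ h
    have hd : jmap ι n y b₁ = (d₁⁻¹ * d₂) • jmap ι n y b₂ := by
      rw [mul_smul, ← h, inv_smul_smul]
    obtain ⟨u, c, hu, hc⟩ := exists_central_of_smul_eq hdat hsmall
      (hdat.isPair_jmap hsub hb₁) (hdat.isPair_jmap hsub hb₂)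
      (fun σ => hdat.jmap_fixed b₁ σ) (fun σ => hdat.jmap_fixed b₂ σ) hd
    have hcomm : Units.map (ι : B →* D) u * cen D c = cen D c * Units.map (ι : B →* D) u := by
      apply Units.ext
      exact (Algebra.commutes (c : F') (ι (u : B))).symm
    have h3 : jmap ι n y b₁ = cen D c • jmap ι n y (u • b₂) := by
      rw [hd, hu, hcomm, mul_smul, jmap_units_smul hdat]
    rw [hinv c hc b₁ (u • b₂) hb₁ ((isPair_units_smul u).2 hb₂) h3, hg.2]
  let R : AddSubgroup D × Set D → AddSubgroup B × Set B → Prop := fun z b =>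
    IsPair F (OB ι y.1) n (HB ι y) b ∧ ∃ d : Dˣ, z = d • jmap ι n y b
  let f : AddSubgroup D × Set D → k := fun z => if h : ∃ b, R z b then g h.choose else 0
  have fval : ∀ z b, R z b → f z = g b := by
    intro z b hb
    have h : ∃ b, R z b := ⟨b, hb⟩
    have h1 : f z = g h.choose := dif_pos h
    rw [h1]
    obtain ⟨h2, d₁, h3⟩ := h.choose_spec
    obtain ⟨h4, d₂, h5⟩ := hb
    exact key d₁ d₂ _ _ h2 h4 (h3.symm.trans h5)
  have fzero : ∀ z, (¬ ∃ b, R z b) → f z = 0 := fun z h => dif_neg h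
  have Runit : ∀ (e : Dˣ) z b, R z b → R (e • z) b := by
    rintro e z b ⟨hb, d, rfl⟩
    exact ⟨hb, e * d, (mul_smul e d _).symm⟩
  have Rgal : ∀ (σ : F' ≃ₐ[F] F') z b, R z b → R (σ • z) b := by
    rintro σ z b ⟨hb, d, rfl⟩
    refine ⟨hb, extUnit σ d * γ σ, ?_⟩
    rw [ext_unit_smul, hdat.jmap_fixed, mul_smul]
  refine ⟨f, ⟨?_, ?_⟩, ?_, ?_⟩
  · intro z hz
    refine fzero z ?_
    rintro ⟨b, hb, d, rfl⟩
    exact hz ((isPair_units_smul d).2 (hdat.isPair_jmap hsub hb))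
  · intro e z
    by_cases h : ∃ b, R z b
    · obtain ⟨b, hb⟩ := h
      rw [fval z b hb, fval (e • z) b (Runit e z b hb)]
    · have h' : ¬ ∃ b, R (e • z) b := by
        rintro ⟨b, hb⟩
        apply h
        refine ⟨b, ?_⟩
        have := Runit e⁻¹ (e • z) b hb
        rwa [inv_smul_smul] at this
      rw [fzero z h, fzero _ h']
  · intro σ z
    by_cases h : ∃ b, R z b
    · obtain ⟨b, hb⟩ := h
      rw [fval z b hb, fval (σ • z) b (Rgal σ z b hb)]
    · have h' : ¬ ∃ b, R (σ • z) b := by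
        rintro ⟨b, hb⟩
        apply h
        refine ⟨b, ?_⟩
        have := Rgal σ⁻¹ (σ • z) b hb
        rwa [inv_smul_smul] at this
      rw [fzero z h, fzero _ h']
  · funext b
    by_cases hb : IsPair F (OB ι y.1) n (HB ι y) b
    · rw [pull_pos hb]
      exact fval _ b ⟨hb, 1, (one_smul _ _).symm⟩
    · rw [pull_neg hb, hg.1 b hb]

end Pool.Agent.Helper93.WS
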