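import Pool.Agent.Helper93.WS.GoodP
import Pool.Agent.Helper93.WS.Small

/-!
# Frobenius elements of `F` and of `F'`
-/

open scoped Pointwise NumberField

namespace Pool.Agent.Helper93.WS

section Aux

/-- The action on the ring of integers, read in the field. -/
private theorem coe_gal_smul {K L : Type*} [Field K] [Field L] [Algebra K L] (s : L ≃ₐ[K] L)
    (x : 𝓞 L) : ((s • x : 𝓞 L) : L) = s (x : L) := rfl

private theorem coe_alg {K L : Type*} [Field K] [Field L] [Algebra K L] (x : 𝓞 K) :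
    ((algebraMap (𝓞 K) (𝓞 L) x : 𝓞 L) : L) = algebraMap K L (x : K) := rfl

private theorem isMaximal_smul {M R : Type*} [Group M] [CommRing R] [MulSemiringAction M R]
    (a : M) {S : Ideal R} (hS : S.IsMaximal) : (a • S).IsMaximal := by
  rw [Ideal.pointwise_smul_eq_comap]
  exact Ideal.comap_isMaximal_of_surjective
    (MulSemiringAction.toRingAut M R a).symm
    (MulSemiringAction.toRingAut M R a).symm.surjective

private theorem card_quot_smul {M R : Type*} [Group M] [CommRing R] [MulSemiringAction M R]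
    (a : M) (S : Ideal R) : Nat.card (R ⧸ a • S) = Nat.card (R ⧸ S) := by
  have h : a • S = S.map (MulSemiringAction.toRingAut M R a : R →+* R) := rfl
  exact (Nat.card_congr (Ideal.quotientEquiv S (a • S) (MulSemiringAction.toRingAut M R a)
    h).toEquiv).symm

/-- Powers of a Frobenius element. -/
private theorem frob_pow_aux {F L : Type*} [Field F] [Field L] [Algebra F L] {φ : L ≃ₐ[F] L}
    {Q : Ideal (𝓞 L)} {N : ℕ} (h : ∀ x : 𝓞 L, φ • x - x ^ N ∈ Q) (i : ℕ) (x : 𝓞 L) :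
    (φ ^ i) • x - x ^ (N ^ i) ∈ Q := by
  induction i generalizing x with
  | zero => simp
  | succ i ih =>
    have h1 := ih (φ • x)
    have h2 : (φ • x) ^ (N ^ i) - (x ^ N) ^ (N ^ i) ∈ Q := by
      obtain ⟨c, hc⟩ := sub_dvd_pow_sub_pow (φ • x) (x ^ N) (N ^ i)
      rw [hc]
      exact Q.mul_mem_right _ (h x)
    have h3 := Q.add_mem h1 h2
    rw [sub_add_sub_cancel, smul_smul, ← pow_succ, ← pow_mul, ← pow_succ'] at h3
    exact h3

end Aux

variable {k : Type*} [Field k] {F F' L : Type*}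
  [Field F] [NumberField F] [Field F'] [NumberField F'] [Field L] [NumberField L]
  [Algebra F F'] [Algebra F L] [Algebra F' L] [IsScalarTower F F' L]
  [IsGalois F F'] [IsGalois F L]

/-- Galois conjugates of Frobenius elements of `F'` are Frobenius elements with the same trace. -/
theorem frob_equivariant (ρ : (L ≃ₐ[F] L) →* Matrix.GeneralLinearGroup (Fin 2) k)
    (σ : F' ≃ₐ[F] F') {φ : L ≃ₐ[F'] L} {Q : Ideal (𝓞 L)} {w : Ideal (𝓞 F')}
    (h : IsFrob F' φ Q w) :
    ∃ (φ' : L ≃ₐ[F'] L) (Q' : Ideal (𝓞 L)), IsFrob F' φ' Q' (σ • w) ∧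
      Matrix.trace (ρ (φ'.restrictScalars F) : Matrix (Fin 2) (Fin 2) k) =
        Matrix.trace (ρ (φ.restrictScalars F) : Matrix (Fin 2) (Fin 2) k) := by
  obtain ⟨hQ, hc, hf⟩ := h
  set s : L ≃ₐ[F] L := σ.liftNormal L with hs
  have hs1 : ∀ a : F', s (algebraMap F' L a) = algebraMap F' L (σ a) := fun a =>
    AlgEquiv.liftNormal_commutes σ L a
  have hs2 : ∀ a : F', s⁻¹ (algebraMap F' L a) = algebraMap F' L (σ⁻¹ a) := by
    intro a
    have h1 : s (algebraMap F' L (σ⁻¹ a)) = algebraMap F' L a := by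
      rw [hs1]
      congr 1
      exact σ.apply_symm_apply a
    rw [← h1]
    exact s.symm_apply_apply _
  let φ' : L ≃ₐ[F'] L := AlgEquiv.ofRingEquiv
    (f := ((s * φ.restrictScalars F * s⁻¹ : L ≃ₐ[F] L) : L ≃+* L)) (by
      intro a
      change s (φ (s⁻¹ (algebraMap F' L a))) = algebraMap F' L a
      rw [hs2, AlgEquiv.commutes, ← hs2]
      exact s.apply_symm_apply _)
  have hφ' : φ'.restrictScalars F = s * φ.restrictScalars F * s⁻¹ := by
    ext x
    rfl
  refine ⟨φ', s • Q, ⟨isMaximal_smul s hQ, ?_, ?_⟩, ?_⟩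
  · ext x
    rw [Ideal.mem_comap, Ideal.mem_pointwise_smul_iff_inv_smul_mem,
      Ideal.mem_pointwise_smul_iff_inv_smul_mem, ← hc, Ideal.mem_comap]
    have h1 : s⁻¹ • algebraMap (𝓞 F') (𝓞 L) x = algebraMap (𝓞 F') (𝓞 L) (σ⁻¹ • x) := by
      apply NumberField.RingOfIntegers.ext
      rw [coe_gal_smul, coe_alg, coe_alg, coe_gal_smul, hs2]
    rw [h1]
  · intro x
    rw [Ideal.mem_pointwise_smul_iff_inv_smul_mem, card_quot_smul, smul_sub]
    have h1 : s⁻¹ • (φ' • x) = φ • (s⁻¹ • x) := by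
      apply NumberField.RingOfIntegers.ext
      rw [coe_gal_smul, coe_gal_smul, coe_gal_smul, coe_gal_smul]
      change s⁻¹ (s (φ (s⁻¹ (x : L)))) = φ (s⁻¹ (x : L))
      exact s.symm_apply_apply _
    rw [h1, smul_pow']
    exact hf _
  · rw [hφ', map_mul, map_mul, map_inv, Units.val_mul, Units.val_mul, Matrix.trace_mul_comm,
      ← mul_assoc, Units.inv_mul, one_mul]

/-- At a good prime `v` the Frobenius elements of `F'` over `v` are conjugates of a power of the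
Frobenius element of `F`, and the product of the traces is the `|P|`-th power. -/
theorem frob_power {p : ℕ} [Fact p.Prime] [CharP k p] (hP : IsPGroup p (F' ≃ₐ[F] F'))
    (ρ : (L ≃ₐ[F] L) →* Matrix.GeneralLinearGroup (Fin 2) k)
    {r : ℕ} {e e' : Fin r → 𝓞 F'} {m : ℕ} {v : Ideal (𝓞 F)} (hg : Good e e' m v)
    {φ : L ≃ₐ[F] L} {Q : Ideal (𝓞 L)} (h : IsFrob F φ Q v) :
    ∃ f : ℕ, f * (overSet F' v).ncard = Nat.card (F' ≃ₐ[F] F') ∧
      ∀ w ∈ overSet F' v, ∃ (φ' : L ≃ₐ[F'] L) (Q' : Ideal (𝓞 L)), IsFrob F' φ' Q' w ∧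
        Matrix.trace (ρ (φ'.restrictScalars F) : Matrix (Fin 2) (Fin 2) k) =
          Matrix.trace (ρ φ : Matrix (Fin 2) (Fin 2) k) ^ f := by
  obtain ⟨hQ, hc, hf⟩ := h
  obtain ⟨f, hf1, hf2⟩ := hg.count
  refine ⟨f, hf1, ?_⟩
  set w₀ : Ideal (𝓞 F') := Q.comap (algebraMap (𝓞 F') (𝓞 L)) with hw₀
  have hw₀m : w₀.IsMaximal := by
    have := hQ
    exact Ideal.isMaximal_comap_of_isIntegral_of_isMaximal Q
  have hw₀v : w₀ ∈ overSet F' v := by
    refine ⟨hw₀m, ?_⟩
    rw [hw₀, Ideal.comap_comap, ← hc]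
    congr 1
    exact (IsScalarTower.algebraMap_eq (𝓞 F) (𝓞 F') (𝓞 L)).symm
  have hcard := hf2 w₀ hw₀v
  -- the restriction of `φ ^ f`
  have hpow : ∀ x : 𝓞 L, (φ ^ f) • x - x ^ (Nat.card (𝓞 F' ⧸ w₀)) ∈ Q := by
    intro x
    rw [hcard]
    exact frob_pow_aux hf f x
  have hfin : Finite (𝓞 F' ⧸ w₀) := by
    by_cases h0 : w₀ = ⊥
    · exfalso
      have := hw₀m
      rw [h0] at this
      exact NumberField.RingOfIntegers.not_isField F'
        (Ring.isField_iff_maximal_bot.mpr this)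
    · exact Ideal.finiteQuotientOfFreeOfNeBot w₀ h0
  have hinert : (φ ^ f).restrictNormal F' = 1 := by
    apply hg.inertia hw₀v
    intro x
    rw [hw₀, Ideal.mem_comap, map_sub]
    have h1 : algebraMap (𝓞 F') (𝓞 L) (((φ ^ f).restrictNormal F') • x) =
        (φ ^ f) • (algebraMap (𝓞 F') (𝓞 L) x) := by
      apply NumberField.RingOfIntegers.ext
      rw [coe_alg, coe_gal_smul, coe_gal_smul, coe_alg]
      exact AlgEquiv.restrictNormal_commutes (φ ^ f) F' (x : F')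
    rw [h1]
    have h2 := hpow (algebraMap (𝓞 F') (𝓞 L) x)
    have h3 : x ^ (Nat.card (𝓞 F' ⧸ w₀)) - x ∈ w₀ := by
      rw [← Ideal.Quotient.eq, map_pow]
      let _ := Ideal.Quotient.field w₀
      let _ := Fintype.ofFinite (𝓞 F' ⧸ w₀)
      rw [Nat.card_eq_fintype_card]
      exact FiniteField.pow_card _
    have h4 : algebraMap (𝓞 F') (𝓞 L) (x ^ (Nat.card (𝓞 F' ⧸ w₀)) - x) ∈ Q := h3
    rw [map_sub, map_pow] at h4
    have h5 := Q.add_mem h2 h4
    rwa [sub_add_sub_cancel] at h5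
  have hfix : ∀ a : F', (φ ^ f) (algebraMap F' L a) = algebraMap F' L a := by
    intro a
    rw [← AlgEquiv.restrictNormal_commutes (φ ^ f) F' a, hinert]
    rfl
  let ψ : L ≃ₐ[F'] L := AlgEquiv.ofRingEquiv (f := ((φ ^ f : L ≃ₐ[F] L) : L ≃+* L)) hfix
  have hψ : ψ.restrictScalars F = φ ^ f := by
    ext x
    rfl
  have hψF : IsFrob F' ψ Q w₀ := by
    refine ⟨hQ, rfl, ?_⟩
    intro x
    exact hpow x
  have htr : Matrix.trace (ρ (ψ.restrictScalars F) : Matrix (Fin 2) (Fin 2) k) =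
      Matrix.trace (ρ φ : Matrix (Fin 2) (Fin 2) k) ^ f := by
    obtain ⟨n, hn⟩ := IsPGroup.iff_card.mp hP
    have hdvd : f ∣ p ^ n := by
      rw [← hn, ← hf1]
      exact Dvd.intro _ rfl
    obtain ⟨j, -, hj⟩ := (Nat.dvd_prime_pow Fact.out).mp hdvd
    rw [hψ, map_pow, Units.val_pow_eq_pow_val, hj]
    exact trace_pow_char_pow _ j
  intro w hw
  obtain ⟨σ, hσ⟩ := overSet_transitive hw₀v hw
  obtain ⟨φ', Q', h1, h2⟩ := frob_equivariant ρ σ hψF
  refine ⟨φ', Q', ?_, h2.trans htr⟩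
  rw [hσ]
  exact h1

end Pool.Agent.Helper93.WS
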