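import Pool.Agent.Helper93.WS.Latt

/-!
# The map from pairs of `B` to pairs of `D`
-/

open scoped Pointwise NumberField

namespace Pool.Agent.Helper93.WS

section Basic

variable {B D : Type*} [Ring B] [Ring D] {ι : B →+* D}

theorem mem_prodLat {N : AddSubgroup B} {Λ : AddSubgroup D} {β : B} (hβ : β ∈ N) {x : D}
    (hx : x ∈ Λ) : ι β * x ∈ prodLat ι N Λ :=
  AddSubgroup.subset_closure ⟨β, hβ, x, hx, rfl⟩

theorem prodLat_le_iff {N : AddSubgroup B} {Λ M : AddSubgroup D} :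
    prodLat ι N Λ ≤ M ↔ ∀ β ∈ N, ∀ x ∈ Λ, ι β * x ∈ M := by
  constructor
  · intro h β hβ x hx
    exact h (mem_prodLat hβ hx)
  · intro h
    unfold prodLat
    rw [AddSubgroup.closure_le]
    rintro d ⟨β, hβ, x, hx, rfl⟩
    exact h β hβ x hx

theorem prodLat_mono {N N' : AddSubgroup B} (hN : N ≤ N') (Λ : AddSubgroup D) :
    prodLat ι N Λ ≤ prodLat ι N' Λ :=
  prodLat_le_iff.2 fun _ hβ _ hx => mem_prodLat (hN hβ) hx

/-- Induction on the elements of a product. -/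
private theorem prodLat_ind {N : AddSubgroup B} {Λ : AddSubgroup D} {P : D → Prop}
    (h0 : P 0) (hadd : ∀ a b, P a → P b → P (a + b)) (hneg : ∀ a, P a → P (-a))
    (h : ∀ β ∈ N, ∀ x ∈ Λ, P (ι β * x)) {d : D} (hd : d ∈ prodLat ι N Λ) : P d := by
  have hle : prodLat ι N Λ ≤
      { carrier := {d | P d}, add_mem' := fun {a b} ha hb => hadd a b ha hb,
        zero_mem' := h0, neg_mem' := fun {a} ha => hneg a ha } :=
    prodLat_le_iff.2 h
  exact hle hd

end Basic

variable {F F' : Type*} [Field F] [NumberField F] [Field F'] [NumberField F'] [Algebra F F']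
  {B D : Type*} [DivisionRing B] [DivisionRing D] [Algebra F B] [Algebra F' D]
  [MulSemiringAction (F' ≃ₐ[F] F') D] {O : Subring D} {n : ℕ} {H : Set D}
  {y : AddSubgroup D × Set D} {γ : (F' ≃ₐ[F] F') → Dˣ} {ι : B →+* D}

/-- The image of an integer of `F`. -/
private theorem Datum.iota_int (hdat : Datum O n H y γ ι) (a : 𝓞 F) :
    ι (algebraMap F B (a : F)) =
      algebraMap F' D ((algebraMap (𝓞 F) (𝓞 F') a : 𝓞 F') : F') := by
  rw [hdat.hι]
  rfl

private theorem natCast_ne (K : Type*) [Field K] [NumberField K] {E : Type*} [DivisionRing E]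
    [Algebra K E] {m : ℕ} (hm : m ≠ 0) : (m : E) ≠ 0 := by
  have h1 : (m : K) ≠ 0 := Nat.cast_ne_zero.2 hm
  have h2 : algebraMap K E (m : K) ≠ 0 := by
    intro h
    exact h1 ((algebraMap K E).injective (by rw [h, map_zero]))
  rwa [map_natCast] at h2

/-- `O_B` is an order of `B`. -/
theorem Datum.isOrder (hdat : Datum O n H y γ ι) : IsOrder F (OB ι y.1) := by
  have hΛ := hdat.hy.1
  refine ⟨?_, ?_, ?_⟩
  · intro a x hx
    rw [hdat.iota_int]
    exact hΛ.smul_mem hdat.hO _ hx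
  · -- a nonzero element of `Λ`
    obtain ⟨m, hm, hm1⟩ := hΛ.full hdat.hO (1 : D)
    rw [mul_one] at hm1
    have hm0 : (m : D) ≠ 0 := natCast_ne F' hm
    have hfg : y.1.FG := hΛ.fg hdat.hO
    have hfin : Module.Finite ℤ y.1 :=
      Module.Finite.iff_addGroup_fg.2 ((AddGroup.fg_iff_addSubgroup_fg y.1).2 hfg)
    have hno : IsNoetherian ℤ y.1 := isNoetherian_of_isNoetherianRing_of_finite ℤ y.1
    let f : (OB ι y.1).toAddSubgroup →+ y.1 :=
      { toFun := fun b => ⟨ι b.1 * m, b.2 _ hm1⟩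
        map_zero' := by
          apply Subtype.ext
          simp
        map_add' := by
          intro a b
          apply Subtype.ext
          simp [add_mul] }
    have hf : Function.Injective f := by
      intro a b hab
      have h1 : ι a.1 * (m : D) = ι b.1 * m := congrArg Subtype.val hab
      have h2 := mul_right_cancel₀ hm0 h1
      exact Subtype.ext (ι.injective h2)
    have h3 : Module.Finite ℤ (OB ι y.1).toAddSubgroup :=
      Module.Finite.of_injective f.toIntLinearMap hf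
    exact (AddGroup.fg_iff_addSubgroup_fg _).1 (Module.Finite.iff_addGroup_fg.1 h3)
  · intro b
    have key : ∀ S : Finset D, ∃ m : ℕ, m ≠ 0 ∧ ∀ x ∈ S, (m : D) * (ι b * x) ∈ y.1 := by
      classical
      intro S
      induction S using Finset.induction_on with
      | empty => exact ⟨1, one_ne_zero, by simp⟩
      | insert a S ha ih =>
        obtain ⟨m, hm, hmS⟩ := ih
        obtain ⟨m', hm', hma⟩ := hΛ.full hdat.hO (ι b * a)
        refine ⟨m * m', mul_ne_zero hm hm', ?_⟩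
        intro x hx
        rcases Finset.mem_insert.1 hx with rfl | hx
        · have h1 := y.1.nsmul_mem hma m
          rw [nsmul_eq_mul] at h1
          rwa [Nat.cast_mul, mul_assoc]
        · have h1 := y.1.nsmul_mem (hmS x hx) m'
          rw [nsmul_eq_mul] at h1
          rw [Nat.cast_mul, Nat.cast_comm, mul_assoc]
          exact h1
    obtain ⟨S, hS⟩ := hΛ.fg hdat.hO
    obtain ⟨m, hm, hmS⟩ := key S
    refine ⟨m, hm, ?_⟩
    intro x hx
    rw [map_mul, map_natCast, mul_assoc]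
    rw [← hS] at hx
    refine AddSubgroup.closure_induction (p := fun x _ => (m : D) * (ι b * x) ∈ y.1)
      (fun x hx => hmS x hx) ?_ ?_ ?_ hx
    · rw [mul_zero, mul_zero]
      exact y.1.zero_mem
    · intro a c _ _ ha hc
      rw [mul_add, mul_add]
      exact y.1.add_mem ha hc
    · intro a _ ha
      rw [mul_neg, mul_neg]
      exact y.1.neg_mem ha

theorem isLevel_fullLevel {R : Type*} [Ring R] (OR : Subring R) (n : ℕ) :
    IsLevel OR n (fullLevel OR n) := by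
  have hnO : ∀ a ∈ OR, (n : R) * a ∈ OR := fun a ha => OR.mul_mem (natCast_mem OR n) ha
  refine ⟨?_, ⟨0, OR.zero_mem, by simp⟩, ?_, ?_, ?_⟩
  · rintro h ⟨a, ha, rfl⟩
    exact OR.add_mem OR.one_mem (hnO a ha)
  · rintro h ⟨a, ha, rfl⟩ c hc
    exact ⟨a + c, OR.add_mem ha hc, by rw [mul_add, add_assoc]⟩
  · rintro h ⟨a, ha, rfl⟩ h' ⟨c, hc, rfl⟩
    refine ⟨a + c + a * ((n : R) * c),
      OR.add_mem (OR.add_mem ha hc) (OR.mul_mem ha (hnO c hc)), ?_⟩
    noncomm_ring
  · rintro h ⟨a, ha, rfl⟩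
    exact ⟨1, ⟨0, OR.zero_mem, by simp⟩, a, ha, by rw [mul_one]⟩

/-- Products of lattices are lattices. -/
theorem Datum.isLat_prodLat (hdat : Datum O n H y γ ι) {N : AddSubgroup B}
    (hN : IsLat F (OB ι y.1) N) : IsLat F' O (prodLat ι N y.1) := by
  have hΛ := hdat.hy.1
  refine ⟨?_, ?_⟩
  · intro x hx a ha
    refine prodLat_ind (P := fun x => x * a ∈ prodLat ι N y.1) ?_ ?_ ?_ ?_ hx
    · rw [zero_mul]
      exact AddSubgroup.zero_mem _
    · intro b c hb hc
      rw [add_mul]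
      exact AddSubgroup.add_mem _ hb hc
    · intro b hb
      rw [neg_mul]
      exact AddSubgroup.neg_mem _ hb
    · intro β hβ x hx
      rw [mul_assoc]
      exact mem_prodLat hβ (hΛ.1 x hx a ha)
  · intro w hw
    have hv : (w.comap (algebraMap (𝓞 F) (𝓞 F'))).IsMaximal :=
      Ideal.isMaximal_comap_of_isIntegral_of_isMaximal w
    obtain ⟨b₀, hb₀, hb₀0, m, hm, hmN⟩ := hN.2 _ hv
    obtain ⟨x₀, hx₀, hx₀0, m', hm', hmΛ⟩ := hΛ.2 w hw
    refine ⟨ι b₀ * x₀, mem_prodLat hb₀ hx₀, mul_ne_zero ?_ hx₀0,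
      algebraMap (𝓞 F) (𝓞 F') m * m', ?_, ?_⟩
    · intro h
      exact hb₀0 (ι.injective (by rw [h, map_zero]))
    · intro h
      rcases hw.isPrime.mem_or_mem h with h | h
      · exact hm h
      · exact hm' h
    · intro d hd
      refine prodLat_ind (P := fun d => ∃ a ∈ O, algebraMap F' D
        ((algebraMap (𝓞 F) (𝓞 F') m * m' : 𝓞 F') : F') * d = ι b₀ * x₀ * a) ?_ ?_ ?_ ?_ hd
      · exact ⟨0, O.zero_mem, by rw [mul_zero, mul_zero]⟩
      · rintro a b ⟨a', ha', ha⟩ ⟨b', hb', hb⟩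
        exact ⟨a' + b', O.add_mem ha' hb', by rw [mul_add, mul_add, ha, hb]⟩
      · rintro a ⟨a', ha', ha⟩
        exact ⟨-a', O.neg_mem ha', by rw [mul_neg, mul_neg, ha]⟩
      · intro β hβ x hx
        obtain ⟨b, hb, hbe⟩ := hmN β hβ
        obtain ⟨a, ha, hae⟩ := hmΛ (ι b * x) (hb x hx)
        refine ⟨a, ha, ?_⟩
        have e1 : algebraMap F' D ((algebraMap (𝓞 F) (𝓞 F') m : 𝓞 F') : F') * ι β
            = ι b₀ * ι b := by
          rw [← hdat.iota_int, ← map_mul, hbe, map_mul]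
        have e2 : algebraMap F' D (m' : F') * ι b₀ = ι b₀ * algebraMap F' D (m' : F') :=
          Algebra.commutes _ _
        have e0 : algebraMap F' D ((algebraMap (𝓞 F) (𝓞 F') m * m' : 𝓞 F') : F') =
            algebraMap F' D (m' : F') *
              algebraMap F' D ((algebraMap (𝓞 F) (𝓞 F') m : 𝓞 F') : F') := by
          rw [← map_mul, mul_comm]
          rfl
        calc algebraMap F' D ((algebraMap (𝓞 F) (𝓞 F') m * m' : 𝓞 F') : F') * (ι β * x)
            = algebraMap F' D (m' : F') *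
              (algebraMap F' D ((algebraMap (𝓞 F) (𝓞 F') m : 𝓞 F') : F') * ι β) * x := by
              rw [e0]
              simp only [mul_assoc]
          _ = ι b₀ * (algebraMap F' D (m' : F') * (ι b * x)) := by
              rw [e1]
              simp only [← mul_assoc]
              rw [e2]
          _ = ι b₀ * x₀ * a := by rw [hae, mul_assoc]

theorem Datum.isPair_jmap (hdat : Datum O n H y γ ι) {H₁ : Set B} (hH₁ : SubLevel ι n y H₁)
    {b : AddSubgroup B × Set B} (hb : IsPair F (OB ι y.1) n H₁ b) :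
    IsPair F' O n H (jmap ι n y b) := by
  obtain ⟨hΛ, l, hl, hgen, hS⟩ := hdat.hy
  obtain ⟨hN, lB, hlB, hgenB, hT⟩ := hb
  refine ⟨hdat.isLat_prodLat hN, ι lB * l, mem_prodLat hlB hl, ?_, ?_⟩
  · intro z hz
    refine prodLat_ind (P := fun z => ∃ a ∈ O, ∃ z' ∈ prodLat ι b.1 y.1,
      z = ι lB * l * a + (n : D) * z') ?_ ?_ ?_ ?_ hz
    · exact ⟨0, O.zero_mem, 0, AddSubgroup.zero_mem _, by simp⟩
    · rintro p q ⟨a, ha, z, hz, rfl⟩ ⟨a', ha', z', hz', rfl⟩
      refine ⟨a + a', O.add_mem ha ha', z + z', AddSubgroup.add_mem _ hz hz', ?_⟩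
      rw [mul_add, mul_add]
      abel
    · rintro p ⟨a, ha, z, hz, rfl⟩
      refine ⟨-a, O.neg_mem ha, -z, AddSubgroup.neg_mem _ hz, ?_⟩
      rw [mul_neg, mul_neg]
      abel
    · intro β hβ x hx
      obtain ⟨c, hc, β', hβ', rfl⟩ := hgenB β hβ
      obtain ⟨a, ha, x', hx', hxe⟩ := hgen (ι c * x) (hc x hx)
      refine ⟨a, ha, ι lB * x' + ι β' * x,
        AddSubgroup.add_mem _ (mem_prodLat hlB hx') (mem_prodLat hβ' hx), ?_⟩
      have hnc : (n : D) * ι lB = ι lB * n := (Nat.cast_commute n (ι lB)).eq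
      calc ι (lB * c + (n : B) * β') * x
          = ι lB * (ι c * x) + (n : D) * (ι β' * x) := by
            rw [map_add, map_mul, map_mul, map_natCast, add_mul, mul_assoc, mul_assoc]
        _ = ι lB * l * a + (n : D) * (ι lB * x' + ι β' * x) := by
            rw [hxe, mul_add, mul_add, ← mul_assoc (n : D) (ι lB) x', hnc]
            simp only [mul_assoc, add_assoc]
  · ext s
    constructor
    · rintro ⟨β, hβ, t, ht, z, hz, rfl⟩
      rw [hT] at hβ
      obtain ⟨c, hc, β', hβ', rfl⟩ := hβ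
      have hSΛ : ∀ t ∈ y.2, t ∈ y.1 := by
        intro t ht
        rw [hS] at ht
        obtain ⟨h, hh, x, hx, rfl⟩ := ht
        refine y.1.add_mem (hΛ.1 l hl h (hdat.hH.sub h hh)) ?_
        have := y.1.nsmul_mem hx n
        rwa [nsmul_eq_mul] at this
      have htΛ : t ∈ y.1 := hSΛ t ht
      have hct := hH₁.stab c hc t ht
      rw [hS] at hct
      obtain ⟨h, hh, x, hx, hte⟩ := hct
      refine ⟨h, hh, ι lB * x + ι β' * t + z, ?_, ?_⟩
      · exact AddSubgroup.add_mem _ (AddSubgroup.add_mem _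
          (mem_prodLat hlB hx) (mem_prodLat hβ' htΛ)) hz
      · have hnc : (n : D) * ι lB = ι lB * n := (Nat.cast_commute n (ι lB)).eq
        have e1 : ι (lB * c + (n : B) * β') * t
            = ι lB * (ι c * t) + (n : D) * (ι β' * t) := by
          simp only [map_add, map_mul, map_natCast, add_mul, mul_assoc]
        have e2 : ι lB * (ι c * t) = ι lB * l * h + (n : D) * (ι lB * x) := by
          rw [hte, mul_add, ← mul_assoc (n : D) (ι lB), hnc]
          simp only [mul_assoc]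
        rw [e1, e2]
        simp only [mul_add, add_assoc]
    · rintro ⟨h, hh, z, hz, rfl⟩
      refine ⟨lB, ?_, l * h, ?_, z, hz, ?_⟩
      · rw [hT]
        exact ⟨1, hH₁.lev.one, 0, b.1.zero_mem, by simp⟩
      · rw [hS]
        exact ⟨h, hh, 0, y.1.zero_mem, by simp⟩
      · rw [mul_assoc]

/-- Product of the image of `B` and the Galois action. -/
private theorem Datum.gal_iota (hdat : Datum O n H y γ ι) (σ : F' ≃ₐ[F] F') (β : B) (x : D) :
    (σ • ι β) * ((γ σ : D) * x) = (γ σ : D) * (ι β * x) := by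
  rw [← mul_assoc, (hdat.hB (ι β)).1 ⟨β, rfl⟩ σ, mul_assoc]

private theorem mem_unit_smul {E : Type*} [Ring E] {d : Eˣ} {P : AddSubgroup E} {x : E} :
    x ∈ d • P ↔ ∃ s ∈ P, (d : E) * s = x :=
  Iff.rfl

private theorem mem_unit_smul_set {E : Type*} [Ring E] {d : Eˣ} {P : Set E} {x : E} :
    x ∈ d • P ↔ ∃ s ∈ P, (d : E) * s = x :=
  Iff.rfl

private theorem mem_gal_smul {G E : Type*} [Group G] [Ring E] [MulSemiringAction G E] {d : G}
    {P : AddSubgroup E} {x : E} : x ∈ d • P ↔ ∃ s ∈ P, d • s = x :=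
  Iff.rfl

private theorem mem_gal_smul_set {G E : Type*} [Group G] [Ring E] [MulSemiringAction G E] {d : G}
    {P : Set E} {x : E} : x ∈ d • P ↔ ∃ s ∈ P, d • s = x :=
  Iff.rfl

/-- Induction on the elements of `σ • N Λ`. -/
private theorem gal_smul_prodLat_le {N : AddSubgroup B} {Λ M : AddSubgroup D}
    (σ : F' ≃ₐ[F] F') (h : ∀ β ∈ N, ∀ x ∈ Λ, σ • (ι β * x) ∈ M) :
    σ • prodLat ι N Λ ≤ M := by
  intro x hx
  obtain ⟨s, hs, rfl⟩ := mem_gal_smul.1 hx
  refine prodLat_ind (P := fun s => σ • s ∈ M) ?_ ?_ ?_ h hs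
  · rw [smul_zero]
    exact M.zero_mem
  · intro a b ha hb
    rw [smul_add]
    exact M.add_mem ha hb
  · intro a ha
    rw [smul_neg]
    exact M.neg_mem ha

/-- Induction on the elements of `d • N Λ`. -/
private theorem unit_smul_prodLat_le {N : AddSubgroup B} {Λ M : AddSubgroup D}
    (d : Dˣ) (h : ∀ β ∈ N, ∀ x ∈ Λ, (d : D) * (ι β * x) ∈ M) :
    d • prodLat ι N Λ ≤ M := by
  intro x hx
  obtain ⟨s, hs, rfl⟩ := mem_unit_smul.1 hx
  refine prodLat_ind (P := fun s => (d : D) * s ∈ M) ?_ ?_ ?_ h hs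
  · rw [mul_zero]
    exact M.zero_mem
  · intro a b ha hb
    rw [mul_add]
    exact M.add_mem ha hb
  · intro a ha
    rw [mul_neg]
    exact M.neg_mem ha

/-- The image of a pair of `B` is fixed by the twisted action. -/
theorem Datum.jmap_fixed (hdat : Datum O n H y γ ι) (b : AddSubgroup B × Set B)
    (σ : F' ≃ₐ[F] F') : σ • jmap ι n y b = γ σ • jmap ι n y b := by
  have h1 : σ • y.1 = γ σ • y.1 := congrArg Prod.fst (hdat.hγ σ)
  have h2 : σ • y.2 = γ σ • y.2 := congrArg Prod.snd (hdat.hγ σ)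
  have hP : σ • prodLat ι b.1 y.1 = γ σ • prodLat ι b.1 y.1 := by
    apply le_antisymm
    · refine gal_smul_prodLat_le σ ?_
      intro β hβ x hx
      rw [smul_mul']
      have h3 : σ • x ∈ γ σ • y.1 := h1 ▸ mem_gal_smul.2 ⟨x, hx, rfl⟩
      obtain ⟨x', hx', hxe⟩ := mem_unit_smul.1 h3
      rw [← hxe, hdat.gal_iota]
      exact mem_unit_smul.2 ⟨_, mem_prodLat hβ hx', rfl⟩
    · refine unit_smul_prodLat_le (γ σ) ?_
      intro β hβ x hx
      rw [← hdat.gal_iota]
      have h3 : (γ σ : D) * x ∈ σ • y.1 := h1 ▸ mem_unit_smul.2 ⟨x, hx, rfl⟩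
      obtain ⟨x', hx', hxe⟩ := mem_gal_smul.1 h3
      rw [← hxe, ← smul_mul']
      exact mem_gal_smul.2 ⟨_, mem_prodLat hβ hx', rfl⟩
  have h5 : σ • (n : D) = n := by
    have := hdat.hact σ (n : F')
    rwa [map_natCast, map_natCast, map_natCast] at this
  have h6 : (γ σ : D) * n = n * γ σ := ((Nat.cast_commute n (γ σ : D)).eq).symm
  refine Prod.ext hP ?_
  ext s
  constructor
  · intro hs
    obtain ⟨s', ⟨β, hβ, t, ht, z, hz, rfl⟩, rfl⟩ := mem_gal_smul_set.1 hs
    have h3 : σ • t ∈ γ σ • y.2 := h2 ▸ mem_gal_smul_set.2 ⟨t, ht, rfl⟩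
    obtain ⟨t', ht', hte⟩ := mem_unit_smul_set.1 h3
    have h4 : σ • z ∈ γ σ • prodLat ι b.1 y.1 := hP ▸ mem_gal_smul.2 ⟨z, hz, rfl⟩
    obtain ⟨z', hz', hze⟩ := mem_unit_smul.1 h4
    refine mem_unit_smul_set.2 ⟨ι β * t' + (n : D) * z', ⟨β, hβ, t', ht', z', hz', rfl⟩, ?_⟩
    rw [smul_add, smul_mul', smul_mul', ← hte, ← hze, h5, hdat.gal_iota, mul_add,
      ← mul_assoc (γ σ : D) (n : D), h6, mul_assoc (n : D)]
  · intro hs
    obtain ⟨s', ⟨β, hβ, t, ht, z, hz, rfl⟩, rfl⟩ := mem_unit_smul_set.1 hs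
    have h3 : (γ σ : D) * t ∈ σ • y.2 := h2 ▸ mem_unit_smul_set.2 ⟨t, ht, rfl⟩
    obtain ⟨t', ht', hte⟩ := mem_gal_smul_set.1 h3
    have h4 : (γ σ : D) * z ∈ σ • prodLat ι b.1 y.1 := hP ▸ mem_unit_smul.2 ⟨z, hz, rfl⟩
    obtain ⟨z', hz', hze⟩ := mem_gal_smul.1 h4
    refine mem_gal_smul_set.2 ⟨ι β * t' + (n : D) * z', ⟨β, hβ, t', ht', z', hz', rfl⟩, ?_⟩
    rw [smul_add, smul_mul', smul_mul', hte, hze, h5, hdat.gal_iota, mul_add,
      ← mul_assoc (γ σ : D) (n : D), h6, mul_assoc (n : D)]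

/-- Left multiplication by units of `B`. -/
theorem jmap_units_smul (hdat : Datum O n H y γ ι) (u : Bˣ) (b : AddSubgroup B × Set B) :
    jmap ι n y (u • b) = (Units.map (ι : B →* D) u) • jmap ι n y b := by
  have hU : ((Units.map (ι : B →* D) u : Dˣ) : D) = ι (u : B) := rfl
  have hnu : ι (u : B) * (n : D) = n * ι (u : B) := ((Nat.cast_commute n (ι (u : B))).eq).symm
  have hP : prodLat ι (u • b).1 y.1 = (Units.map (ι : B →* D) u) • prodLat ι b.1 y.1 := by
    apply le_antisymm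
    · rw [prodLat_le_iff]
      intro β hβ x hx
      obtain ⟨β', hβ', rfl⟩ := mem_unit_smul.1 hβ
      rw [map_mul, mul_assoc]
      exact mem_unit_smul.2 ⟨_, mem_prodLat hβ' hx, rfl⟩
    · refine unit_smul_prodLat_le _ ?_
      intro β hβ x hx
      rw [hU, ← mul_assoc, ← map_mul]
      exact mem_prodLat (mem_unit_smul.2 ⟨_, hβ, rfl⟩) hx
  refine Prod.ext hP ?_
  ext s
  constructor
  · rintro ⟨β, hβ, t, ht, z, hz, rfl⟩
    obtain ⟨β', hβ', rfl⟩ := mem_unit_smul_set.1 hβ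
    rw [hP] at hz
    obtain ⟨z', hz', rfl⟩ := mem_unit_smul.1 hz
    refine mem_unit_smul_set.2 ⟨ι β' * t + (n : D) * z', ⟨β', hβ', t, ht, z', hz', rfl⟩, ?_⟩
    rw [hU, map_mul, mul_add, mul_assoc (ι (u : B)), ← mul_assoc (ι (u : B)) (n : D), hnu,
      mul_assoc (n : D)]
  · intro hs
    obtain ⟨s', ⟨β, hβ, t, ht, z, hz, rfl⟩, rfl⟩ := mem_unit_smul_set.1 hs
    refine ⟨(u : B) * β, mem_unit_smul_set.2 ⟨β, hβ, rfl⟩, t, ht, ι (u : B) * z, ?_, ?_⟩
    · rw [hP]
      exact mem_unit_smul.2 ⟨z, hz, rfl⟩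
    · rw [hU, map_mul, mul_add, mul_assoc (ι (u : B)), ← mul_assoc (ι (u : B)) (n : D), hnu,
        mul_assoc (n : D)]

/-- The base pair. -/
theorem Datum.base_pair (hdat : Datum O n H y γ ι) {H₁ : Set B} (hH₁ : SubLevel ι n y H₁) :
    IsPair F (OB ι y.1) n H₁ ((OB ι y.1).toAddSubgroup, H₁) ∧
    jmap ι n y ((OB ι y.1).toAddSubgroup, H₁) = y := by
  have hone : (1 : B) ∈ OB ι y.1 := (OB ι y.1).one_mem
  have hlev := hH₁.lev
  refine ⟨⟨⟨?_, ?_⟩, 1, hone, ?_, ?_⟩, ?_⟩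
  · intro x hx a ha
    exact (OB ι y.1).mul_mem hx ha
  · intro w hw
    refine ⟨1, hone, one_ne_zero, 1, ?_, ?_⟩
    · intro h
      exact hw.ne_top ((Ideal.eq_top_iff_one w).2 h)
    · intro z hz
      refine ⟨z, hz, ?_⟩
      have h1 : ((1 : 𝓞 F) : F) = 1 := rfl
      rw [h1, map_one]
  · intro z hz
    exact ⟨z, hz, 0, AddSubgroup.zero_mem _, by simp⟩
  · ext s
    constructor
    · intro hs
      exact ⟨s, hs, 0, AddSubgroup.zero_mem _, by simp⟩
    · rintro ⟨h, hh, z, hz, rfl⟩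
      rw [one_mul]
      exact hlev.add h hh z hz
  · have hP : prodLat ι (OB ι y.1).toAddSubgroup y.1 = y.1 := by
      apply le_antisymm
      · rw [prodLat_le_iff]
        intro β hβ x hx
        exact hβ x hx
      · intro x hx
        have := mem_prodLat (ι := ι) (N := (OB ι y.1).toAddSubgroup) hone hx
        rwa [map_one, one_mul] at this
    refine Prod.ext hP ?_
    ext s
    constructor
    · rintro ⟨β, hβ, t, ht, z, hz, rfl⟩
      replace hz : z ∈ y.1 := hP ▸ hz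
      exact hdat.hy.add_mem hdat.hH (hH₁.stab β hβ t ht) hz
    · intro hs
      exact ⟨1, hlev.one, s, hs, 0, AddSubgroup.zero_mem _, by simp⟩

/-- The lattice `N` is recovered from `N Λ`. -/
theorem Datum.recover (hdat : Datum O n H y γ ι) {N : AddSubgroup B}
    (hN : IsLat F (OB ι y.1) N) {β : B} (hβ : ∀ x ∈ y.1, ι β * x ∈ prodLat ι N y.1) :
    β ∈ N := by
  refine local_principle (K := F) (fun m x hx => hN.smul_mem hdat.isOrder m hx) ?_
  intro v hv
  obtain ⟨b₀, hb₀, hb₀0, m, hm, hmN⟩ := hN.2 v hv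
  refine ⟨m, hm, ?_⟩
  have hkey : ∀ d ∈ prodLat ι N y.1, ∃ x ∈ y.1, ι (algebraMap F B (m : F)) * d = ι b₀ * x := by
    intro d hd
    refine prodLat_ind (P := fun d => ∃ x ∈ y.1,
      ι (algebraMap F B (m : F)) * d = ι b₀ * x) ?_ ?_ ?_ ?_ hd
    · exact ⟨0, y.1.zero_mem, by rw [mul_zero, mul_zero]⟩
    · rintro p q ⟨x, hx, hp⟩ ⟨x', hx', hq⟩
      exact ⟨x + x', y.1.add_mem hx hx', by rw [mul_add, mul_add, hp, hq]⟩
    · rintro p ⟨x, hx, hp⟩
      exact ⟨-x, y.1.neg_mem hx, by rw [mul_neg, mul_neg, hp]⟩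
    · intro β' hβ' x hx
      obtain ⟨b, hb, hbe⟩ := hmN β' hβ'
      exact ⟨ι b * x, hb x hx, by rw [← mul_assoc, ← map_mul, hbe, map_mul, mul_assoc]⟩
  have hb : b₀⁻¹ * (algebraMap F B (m : F) * β) ∈ OB ι y.1 := by
    intro x hx
    obtain ⟨x', hx', hxe⟩ := hkey _ (hβ x hx)
    have hb0 : ι b₀ ≠ 0 := by
      intro h
      exact hb₀0 (ι.injective (by rw [h, map_zero]))
    have h1 : ι (b₀⁻¹ * (algebraMap F B (m : F) * β)) * x = x' := by
      rw [map_mul, map_mul, map_inv₀, mul_assoc, mul_assoc, hxe, inv_mul_cancel_left₀ hb0]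
    rw [h1]
    exact hx'
  have h2 := hN.1 b₀ hb₀ _ hb
  rwa [mul_inv_cancel_left₀ hb₀0] at h2

end Pool.Agent.Helper93.WS
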