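import Pool.Agent.Helper93.WS.Latt1

/-!
# Basic facts on lattices and pairs, II: equivariance and finiteness
-/

open scoped Pointwise NumberField

namespace Pool.Agent.Helper93.WS

namespace Latt2Aux

variable {K : Type*} [Field K] [NumberField K] {D : Type*} [DivisionRing D] [Algebra K D]

/-- Common data for left multiplication by a unit and for a semilinear automorphism. -/
structure Sim (O : Subring D) (H : Set D) (E : D ≃+ D) (s : D → D) (t : 𝓞 K ≃+* 𝓞 K) :
    Prop where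
  mul : ∀ x a, E (x * a) = E x * s a
  sO : ∀ a ∈ O, s a ∈ O
  sO' : ∀ a ∈ O, ∃ b ∈ O, s b = a
  sH : ∀ a ∈ H, s a ∈ H
  sH' : ∀ a ∈ H, ∃ b ∈ H, s b = a
  alg : ∀ (m : 𝓞 K) (x : D), E (algebraMap K D (m : K) * x) = algebraMap K D (t m : K) * E x

variable {O : Subring D} {H : Set D} {E : D ≃+ D} {s : D → D} {t : 𝓞 K ≃+* 𝓞 K} {n : ℕ}

/-- the image of a subgroup -/
def im (E : D ≃+ D) (Λ : AddSubgroup D) : AddSubgroup D := Λ.map E.toAddMonoidHom

theorem mem_im {Λ : AddSubgroup D} {x : D} : x ∈ im E Λ ↔ ∃ y ∈ Λ, E y = x := by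
  unfold im
  rw [AddSubgroup.mem_map]
  rfl

theorem mem_im_apply {Λ : AddSubgroup D} {x : D} : E x ∈ im E Λ ↔ x ∈ Λ := by
  rw [mem_im]
  constructor
  · rintro ⟨y, hy, h⟩
    rwa [← E.injective h]
  · intro h
    exact ⟨x, h, rfl⟩

theorem im_le_iff {Λ Λ' : AddSubgroup D} : im E Λ ≤ im E Λ' ↔ Λ ≤ Λ' := by
  constructor
  · intro h x hx
    exact mem_im_apply.1 (h (mem_im_apply.2 hx))
  · intro h x hx
    obtain ⟨y, hy, rfl⟩ := mem_im.1 hx
    exact mem_im_apply.2 (h hy)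

theorem im_inj {Λ Λ' : AddSubgroup D} : im E Λ = im E Λ' ↔ Λ = Λ' := by
  constructor
  · intro h
    exact le_antisymm (im_le_iff.1 h.le) (im_le_iff.1 h.ge)
  · rintro rfl
    rfl

theorem im_lt_iff {Λ Λ' : AddSubgroup D} : im E Λ < im E Λ' ↔ Λ < Λ' := by
  rw [lt_iff_le_not_ge, lt_iff_le_not_ge, im_le_iff, im_le_iff]

theorem im_sup {Λ Λ' : AddSubgroup D} : im E (Λ ⊔ Λ') = im E Λ ⊔ im E Λ' := by
  unfold im
  exact AddSubgroup.map_sup _ _ _

theorem E_nat (x : D) : E ((n : D) * x) = (n : D) * E x := by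
  rw [← nsmul_eq_mul, ← nsmul_eq_mul, map_nsmul]

theorem isLat (h : Sim O H E s t) {Λ : AddSubgroup D} (hΛ : IsLat K O Λ) :
    IsLat K O (im E Λ) := by
  obtain ⟨h1, h2⟩ := hΛ
  refine ⟨?_, ?_⟩
  · intro x hx a ha
    obtain ⟨y, hy, rfl⟩ := mem_im.1 hx
    obtain ⟨b, hb, rfl⟩ := h.sO' a ha
    rw [← h.mul]
    exact mem_im_apply.2 (h1 y hy b hb)
  · intro w hw
    have hmax : (w.comap (t : 𝓞 K →+* 𝓞 K)).IsMaximal :=
      Ideal.comap_isMaximal_of_surjective _ t.surjective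
    obtain ⟨x, hx, hx0, m, hm, hy⟩ := h2 _ hmax
    refine ⟨E x, mem_im_apply.2 hx, ?_, t m, ?_, ?_⟩
    · intro h0
      apply hx0
      rw [← map_zero E] at h0
      exact E.injective h0
    · intro h0
      exact hm (by rw [Ideal.mem_comap]; exact h0)
    · intro y' hy'
      obtain ⟨y, hyΛ, rfl⟩ := mem_im.1 hy'
      obtain ⟨a, ha, hya⟩ := hy y hyΛ
      refine ⟨s a, h.sO a ha, ?_⟩
      rw [← h.alg, hya, h.mul]

theorem isPair (h : Sim O H E s t) {y : AddSubgroup D × Set D} (hy : IsPair K O n H y) :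
    IsPair K O n H (im E y.1, E '' y.2) := by
  obtain ⟨h1, l, hl, hg, hS⟩ := hy
  refine ⟨isLat h h1, E l, mem_im_apply.2 hl, ?_, ?_⟩
  · intro z₁ hz₁
    obtain ⟨z, hz, rfl⟩ := mem_im.1 hz₁
    obtain ⟨a, ha, z', hz', rfl⟩ := hg z hz
    refine ⟨s a, h.sO a ha, E z', mem_im_apply.2 hz', ?_⟩
    rw [map_add, h.mul, E_nat]
  · show E '' y.2 = _
    rw [hS]
    ext x
    constructor
    · rintro ⟨x, ⟨a, ha, z, hz, rfl⟩, rfl⟩
      refine ⟨s a, h.sH a ha, E z, mem_im_apply.2 hz, ?_⟩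
      rw [map_add, h.mul, E_nat]
    · rintro ⟨a, ha, z', hz', rfl⟩
      obtain ⟨b, hb, rfl⟩ := h.sH' a ha
      obtain ⟨z, hz, rfl⟩ := mem_im.1 hz'
      refine ⟨l * b + (n : D) * z, ⟨b, hb, z, hz, rfl⟩, ?_⟩
      rw [map_add, h.mul, E_nat]

theorem idealMul_im (h : Sim O H E s t) {J J' : Ideal (𝓞 K)} (hJ : ∀ m, t m ∈ J' ↔ m ∈ J)
    (Λ : AddSubgroup D) : idealMul K J' (im E Λ) = im E (idealMul K J Λ) := by
  apply le_antisymm
  · rw [idealMul_le_iff]
    intro m' hm x' hx'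
    obtain ⟨x, hx, rfl⟩ := mem_im.1 hx'
    obtain ⟨m, rfl⟩ := t.surjective m'
    rw [← h.alg]
    exact mem_im_apply.2 (mem_idealMul ((hJ m).1 hm) hx)
  · unfold im
    rw [AddSubgroup.map_le_iff_le_comap, idealMul_le_iff]
    intro m hm x hx
    rw [AddSubgroup.mem_comap]
    have h1 : E.toAddMonoidHom (algebraMap K D (m : K) * x) =
        algebraMap K D (t m : K) * E x := h.alg m x
    rw [h1]
    exact mem_idealMul ((hJ m).2 hm) (mem_im_apply.2 hx)

theorem inter_im {A : Set D} {Λ : AddSubgroup D} :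
    E '' A ∩ (im E Λ : Set D) = E '' (A ∩ (Λ : Set D)) := by
  have h1 : (im E Λ : Set D) = E '' (Λ : Set D) := rfl
  rw [h1, ← Set.image_inter E.injective]

theorem nb (h : Sim O H E s t) {w w' : Ideal (𝓞 K)} (hw : ∀ m, t m ∈ w' ↔ m ∈ w)
    {y z : AddSubgroup D × Set D} (hn : Nb K O n H w y z) :
    Nb K O n H w' (im E y.1, E '' y.2) (im E z.1, E '' z.2) := by
  obtain ⟨h1, h2, h3, h4, h5⟩ := hn
  refine ⟨isPair h h1, isPair h h2, ?_, im_lt_iff.2 h4, ?_⟩
  · show idealMul K w' (im E y.1) < im E z.1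
    rw [idealMul_im h hw]
    exact im_lt_iff.2 h3
  · show E '' z.2 = E '' y.2 ∩ (im E z.1 : Set D)
    rw [inter_im, h5]

theorem nbW (h : Sim O H E s t) {W W' : Finset (Ideal (𝓞 K))}
    (hp : ∀ m, t m ∈ (∏ w ∈ W', w) ↔ m ∈ ∏ w ∈ W, w)
    (hW : ∀ w' ∈ W', ∃ w ∈ W, ∀ m, t m ∈ w' ↔ m ∈ w)
    {y z : AddSubgroup D × Set D} (hn : NbW K O n H W y z) :
    NbW K O n H W' (im E y.1, E '' y.2) (im E z.1, E '' z.2) := by
  obtain ⟨h1, h2, h3, h4, h6, h5⟩ := hn
  refine ⟨isPair h h1, isPair h h2, ?_, im_le_iff.2 h4, ?_, ?_⟩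
  · show idealMul K _ (im E y.1) ≤ im E z.1
    rw [idealMul_im h hp]
    exact im_le_iff.2 h3
  · intro w' hw'
    obtain ⟨w, hw, hww⟩ := hW w' hw'
    obtain ⟨h7, h8⟩ := h6 w hw
    show im E z.1 ⊔ idealMul K w' (im E y.1) ≠ im E y.1 ∧
      ¬ im E z.1 ≤ idealMul K w' (im E y.1)
    rw [idealMul_im h hww, ← im_sup]
    exact ⟨fun h0 => h7 (im_inj.1 h0), fun h0 => h8 (im_le_iff.1 h0)⟩
  · show E '' z.2 = E '' y.2 ∩ (im E z.1 : Set D)
    rw [inter_im, h5]

end Latt2Aux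

section Units

variable {K : Type*} [Field K] [NumberField K] {D : Type*} [DivisionRing D] [Algebra K D]
  {O : Subring D} {n : ℕ} {H : Set D}

namespace Latt2Aux

/-- left multiplication by a unit -/
def eU (d : Dˣ) : D ≃+ D where
  toFun x := d * x
  invFun x := (↑(d⁻¹) : D) * x
  left_inv x := by simp
  right_inv x := by simp
  map_add' x y := mul_add _ _ _

theorem simU (d : Dˣ) : Sim (K := K) O H (eU d) id (RingEquiv.refl _) where
  mul x a := (mul_assoc (d : D) x a).symm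
  sO a ha := ha
  sO' a ha := ⟨a, ha, rfl⟩
  sH a ha := ha
  sH' a ha := ⟨a, ha, rfl⟩
  alg m x := by
    show (d : D) * (algebraMap K D (m : K) * x) = algebraMap K D (m : K) * ((d : D) * x)
    rw [← mul_assoc, ← mul_assoc, Algebra.commutes]

theorem imU (d : Dˣ) (Λ : AddSubgroup D) : im (eU d) Λ = d • Λ := by
  ext x
  rfl

theorem imU' (d : Dˣ) (A : Set D) : (eU d) '' A = d • A := rfl

theorem pairU (d : Dˣ) (y : AddSubgroup D × Set D) :
    ((im (eU d) y.1, (eU d) '' y.2) : AddSubgroup D × Set D) = d • y := rfl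

end Latt2Aux

open Latt2Aux

theorem isLat_units_smul (d : Dˣ) {Λ : AddSubgroup D} :
    IsLat K O (d • Λ) ↔ IsLat K O Λ := by
  have key : ∀ (d : Dˣ) {Λ : AddSubgroup D}, IsLat K O Λ → IsLat K O (d • Λ) := by
    intro d Λ h
    rw [← imU]
    exact isLat (simU (H := ∅) d) h
  constructor
  · intro h
    have := key d⁻¹ h
    rwa [inv_smul_smul] at this
  · exact key d

theorem isPair_units_smul (d : Dˣ) {y : AddSubgroup D × Set D} :
    IsPair K O n H (d • y) ↔ IsPair K O n H y := by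
  have key : ∀ (d : Dˣ) {y : AddSubgroup D × Set D}, IsPair K O n H y →
      IsPair K O n H (d • y) := by
    intro d y h
    rw [← pairU]
    exact isPair (simU d) h
  constructor
  · intro h
    have := key d⁻¹ h
    rwa [inv_smul_smul] at this
  · exact key d

theorem idealMul_units_smul (d : Dˣ) (J : Ideal (𝓞 K)) (Λ : AddSubgroup D) :
    idealMul K J (d • Λ) = d • idealMul K J Λ := by
  rw [← imU, ← imU]
  exact idealMul_im (simU (O := ⊤) (H := ∅) d) (fun m => Iff.rfl) Λ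

theorem nb_units_smul (d : Dˣ) {w : Ideal (𝓞 K)} {y z : AddSubgroup D × Set D} :
    Nb K O n H w (d • y) (d • z) ↔ Nb K O n H w y z := by
  have key : ∀ (d : Dˣ) {y z : AddSubgroup D × Set D}, Nb K O n H w y z →
      Nb K O n H w (d • y) (d • z) := by
    intro d y z h
    rw [← pairU, ← pairU]
    exact nb (simU d) (fun m => Iff.rfl) h
  constructor
  · intro h
    have := key d⁻¹ h
    rwa [inv_smul_smul, inv_smul_smul] at this
  · exact key d

theorem nbW_units_smul (d : Dˣ) {W : Finset (Ideal (𝓞 K))} {y z : AddSubgroup D × Set D} :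
    NbW K O n H W (d • y) (d • z) ↔ NbW K O n H W y z := by
  have key : ∀ (d : Dˣ) {y z : AddSubgroup D × Set D}, NbW K O n H W y z →
      NbW K O n H W (d • y) (d • z) := by
    intro d y z h
    rw [← pairU, ← pairU]
    exact nbW (simU d) (fun m => Iff.rfl) (fun w hw => ⟨w, hw, fun m => Iff.rfl⟩) h
  constructor
  · intro h
    have := key d⁻¹ h
    rwa [inv_smul_smul, inv_smul_smul] at this
  · exact key d

theorem hecke_units_smul {k : Type*} [AddCommMonoid k] (w : Ideal (𝓞 K)) (d : Dˣ)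
    (f : AddSubgroup D × Set D → k) (y : AddSubgroup D × Set D) :
    hecke K O n H w f (d • y) = hecke K O n H w (fun z => f (d • z)) y := by
  unfold hecke
  rw [← finsum_comp_equiv (MulAction.toPerm d : Equiv.Perm (AddSubgroup D × Set D))]
  refine finsum_congr fun z => ?_
  simp only [MulAction.toPerm_apply]
  exact finsum_congr_Prop (propext (nb_units_smul d)) fun _ => rfl

theorem IsForm.hecke {k : Type*} [AddCommMonoid k] (w : Ideal (𝓞 K))
    {f : AddSubgroup D × Set D → k} (hf : IsForm K O n H f) :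
    IsForm K O n H (hecke K O n H w f) := by
  refine ⟨?_, ?_⟩
  · intro y hy
    unfold WS.hecke
    have : ∀ z : AddSubgroup D × Set D, (∑ᶠ (_ : Nb K O n H w y z), f z) = 0 := by
      intro z
      haveI : IsEmpty (Nb K O n H w y z) := ⟨fun h => hy h.1⟩
      exact finsum_of_isEmpty _
    rw [finsum_congr this, finsum_zero]
  · intro d y
    rw [hecke_units_smul]
    congr 1
    funext z
    exact hf.2 d z

theorem nb_finite (hO : IsOrder K O) {w : Ideal (𝓞 K)} (hw : w.IsMaximal)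
    (y : AddSubgroup D × Set D) : {z | Nb K O n H w y z}.Finite := by
  by_cases hy : IsPair K O n H y
  · have hw0 : w ≠ ⊥ :=
      Ring.ne_bot_of_isMaximal_of_not_isField hw (NumberField.RingOfIntegers.not_isField K)
    refine Set.Finite.subset ((finite_between_ideal hO hy.1 hw0).image
      (fun Λ₁ : AddSubgroup D => ((Λ₁, y.2 ∩ (Λ₁ : Set D)) : AddSubgroup D × Set D))) ?_
    rintro z ⟨_, _, h3, h4, h5⟩
    refine ⟨z.1, ⟨h3.le, h4.le⟩, ?_⟩
    exact Prod.ext rfl h5.symm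
  · refine Set.finite_empty.subset ?_
    intro z hz
    exact absurd hz.1 hy

theorem nbW_finite (hO : IsOrder K O) {W : Finset (Ideal (𝓞 K))} (hW : ∀ w ∈ W, w.IsMaximal)
    (y : AddSubgroup D × Set D) : {z | NbW K O n H W y z}.Finite := by
  by_cases hy : IsPair K O n H y
  · have hw0 : (∏ w ∈ W, w) ≠ ⊥ := by
      rw [← Ideal.zero_eq_bot, Finset.prod_ne_zero_iff]
      intro w hw
      rw [Ideal.zero_eq_bot]
      exact Ring.ne_bot_of_isMaximal_of_not_isField (hW w hw)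
        (NumberField.RingOfIntegers.not_isField K)
    refine Set.Finite.subset ((finite_between_ideal hO hy.1 hw0).image
      (fun Λ₁ : AddSubgroup D => ((Λ₁, y.2 ∩ (Λ₁ : Set D)) : AddSubgroup D × Set D))) ?_
    rintro z ⟨_, _, h3, h4, _, h5⟩
    refine ⟨z.1, ⟨h3, h4⟩, ?_⟩
    exact Prod.ext rfl h5.symm
  · refine Set.finite_empty.subset ?_
    intro z hz
    exact absurd hz.1 hy

end Units

section Galois

variable {K : Type*} [Field K] [NumberField K] {D : Type*} [DivisionRing D] [Algebra K D]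
  {O : Subring D} {n : ℕ} {H : Set D} {P : Type*} [Group P] [MulSemiringAction P K]
  [MulSemiringAction P D]

namespace Latt2Aux

/-- the additive automorphism given by the action -/
def eG (D : Type*) [DivisionRing D] {P : Type*} [Group P] [MulSemiringAction P D] (σ : P) :
    D ≃+ D := (MulSemiringAction.toRingEquiv P D σ).toAddEquiv

theorem eG_apply (σ : P) (x : D) : eG D σ x = σ • x := rfl

/-- the automorphism of the ring of integers given by the action -/
def tG (K : Type*) [Field K] [NumberField K] {P : Type*} [Group P] [MulSemiringAction P K]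
    (σ : P) : 𝓞 K ≃+* 𝓞 K := MulSemiringAction.toRingEquiv P (𝓞 K) σ

theorem tG_apply (σ : P) (m : 𝓞 K) : tG K σ m = σ • m := rfl

theorem simG (hact : ∀ (σ : P) (a : K), σ • algebraMap K D a = algebraMap K D (σ • a))
    (hOP : ∀ (σ : P), ∀ a ∈ O, σ • a ∈ O) (hHP : ∀ (σ : P), ∀ h ∈ H, σ • h ∈ H) (σ : P) :
    Sim (K := K) O H (eG D σ) (fun a => σ • a) (tG K σ) where
  mul x a := smul_mul' σ x a
  sO a ha := hOP σ a ha
  sO' a ha := ⟨σ⁻¹ • a, hOP _ a ha, smul_inv_smul σ a⟩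
  sH a ha := hHP σ a ha
  sH' a ha := ⟨σ⁻¹ • a, hHP _ a ha, smul_inv_smul σ a⟩
  alg m x := by
    show σ • (algebraMap K D (m : K) * x) = algebraMap K D ((σ • m : 𝓞 K) : K) * (σ • x)
    rw [smul_mul', hact]
    rfl

theorem imG (σ : P) (Λ : AddSubgroup D) : im (eG D σ) Λ = σ • Λ := by
  ext x
  rfl

theorem pairG (σ : P) (y : AddSubgroup D × Set D) :
    ((im (eG D σ) y.1, (eG D σ) '' y.2) : AddSubgroup D × Set D) = σ • y := rfl

theorem mem_smul_ideal (σ : P) (w : Ideal (𝓞 K)) (m : 𝓞 K) : tG K σ m ∈ σ • w ↔ m ∈ w :=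
  Ideal.smul_mem_pointwise_smul_iff

theorem prod_smul (σ : P) {W W' : Finset (Ideal (𝓞 K))} (hW : ∀ w, w ∈ W ↔ σ • w ∈ W') :
    (∏ w ∈ W', w) = σ • ∏ w ∈ W, w := by
  classical
  have h1 : W' = W.image fun w => σ • w := by
    ext w'
    rw [Finset.mem_image]
    constructor
    · intro h
      refine ⟨σ⁻¹ • w', (hW _).2 ?_, smul_inv_smul σ w'⟩
      rwa [smul_inv_smul]
    · rintro ⟨w, hw, rfl⟩
      exact (hW w).1 hw
  rw [h1, Finset.prod_image (fun a _ b _ h => (MulAction.injective σ) h)]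
  have h2 : ∀ w : Ideal (𝓞 K), σ • w = Ideal.mapHom (MulSemiringAction.toRingHom P (𝓞 K) σ) w :=
    fun w => rfl
  rw [h2, map_prod]
  rfl

end Latt2Aux

open Latt2Aux

theorem isLat_gal_smul (hact : ∀ (σ : P) (a : K), σ • algebraMap K D a = algebraMap K D (σ • a))
    (hOP : ∀ (σ : P), ∀ a ∈ O, σ • a ∈ O) (σ : P) {Λ : AddSubgroup D} :
    IsLat K O (σ • Λ) ↔ IsLat K O Λ := by
  have key : ∀ (σ : P) {Λ : AddSubgroup D}, IsLat K O Λ → IsLat K O (σ • Λ) := by
    intro σ Λ h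
    rw [← imG]
    exact isLat (simG (H := ∅) hact hOP (fun _ _ h => h.elim) σ) h
  constructor
  · intro h
    have := key σ⁻¹ h
    rwa [inv_smul_smul] at this
  · exact key σ

theorem isPair_gal_smul (hact : ∀ (σ : P) (a : K), σ • algebraMap K D a = algebraMap K D (σ • a))
    (hOP : ∀ (σ : P), ∀ a ∈ O, σ • a ∈ O) (hHP : ∀ (σ : P), ∀ h ∈ H, σ • h ∈ H) (σ : P)
    {y : AddSubgroup D × Set D} :
    IsPair K O n H (σ • y) ↔ IsPair K O n H y := by
  have key : ∀ (σ : P) {y : AddSubgroup D × Set D}, IsPair K O n H y →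
      IsPair K O n H (σ • y) := by
    intro σ y h
    rw [← pairG]
    exact isPair (simG hact hOP hHP σ) h
  constructor
  · intro h
    have := key σ⁻¹ h
    rwa [inv_smul_smul] at this
  · exact key σ

theorem idealMul_gal_smul
    (hact : ∀ (σ : P) (a : K), σ • algebraMap K D a = algebraMap K D (σ • a)) (σ : P)
    (J : Ideal (𝓞 K)) (Λ : AddSubgroup D) :
    idealMul K (σ • J) (σ • Λ) = σ • idealMul K J Λ := by
  rw [← imG, ← imG]
  exact idealMul_im (simG (O := ⊤) (H := ∅) hact (fun _ _ _ => trivial)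
    (fun _ _ h => h.elim) σ) (mem_smul_ideal σ J) Λ

theorem nb_gal_smul (hact : ∀ (σ : P) (a : K), σ • algebraMap K D a = algebraMap K D (σ • a))
    (hOP : ∀ (σ : P), ∀ a ∈ O, σ • a ∈ O) (hHP : ∀ (σ : P), ∀ h ∈ H, σ • h ∈ H) (σ : P)
    {w : Ideal (𝓞 K)} {y z : AddSubgroup D × Set D} :
    Nb K O n H (σ • w) (σ • y) (σ • z) ↔ Nb K O n H w y z := by
  have key : ∀ (σ : P) {w : Ideal (𝓞 K)} {y z : AddSubgroup D × Set D}, Nb K O n H w y z →
      Nb K O n H (σ • w) (σ • y) (σ • z) := by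
    intro σ w y z h
    rw [← pairG, ← pairG]
    exact nb (simG hact hOP hHP σ) (mem_smul_ideal σ w) h
  constructor
  · intro h
    have := key σ⁻¹ h
    rwa [inv_smul_smul, inv_smul_smul, inv_smul_smul] at this
  · exact key σ

theorem nbW_gal_smul (hact : ∀ (σ : P) (a : K), σ • algebraMap K D a = algebraMap K D (σ • a))
    (hOP : ∀ (σ : P), ∀ a ∈ O, σ • a ∈ O) (hHP : ∀ (σ : P), ∀ h ∈ H, σ • h ∈ H) (σ : P)
    {W W' : Finset (Ideal (𝓞 K))} (hW : ∀ w, w ∈ W ↔ σ • w ∈ W')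
    {y z : AddSubgroup D × Set D} :
    NbW K O n H W' (σ • y) (σ • z) ↔ NbW K O n H W y z := by
  have key : ∀ (σ : P) {W W' : Finset (Ideal (𝓞 K))} (_ : ∀ w, w ∈ W ↔ σ • w ∈ W')
      {y z : AddSubgroup D × Set D}, NbW K O n H W y z → NbW K O n H W' (σ • y) (σ • z) := by
    intro σ W W' hW y z h
    rw [← pairG, ← pairG]
    refine nbW (simG hact hOP hHP σ) ?_ ?_ h
    · rw [prod_smul σ hW]
      exact mem_smul_ideal σ _
    · intro w' hw'
      refine ⟨σ⁻¹ • w', (hW _).2 (by rwa [smul_inv_smul]), fun m => ?_⟩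
      rw [← mem_smul_ideal σ (σ⁻¹ • w') m, smul_inv_smul]
  constructor
  · intro h
    have hW' : ∀ w, w ∈ W' ↔ σ⁻¹ • w ∈ W := by
      intro w
      rw [hW, smul_inv_smul]
    have := key σ⁻¹ hW' h
    rwa [inv_smul_smul, inv_smul_smul] at this
  · exact key σ hW

theorem hecke_gal_smul (hact : ∀ (σ : P) (a : K), σ • algebraMap K D a = algebraMap K D (σ • a))
    (hOP : ∀ (σ : P), ∀ a ∈ O, σ • a ∈ O) (hHP : ∀ (σ : P), ∀ h ∈ H, σ • h ∈ H) (σ : P)
    {k : Type*} [AddCommMonoid k] (w : Ideal (𝓞 K))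
    (f : AddSubgroup D × Set D → k) (y : AddSubgroup D × Set D) :
    hecke K O n H (σ • w) f (σ • y) = hecke K O n H w (fun z => f (σ • z)) y := by
  unfold hecke
  rw [← finsum_comp_equiv (MulAction.toPerm σ : Equiv.Perm (AddSubgroup D × Set D))]
  refine finsum_congr fun z => ?_
  simp only [MulAction.toPerm_apply]
  exact finsum_congr_Prop (propext (nb_gal_smul hact hOP hHP σ)) fun _ => rfl

end Galois

end Pool.Agent.Helper93.WS
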