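import Pool.Agent.Helper93.WS.Latt1
import Pool.Agent.Helper93.WS.Latt2

/-!
# Basic facts on lattices and pairs (collects `Latt1` and `Latt2`)
-/
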