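import Pool.Agent.Helper93.WS.Defs2

/-!
# Basic facts on lattices and pairs, I
-/

open scoped Pointwise NumberField

namespace Pool.Agent.Helper93.WS

section Basic

variable {K : Type*} [Field K] [NumberField K] {D : Type*} [DivisionRing D] [Algebra K D]
  {O : Subring D} {n : ℕ} {H : Set D}

omit [NumberField K] in
private theorem coe_mul' (a b : 𝓞 K) : ((a * b : 𝓞 K) : K) = a * b := rfl

omit [NumberField K] in
private theorem coe_add' (a b : 𝓞 K) : ((a + b : 𝓞 K) : K) = a + b := rfl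

omit [NumberField K] in
private theorem coe_zero' : ((0 : 𝓞 K) : K) = 0 := rfl

omit [NumberField K] in
private theorem coe_one' : ((1 : 𝓞 K) : K) = 1 := rfl

private theorem natCast_comm (N : ℕ) (x : D) : (N : D) * x = x * N := Nat.cast_comm N x

private theorem natCast_ne (K : Type*) [Field K] [NumberField K] {D : Type*} [DivisionRing D]
    [Algebra K D] {N : ℕ} (hN : N ≠ 0) : (N : D) ≠ 0 := by
  have h : (N : D) = algebraMap K D (N : K) := by rw [map_natCast]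
  rw [h]
  intro h0
  have h1 : (N : K) = 0 := (algebraMap K D).injective (by rw [h0, map_zero])
  exact hN (by exact_mod_cast h1)

private theorem natMul_mem (M : AddSubgroup D) (N : ℕ) {x : D} (hx : x ∈ M) : (N : D) * x ∈ M := by
  rw [← nsmul_eq_mul]
  exact M.nsmul_mem hx N

theorem IsLat.smul_mem (hO : IsOrder K O) {Λ : AddSubgroup D} (hΛ : IsLat K O Λ) (m : 𝓞 K)
    {x : D} (hx : x ∈ Λ) : algebraMap K D (m : K) * x ∈ Λ := by
  rw [Algebra.commutes]
  exact hΛ.1 x hx _ (hO.1 m)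

private theorem fg_of_le {M N : AddSubgroup D} (hN : N.FG) (h : M ≤ N) : M.FG := by
  have h1 : (AddSubgroup.toIntSubmodule N).FG := by
    rw [Submodule.fg_iff_addSubgroup_fg, AddSubgroup.toIntSubmodule_toAddSubgroup]
    exact hN
  have h2 : (AddSubgroup.toIntSubmodule M).FG := Submodule.FG.of_le h1 (by
    intro x hx
    exact h hx)
  rw [Submodule.fg_iff_addSubgroup_fg, AddSubgroup.toIntSubmodule_toAddSubgroup] at h2
  exact h2

private theorem exists_maxIdeal (K : Type*) [Field K] [NumberField K] :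
    ∃ w : Ideal (𝓞 K), w.IsMaximal := Ideal.exists_maximal _

/-- A lattice is squeezed between two multiples of the order. -/
private theorem IsLat.squeeze (hO : IsOrder K O) {Λ : AddSubgroup D} (hΛ : IsLat K O Λ) :
    ∃ x ∈ Λ, x ≠ 0 ∧ ∃ N : ℕ, N ≠ 0 ∧ ∀ y ∈ Λ, ∃ a ∈ O, (N : D) * y = x * a := by
  obtain ⟨w, hw⟩ := exists_maxIdeal K
  obtain ⟨x, hx, hx0, m, hm, h⟩ := hΛ.2 w hw
  have hm0 : m ≠ 0 := fun h0 => hm (by rw [h0]; exact w.zero_mem)
  have hJ : Ideal.span {m} ≠ ⊥ := by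
    rw [Ne, Ideal.span_singleton_eq_bot]
    exact hm0
  refine ⟨x, hx, hx0, Ideal.absNorm (Ideal.span {m}), ?_, ?_⟩
  · rw [Ne, Ideal.absNorm_eq_zero_iff]
    exact hJ
  · intro y hy
    obtain ⟨a, ha, hya⟩ := h y hy
    obtain ⟨c, hc⟩ := Ideal.mem_span_singleton'.1 (Ideal.absNorm_mem (Ideal.span {m}))
    refine ⟨a * algebraMap K D (c : K), O.mul_mem ha (hO.1 c), ?_⟩
    have h1 : ((Ideal.absNorm (Ideal.span {m}) : ℕ) : D) =
        algebraMap K D (c : K) * algebraMap K D (m : K) := by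
      rw [← map_mul, ← coe_mul', hc]
      simp
    rw [h1, mul_assoc, hya, Algebra.commutes, mul_assoc]

theorem IsLat.fg (hO : IsOrder K O) {Λ : AddSubgroup D} (hΛ : IsLat K O Λ) : Λ.FG := by
  obtain ⟨x, hx, hx0, N, hN, h⟩ := hΛ.squeeze hO
  have hN' : (N : D) ≠ 0 := natCast_ne K hN
  have h1 : (O.toAddSubgroup.map (AddMonoidHom.mulLeft ((N : D)⁻¹ * x))).FG := by
    obtain ⟨S, hS⟩ := hO.2.1
    classical
    refine ⟨S.image (AddMonoidHom.mulLeft ((N : D)⁻¹ * x)), ?_⟩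
    rw [Finset.coe_image, ← AddMonoidHom.map_closure, hS]
  refine fg_of_le h1 ?_
  intro y hy
  obtain ⟨a, ha, hya⟩ := h y hy
  refine ⟨a, ha, ?_⟩
  rw [AddMonoidHom.coe_mulLeft, mul_assoc, ← hya, ← mul_assoc, inv_mul_cancel₀ hN', one_mul]

theorem IsLat.full (hO : IsOrder K O) {Λ : AddSubgroup D} (hΛ : IsLat K O Λ) (d : D) :
    ∃ m : ℕ, m ≠ 0 ∧ (m : D) * d ∈ Λ := by
  obtain ⟨x, hx, hx0, _⟩ := hΛ.squeeze hO
  obtain ⟨m, hm, h⟩ := hO.2.2 (x⁻¹ * d)
  refine ⟨m, hm, ?_⟩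
  have h1 := hΛ.1 x hx _ h
  rwa [natCast_comm, ← mul_assoc, ← mul_assoc, mul_inv_cancel₀ hx0, one_mul,
    ← natCast_comm] at h1

private theorem finite_quot {Λ M : AddSubgroup D} (hfg : Λ.FG) {N : ℕ} (hN : N ≠ 0)
    (h : ∀ x ∈ Λ, (N : D) * x ∈ M) : Finite (Λ ⧸ M.addSubgroupOf Λ) := by
  have : AddGroup.FG Λ := (AddGroup.fg_iff_addSubgroup_fg Λ).2 hfg
  refine AddCommGroup.finite_of_fg_isAddTorsion _ ?_
  intro q
  obtain ⟨x, rfl⟩ := QuotientAddGroup.mk_surjective q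
  rw [isOfFinAddOrder_iff_nsmul_eq_zero]
  refine ⟨N, Nat.pos_of_ne_zero hN, ?_⟩
  rw [← QuotientAddGroup.mk_nsmul, QuotientAddGroup.eq_zero_iff, AddSubgroup.mem_addSubgroupOf]
  rw [AddSubgroup.coe_nsmul, nsmul_eq_mul]
  exact h x x.2

theorem finite_between {Λ : AddSubgroup D} (hfg : Λ.FG) {N : ℕ} (hN : N ≠ 0) :
    {Λ₁ : AddSubgroup D | (∀ x ∈ Λ, (N : D) * x ∈ Λ₁) ∧ Λ₁ ≤ Λ}.Finite := by
  set M : AddSubgroup D := Λ.map (AddMonoidHom.mulLeft (N : D)) with hM
  have : Finite (Λ ⧸ M.addSubgroupOf Λ) := finite_quot hfg hN (fun x hx => ⟨x, hx, rfl⟩)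
  refine Set.Finite.of_finite_image (f := fun L : AddSubgroup D =>
    (L.addSubgroupOf Λ).map (QuotientAddGroup.mk' (M.addSubgroupOf Λ))) (Set.toFinite _) ?_
  intro L₁ h₁ L₂ h₂ h
  have key : ∀ L : AddSubgroup D, (∀ x ∈ Λ, (N : D) * x ∈ L) →
      ((L.addSubgroupOf Λ).map (QuotientAddGroup.mk' (M.addSubgroupOf Λ))).comap
        (QuotientAddGroup.mk' (M.addSubgroupOf Λ)) = L.addSubgroupOf Λ := by
    intro L hL
    apply AddSubgroup.comap_map_eq_self
    rw [QuotientAddGroup.ker_mk']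
    intro x hx
    rw [AddSubgroup.mem_addSubgroupOf] at hx ⊢
    obtain ⟨z, hz, hzx⟩ := hx
    rw [← hzx]
    exact hL z hz
  have h3 : L₁.addSubgroupOf Λ = L₂.addSubgroupOf Λ := by
    rw [← key L₁ h₁.1, ← key L₂ h₂.1]
    exact congrArg _ h
  rw [AddSubgroup.addSubgroupOf_inj] at h3
  rwa [inf_eq_left.2 h₁.2, inf_eq_left.2 h₂.2] at h3

theorem mem_idealMul {J : Ideal (𝓞 K)} {Λ : AddSubgroup D} {m : 𝓞 K} (hm : m ∈ J) {x : D}
    (hx : x ∈ Λ) : algebraMap K D (m : K) * x ∈ idealMul K J Λ :=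
  AddSubgroup.subset_closure ⟨m, hm, x, hx, rfl⟩

theorem idealMul_le_iff {J : Ideal (𝓞 K)} {Λ M : AddSubgroup D} :
    idealMul K J Λ ≤ M ↔ ∀ m ∈ J, ∀ x ∈ Λ, algebraMap K D (m : K) * x ∈ M := by
  unfold idealMul
  rw [AddSubgroup.closure_le]
  constructor
  · intro h m hm x hx
    exact h ⟨m, hm, x, hx, rfl⟩
  · rintro h _ ⟨m, hm, x, hx, rfl⟩
    exact h m hm x hx

theorem idealMul_mono {J J' : Ideal (𝓞 K)} (hJ : J ≤ J') {Λ Λ' : AddSubgroup D} (hΛ : Λ ≤ Λ') :
    idealMul K J Λ ≤ idealMul K J' Λ' :=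
  idealMul_le_iff.2 fun _ hm _ hx => mem_idealMul (hJ hm) (hΛ hx)

/-- `J (J' Λ) = (J J') Λ`. -/
theorem idealMul_mul (J J' : Ideal (𝓞 K)) (Λ : AddSubgroup D) :
    idealMul K J (idealMul K J' Λ) = idealMul K (J * J') Λ := by
  apply le_antisymm
  · rw [idealMul_le_iff]
    intro m hm y hy
    induction hy using AddSubgroup.closure_induction with
    | mem y hy =>
      obtain ⟨m', hm', x, hx, rfl⟩ := hy
      rw [← mul_assoc, ← map_mul, ← coe_mul']
      exact mem_idealMul (Ideal.mul_mem_mul hm hm') hx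
    | zero => rw [mul_zero]; exact AddSubgroup.zero_mem _
    | add a b _ _ ha hb => rw [mul_add]; exact AddSubgroup.add_mem _ ha hb
    | neg a _ ha => rw [mul_neg]; exact AddSubgroup.neg_mem _ ha
  · rw [idealMul_le_iff]
    intro m hm x hx
    induction hm using Submodule.mul_induction_on' with
    | mem_mul_mem a ha b hb =>
      rw [coe_mul', map_mul, mul_assoc]
      exact mem_idealMul ha (mem_idealMul hb hx)
    | add a _ b _ ha hb =>
      rw [coe_add', map_add, add_mul]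
      exact AddSubgroup.add_mem _ ha hb

theorem idealMul_le_self (hO : IsOrder K O) {Λ : AddSubgroup D} (hΛ : IsLat K O Λ)
    (J : Ideal (𝓞 K)) : idealMul K J Λ ≤ Λ :=
  idealMul_le_iff.2 fun m _ _ hx => hΛ.smul_mem hO m hx

theorem idealMul_smul_mem {J : Ideal (𝓞 K)} {Λ : AddSubgroup D} (m : 𝓞 K) {x : D}
    (hx : x ∈ idealMul K J Λ) : algebraMap K D (m : K) * x ∈ idealMul K J Λ := by
  induction hx using AddSubgroup.closure_induction with
  | mem y hy =>
    obtain ⟨m', hm', x, hx, rfl⟩ := hy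
    rw [← mul_assoc, ← map_mul, ← coe_mul']
    exact mem_idealMul (J.mul_mem_left m hm') hx
  | zero => rw [mul_zero]; exact AddSubgroup.zero_mem _
  | add a b _ _ ha hb => rw [mul_add]; exact AddSubgroup.add_mem _ ha hb
  | neg a _ ha => rw [mul_neg]; exact AddSubgroup.neg_mem _ ha

theorem idealMul_mul_mem {J : Ideal (𝓞 K)} {Λ : AddSubgroup D} {a : D}
    (ha : ∀ x ∈ Λ, x * a ∈ Λ) {x : D} (hx : x ∈ idealMul K J Λ) : x * a ∈ idealMul K J Λ := by
  induction hx using AddSubgroup.closure_induction with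
  | mem y hy =>
    obtain ⟨m', hm', x, hx, rfl⟩ := hy
    rw [mul_assoc]
    exact mem_idealMul hm' (ha x hx)
  | zero => rw [zero_mul]; exact AddSubgroup.zero_mem _
  | add a b _ _ ha hb => rw [add_mul]; exact AddSubgroup.add_mem _ ha hb
  | neg a _ ha => rw [neg_mul]; exact AddSubgroup.neg_mem _ ha

theorem finite_between_ideal (hO : IsOrder K O) {Λ : AddSubgroup D} (hΛ : IsLat K O Λ)
    {J : Ideal (𝓞 K)} (hJ : J ≠ ⊥) :
    {Λ₁ : AddSubgroup D | idealMul K J Λ ≤ Λ₁ ∧ Λ₁ ≤ Λ}.Finite := by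
  have hN : Ideal.absNorm J ≠ 0 := by
    rw [Ne, Ideal.absNorm_eq_zero_iff]
    exact hJ
  refine (finite_between (hΛ.fg hO) hN).subset ?_
  rintro L ⟨h1, h2⟩
  refine ⟨fun x hx => h1 ?_, h2⟩
  have h3 := mem_idealMul (K := K) (Ideal.absNorm_mem J) hx
  simpa using h3

/-- The local principle. -/
theorem local_principle {M : AddSubgroup D}
    (hM : ∀ (m : 𝓞 K), ∀ x ∈ M, algebraMap K D (m : K) * x ∈ M) {x : D}
    (h : ∀ w : Ideal (𝓞 K), w.IsMaximal → ∃ m : 𝓞 K, m ∉ w ∧ algebraMap K D (m : K) * x ∈ M) :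
    x ∈ M := by
  let I : Ideal (𝓞 K) :=
    { carrier := {m | algebraMap K D (m : K) * x ∈ M}
      add_mem' := by
        intro a b ha hb
        change algebraMap K D ((a + b : 𝓞 K) : K) * x ∈ M
        replace ha : algebraMap K D (a : K) * x ∈ M := ha
        replace hb : algebraMap K D (b : K) * x ∈ M := hb
        rw [coe_add', map_add, add_mul]
        exact M.add_mem ha hb
      zero_mem' := by
        change algebraMap K D ((0 : 𝓞 K) : K) * x ∈ M
        rw [coe_zero', map_zero, zero_mul]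
        exact M.zero_mem
      smul_mem' := by
        intro c m hm
        change algebraMap K D ((c * m : 𝓞 K) : K) * x ∈ M
        rw [coe_mul', map_mul, mul_assoc]
        exact hM c _ hm }
  by_contra hx
  have hI : I ≠ ⊤ := by
    intro hI
    have h1 : (1 : 𝓞 K) ∈ I := by rw [hI]; trivial
    apply hx
    have h2 : algebraMap K D ((1 : 𝓞 K) : K) * x ∈ M := h1
    rwa [coe_one', map_one, one_mul] at h2
  obtain ⟨w, hw, hIw⟩ := Ideal.exists_le_maximal I hI
  obtain ⟨m, hm, hmx⟩ := h w hw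
  exact hm (hIw hmx)

end Basic

section Pairs

variable {K : Type*} [Field K] [NumberField K] {D : Type*} [DivisionRing D] [Algebra K D]
  {O : Subring D} {n : ℕ} {H : Set D}

theorem IsPair.nonempty (hH : IsLevel O n H) {y : AddSubgroup D × Set D}
    (hy : IsPair K O n H y) : y.2.Nonempty := by
  obtain ⟨_, l, hl, _, h2⟩ := hy
  rw [h2]
  exact ⟨l * 1 + (n : D) * 0, 1, hH.one, 0, y.1.zero_mem, rfl⟩

/-- Any element of `S` is a generator defining `S`. -/
theorem IsPair.of_mem (hH : IsLevel O n H) {y : AddSubgroup D × Set D}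
    (hy : IsPair K O n H y) {s : D} (hs : s ∈ y.2) :
    s ∈ y.1 ∧ (∀ z ∈ y.1, ∃ a ∈ O, ∃ z' ∈ y.1, z = s * a + (n : D) * z') ∧
      y.2 = {t | ∃ h ∈ H, ∃ z ∈ y.1, t = s * h + (n : D) * z} := by
  obtain ⟨hΛ, l, hl, h1, h2⟩ := hy
  have hs' := hs
  rw [h2] at hs'
  obtain ⟨h₀, hh₀, z₀, hz₀, hs0⟩ := hs'
  obtain ⟨h₀', hh₀', b, hb, hinv⟩ := hH.inv h₀ hh₀
  -- `l` in terms of `s`
  have hl' : l = s * h₀' + (n : D) * (-(z₀ * h₀') - l * b) := by
    have e1 : l * (h₀ * h₀') = l + (n : D) * (l * b) := by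
      rw [hinv, mul_add, mul_one, ← mul_assoc l, ← natCast_comm n l, mul_assoc]
    have e2 : s * h₀' = l * (h₀ * h₀') + (n : D) * (z₀ * h₀') := by
      rw [hs0, add_mul, mul_assoc, mul_assoc]
    rw [e2, e1, mul_sub, mul_neg]
    abel
  have hr : -(z₀ * h₀') - l * b ∈ y.1 :=
    y.1.sub_mem (y.1.neg_mem (hΛ.1 _ hz₀ _ (hH.sub _ hh₀'))) (hΛ.1 _ hl _ hb)
  set r : D := -(z₀ * h₀') - l * b with hrdef
  refine ⟨?_, ?_, ?_⟩
  · rw [hs0]
    exact y.1.add_mem (hΛ.1 _ hl _ (hH.sub _ hh₀)) (natMul_mem _ _ hz₀)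
  · intro z hz
    obtain ⟨a, ha, z', hz', hza⟩ := h1 z hz
    refine ⟨h₀' * a, O.mul_mem (hH.sub _ hh₀') ha, r * a + z',
      y.1.add_mem (hΛ.1 _ hr _ ha) hz', ?_⟩
    rw [hza]
    conv_lhs => rw [hl']
    rw [add_mul, mul_assoc, mul_assoc, mul_add, add_assoc]
  · rw [h2]
    ext t
    constructor
    · rintro ⟨h, hh, z, hz, rfl⟩
      refine ⟨h₀' * h, hH.mul _ hh₀' _ hh, r * h + z,
        y.1.add_mem (hΛ.1 _ hr _ (hH.sub _ hh)) hz, ?_⟩
      conv_lhs => rw [hl']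
      rw [add_mul, mul_assoc, mul_assoc, mul_add, add_assoc]
    · rintro ⟨h, hh, z, hz, rfl⟩
      refine ⟨h₀ * h, hH.mul _ hh₀ _ hh, z₀ * h + z,
        y.1.add_mem (hΛ.1 _ hz₀ _ (hH.sub _ hh)) hz, ?_⟩
      conv_lhs => rw [hs0]
      rw [add_mul, mul_assoc, mul_assoc, mul_add, add_assoc]

theorem IsPair.add_mem (hH : IsLevel O n H) {y : AddSubgroup D × Set D}
    (hy : IsPair K O n H y) {s z : D} (hs : s ∈ y.2) (hz : z ∈ y.1) : s + (n : D) * z ∈ y.2 := by
  rw [(hy.of_mem hH hs).2.2]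
  exact ⟨1, hH.one, z, hz, by rw [mul_one]⟩

theorem IsPair.mul_mem (hH : IsLevel O n H) {y : AddSubgroup D × Set D}
    (hy : IsPair K O n H y) {s h : D} (hs : s ∈ y.2) (hh : h ∈ H) : s * h ∈ y.2 := by
  rw [(hy.of_mem hH hs).2.2]
  exact ⟨h, hh, 0, y.1.zero_mem, by rw [mul_zero, add_zero]⟩

/-- Two pairs with the same lattice and a common element of the second components coincide. -/
theorem IsPair.eq_of_common (hH : IsLevel O n H) {y z : AddSubgroup D × Set D}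
    (hy : IsPair K O n H y) (hz : IsPair K O n H z) (h1 : y.1 = z.1) {s : D} (hsy : s ∈ y.2)
    (hsz : s ∈ z.2) : y = z := by
  apply Prod.ext h1
  rw [(hy.of_mem hH hsy).2.2, (hz.of_mem hH hsz).2.2, h1]

/-- A sublattice prime to `n` inherits the level structure. -/
theorem IsPair.sub_pair (hO : IsOrder K O) (hH : IsLevel O n H) {y : AddSubgroup D × Set D}
    (hy : IsPair K O n H y) {Λ₁ : AddSubgroup D} (hΛ₁ : IsLat K O Λ₁) (hle : Λ₁ ≤ y.1)
    {u t : 𝓞 K} (hu : ∀ x ∈ y.1, algebraMap K D (u : K) * x ∈ Λ₁)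
    (hut : u = 1 + (n : 𝓞 K) * t) :
    IsPair K O n H (Λ₁, y.2 ∩ (Λ₁ : Set D)) := by
  obtain ⟨hΛ, l, hl, h1, h2⟩ := hy
  have hU : algebraMap K D (u : K) = 1 + (n : D) * algebraMap K D (t : K) := by
    rw [hut, coe_add', coe_mul', map_add, map_mul, coe_one', map_one]
    simp
  set U : D := algebraMap K D (u : K) with hUdef
  set T : D := algebraMap K D (t : K) with hTdef
  have key : ∀ z : D, z = U * z - (n : D) * (T * z) := by
    intro z
    rw [hU, add_mul, one_mul, mul_assoc]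
    abel
  have hTmem : ∀ z ∈ Λ₁, T * z ∈ Λ₁ := fun z hz => hΛ₁.smul_mem hO t hz
  have hnU : ∀ z : D, U * ((n : D) * z) = (n : D) * (U * z) := by
    intro z
    rw [← mul_assoc, ← natCast_comm n U, mul_assoc]
  refine ⟨hΛ₁, U * l, hu l hl, ?_, ?_⟩
  · intro z hz
    obtain ⟨a, ha, z', hz', hza⟩ := h1 z (hle hz)
    refine ⟨a, ha, U * z' - T * z, Λ₁.sub_mem (hu _ hz') (hTmem _ hz), ?_⟩
    have e1 : U * z = U * l * a + (n : D) * (U * z') := by
      conv_lhs => rw [hza]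
      rw [mul_add, hnU, mul_assoc]
    conv_lhs => rw [key z]
    rw [e1, mul_sub]
    abel
  · ext s
    constructor
    · rintro ⟨hs, hsΛ⟩
      rw [h2] at hs
      obtain ⟨h, hh, z, hz, hs'⟩ := hs
      refine ⟨h, hh, U * z - T * s, Λ₁.sub_mem (hu _ hz) (hTmem _ hsΛ), ?_⟩
      have e1 : U * s = U * l * h + (n : D) * (U * z) := by
        conv_lhs => rw [hs']
        rw [mul_add, hnU, mul_assoc]
      conv_lhs => rw [key s]
      rw [e1, mul_sub]
      abel
    · rintro ⟨h, hh, z, hz, rfl⟩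
      refine ⟨?_, ?_⟩
      · rw [h2]
        refine ⟨h, hh, T * l * h + z, y.1.add_mem (hΛ.1 _ (hΛ.smul_mem hO t hl) _
          (hH.sub _ hh)) (hle hz), ?_⟩
        rw [hU, add_mul, one_mul, add_mul, mul_add, mul_assoc (n : D), mul_assoc (n : D),
          add_assoc]
      · exact Λ₁.add_mem (hΛ₁.1 _ (hu l hl) _ (hH.sub _ hh)) (natMul_mem _ _ hz)

/-- For an ideal `J` prime to `n` there are `u ∈ J` and `t` with `u = 1 + n t`. -/
theorem exists_unit_mod {J : Ideal (𝓞 K)} (hJ : ∀ w : Ideal (𝓞 K), w.IsMaximal → J ≤ w →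
    (n : 𝓞 K) ∉ w) : ∃ u ∈ J, ∃ t : 𝓞 K, u = 1 + (n : 𝓞 K) * t := by
  have htop : J ⊔ Ideal.span {(n : 𝓞 K)} = ⊤ := by
    by_contra h
    obtain ⟨w, hw, hle⟩ := Ideal.exists_le_maximal _ h
    exact hJ w hw (le_sup_left.trans hle)
      (hle (Ideal.mem_sup_right (Ideal.mem_span_singleton_self _)))
  have h1 : (1 : 𝓞 K) ∈ J ⊔ Ideal.span {(n : 𝓞 K)} := by rw [htop]; trivial
  obtain ⟨u, hu, v, hv, huv⟩ := Submodule.mem_sup.1 h1
  obtain ⟨c, hc⟩ := Ideal.mem_span_singleton'.1 hv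
  refine ⟨u, hu, -c, ?_⟩
  rw [← huv, ← hc]
  ring

/-- multiplication by `n` as a subgroup -/
private theorem relIndex_n (hn : (n : D) ≠ 0) {Λ M : AddSubgroup D} (hle : M ≤ Λ)
    (hfin : M.relIndex Λ ≠ 0) :
    (Λ.map (AddMonoidHom.mulLeft (n : D))).relIndex Λ =
      (M.map (AddMonoidHom.mulLeft (n : D))).relIndex M := by
  have hinj : Function.Injective (AddMonoidHom.mulLeft (n : D)) := by
    intro a b hab
    exact mul_left_cancel₀ hn hab
  have hnΛ : Λ.map (AddMonoidHom.mulLeft (n : D)) ≤ Λ := by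
    rintro _ ⟨x, hx, rfl⟩
    exact natMul_mem _ _ hx
  have hnM : M.map (AddMonoidHom.mulLeft (n : D)) ≤ M := by
    rintro _ ⟨x, hx, rfl⟩
    exact natMul_mem _ _ hx
  have hnn : M.map (AddMonoidHom.mulLeft (n : D)) ≤ Λ.map (AddMonoidHom.mulLeft (n : D)) :=
    AddSubgroup.map_mono hle
  have e1 := AddSubgroup.relIndex_mul_relIndex _ _ _ hnM hle
  have e2 := AddSubgroup.relIndex_mul_relIndex _ _ _ hnn hnΛ
  rw [AddSubgroup.relIndex_map_map_of_injective _ _ hinj] at e2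
  rw [← e2, mul_comm] at e1
  exact (Nat.eq_of_mul_eq_mul_left (Nat.pos_of_ne_zero hfin) e1).symm

/-- If `l` generates `Λ` modulo `n Λ` and `l c ∈ n Λ` with `c ∈ O`, then `c ∈ n O`. -/
private theorem gen_cancel (hO : IsOrder K O) (hn : n ≠ 0) {Λ : AddSubgroup D}
    (hΛ : IsLat K O Λ) {l : D} (hl : l ∈ Λ)
    (hgen : ∀ z ∈ Λ, ∃ a ∈ O, ∃ z' ∈ Λ, z = l * a + (n : D) * z') {c : D} (hc : c ∈ O)
    (hlc : ∃ z ∈ Λ, l * c = (n : D) * z) : ∃ b ∈ O, c = (n : D) * b := by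
  have hn' : (n : D) ≠ 0 := natCast_ne K hn
  obtain ⟨x, hx, hx0, N, hN, hsq⟩ := hΛ.squeeze hO
  have hfg := hΛ.fg hO
  set ν := AddMonoidHom.mulLeft (n : D) with hν
  set A := O.toAddSubgroup with hA
  set M : AddSubgroup D := A.map (AddMonoidHom.mulLeft x) with hM
  have hMΛ : M ≤ Λ := by
    rintro _ ⟨a, ha, rfl⟩
    exact hΛ.1 x hx a ha
  have hMfin : M.relIndex Λ ≠ 0 := by
    have : Finite (Λ ⧸ M.addSubgroupOf Λ) := finite_quot hfg hN (fun y hy => by
      obtain ⟨a, ha, h⟩ := hsq y hy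
      exact ⟨a, ha, h.symm⟩)
    exact AddSubgroup.index_ne_zero_of_finite
  have hxinj : Function.Injective (AddMonoidHom.mulLeft x) := by
    intro a b hab
    exact mul_left_cancel₀ hx0 hab
  -- the index of `n Λ` in `Λ` is the index of `n O` in `O`
  have h1 : (Λ.map ν).relIndex Λ = (A.map ν).relIndex A := by
    rw [relIndex_n hn' hMΛ hMfin]
    have h2 : M.map ν = (A.map ν).map (AddMonoidHom.mulLeft x) := by
      rw [hM, AddSubgroup.map_map, AddSubgroup.map_map]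
      congr 1
      ext z
      change (n : D) * (x * z) = x * ((n : D) * z)
      rw [← mul_assoc, natCast_comm n x, mul_assoc]
    rw [h2, hM, AddSubgroup.relIndex_map_map_of_injective _ _ hxinj]
  have hOfin : Finite (A ⧸ (A.map ν).addSubgroupOf A) := finite_quot hO.2.1 hn
    (fun y hy => ⟨y, hy, rfl⟩)
  have hΛfin : Finite (Λ ⧸ (Λ.map ν).addSubgroupOf Λ) := finite_quot hfg hn
    (fun y hy => ⟨y, hy, rfl⟩)
  -- the map `O / n O → Λ / n Λ`
  let φ : A →+ Λ :=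
    { toFun := fun a => ⟨l * a, hΛ.1 l hl a a.2⟩
      map_zero' := by
        apply Subtype.ext
        change l * ((0 : A) : D) = 0
        rw [AddSubgroup.coe_zero, mul_zero]
      map_add' := by
        intro a b
        apply Subtype.ext
        change l * ((a + b : A) : D) = l * a + l * b
        rw [AddSubgroup.coe_add, mul_add] }
  have hφ : (A.map ν).addSubgroupOf A ≤ ((Λ.map ν).addSubgroupOf Λ).comap φ := by
    intro a ha
    rw [AddSubgroup.mem_addSubgroupOf] at ha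
    obtain ⟨b, hb, hab⟩ := ha
    rw [AddSubgroup.mem_comap, AddSubgroup.mem_addSubgroupOf]
    refine ⟨l * b, hΛ.1 l hl b hb, ?_⟩
    change (n : D) * (l * b) = l * a
    rw [← hab]
    change (n : D) * (l * b) = l * ((n : D) * b)
    rw [← mul_assoc, natCast_comm n l, mul_assoc]
  let Φ := QuotientAddGroup.map _ _ φ hφ
  have hsurj : Function.Surjective Φ := by
    intro q
    obtain ⟨z, rfl⟩ := QuotientAddGroup.mk_surjective q
    obtain ⟨a, ha, z', hz', hza⟩ := hgen z z.2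
    refine ⟨QuotientAddGroup.mk (⟨a, ha⟩ : A), ?_⟩
    change QuotientAddGroup.mk (φ ⟨a, ha⟩) = _
    rw [QuotientAddGroup.eq, AddSubgroup.mem_addSubgroupOf]
    refine ⟨z', hz', ?_⟩
    change (n : D) * z' = -(l * a) + z
    rw [hza]
    abel
  have hcard : Nat.card (A ⧸ (A.map ν).addSubgroupOf A) =
      Nat.card (Λ ⧸ (Λ.map ν).addSubgroupOf Λ) := h1.symm
  have hbij : Function.Bijective Φ :=
    (Nat.bijective_iff_surjective_and_card Φ).2 ⟨hsurj, hcard⟩
  have hzero : Φ (QuotientAddGroup.mk (⟨c, hc⟩ : A)) = Φ 0 := by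
    rw [map_zero]
    change QuotientAddGroup.mk (φ ⟨c, hc⟩) = _
    rw [QuotientAddGroup.eq_zero_iff, AddSubgroup.mem_addSubgroupOf]
    obtain ⟨z, hz, h⟩ := hlc
    exact ⟨z, hz, h.symm⟩
  have h3 := hbij.1 hzero
  rw [QuotientAddGroup.eq_zero_iff, AddSubgroup.mem_addSubgroupOf] at h3
  obtain ⟨b, hb, hbc⟩ := h3
  exact ⟨b, hb, hbc.symm⟩

private theorem integral_of_stable (hO : IsOrder K O) {Λ : AddSubgroup D} (hΛ : IsLat K O Λ)
    {a : K} (ha : ∀ x ∈ Λ, algebraMap K D a * x ∈ Λ) : ∃ m : 𝓞 K, (m : K) = a := by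
  have hfg := hΛ.fg hO
  obtain ⟨x, hx, hx0, _⟩ := hΛ.squeeze hO
  have h1 : (AddSubgroup.toIntSubmodule Λ).FG := by
    rw [Submodule.fg_iff_addSubgroup_fg, AddSubgroup.toIntSubmodule_toAddSubgroup]
    exact hfg
  have h2 : AddSubgroup.toIntSubmodule Λ ≠ ⊥ := by
    intro h
    have h3 : x ∈ AddSubgroup.toIntSubmodule Λ := hx
    rw [h, Submodule.mem_bot] at h3
    exact hx0 h3
  have h4 : IsIntegral ℤ a := by
    refine isIntegral_of_smul_mem_submodule (A := K) (AddSubgroup.toIntSubmodule Λ) h2 h1 a ?_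
    intro z hz
    rw [Algebra.smul_def]
    exact ha z hz
  exact ⟨⟨a, h4⟩, rfl⟩

/-- The half of `central_fixes`. -/
private theorem central_half (hO : IsOrder K O) (hn : n ≠ 0) (hH : IsLevel O n H)
    {y : AddSubgroup D × Set D} (hy : IsPair K O n H y) {a : K}
    (h1 : ∀ x ∈ y.1, algebraMap K D a * x ∈ y.1) (h2 : ∀ x ∈ y.2, algebraMap K D a * x ∈ y.2) :
    ∀ z, IsPair K O n H z → (∀ x ∈ z.1, algebraMap K D a * x ∈ z.1) ∧
      ∀ x ∈ z.2, algebraMap K D a * x ∈ z.2 := by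
  obtain ⟨m, hm⟩ := integral_of_stable hO hy.1 h1
  obtain ⟨l, hl⟩ := hy.nonempty hH
  obtain ⟨hl1, hgen, hS⟩ := hy.of_mem hH hl
  have h3 := h2 l hl
  rw [hS] at h3
  obtain ⟨h, hh, z₀, hz₀, h4⟩ := h3
  have hmO : algebraMap K D a ∈ O := by
    rw [← hm]
    exact hO.1 m
  have h5 : algebraMap K D a ∈ H := by
    obtain ⟨b, hb, hb'⟩ := gen_cancel hO hn hy.1 hl1 hgen (c := algebraMap K D a - h)
      (O.sub_mem hmO (hH.sub _ hh)) ⟨z₀, hz₀, by
        rw [mul_sub, ← Algebra.commutes a l, h4]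
        abel⟩
    have h6 : algebraMap K D a = h + (n : D) * b := by
      rw [← hb']
      abel
    rw [h6]
    exact hH.add _ hh _ hb
  intro z hz
  constructor
  · intro x hx
    rw [← hm]
    exact hz.1.smul_mem hO m hx
  · intro x hx
    rw [Algebra.commutes]
    exact hz.mul_mem hH hx h5

/-- A central unit fixing one pair fixes all pairs. -/
theorem central_fixes (hO : IsOrder K O) (hn : n ≠ 0) (hH : IsLevel O n H)
    {y : AddSubgroup D × Set D} (hy : IsPair K O n H y) {d : Dˣ} {a : K}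
    (hd : (d : D) = algebraMap K D a) (hdy : d • y = y) :
    ∀ z, IsPair K O n H z → d • z = z := by
  have hdi : ((d⁻¹ : Dˣ) : D) = algebraMap K D a⁻¹ := by
    rw [map_inv₀, ← hd, Units.val_inv_eq_inv_val]
  have hdy' : d⁻¹ • y = y := by
    conv_lhs => rw [← hdy]
    rw [inv_smul_smul]
  have e1 : d • y.1 = y.1 := congrArg Prod.fst hdy
  have e2 : d • y.2 = y.2 := congrArg Prod.snd hdy
  have e1' : d⁻¹ • y.1 = y.1 := congrArg Prod.fst hdy'
  have e2' : d⁻¹ • y.2 = y.2 := congrArg Prod.snd hdy'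
  have A1 := central_half hO hn hH hy (a := a)
    (fun x hx => by
      have : algebraMap K D a * x ∈ d • y.1 := ⟨x, hx, by rw [← hd]; rfl⟩
      rwa [e1] at this)
    (fun x hx => by
      have := Set.smul_mem_smul_set (a := d) hx
      rwa [e2, Units.smul_def, smul_eq_mul, hd] at this)
  have A2 := central_half hO hn hH hy (a := a⁻¹)
    (fun x hx => by
      have : algebraMap K D a⁻¹ * x ∈ d⁻¹ • y.1 := ⟨x, hx, by rw [← hdi]; rfl⟩
      rwa [e1'] at this)
    (fun x hx => by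
      have := Set.smul_mem_smul_set (a := d⁻¹) hx
      rwa [e2', Units.smul_def, smul_eq_mul, hdi] at this)
  intro z hz
  obtain ⟨B1, B2⟩ := A1 z hz
  obtain ⟨C1, C2⟩ := A2 z hz
  apply Prod.ext
  · change d • z.1 = z.1
    apply le_antisymm
    · rintro _ ⟨x, hx, rfl⟩
      change d • x ∈ z.1
      rw [Units.smul_def, smul_eq_mul, hd]
      exact B1 x hx
    · intro x hx
      refine ⟨algebraMap K D a⁻¹ * x, C1 x hx, ?_⟩
      change (d : D) * (algebraMap K D a⁻¹ * x) = x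
      rw [← hdi, ← mul_assoc, Units.mul_inv, one_mul]
  · change d • z.2 = z.2
    apply Set.Subset.antisymm
    · rintro _ ⟨x, hx, rfl⟩
      change d • x ∈ z.2
      rw [Units.smul_def, smul_eq_mul, hd]
      exact B2 x hx
    · intro x hx
      rw [Set.mem_smul_set_iff_inv_smul_mem, Units.smul_def, smul_eq_mul, hdi]
      exact C2 x hx

end Pairs

end Pool.Agent.Helper93.WS
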