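import Pool.Agent.Helper93.WS.Main1
import Pool.Agent.Helper93.WS.BijA
import Pool.Agent.Helper93.WS.BijB2

/-!
# Pulling back forms of `D` to forms of `B`, and the Hecke operators
-/

open scoped Pointwise NumberField

namespace Pool.Agent.Helper93.WS

variable {k : Type*} [Field k] {F F' : Type*} [Field F] [NumberField F] [Field F']
  [NumberField F'] [Algebra F F']
  {B D : Type*} [DivisionRing B] [DivisionRing D] [Algebra F B] [Algebra F' D]
  [MulSemiringAction (F' ≃ₐ[F] F') D] {O : Subring D} {n : ℕ} {H : Set D}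
  {y : AddSubgroup D × Set D} {γ : (F' ≃ₐ[F] F') → Dˣ} {ι : B →+* D}

open Classical in
/-- Pull-back of functions from `D` to `B`. -/
noncomputable def pull (k F : Type*) [Field k] [Field F] [NumberField F] [Algebra F B] (n : ℕ)
    (H₁ : Set B) (y : AddSubgroup D × Set D) (ι : B →+* D) :
    (AddSubgroup D × Set D → k) →ₗ[k] (AddSubgroup B × Set B → k) where
  toFun f := fun b => if IsPair F (OB ι y.1) n H₁ b then
    f (jmap ι n y b) else 0
  map_add' f g := by
    funext b
    by_cases hb : IsPair F (OB ι y.1) n H₁ b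
    · simp [hb]
    · simp [hb]
  map_smul' c f := by
    funext b
    by_cases hb : IsPair F (OB ι y.1) n H₁ b
    · simp [hb]
    · simp [hb]

theorem pull_pos {H₁ : Set B} {b : AddSubgroup B × Set B}
    (hb : IsPair F (OB ι y.1) n H₁ b) (f : AddSubgroup D × Set D → k) :
    pull k F n H₁ y ι f b = f (jmap ι n y b) := by
  classical
  exact if_pos hb

theorem pull_neg {H₁ : Set B} {b : AddSubgroup B × Set B}
    (hb : ¬ IsPair F (OB ι y.1) n H₁ b) (f : AddSubgroup D × Set D → k) :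
    pull k F n H₁ y ι f b = 0 := by
  classical
  exact if_neg hb

theorem isForm_pull (hdat : Datum O n H y γ ι) {H₁ : Set B} {f : AddSubgroup D × Set D → k}
    (hf : IsForm F' O n H f) :
    IsForm F (OB ι y.1) n H₁ (pull k F n H₁ y ι f) := by
  refine ⟨fun b hb => pull_neg hb f, fun u b => ?_⟩
  by_cases hb : IsPair F (OB ι y.1) n H₁ b
  · have hb' : IsPair F (OB ι y.1) n H₁ (u • b) :=
      (isPair_units_smul u).2 hb
    rw [pull_pos hb, pull_pos hb', jmap_units_smul hdat, hf.2]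
  · have hb' : ¬ IsPair F (OB ι y.1) n H₁ (u • b) :=
      fun h => hb ((isPair_units_smul u).1 h)
    rw [pull_neg hb, pull_neg hb']

theorem hact_smul {F F' D : Type*} [Field F] [Field F'] [Algebra F F'] [DivisionRing D]
    [Algebra F' D] [MulSemiringAction (F' ≃ₐ[F] F') D]
    (hact : ∀ (σ : F' ≃ₐ[F] F') (a : F'), σ • algebraMap F' D a = algebraMap F' D (σ a)) :
    ∀ (σ : F' ≃ₐ[F] F') (a : F'), σ • algebraMap F' D a = algebraMap F' D (σ • a) := hact

theorem hecke_pull [IsGalois F F'] {p : ℕ} [Fact p.Prime] [CharP k p]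
    (hP : IsPGroup p (F' ≃ₐ[F] F')) (hdat : Datum O n H y γ ι) {H₁ : Set B}
    (hH₁ : SubLevel ι n y H₁) {r : ℕ} {e e' : Fin r → 𝓞 F'} {m : ℕ} {v : Ideal (𝓞 F)} (hg : Good e e' m v)
    (hnv : (n : 𝓞 F) ∉ v) (hsplit : ∀ w ∈ overSet F' v, Split F' O w)
    {f : AddSubgroup D × Set D → k} (hf : IsForm F' O n H f)
    (hfP : ∀ (σ : F' ≃ₐ[F] F') x, f (σ • x) = f x) :
    hecke F (OB ι y.1) n H₁ v (pull k F n H₁ y ι f) =
      pull k F n H₁ y ι (heckeW F' O n H (overSet_finite (F' := F') hg.max).toFinset f) := by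
  set W : Finset (Ideal (𝓞 F')) := (overSet_finite (F' := F') hg.max).toFinset with hWdef
  have hWmem : ∀ w, w ∈ W ↔ w ∈ overSet F' v := fun w => Set.Finite.mem_toFinset _
  have hWmax : ∀ w ∈ W, w.IsMaximal := fun w hw => ((hWmem w).1 hw).1
  funext b
  by_cases hb : IsPair F (OB ι y.1) n H₁ b
  · rw [pull_pos hb]
    have hjb := hdat.isPair_jmap hH₁ hb
    set S : Set (AddSubgroup D × Set D) := {z | NbW F' O n H W (jmap ι n y b) z} with hSdef
    have hSfin : S.Finite := nbW_finite hdat.hO hWmax _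
    set act : (F' ≃ₐ[F] F') → AddSubgroup D × Set D → AddSubgroup D × Set D :=
      fun σ z => (γ σ)⁻¹ • σ • z with hactdef
    have hfixb : ∀ σ : F' ≃ₐ[F] F', (γ σ)⁻¹ • σ • jmap ι n y b = jmap ι n y b := by
      intro σ
      rw [hdat.jmap_fixed, inv_smul_smul]
    have hst : ∀ σ, ∀ z ∈ S, act σ z ∈ S := by
      intro σ z hz
      have h1 : NbW F' O n H W (σ • jmap ι n y b) (σ • z) :=
        (nbW_gal_smul (hact_smul hdat.hact) hdat.hOP hdat.hHP σ
          (fun w => by rw [hWmem, hWmem, overSet_smul])).2 hz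
      have h2 : NbW F' O n H W ((γ σ)⁻¹ • σ • jmap ι n y b) ((γ σ)⁻¹ • σ • z) :=
        (nbW_units_smul _).2 h1
      rw [hfixb] at h2
      exact h2
    have hsum := finsum_eq_finsum_fixed hP S hSfin act
      (by
        intro z hz
        have h1 := hdat.hγ1 z hz.2.1
        show (γ 1)⁻¹ • (1 : F' ≃ₐ[F] F') • z = z
        rw [one_smul, inv_smul_eq_iff, h1])
      (fun σ τ z hz => hdat.hγmul σ τ z hz.2.1) hst f
      (by
        intro σ z hz
        show f ((γ σ)⁻¹ • σ • z) = f z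
        rw [hf.2, hfP])
    have himage : jmap ι n y '' {b₁ | Nb F (OB ι y.1) n H₁ v b b₁} =
        {z | z ∈ S ∧ ∀ σ, act σ z = z} := by
      ext z
      constructor
      · rintro ⟨b₁, hb₁, rfl⟩
        refine ⟨nbW_jmap hdat hH₁ hg hnv hb₁, fun σ => ?_⟩
        show (γ σ)⁻¹ • σ • jmap ι n y b₁ = jmap ι n y b₁
        rw [hdat.jmap_fixed, inv_smul_smul]
      · rintro ⟨hz, hzfix⟩
        obtain ⟨b₁, hb₁, hb₁z⟩ := exists_nb_of_fixed hdat hH₁ hg hnv hsplit hb hz
          (by
            intro σ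
            have h1 : (γ σ)⁻¹ • σ • z = z := hzfix σ
            rw [inv_smul_eq_iff] at h1
            exact h1)
        exact ⟨b₁, hb₁, hb₁z⟩
    have hL : hecke F (OB ι y.1) n H₁ v (pull k F n H₁ y ι f) b =
        ∑ᶠ (z : AddSubgroup D × Set D) (_ : z ∈ {z | z ∈ S ∧ ∀ σ, act σ z = z}), f z := by
      rw [← himage]
      rw [finsum_mem_image (s := {b₁ | Nb F (OB ι y.1) n H₁ v b b₁})
        (g := jmap ι n y) (f := f)
        (fun b₁ hb₁ b₂ hb₂ h => jmap_inj_of_nb hdat hb₁ hb₂ h)]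
      unfold hecke
      apply finsum_congr
      intro b₁
      apply finsum_congr
      intro hb₁
      exact pull_pos hb₁.2.1 f
    rw [hL]
    unfold heckeW
    exact hsum.symm
  · rw [pull_neg hb]
    unfold hecke
    have h1 : ∀ b₁ : AddSubgroup B × Set B,
        ¬ Nb F (OB ι y.1) n H₁ v b b₁ := fun b₁ hb₁ => hb hb₁.1
    simp [h1]

end Pool.Agent.Helper93.WS
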