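import Pool.Agent.Helper93.WS.Main2
import Pool.Agent.Helper93.WS.FinCl
import Pool.Agent.Helper93.WS.Frob
import Pool.Agent.Helper93.WS.Level

/-!
# Generalised eigenforms for arbitrary systems of eigenvalues, and the forward direction
-/

open scoped Pointwise NumberField

namespace Pool.Agent.Helper93.WS

section Theta

variable {k : Type*} [Field k] {K : Type*} [Field K] [NumberField K] {D : Type*}
  [DivisionRing D] [Algebra K D] {O : Subring D} {n : ℕ} {H : Set D} {N : ℕ}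

/-- Generalised eigenforms for a system `Θ` of eigenvalues outside `N`. -/
def thetaSet (K : Type*) [Field K] [NumberField K] {D : Type*} [DivisionRing D] [Algebra K D]
    {k : Type*} [Field k] (O : Subring D) (n : ℕ) (H : Set D) (N : ℕ) (Θ : Ideal (𝓞 K) → k) :
    Set (AddSubgroup D × Set D → k) :=
  {f | IsForm K O n H f ∧ ∀ w : Ideal (𝓞 K), w.IsMaximal → (N : 𝓞 K) ∉ w →
      ∃ j : ℕ, (fun g => hecke K O n H w g - Θ w • g)^[j] f = 0}

theorem notMem_of_dvd {n N : ℕ} (hnN : n ∣ N) {w : Ideal (𝓞 K)} (hw : (N : 𝓞 K) ∉ w) :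
    (n : 𝓞 K) ∉ w := by
  intro hnw
  obtain ⟨c, rfl⟩ := hnN
  exact hw (by rw [Nat.cast_mul]; exact Ideal.mul_mem_right _ _ hnw)

theorem heckeW_mem_theta (hO : IsOrder K O) (hH : IsLevel O n H) (hnN : n ∣ N)
    {W : Finset (Ideal (𝓞 K))} (hW : ∀ w ∈ W, w.IsMaximal ∧ (N : 𝓞 K) ∉ w)
    {Θ : Ideal (𝓞 K) → k} {f : AddSubgroup D × Set D → k} (hf : f ∈ thetaSet K O n H N Θ) :
    heckeW K O n H W f ∈ thetaSet K O n H N Θ := by
  have hW2 : ∀ w ∈ W, w.IsMaximal ∧ (n : 𝓞 K) ∉ w :=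
    fun w hw => ⟨(hW w hw).1, notMem_of_dvd hnN (hW w hw).2⟩
  refine ⟨isForm_heckeW hO hH _ hW2 hf.1, fun w hw hNw => ?_⟩
  exact heckeW_gen hO hH hw (notMem_of_dvd hnN hNw) _ hW2 (fun w hw => (hW w hw).1) (Θ w)
    (hf.2 w hw hNw)

theorem IsForm.lin {f g : AddSubgroup D × Set D → k} (hf : IsForm K O n H f)
    (hg : IsForm K O n H g) (a b : k) : IsForm K O n H (a • f + b • g) := by
  refine ⟨fun y hy => ?_, fun d y => ?_⟩
  · show a • f y + b • g y = 0
    rw [hf.1 y hy, hg.1 y hy, smul_zero, smul_zero, add_zero]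
  · show a • f (d • y) + b • g (d • y) = a • f y + b • g y
    rw [hf.2, hg.2]

theorem theta_lin (hO : IsOrder K O) {Θ : Ideal (𝓞 K) → k} {f g : AddSubgroup D × Set D → k}
    (hf : f ∈ thetaSet K O n H N Θ) (hg : g ∈ thetaSet K O n H N Θ) (a b : k) :
    a • f + b • g ∈ thetaSet K O n H N Θ := by
  refine ⟨hf.1.lin hg.1 a b, fun w hw hNw => ?_⟩
  obtain ⟨j₁, h₁⟩ := hf.2 w hw hNw
  obtain ⟨j₂, h₂⟩ := hg.2 w hw hNw
  have e : (fun g => hecke K O n H w g - Θ w • g) =
      (fun g => heckeLin (k := k) hO n H hw g - Θ w • g) := rfl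
  rw [e, iterate_eq_pow] at h₁ h₂
  refine ⟨j₁ + j₂, ?_⟩
  rw [e, iterate_eq_pow, map_add, map_smul, map_smul]
  have h3 : ((heckeLin (k := k) hO n H hw - algebraMap k _ (Θ w)) ^ (j₁ + j₂) :
      Module.End k (AddSubgroup D × Set D → k)) f = 0 := by
    rw [add_comm, pow_add, Module.End.mul_apply, h₁, map_zero]
  have h4 : ((heckeLin (k := k) hO n H hw - algebraMap k _ (Θ w)) ^ (j₁ + j₂) :
      Module.End k (AddSubgroup D × Set D → k)) g = 0 := by
    rw [pow_add, Module.End.mul_apply, h₂, map_zero]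
  rw [h3, h4, smul_zero, smul_zero, add_zero]

end Theta

variable {k : Type*} [Field k] {F F' : Type*} [Field F] [NumberField F] [Field F']
  [NumberField F'] [Algebra F F'] [IsGalois F F']
  {B D : Type*} [DivisionRing B] [DivisionRing D] [Algebra F B] [Algebra F' D]
  [MulSemiringAction (F' ≃ₐ[F] F') D] {O : Subring D} {n : ℕ} {H : Set D}
  {y : AddSubgroup D × Set D} {γ : (F' ≃ₐ[F] F') → Dˣ} {ι : B →+* D} {N : ℕ}

theorem heckeW_inv (hact : ∀ (σ : F' ≃ₐ[F] F') (a : F'), σ • algebraMap F' D a =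
      algebraMap F' D (σ a))
    (hOP : ∀ (σ : F' ≃ₐ[F] F'), ∀ a ∈ O, σ • a ∈ O)
    (hHP : ∀ (σ : F' ≃ₐ[F] F'), ∀ h ∈ H, σ • h ∈ H) {v : Ideal (𝓞 F)} (hv : v.IsMaximal)
    {f : AddSubgroup D × Set D → k} (hf : ∀ (σ : F' ≃ₐ[F] F') x, f (σ • x) = f x) :
    ∀ (σ : F' ≃ₐ[F] F') x,
      heckeW F' O n H (overSet_finite (F' := F') hv).toFinset f (σ • x) =
      heckeW F' O n H (overSet_finite (F' := F') hv).toFinset f x := by
  intro σ x
  rw [heckeW_gal_smul (hact_smul hact) hOP hHP σ (W := (overSet_finite (F' := F') hv).toFinset)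
    (fun w => by rw [Set.Finite.mem_toFinset, Set.Finite.mem_toFinset, overSet_smul])]
  congr 1
  funext z
  exact hf σ z

theorem over_notMem {v : Ideal (𝓞 F)} (hNv : (N : 𝓞 F) ∉ v) {w : Ideal (𝓞 F')}
    (hw : w ∈ overSet F' v) : (N : 𝓞 F') ∉ w := by
  intro h
  apply hNv
  rw [← hw.2, Ideal.mem_comap, map_natCast]
  exact h

/-- Local nilpotency of the Hecke operators of `B` on pull-backs of generalised eigenforms. -/
theorem pull_nil {p : ℕ} [Fact p.Prime] [CharP k p] (hP : IsPGroup p (F' ≃ₐ[F] F'))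
    (hdat : Datum O n H y γ ι) {H₁ : Set B} (hH₁ : SubLevel ι n y H₁)
    (hOB : IsOrder F (OB ι y.1))
    {r : ℕ} {e e' : Fin r → 𝓞 F'} {m : ℕ} {v : Ideal (𝓞 F)} (hg : Good e e' m v)
    (hnN : n ∣ N) (hNv : (N : 𝓞 F) ∉ v) (hsplit : ∀ w ∈ overSet F' v, Split F' O w)
    {Θ : Ideal (𝓞 F') → k} {f : AddSubgroup D × Set D → k} (hf : f ∈ thetaSet F' O n H N Θ)
    (hfP : ∀ (σ : F' ≃ₐ[F] F') x, f (σ • x) = f x) :
    ∃ s : ℕ, ((heckeLin hOB n H₁ hg.max - algebraMap k (Module.End k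
      (AddSubgroup B × Set B → k))
        (∏ w ∈ (overSet_finite (F' := F') hg.max).toFinset, Θ w)) ^ s :
      Module.End k (AddSubgroup B × Set B → k)) (pull k F n H₁ y ι f) = 0 := by
  set W := (overSet_finite (F' := F') hg.max).toFinset with hWdef
  have hWN : ∀ w ∈ W, w.IsMaximal ∧ (N : 𝓞 F') ∉ w := by
    intro w hw
    have hw' : w ∈ overSet F' v := (Set.Finite.mem_toFinset _).1 hw
    exact ⟨hw'.1, over_notMem hNv hw'⟩
  have hW : ∀ w ∈ W, w.IsMaximal ∧ (n : 𝓞 F') ∉ w :=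
    fun w hw => ⟨(hWN w hw).1, notMem_of_dvd hnN (hWN w hw).2⟩
  have hnv : (n : 𝓞 F) ∉ v := notMem_of_dvd hnN hNv
  have hnil := heckeW_nil hdat.hO hdat.hH W hW (fun w hw => (hW w hw).1) Θ hf.1
    (fun w hw => hf.2 w (hWN w hw).1 (hWN w hw).2)
  obtain ⟨s, hs⟩ := hnil
  refine ⟨s, ?_⟩
  set μ : k := ∏ w ∈ W, Θ w with hμ
  have key : ∀ (s : ℕ), ∀ g ∈ thetaSet F' O n H N Θ,
      (∀ (σ : F' ≃ₐ[F] F') x, g (σ • x) = g x) →
      ((heckeLin hOB n H₁ hg.max - algebraMap k (Module.End k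
        (AddSubgroup B × Set B → k)) μ) ^ s : Module.End k (AddSubgroup B × Set B → k))
        (pull k F n H₁ y ι g) =
      pull k F n H₁ y ι (((heckeWLin hdat.hO n H (fun w hw => (hW w hw).1) -
        algebraMap k (Module.End k (AddSubgroup D × Set D → k)) μ) ^ s :
        Module.End k (AddSubgroup D × Set D → k)) g) := by
    intro s
    induction s with
    | zero =>
      intro g _ _
      simp
    | succ s ih =>
      intro g hgΘ hgP
      rw [pow_succ, pow_succ, Module.End.mul_apply, Module.End.mul_apply]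
      have h1 : (heckeLin hOB n H₁ hg.max - algebraMap k (Module.End k
          (AddSubgroup B × Set B → k)) μ : Module.End k (AddSubgroup B × Set B → k))
          (pull k F n H₁ y ι g) =
          pull k F n H₁ y ι ((heckeWLin hdat.hO n H (fun w hw => (hW w hw).1) -
            algebraMap k (Module.End k (AddSubgroup D × Set D → k)) μ :
            Module.End k (AddSubgroup D × Set D → k)) g) := by
        rw [LinearMap.sub_apply, LinearMap.sub_apply, map_sub, heckeLin_apply,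
          hecke_pull hP hdat hH₁ hg hnv hsplit hgΘ.1 hgP,
          Module.algebraMap_end_apply, Module.algebraMap_end_apply, map_smul]
        rfl
      have h2 : (heckeWLin hdat.hO n H (fun w hw => (hW w hw).1) -
            algebraMap k (Module.End k (AddSubgroup D × Set D → k)) μ :
            Module.End k (AddSubgroup D × Set D → k)) g =
          (1 : k) • heckeW F' O n H W g + (-μ) • g := by
        rw [LinearMap.sub_apply, Module.algebraMap_end_apply, heckeWLin_apply, one_smul,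
          neg_smul, sub_eq_add_neg]
      rw [h1, ih]
      · rw [h2]
        exact theta_lin hdat.hO (heckeW_mem_theta hdat.hO hdat.hH hnN hWN hgΘ) hgΘ 1 (-μ)
      · intro σ x
        rw [h2]
        show (1 : k) • heckeW F' O n H W g (σ • x) + (-μ) • g (σ • x) =
          (1 : k) • heckeW F' O n H W g x + (-μ) • g x
        rw [hgP, heckeW_inv hdat.hact hdat.hOP hdat.hHP hg.max hgP]
  rw [key s f hf hfP, hs, map_zero]

/-- The index set of the Hecke operators at the maximal ideals prime to `N`. -/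
abbrev IdxN (K : Type*) [Field K] [NumberField K] (N : ℕ) : Type _ :=
  {w : Ideal (𝓞 K) // w.IsMaximal ∧ (N : 𝓞 K) ∉ w}

/-- The family of Hecke operators at the maximal ideals prime to `N`. -/
noncomputable def heckeFam (k : Type*) [Field k] {K : Type*} [Field K] [NumberField K]
    {D : Type*} [DivisionRing D] [Algebra K D] {O : Subring D} (hO : IsOrder K O) (n : ℕ)
    (H : Set D) (N : ℕ) (i : IdxN K N) : Module.End k (AddSubgroup D × Set D → k) :=
  heckeLin hO n H i.2.1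

theorem thetaSet_eq (k : Type*) [Field k] {K : Type*} [Field K] [NumberField K]
    {D : Type*} [DivisionRing D] [Algebra K D] {O : Subring D} (hO : IsOrder K O) (n : ℕ)
    (H : Set D) (N : ℕ) (Θ : Ideal (𝓞 K) → k) :
    thetaSet K O n H N Θ =
      absEigen Dˣ {y | IsPair K O n H y} (heckeFam k hO n H N) (fun i => Θ i.1) := by
  ext f
  constructor
  · rintro ⟨h1, h2⟩
    exact ⟨h1, fun i => h2 i.1 i.2.1 i.2.2⟩
  · rintro ⟨h1, h2⟩
    exact ⟨h1, fun w hw hNw => h2 ⟨w, hw, hNw⟩⟩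

/-- The invariant generalised eigenforms, as a submodule. -/
def thetaInv (P : Type*) [Group P] {K : Type*} [Field K] [NumberField K] {D : Type*}
    [DivisionRing D] [Algebra K D] [MulSemiringAction P D] {k : Type*} [Field k] {O : Subring D}
    (hO : IsOrder K O) (n : ℕ) (H : Set D) (N : ℕ) (Θ : Ideal (𝓞 K) → k) :
    Submodule k (AddSubgroup D × Set D → k) where
  carrier := {f | f ∈ thetaSet K O n H N Θ ∧ ∀ (σ : P) x, f (σ • x) = f x}
  add_mem' := by
    rintro f g ⟨hf, hfP⟩ ⟨hg, hgP⟩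
    refine ⟨?_, fun σ x => ?_⟩
    · have h := theta_lin hO hf hg 1 1
      rwa [one_smul, one_smul] at h
    · show f (σ • x) + g (σ • x) = f x + g x
      rw [hfP, hgP]
  zero_mem' := by
    refine ⟨⟨⟨fun y _ => rfl, fun d y => rfl⟩, fun w hw hNw => ⟨0, rfl⟩⟩, fun σ x => rfl⟩
  smul_mem' := by
    rintro c f ⟨hf, hfP⟩
    refine ⟨?_, fun σ x => ?_⟩
    · have h := theta_lin hO hf hf c 0
      rwa [zero_smul, add_zero] at h
    · show c • f (σ • x) = c • f x
      rw [hfP]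

theorem thetaInv_finite (P : Type*) [Group P] {K : Type*} [Field K] [NumberField K] {D : Type*}
    [DivisionRing D] [Algebra K D] [FiniteDimensional K D] [MulSemiringAction P D] {k : Type*}
    [Field k] {O : Subring D}
    (hO : IsOrder K O) {n : ℕ} (hn : n ≠ 0) {H : Set D} (hH : IsLevel O n H) (N : ℕ)
    (Θ : Ideal (𝓞 K) → k) : FiniteDimensional k (thetaInv P hO n H N Θ) := by
  have h := (absEigen_submodule (G := Dˣ) {y | IsPair K O n H y} (finite_classes hO hn hH)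
    (heckeFam k hO n H N) (fun i => Θ i.1)).2
  refine Submodule.finiteDimensional_of_le (S₂ := Submodule.span k
    (absEigen Dˣ {y | IsPair K O n H y} (heckeFam k hO n H N) (fun i => Θ i.1))) ?_
  intro f hf
  apply Submodule.subset_span
  rw [← thetaSet_eq]
  exact hf.1

/-- The forward direction: an invariant generalised eigenform which does not vanish at `y` gives
an eigenform on `B`. -/
theorem exists_eigenform {p : ℕ} [Fact p.Prime] [CharP k p] [PerfectField k]
    (hP : IsPGroup p (F' ≃ₐ[F] F')) (hdat : Datum O n H y γ ι) {H₁ : Set B}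
    (hH₁ : SubLevel ι n y H₁) [FiniteDimensional F' D]
    {r : ℕ} {e e' : Fin r → 𝓞 F'} {m : ℕ} (cas1 : ∑ i, e i * e' i = (m : 𝓞 F'))
    (cas : ∀ σ : F' ≃ₐ[F] F', σ ≠ 1 → ∑ i, e i * σ • e' i = 0)
    (hmN : m ∣ N) (hnN : n ∣ N)
    (hsplit : ∀ w : Ideal (𝓞 F'), w.IsMaximal → (N : 𝓞 F') ∉ w → Split F' O w)
    {Θ : Ideal (𝓞 F') → k} {c : Ideal (𝓞 F) → k}
    (hΘ : ∀ v : Ideal (𝓞 F), v.IsMaximal → (N : 𝓞 F) ∉ v → ∃ f₀ : ℕ,
      f₀ * (overSet F' v).ncard = Nat.card (F' ≃ₐ[F] F') ∧ ∀ w ∈ overSet F' v, Θ w = c v ^ f₀)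
    {f : AddSubgroup D × Set D → k} (hf : f ∈ thetaSet F' O n H N Θ)
    (hfP : ∀ (σ : F' ≃ₐ[F] F') x, f (σ • x) = f x) (hfy : f y ≠ 0) :
    ∃ g : AddSubgroup B × Set B → k, IsForm F (OB ι y.1) n H₁ g ∧ g ≠ 0 ∧
      ∀ v : Ideal (𝓞 F), v.IsMaximal → (N : 𝓞 F) ∉ v →
        hecke F (OB ι y.1) n H₁ v g = c v • g := by
  classical
  have hOB : IsOrder F (OB ι y.1) := hdat.isOrder
  have hgood : ∀ v : Ideal (𝓞 F), v.IsMaximal → (N : 𝓞 F) ∉ v → Good e e' m v :=
    fun v hv hv' => ⟨hv, cas1, cas, notMem_of_dvd hmN hv'⟩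
  have hsplit' : ∀ v : Ideal (𝓞 F), (N : 𝓞 F) ∉ v →
      ∀ w ∈ overSet F' v, Split F' O w := fun v hv' w hw =>
    hsplit w hw.1 (over_notMem hv' hw)
  have hfd := thetaInv_finite (F' ≃ₐ[F] F') hdat.hO hdat.hn hdat.hH N Θ
  set EP := thetaInv (F' ≃ₐ[F] F') hdat.hO n H N Θ with hEPdef
  have hEPmem : ∀ g, g ∈ EP ↔ g ∈ thetaSet F' O n H N Θ ∧
    ∀ (σ : F' ≃ₐ[F] F') x, g (σ • x) = g x := fun g => Iff.rfl
  let TB : IdxN F N → Module.End k (AddSubgroup B × Set B → k) := heckeFam k hOB n H₁ N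
  let μ : IdxN F N → k := fun j => c j.1 ^ Nat.card (F' ≃ₐ[F] F')
  set V : Submodule k (AddSubgroup B × Set B → k) := EP.map (pull k F n H₁ y ι) with hVdef
  have hfEP : f ∈ EP := ⟨hf, hfP⟩
  have hVne : V ≠ ⊥ := by
    intro h0
    have h1 : pull k F n H₁ y ι f ∈ V := Submodule.mem_map_of_mem hfEP
    rw [h0, Submodule.mem_bot] at h1
    have h2 := congrFun h1 ((OB ι y.1).toAddSubgroup, H₁)
    rw [pull_pos (hdat.base_pair hH₁).1, (hdat.base_pair hH₁).2] at h2
    exact hfy h2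
  obtain ⟨g, hgV, hg0, hgeig⟩ := exists_common_eigenvector V hVne TB μ
    (by
      rintro j _ ⟨g, hg, rfl⟩
      have hgj := hgood j.1 j.2.1 j.2.2
      have hgE := (hEPmem g).1 hg
      have h1 : TB j (pull k F n H₁ y ι g) = pull k F n H₁ y ι
          (heckeW F' O n H (overSet_finite (F' := F') hgj.max).toFinset g) :=
        hecke_pull hP hdat hH₁ hgj (notMem_of_dvd hnN j.2.2) (hsplit' j.1 j.2.2) hgE.1.1 hgE.2
      rw [h1]
      apply Submodule.mem_map_of_mem
      refine (hEPmem _).2 ⟨heckeW_mem_theta hdat.hO hdat.hH hnN ?_ hgE.1,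
        heckeW_inv hdat.hact hdat.hOP hdat.hHP hgj.max hgE.2⟩
      intro w hw
      have hw' : w ∈ overSet F' j.1 := (Set.Finite.mem_toFinset _).1 hw
      exact ⟨hw'.1, over_notMem j.2.2 hw'⟩)
    (by
      intro i j g _
      exact hecke_comm hOB hH₁.lev i.2.1 j.2.1 (notMem_of_dvd hnN i.2.2)
        (notMem_of_dvd hnN j.2.2) g)
    (by
      rintro j _ ⟨g, hg, rfl⟩
      have hgE := (hEPmem g).1 hg
      have hgj := hgood j.1 j.2.1 j.2.2
      obtain ⟨s, hs⟩ := pull_nil hP hdat hH₁ hOB hgj hnN j.2.2 (hsplit' j.1 j.2.2) hgE.1 hgE.2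
      refine ⟨s, ?_⟩
      obtain ⟨f₀, hf₀, hΘv⟩ := hΘ j.1 j.2.1 j.2.2
      have hprod : (∏ w ∈ (overSet_finite (F' := F') hgj.max).toFinset, Θ w) = μ j := by
        rw [Finset.prod_congr rfl (fun w hw => hΘv w ((Set.Finite.mem_toFinset _).1 hw)),
          Finset.prod_const, ← pow_mul, ← Set.ncard_eq_toFinset_card _ _, hf₀]
      rw [hprod] at hs
      exact hs)
  have hgform : IsForm F (OB ι y.1) n H₁ g := by
    obtain ⟨g', hg', rfl⟩ := hgV
    exact isForm_pull hdat ((hEPmem g').1 hg').1.1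
  -- untwist by Frobenius
  obtain ⟨s, hs⟩ := hP.exists_card_eq
  have : PerfectRing k p := PerfectField.toPerfectRing p
  set τ : k ≃+* k := (iterateFrobeniusEquiv k p s).symm with hτdef
  refine ⟨fun b => τ (g b), ?_, ?_, ?_⟩
  · refine ⟨fun b hb => ?_, fun u b => ?_⟩
    · show τ (g b) = 0
      rw [hgform.1 b hb, map_zero]
    · show τ (g (u • b)) = τ (g b)
      rw [hgform.2 u b]
  · intro h
    apply hg0
    funext b
    have h1 := congrFun h b
    exact (map_eq_zero_iff τ τ.injective).1 h1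
  · intro v hv hv'
    have h1 := hgeig ⟨v, hv, hv'⟩
    funext b
    have h2 := congrFun h1 b
    have h3 : hecke F (OB ι y.1) n H₁ v (fun b => τ (g b)) b =
        τ (hecke F (OB ι y.1) n H₁ v g b) := by
      unfold hecke
      exact ((τ : k →+* k).toAddMonoidHom.map_finsum_mem (s :=
        {b₁ | Nb F (OB ι y.1) n H₁ v b b₁}) g (nb_finite hOB hv b)).symm
    rw [h3]
    have h4 : hecke F (OB ι y.1) n H₁ v g b = c v ^ (p ^ s) * g b := by
      rw [← hs]
      exact h2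
    rw [h4, map_mul]
    show τ (c v ^ (p ^ s)) * τ (g b) = c v * τ (g b)
    congr 1
    rw [hτdef, RingEquiv.symm_apply_eq, iterateFrobeniusEquiv_def]

end Pool.Agent.Helper93.WS
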