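import Pool.Agent.Helper93.WS.Twist
import Pool.Agent.Helper93.WS.Cas
import Pool.Agent.Helper93.WS.JM
import Pool.Agent.Helper93.WS.Defs3

/-!
# The descent datum for an arbitrary choice of the units and of the fixed ring
-/

open scoped Pointwise NumberField TensorProduct

namespace Pool.Agent.Helper93.WS

section Aux

variable {P E : Type*} [Group P] [Ring E] [MulSemiringAction P E]

/-- The action of `σ` on a unit. -/
private def galU (σ : P) (d : Eˣ) : Eˣ :=
  Units.map (MulSemiringAction.toRingHom P E σ : E →* E) d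

private theorem galU_val (σ : P) (d : Eˣ) : (galU σ d : E) = σ • (d : E) := rfl

private theorem galU_smul_elt (σ : P) (d : Eˣ) (x : E) :
    σ • (d • x) = galU σ d • (σ • x) := by
  rw [Units.smul_def, Units.smul_def, galU_val, smul_eq_mul, smul_eq_mul, smul_mul']

private theorem galU_smul (σ : P) (d : Eˣ) (z : AddSubgroup E × Set E) :
    σ • (d • z) = galU σ d • (σ • z) := by
  apply Prod.ext
  · change σ • (d • z.1) = galU σ d • (σ • z.1)
    ext x
    simp only [AddSubgroup.mem_smul_pointwise_iff_exists]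
    constructor
    · rintro ⟨_, ⟨s, hs, rfl⟩, rfl⟩
      exact ⟨σ • s, ⟨s, hs, rfl⟩, (galU_smul_elt σ d s).symm⟩
    · rintro ⟨_, ⟨s, hs, rfl⟩, rfl⟩
      exact ⟨d • s, ⟨s, hs, rfl⟩, galU_smul_elt σ d s⟩
  · change σ • (d • z.2) = galU σ d • (σ • z.2)
    ext x
    simp only [Set.mem_smul_set]
    constructor
    · rintro ⟨_, ⟨s, hs, rfl⟩, rfl⟩
      exact ⟨σ • s, ⟨s, hs, rfl⟩, (galU_smul_elt σ d s).symm⟩
    · rintro ⟨_, ⟨s, hs, rfl⟩, rfl⟩
      exact ⟨d • s, ⟨s, hs, rfl⟩, galU_smul_elt σ d s⟩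

private theorem galU_inv (σ : P) (d : Eˣ) : galU σ d⁻¹ = (galU σ d)⁻¹ := by
  rw [galU, galU, map_inv]

end Aux

variable {F F' : Type*} [Field F] [NumberField F] [Field F'] [NumberField F'] [Algebra F F']
  {B D : Type*} [DivisionRing B] [DivisionRing D] [Algebra F B] [Algebra F' D]
  [MulSemiringAction (F' ≃ₐ[F] F') D] {O : Subring D} {n : ℕ} {H : Set D}
  {y : AddSubgroup D × Set D} {γ : (F' ≃ₐ[F] F') → Dˣ} {ι : B →+* D}

theorem IsTwistedForm.datum
    (hact : ∀ (σ : F' ≃ₐ[F] F') (a : F'), σ • algebraMap F' D a = algebraMap F' D (σ a))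
    (hO : IsOrder F' O) (hOP : ∀ (σ : F' ≃ₐ[F] F'), ∀ a ∈ O, σ • a ∈ O)
    (hn : n ≠ 0) (hH : IsLevel O n H) (hHP : ∀ (σ : F' ≃ₐ[F] F'), ∀ h ∈ H, σ • h ∈ H)
    (hsmall : ∀ y, IsPair F' O n H y → ∀ d : Dˣ, d • y = y → ∃ a : F', (d : D) = algebraMap F' D a)
    (h : IsTwistedForm O n H y γ ι) : Datum O n H y γ ι := by
  have hy := h.pair
  have hγ := h.fixed
  have hact' : ∀ (σ : F' ≃ₐ[F] F') (a : F'), σ • algebraMap F' D a = algebraMap F' D (σ • a) :=
    fun σ a => hact σ a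
  -- the unit `γ 1`
  have h1y : γ 1 • y = y := by rw [← hγ 1, one_smul]
  -- the defect units
  have key : ∀ σ τ : F' ≃ₐ[F] F',
      ((γ (σ * τ))⁻¹ * (galU σ (γ τ) * γ σ)) • y = y := by
    intro σ τ
    have e1 : (σ * τ) • y = (galU σ (γ τ) * γ σ) • y := by
      rw [mul_smul σ τ y, hγ τ, galU_smul, hγ σ, ← mul_smul]
    rw [mul_smul, ← e1, hγ (σ * τ), inv_smul_smul]
  have hfixall : ∀ σ τ : F' ≃ₐ[F] F', ∀ z, IsPair F' O n H z →
      ((γ (σ * τ))⁻¹ * (galU σ (γ τ) * γ σ)) • z = z := by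
    intro σ τ
    obtain ⟨a, ha⟩ := hsmall y hy _ (key σ τ)
    exact central_fixes hO hn hH hy ha (key σ τ)
  refine
    { hact := hact
      hO := hO
      hOP := hOP
      hn := hn
      hH := hH
      hHP := hHP
      hy := hy
      hγ := hγ
      hγ1 := ?_
      hγmul := ?_
      hι := h.scalars
      hB := h.range
      hcen1 := hsmall y hy _ h1y
      hcen := ?_ }
  · obtain ⟨a, ha⟩ := hsmall y hy _ h1y
    exact central_fixes hO hn hH hy ha h1y
  · intro σ τ z hz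
    have hz1 : IsPair F' O n H ((σ * τ) • z) :=
      (isPair_gal_smul hact' hOP hHP (σ * τ)).2 hz
    have hz2 : IsPair F' O n H ((γ (σ * τ))⁻¹ • (σ * τ) • z) :=
      (isPair_units_smul _).2 hz1
    -- right hand side
    have e1 : (γ σ)⁻¹ • σ • (γ τ)⁻¹ • τ • z =
        ((galU σ (γ τ) * γ σ))⁻¹ • ((σ * τ) • z) := by
      rw [galU_smul, galU_inv, ← mul_smul, ← mul_inv_rev, ← mul_smul σ τ z]
    rw [e1]
    have e2 := hfixall σ τ _ hz2
    have e3 : (galU σ (γ τ) * γ σ)⁻¹ • (σ * τ) • z =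
        ((γ (σ * τ))⁻¹ * (galU σ (γ τ) * γ σ))⁻¹ • ((γ (σ * τ))⁻¹ • (σ * τ) • z) := by
      rw [← mul_smul, mul_inv_rev ((γ (σ * τ))⁻¹), inv_inv, mul_assoc, mul_inv_cancel, mul_one]
    rw [e3, eq_comm, inv_smul_eq_iff, e2]
  · intro σ τ
    obtain ⟨a, ha⟩ := hsmall y hy _ (key σ τ)
    have hne : a ≠ 0 := by
      rintro rfl
      rw [map_zero] at ha
      exact Units.ne_zero _ ha
    refine ⟨a⁻¹, ?_⟩
    have e1 : (galU σ (γ τ) : D) * (γ σ : D) = (γ (σ * τ) : D) * algebraMap F' D a := by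
      rw [← ha, ← Units.val_mul, ← Units.val_mul, mul_inv_cancel_left]
    rw [galU_val] at e1
    rw [e1, mul_assoc, ← map_mul, mul_inv_cancel₀ hne, map_one, mul_one]

/-- `B` is an `F`-form of `D`. -/
theorem Datum.form [IsGalois F F'] (hdat : Datum O n H y γ ι) :
    Nonempty ((F' ⊗[F] B) ≃ₐ[F'] D) := by
  let _ := algFix hdat.hact γ
  obtain ⟨Φ⟩ := descent_form hdat.hact γ hdat.hcen1 hdat.hcen
  have hmem : ∀ b : B, ι b ∈ twFix γ := fun b => (hdat.hB (ι b)).1 ⟨b, rfl⟩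
  let g : B →ₐ[F] twFix γ :=
    { (ι.codRestrict (twFix γ) hmem) with
      commutes' := fun a => Subtype.ext (hdat.hι a) }
  have hg : ∀ b, ((g b : twFix γ) : D) = ι b := fun _ => rfl
  have hbij : Function.Bijective g := by
    constructor
    · intro a b hab
      apply ι.injective
      rw [← hg, ← hg, hab]
    · rintro ⟨d, hd⟩
      obtain ⟨b, hb⟩ := (hdat.hB d).2 hd
      exact ⟨b, Subtype.ext hb⟩
  exact ⟨(Algebra.TensorProduct.congr (AlgEquiv.refl : F' ≃ₐ[F'] F')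
    (AlgEquiv.ofBijective g hbij)).trans Φ⟩

theorem Datum.finiteDimensional [IsGalois F F'] [FiniteDimensional F' D]
    (hdat : Datum O n H y γ ι) : FiniteDimensional F B := by
  let _ : Algebra F D := Algebra.compHom D (algebraMap F F')
  have _ : IsScalarTower F F' D := IsScalarTower.of_algebraMap_eq (fun _ => rfl)
  have hfin : FiniteDimensional F F' := inferInstance
  have _ : FiniteDimensional F D := Module.Finite.trans F' D
  let g : B →ₐ[F] D :=
    { ι with
      commutes' := fun a => hdat.hι a }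
  exact FiniteDimensional.of_injective g.toLinearMap ι.injective

end Pool.Agent.Helper93.WS
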