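import Pool.Agent.Helper93.WS.Main3
import Pool.Agent.Helper93.WS.Amb3
import Pool.Agent.Helper93.WS.Ext
import Pool.Agent.Helper93.WS.AbsConv
import Pool.Agent.Helper93.WS.Twist2

/-!
# The backward direction: an eigenform on `B` gives an invariant generalised eigenform on `D`
which is not a sum of proper traces
-/

open scoped Pointwise NumberField

namespace Pool.Agent.Helper93.WS

section Idx

variable {F F' : Type*} [Field F] [NumberField F] [Field F'] [NumberField F'] [Algebra F F']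
  {N : ℕ}

theorem idx_smul (σ : F' ≃ₐ[F] F') {w : Ideal (𝓞 F')} (hw : w.IsMaximal ∧ (N : 𝓞 F') ∉ w) :
    (σ • w).IsMaximal ∧ (N : 𝓞 F') ∉ σ • w := by
  have h1 : w ∈ overSet F' (w.comap (algebraMap (𝓞 F) (𝓞 F'))) := ⟨hw.1, rfl⟩
  have h2 : σ • w ∈ overSet F' (w.comap (algebraMap (𝓞 F) (𝓞 F'))) := (overSet_smul σ).2 h1
  refine ⟨h2.1, fun h3 => hw.2 ?_⟩
  have h4 : (N : 𝓞 F) ∈ (σ • w).comap (algebraMap (𝓞 F) (𝓞 F')) := by
    rw [Ideal.mem_comap, map_natCast]
    exact h3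
  rw [h2.2, Ideal.mem_comap, map_natCast] at h4
  exact h4

/-- The Galois group acts on the maximal ideals prime to `N`. -/
@[reducible] def idxAction (F F' : Type*) [Field F] [NumberField F] [Field F'] [NumberField F']
    [Algebra F F'] (N : ℕ) : MulAction (F' ≃ₐ[F] F') (IdxN F' N) where
  smul σ i := ⟨σ • i.1, idx_smul σ i.2⟩
  one_smul i := Subtype.ext (one_smul (F' ≃ₐ[F] F') i.1)
  mul_smul σ τ i := Subtype.ext (mul_smul σ τ i.1)

end Idx

variable {k : Type*} [Field k] {F F' : Type*} [Field F] [NumberField F] [Field F']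
  [NumberField F'] [Algebra F F'] [IsGalois F F']
  {B D : Type*} [DivisionRing B] [DivisionRing D] [Algebra F B] [Algebra F' D]
  [MulSemiringAction (F' ≃ₐ[F] F') D] {O : Subring D} {n : ℕ} {H : Set D}
  {y : AddSubgroup D × Set D} {γ : (F' ≃ₐ[F] F') → Dˣ} {ι : B →+* D} {N : ℕ}

theorem exists_theta_of_eigenform {p : ℕ} [Fact p.Prime] [CharP k p] [IsAlgClosed k]
    (hP : IsPGroup p (F' ≃ₐ[F] F')) (hdat : Datum O n H y γ ι)
    (hsmall : ∀ y, IsPair F' O n H y → ∀ d : Dˣ, d • y = y → ∃ a : F', (d : D) = algebraMap F' D a)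
    [FiniteDimensional F' D]
    {r : ℕ} {e e' : Fin r → 𝓞 F'} {m : ℕ} (cas1 : ∑ i, e i * e' i = (m : 𝓞 F'))
    (cas : ∀ σ : F' ≃ₐ[F] F', σ ≠ 1 → ∑ i, e i * σ • e' i = 0)
    (hmN : m ∣ N) (hnN : n ∣ N)
    (hsplit : ∀ w : Ideal (𝓞 F'), w.IsMaximal → (N : 𝓞 F') ∉ w → Split F' O w)
    {Θ : Ideal (𝓞 F') → k} {c : Ideal (𝓞 F) → k}
    (hΘ : ∀ v : Ideal (𝓞 F), v.IsMaximal → (N : 𝓞 F) ∉ v → ∃ f₀ : ℕ,
      f₀ * (overSet F' v).ncard = Nat.card (F' ≃ₐ[F] F') ∧ ∀ w ∈ overSet F' v, Θ w = c v ^ f₀)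
    {g : AddSubgroup B × Set B → k} (hg : IsForm F (OB ι y.1) n (HB ι y) g) (hg0 : g ≠ 0)
    (hgeig : ∀ v : Ideal (𝓞 F), v.IsMaximal → (N : 𝓞 F) ∉ v →
        hecke F (OB ι y.1) n (HB ι y) v g = c v • g) :
    ∃ f ∈ thetaSet F' O n H N Θ, (∀ (σ : F' ≃ₐ[F] F') x, f (σ • x) = f x) ∧
      f ∉ properTraces (F' ≃ₐ[F] F') (Submodule.span k (thetaSet F' O n H N Θ)) := by
  classical
  have hOB : IsOrder F (OB ι y.1) := hdat.isOrder
  have hHB : SubLevel ι n y (HB ι y) := hdat.subLevel_HB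
  have hfdB : FiniteDimensional F B := hdat.finiteDimensional
  have hgood : ∀ v : Ideal (𝓞 F), v.IsMaximal → (N : 𝓞 F) ∉ v → Good e e' m v :=
    fun v hv hv' => ⟨hv, cas1, cas, notMem_of_dvd hmN hv'⟩
  have hsplit' : ∀ v : Ideal (𝓞 F), (N : 𝓞 F) ∉ v →
      ∀ w ∈ overSet F' v, Split F' O w := fun v hv' w hw =>
    hsplit w hw.1 (over_notMem hv' hw)
  obtain ⟨s, hs⟩ := hP.exists_card_eq
  -- twist by Frobenius
  let τ : k →+* k := iterateFrobenius k p s
  have hτ : ∀ x, τ x = x ^ (p ^ s) := fun x => iterateFrobenius_def p s x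
  let g₁ : AddSubgroup B × Set B → k := fun b => τ (g b)
  have hg₁ : IsForm F (OB ι y.1) n (HB ι y) g₁ := by
    refine ⟨fun b hb => ?_, fun u b => ?_⟩
    · show τ (g b) = 0
      rw [hg.1 b hb, map_zero]
    · show τ (g (u • b)) = τ (g b)
      rw [hg.2 u b]
  have hg₁0 : g₁ ≠ 0 := by
    intro h
    apply hg0
    funext b
    have h1 := congrFun h b
    exact (map_eq_zero_iff τ τ.injective).1 h1
  have hg₁eig : ∀ v : Ideal (𝓞 F), v.IsMaximal → (N : 𝓞 F) ∉ v →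
      hecke F (OB ι y.1) n (HB ι y) v g₁ = (c v ^ (p ^ s)) • g₁ := by
    intro v hv hv'
    funext b
    have h2 := congrFun (hgeig v hv hv') b
    have h3 : hecke F (OB ι y.1) n (HB ι y) v g₁ b =
        τ (hecke F (OB ι y.1) n (HB ι y) v g b) := by
      unfold hecke
      exact (τ.toAddMonoidHom.map_finsum_mem (s :=
        {b₁ | Nb F (OB ι y.1) n (HB ι y) v b b₁}) g (nb_finite hOB hv b)).symm
    rw [h3, h2]
    show τ (c v * g b) = c v ^ (p ^ s) * τ (g b)
    rw [map_mul, hτ (c v)]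
  obtain ⟨g₂, hg₂, hg₂0, hg₂eig, hg₂inv⟩ := exists_amb_invariant hP hdat
    {v : Ideal (𝓞 F) | v.IsMaximal ∧ (N : 𝓞 F) ∉ v}
    (fun v hv => ⟨hv.1, notMem_of_dvd hnN hv.2⟩) (fun v => c v ^ (p ^ s)) hg₁ hg₁0
    (fun v hv => hg₁eig v hv.1 hv.2)
  obtain ⟨f₁, hf₁, hf₁P, hf₁g⟩ := exists_extension hdat hsmall hg₂ hg₂inv
  -- the abstract converse
  letI := idxAction F F' N
  have hsmul : ∀ (σ : F' ≃ₐ[F] F') (i : IdxN F' N), (σ • i).1 = σ • i.1 := fun σ i => rfl
  let W : IdxN F N → Finset (IdxN F' N) := fun j =>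
    ((overSet_finite (F' := F') j.2.1).toFinset).subtype _
  have hWprod : ∀ (j : IdxN F N) (Ψ : Ideal (𝓞 F') → k),
      ∏ i ∈ W j, Ψ i.1 = ∏ w ∈ (overSet_finite (F' := F') j.2.1).toFinset, Ψ w := by
    intro j Ψ
    refine Finset.prod_subtype_of_mem _ ?_
    intro w hw
    have hw' : w ∈ overSet F' j.1 := (Set.Finite.mem_toFinset _).1 hw
    exact ⟨hw'.1, over_notMem j.2.2 hw'⟩
  obtain ⟨f, hf, hfP, hf0⟩ := abs_converse (G := Dˣ) hP {y | IsPair F' O n H y}
    (fun g x => isPair_units_smul g)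
    (fun σ x => isPair_gal_smul (hact_smul hdat.hact) hdat.hOP hdat.hHP σ)
    (fun σ g => ⟨_, fun x => gal_units_smul_pair σ g x⟩)
    (finite_classes hdat.hO hdat.hn hdat.hH)
    (heckeFam k hdat.hO n H N)
    (fun i f hf => IsForm.hecke i.1 hf)
    (fun i j f => hecke_comm hdat.hO hdat.hH i.2.1 j.2.1 (notMem_of_dvd hnN i.2.2)
      (notMem_of_dvd hnN j.2.2) f)
    (fun σ i f x => hecke_gal_smul (hact_smul hdat.hact) hdat.hOP hdat.hHP σ i.1 f x)
    (pull k F n (HB ι y) y ι)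
    (by
      intro f hf hfP hf0
      funext b
      by_cases hb : IsPair F (OB ι y.1) n (HB ι y) b
      · rw [pull_pos hb]
        exact hf0 _ (hdat.isPair_jmap hHB hb) (fun σ => ⟨γ σ, hdat.jmap_fixed b σ⟩)
      · exact pull_neg hb f)
    (heckeFam k hOB n (HB ι y) N)
    (by
      intro i j
      apply LinearMap.ext
      intro g
      exact hecke_comm hOB hHB.lev i.2.1 j.2.1 (notMem_of_dvd hnN i.2.2)
        (notMem_of_dvd hnN j.2.2) g)
    W (fun j => c j.1 ^ (p ^ s))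
    (by
      intro j χ f hf hfP
      let Ψ : Ideal (𝓞 F') → k := fun w =>
        if h : w.IsMaximal ∧ (N : 𝓞 F') ∉ w then χ ⟨w, h⟩ else 0
      have hΨ : (fun i : IdxN F' N => Ψ i.1) = χ := by
        funext i
        exact dif_pos i.2
      have hfΨ : f ∈ thetaSet F' O n H N Ψ := by
        rw [thetaSet_eq k hdat.hO, hΨ]
        exact hf
      have hgj := hgood j.1 j.2.1 j.2.2
      obtain ⟨t, ht⟩ := pull_nil hP hdat hHB hOB hgj hnN j.2.2 (hsplit' j.1 j.2.2) hfΨ hfP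
      refine ⟨t, ?_⟩
      have h1 : ∏ i ∈ W j, χ i = ∏ w ∈ (overSet_finite (F' := F') j.2.1).toFinset, Ψ w := by
        rw [← hWprod j Ψ, ← hΨ]
      rw [h1]
      exact ht)
    f₁ hf₁ hf₁P (by rw [hf₁g]; exact hg₂0)
    (by
      intro j
      rw [hf₁g]
      exact hg₂eig j.1 j.2)
    (fun i => Θ i.1)
    (by
      intro χ hχP hχ
      funext i
      set v : Ideal (𝓞 F) := i.1.comap (algebraMap (𝓞 F) (𝓞 F')) with hvdef
      have hw : i.1 ∈ overSet F' v := ⟨i.2.1, rfl⟩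
      have hv : v.IsMaximal := by
        have := i.2.1
        exact Ideal.isMaximal_comap_of_isIntegral_of_isMaximal i.1
      have hNv : (N : 𝓞 F) ∉ v := by
        intro h
        rw [hvdef, Ideal.mem_comap, map_natCast] at h
        exact i.2.2 h
      have h1 := hχ ⟨v, hv, hNv⟩
      have h2 : ∀ i' ∈ W ⟨v, hv, hNv⟩, χ i' = χ i := by
        intro i' hi'
        have h3 : i'.1 ∈ overSet F' v :=
          (Set.Finite.mem_toFinset _).1 (Finset.mem_subtype.1 hi')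
        obtain ⟨σ, hσ⟩ := overSet_transitive hw h3
        have h4 : i' = σ • i := Subtype.ext hσ
        rw [h4]
        exact hχP σ i
      rw [Finset.prod_congr rfl h2, Finset.prod_const] at h1
      have hcard : (W ⟨v, hv, hNv⟩).card = (overSet F' v).ncard := by
        rw [Set.ncard_eq_toFinset_card _ (overSet_finite (F' := F') hv), Finset.card_subtype,
          Finset.filter_true_of_mem]
        intro w hw
        have hw' : w ∈ overSet F' v := (Set.Finite.mem_toFinset _).1 hw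
        exact ⟨hw'.1, over_notMem hNv hw'⟩
      obtain ⟨f₀, hf₀, hΘv⟩ := hΘ v hv hNv
      rw [hcard] at h1
      have h5 : Θ i.1 ^ (overSet F' v).ncard = c v ^ (p ^ s) := by
        rw [hΘv _ hw, ← pow_mul, hf₀, hs]
      obtain ⟨t, _, ht⟩ := (Nat.dvd_prime_pow (Fact.out : p.Prime)).1
        (⟨f₀, by rw [← hs, ← hf₀, mul_comm]⟩ : (overSet F' v).ncard ∣ p ^ s)
      have h6 : χ i ^ (p ^ t) = Θ i.1 ^ (p ^ t) := by
        rw [← ht]
        exact h1.trans h5.symm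
      exact iterateFrobenius_inj k p t (by
        rw [iterateFrobenius_def, iterateFrobenius_def]
        exact h6))
  refine ⟨f, ?_, hfP, ?_⟩
  · rw [thetaSet_eq k hdat.hO]
    exact hf
  · intro hmem
    apply hf0
    funext b
    by_cases hb : IsPair F (OB ι y.1) n (HB ι y) b
    · rw [pull_pos hb]
      refine properTraces_vanish (G := Dˣ) hP _ ?_ hmem (fun σ => ⟨γ σ, hdat.jmap_fixed b σ⟩)
      intro f' hf' d x
      rw [thetaSet_eq k hdat.hO] at hf'
      exact ((absEigen_submodule (G := Dˣ) {y | IsPair F' O n H y}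
        (finite_classes hdat.hO hdat.hn hdat.hH) (heckeFam k hdat.hO n H N)
        (fun i => Θ i.1)).1 f' hf').1.2 d x
    · exact pull_neg hb f

end Pool.Agent.Helper93.WS
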