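import Pool.Agent.Helper93.WS.BijA
import Pool.Agent.Helper93.WS.BijB1

/-!
# The order of `B` at a good prime

At a good prime `v` the order `OB ι y.1` of `B`, modulo `v`, is the algebra of 2 by 2 matrices
over the residue field of `v`: it is a form of the algebra of 2 by 2 matrices over the residue
field of a prime `w` over `v`, and finite fields have no Brauer group.
-/

open scoped Pointwise NumberField
namespace Pool.Agent.Helper93.WS

section Form

variable {K L : Type*} [Field K] [Field L] [Algebra K L]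

private theorem sb_finrank [Finite L] {R : Subalgebra K (Matrix (Fin 2) (Fin 2) L)}
    (hind : ∀ (k : ℕ) (f : Fin k → Matrix (Fin 2) (Fin 2) L), (∀ i, f i ∈ R) →
      LinearIndependent K f → LinearIndependent L f)
    (I : Submodule K (Matrix (Fin 2) (Fin 2) L)) (hI : ∀ x ∈ I, x ∈ R) :
    Module.finrank K I =
      Module.finrank L (Submodule.span L (I : Set (Matrix (Fin 2) (Fin 2) L))) := by
  have hfin : Module.Finite K (Matrix (Fin 2) (Fin 2) L) := Module.Finite.of_finite
  let b := Module.finBasis K I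
  let f : Fin (Module.finrank K I) → Matrix (Fin 2) (Fin 2) L :=
    fun i => ((b i : I) : Matrix (Fin 2) (Fin 2) L)
  have hf : LinearIndependent K f := b.linearIndependent.map' I.subtype (by simp)
  have hL := hind _ f (fun i => hI _ (b i).2) hf
  have hs : Submodule.span L (I : Set (Matrix (Fin 2) (Fin 2) L)) =
      Submodule.span L (Set.range f) := by
    apply le_antisymm
    · rw [Submodule.span_le]
      intro x hx
      have h1 : x = ∑ i, (b.repr ⟨x, hx⟩ i) • f i := by
        have h2 := congrArg (I.subtype) (b.sum_repr ⟨x, hx⟩)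
        rw [map_sum] at h2
        simpa using h2.symm
      rw [h1]
      refine Submodule.sum_mem _ fun i _ => ?_
      rw [← algebraMap_smul L (b.repr ⟨x, hx⟩ i) (f i)]
      exact Submodule.smul_mem _ _ (Submodule.subset_span ⟨i, rfl⟩)
    · apply Submodule.span_mono
      rintro _ ⟨i, rfl⟩
      exact (b i).2
  rw [hs, finrank_span_eq_card hL, Fintype.card_fin]

private theorem sb_form [Finite L] [Finite K] {R : Subalgebra K (Matrix (Fin 2) (Fin 2) L)}
    (hspan : Submodule.span L (R : Set (Matrix (Fin 2) (Fin 2) L)) = ⊤)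
    (hind : ∀ (k : ℕ) (f : Fin k → Matrix (Fin 2) (Fin 2) L), (∀ i, f i ∈ R) →
      LinearIndependent K f → LinearIndependent L f) :
    Nonempty (R ≃ₐ[K] Matrix (Fin 2) (Fin 2) K) := by
  classical
  have hR4 : Module.finrank K R = 4 := by
    have h1 := sb_finrank hind (Subalgebra.toSubmodule R) (fun x hx => hx)
    have h2 : Module.finrank L (Submodule.span L
        ((Subalgebra.toSubmodule R : Submodule K _) : Set (Matrix (Fin 2) (Fin 2) L))) = 4 := by
      rw [Subalgebra.coe_toSubmodule, hspan, finrank_top, Module.finrank_matrix]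
      simp
    rw [h2] at h1
    exact h1
  have hfin : Module.Finite K R := Module.Finite.of_finite
  have hart : IsArtinianRing R := IsArtinianRing.of_finite K R
  have hmul : ∀ (P : Matrix (Fin 2) (Fin 2) L → Prop), (P 0) → (∀ x y, P x → P y → P (x + y)) →
      (∀ (c : L) x, P x → P (c • x)) → (∀ x ∈ R, P x) → ∀ x, P x := by
    intro P h0 ha hs hx x
    have hxs : x ∈ Submodule.span L (R : Set (Matrix (Fin 2) (Fin 2) L)) := by
      rw [hspan]; trivial
    induction hxs using Submodule.span_induction with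
    | mem x h => exact hx x h
    | zero => exact h0
    | add x y _ _ h1 h2 => exact ha x y h1 h2
    | smul c x _ h => exact hs c x h
  have hsimple : IsSimpleRing R := by
    refine ⟨⟨fun I => ?_⟩⟩
    let J : Submodule K (Matrix (Fin 2) (Fin 2) L) :=
      { carrier := {x | ∃ h : x ∈ R, (⟨x, h⟩ : R) ∈ I}
        add_mem' := by
          rintro x y ⟨hx, hxI⟩ ⟨hy, hyI⟩
          exact ⟨R.add_mem hx hy, I.add_mem hxI hyI⟩
        zero_mem' := ⟨R.zero_mem, I.zero_mem⟩
        smul_mem' := by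
          rintro c x ⟨hx, hxI⟩
          refine ⟨R.smul_mem hx c, ?_⟩
          have h1 : (⟨c • x, R.smul_mem hx c⟩ : R) = algebraMap K R c * ⟨x, hx⟩ := by
            apply Subtype.ext
            show c • x = algebraMap K (Matrix (Fin 2) (Fin 2) L) c * x
            rw [Algebra.smul_def]
          rw [h1]
          exact I.mul_mem_left _ _ hxI }
    have hJR : ∀ x ∈ J, x ∈ R := fun x hx => hx.1
    have hJ := sb_finrank hind J hJR
    let S : Submodule L (Matrix (Fin 2) (Fin 2) L) :=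
      Submodule.span L (J : Set (Matrix (Fin 2) (Fin 2) L))
    have hleft : ∀ x, ∀ z ∈ S, x * z ∈ S := by
      refine hmul _ ?_ ?_ ?_ ?_
      · intro z _
        rw [zero_mul]; exact S.zero_mem
      · intro x y hx hy z hz
        rw [add_mul]; exact S.add_mem (hx z hz) (hy z hz)
      · intro c x hx z hz
        rw [smul_mul_assoc]; exact S.smul_mem c (hx z hz)
      · intro x hx z hz
        induction hz using Submodule.span_induction with
        | mem z h =>
          obtain ⟨hz, hzI⟩ := h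
          exact Submodule.subset_span ⟨R.mul_mem hx hz, I.mul_mem_left ⟨x, hx⟩ ⟨z, hz⟩ hzI⟩
        | zero => rw [mul_zero]; exact S.zero_mem
        | add z z' _ _ h1 h2 => rw [mul_add]; exact S.add_mem h1 h2
        | smul c z _ h => rw [mul_smul_comm]; exact S.smul_mem c h
    have hright : ∀ x, ∀ z ∈ S, z * x ∈ S := by
      refine hmul _ ?_ ?_ ?_ ?_
      · intro z _
        rw [mul_zero]; exact S.zero_mem
      · intro x y hx hy z hz
        rw [mul_add]; exact S.add_mem (hx z hz) (hy z hz)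
      · intro c x hx z hz
        rw [mul_smul_comm]; exact S.smul_mem c (hx z hz)
      · intro x hx z hz
        induction hz using Submodule.span_induction with
        | mem z h =>
          obtain ⟨hz, hzI⟩ := h
          exact Submodule.subset_span ⟨R.mul_mem hz hx, I.mul_mem_right ⟨z, hz⟩ ⟨x, hx⟩ hzI⟩
        | zero => rw [zero_mul]; exact S.zero_mem
        | add z z' _ _ h1 h2 => rw [add_mul]; exact S.add_mem h1 h2
        | smul c z _ h => rw [smul_mul_assoc]; exact S.smul_mem c h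
    let SI : TwoSidedIdeal (Matrix (Fin 2) (Fin 2) L) :=
      TwoSidedIdeal.mk' S S.zero_mem (fun h1 h2 => S.add_mem h1 h2) (fun h => S.neg_mem h)
        (fun {x z} hz => hleft x z hz) (fun {z x} hz => hright x z hz)
    have hSI : ∀ x, x ∈ SI ↔ x ∈ S := fun x => TwoSidedIdeal.mem_mk' _ _ _ _ _ _ x
    rcases eq_bot_or_eq_top SI with hb | ht
    · left
      rw [eq_bot_iff]
      rintro ⟨x, hx⟩ hxI
      have h1 : x ∈ SI := (hSI x).2 (Submodule.subset_span ⟨hx, hxI⟩)
      rw [hb] at h1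
      have h2 : x = 0 := h1
      subst h2
      exact TwoSidedIdeal.zero_mem _
    · right
      have h1 : S = ⊤ := by
        rw [eq_top_iff]
        intro x _
        rw [← hSI, ht]
        trivial
      have h2 : Module.finrank K J = 4 := by
        rw [hJ]
        show Module.finrank L S = 4
        rw [h1, finrank_top, Module.finrank_matrix]
        simp
      have h3 : J = Subalgebra.toSubmodule R := by
        have hfin' : Module.Finite K (Subalgebra.toSubmodule R) := hfin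
        apply Submodule.eq_of_le_of_finrank_eq hJR
        rw [h2]
        exact hR4.symm
      rw [eq_top_iff]
      rintro ⟨x, hx⟩ _
      have h4 : x ∈ J := by
        rw [h3]; exact hx
      exact h4.2
  obtain ⟨n, hn, D, hD, hA, hDf, ⟨φ⟩⟩ := IsSimpleRing.exists_algEquiv_matrix_divisionRing_finite K R
  have hDfin : Finite D := Module.finite_of_finite K
  have hdim : n * n * Module.finrank K D = 4 := by
    rw [← hR4, φ.toLinearEquiv.finrank_eq, Module.finrank_matrix]
    simp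
  have hcD : ∀ a b : D, a * b = b * a := fun a b => (littleWedderburn D).mul_comm a b
  have hn1 : n ≠ 1 := by
    rintro rfl
    have hcR : ∀ x y : R, x * y = y * x := by
      intro x y
      apply φ.injective
      rw [map_mul, map_mul]
      ext i j
      rw [Matrix.mul_apply, Matrix.mul_apply, Fin.sum_univ_one, Fin.sum_univ_one]
      rw [Subsingleton.elim i 0, Subsingleton.elim j 0]
      exact hcD _ _
    have hcM : ∀ x y : Matrix (Fin 2) (Fin 2) L, x * y = y * x := by
      refine hmul _ ?_ ?_ ?_ ?_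
      · intro y
        rw [zero_mul, mul_zero]
      · intro x x' h1 h2 y
        rw [add_mul, mul_add, h1, h2]
      · intro c x h1 y
        rw [smul_mul_assoc, mul_smul_comm, h1]
      · intro x hx
        refine hmul _ ?_ ?_ ?_ ?_
        · rw [zero_mul, mul_zero]
        · intro y y' h1 h2
          rw [add_mul, mul_add, h1, h2]
        · intro c y h1
          rw [smul_mul_assoc, mul_smul_comm, h1]
        · intro y hy
          exact congrArg Subtype.val (hcR ⟨x, hx⟩ ⟨y, hy⟩)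
    have h1 := congrFun (congrFun (hcM !![0, 1; 0, 0] !![0, 0; 1, 0]) 0) 0
    simp [Matrix.mul_apply, Fin.sum_univ_two] at h1
  have hn0 : n ≠ 0 := hn.out
  have hf0 : 0 < Module.finrank K D := Module.finrank_pos
  have hn2 : n ≤ 2 := by
    by_contra h
    have h3 : 3 ≤ n := by omega
    have h4 : 3 * 3 * 1 ≤ n * n * Module.finrank K D :=
      Nat.mul_le_mul (Nat.mul_le_mul h3 h3) hf0
    omega
  have hn2' : n = 2 := by omega
  subst hn2'
  have hf1 : Module.finrank K D = 1 := by omega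
  have hinj : Function.Injective (Algebra.ofId K D) := (algebraMap K D).injective
  have hsur : Function.Surjective (Algebra.ofId K D) :=
    (LinearMap.injective_iff_surjective_of_finrank_eq_finrank
      (f := (Algebra.ofId K D).toLinearMap) (by rw [hf1, Module.finrank_self])).1 hinj
  exact ⟨φ.trans (AlgEquiv.ofBijective (Algebra.ofId K D) ⟨hinj, hsur⟩).symm.mapMatrix⟩

end Form



section Theta

variable {K : Type*} [Field K] [NumberField K] {D : Type*} [DivisionRing D] [Algebra K D]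
  {O : Subring D}

omit [NumberField K] in
private lemma sb_coe_mul (a b : 𝓞 K) : ((a * b : 𝓞 K) : K) = a * b := rfl
omit [NumberField K] in
private lemma sb_coe_add (a b : 𝓞 K) : ((a + b : 𝓞 K) : K) = a + b := rfl
omit [NumberField K] in
private lemma sb_coe_one : ((1 : 𝓞 K) : K) = 1 := rfl

/-- cancellation of an element prime to `w` -/
private lemma sb_cancel {w : Ideal (𝓞 K)} (hw : w.IsMaximal) {Λ : AddSubgroup D} {m0 : 𝓞 K}
    (hm : m0 ∉ w) {z : D} (hz : z ∈ Λ)
    (h : algebraMap K D (m0 : K) * z ∈ idealMul K w Λ) : z ∈ idealMul K w Λ := by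
  obtain ⟨u, i, hi, hui⟩ := hw.exists_inv hm
  have e1 : z = algebraMap K D (u : K) * (algebraMap K D (m0 : K) * z) +
      algebraMap K D (i : K) * z := by
    rw [← mul_assoc, ← map_mul, ← add_mul, ← map_add, ← sb_coe_mul, ← sb_coe_add, hui, sb_coe_one,
      map_one, one_mul]
  rw [e1]
  exact AddSubgroup.add_mem _ (idealMul_smul_mem u h) (mem_idealMul hi hz)

private theorem sb_theta (hO : IsOrder K O) {Λ : AddSubgroup D} (hΛ : IsLat K O Λ)
    {w : Ideal (𝓞 K)} (hw : w.IsMaximal) (hsplit : Split K O w) :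
    ∃ θ : OB (RingHom.id D) Λ →+* Matrix (Fin 2) (Fin 2) (𝓞 K ⧸ w),
      Function.Surjective θ ∧
      (∀ (c : 𝓞 K) (a b : OB (RingHom.id D) Λ), (b : D) = algebraMap K D (c : K) * (a : D) →
        θ b = (Ideal.Quotient.mk w c) • θ a) ∧
      ∀ a : OB (RingHom.id D) Λ, θ a = 0 → ∀ z ∈ Λ, (a : D) * z ∈ idealMul K w Λ := by
  obtain ⟨π, hπs, hπ0, hπm⟩ := hsplit
  obtain ⟨x, hx, hx0, m0, hm0, hgen⟩ := hΛ.2 w hw
  obtain ⟨u, i, hi, hui⟩ := hw.exists_inv hm0
  have hmu : Ideal.Quotient.mk w u * Ideal.Quotient.mk w m0 = 1 := by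
    rw [← map_mul, ← map_one (Ideal.Quotient.mk w), ← hui, map_add,
      Ideal.Quotient.eq_zero_iff_mem.2 hi, add_zero]
  have hf : ∀ d : OB (RingHom.id D) Λ,
      x⁻¹ * (algebraMap K D (m0 : K) * ((d : D) * x)) ∈ O := by
    intro d
    obtain ⟨a, ha, h⟩ := hgen _ (d.2 x hx)
    have h' : algebraMap K D (m0 : K) * ((d : D) * x) = x * a := h
    rw [h', inv_mul_cancel_left₀ hx0]
    exact ha
  let f : OB (RingHom.id D) Λ → O := fun d =>
    ⟨x⁻¹ * (algebraMap K D (m0 : K) * ((d : D) * x)), hf d⟩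
  have hfc : ∀ d, (f d : D) = x⁻¹ * (algebraMap K D (m0 : K) * ((d : D) * x)) := fun _ => rfl
  have hxf : ∀ d, x * (f d : D) = algebraMap K D (m0 : K) * ((d : D) * x) := by
    intro d
    rw [hfc, mul_inv_cancel_left₀ hx0]
  have hmul : ∀ d d', π (f d * f d') = Ideal.Quotient.mk w m0 • π (f (d * d')) := by
    intro d d'
    apply hπm
    apply mul_left_cancel₀ hx0
    rw [Subring.coe_mul, ← mul_assoc, hxf, ← mul_assoc x, ← Algebra.commutes (m0 : K) x, mul_assoc,
      mul_assoc, hxf, mul_assoc, hxf, Subring.coe_mul, mul_assoc, ← mul_assoc (d : D),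
      ← Algebra.commutes (m0 : K) (d : D), mul_assoc]
  let θ : OB (RingHom.id D) Λ →+* Matrix (Fin 2) (Fin 2) (𝓞 K ⧸ w) :=
    { toFun := fun d => Ideal.Quotient.mk w u • π (f d)
      map_one' := by
        have h1 : π (f 1) = Ideal.Quotient.mk w m0 • π 1 := by
          apply hπm
          apply mul_left_cancel₀ hx0
          rw [hxf, Subring.coe_one, one_mul, Subring.coe_one, mul_one, Algebra.commutes]
        rw [h1, map_one, smul_smul, hmu, one_smul]
      map_mul' := by
        intro d d'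
        rw [smul_mul_smul_comm, ← map_mul π, hmul, smul_smul, mul_assoc, hmu, mul_one]
      map_zero' := by
        have h1 : f 0 = 0 := by
          apply Subtype.ext
          rw [hfc, Subring.coe_zero, zero_mul, mul_zero, mul_zero, Subring.coe_zero]
        rw [h1, map_zero, smul_zero]
      map_add' := by
        intro d d'
        have h1 : f (d + d') = f d + f d' := by
          apply Subtype.ext
          rw [Subring.coe_add, hfc, hfc, hfc, Subring.coe_add, add_mul, mul_add, mul_add]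
        rw [h1, map_add, smul_add] }
  have hθ : ∀ d, θ d = Ideal.Quotient.mk w u • π (f d) := fun _ => rfl
  refine ⟨θ, ?_, ?_, ?_⟩
  · intro A
    obtain ⟨a', ha'⟩ := hπs (Ideal.Quotient.mk w u • A)
    have hd : algebraMap K D (m0 : K) * (x * (a' : D) * x⁻¹) ∈ OB (RingHom.id D) Λ := by
      intro z hz
      obtain ⟨b, hb, hb2⟩ := hgen z hz
      have h1 : (RingHom.id D) (algebraMap K D (m0 : K) * (x * (a' : D) * x⁻¹)) * z =
          x * ((a' : D) * b) := by
        rw [RingHom.id_apply, Algebra.commutes (m0 : K) (x * (a' : D) * x⁻¹), mul_assoc, hb2,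
          mul_assoc, mul_assoc, inv_mul_cancel_left₀ hx0]
      rw [h1]
      exact hΛ.1 _ hx _ (O.mul_mem a'.2 hb)
    refine ⟨⟨_, hd⟩, ?_⟩
    rw [hθ, hπm (m0 * m0) a' _ ?_, ha', smul_smul, smul_smul, map_mul]
    · have h2 : Ideal.Quotient.mk w u * (Ideal.Quotient.mk w m0 * Ideal.Quotient.mk w m0) *
          Ideal.Quotient.mk w u = 1 := by
        calc _ = (Ideal.Quotient.mk w u * Ideal.Quotient.mk w m0) *
            (Ideal.Quotient.mk w u * Ideal.Quotient.mk w m0) := by ring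
          _ = 1 := by rw [hmu, one_mul]
      rw [h2, one_smul]
    · apply mul_left_cancel₀ hx0
      rw [hxf, sb_coe_mul, map_mul]
      show algebraMap K D (m0 : K) * (algebraMap K D (m0 : K) * (x * (a' : D) * x⁻¹) * x) = _
      rw [mul_assoc (algebraMap K D (m0 : K)) (x * (a' : D) * x⁻¹) x, inv_mul_cancel_right₀ hx0,
        ← mul_assoc, ← mul_assoc, ← mul_assoc x, ← map_mul, Algebra.commutes _ x]
  · intro c a b hab
    have h1 : π (f b) = Ideal.Quotient.mk w c • π (f a) := by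
      apply hπm
      apply mul_left_cancel₀ hx0
      rw [hxf, hab, ← mul_assoc x, ← Algebra.commutes (c : K) x, mul_assoc (algebraMap K D (c : K)),
        mul_assoc (algebraMap K D (c : K)), hxf, ← mul_assoc, ← mul_assoc,
        Algebra.commutes (m0 : K) (algebraMap K D (c : K))]
      simp only [mul_assoc]
    rw [hθ, hθ, h1, smul_comm]
  · intro a ha z hz
    have h1 : π (f a) = 0 := by
      have h2 : Ideal.Quotient.mk w m0 • θ a = 0 := by rw [ha, smul_zero]
      rw [hθ, smul_smul, mul_comm, hmu, one_smul] at h2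
      exact h2
    have h2 : (f a : D) ∈ idealMul K w O.toAddSubgroup := (hπ0 _).1 h1
    have h3 : ∀ e ∈ idealMul K w O.toAddSubgroup, x * e ∈ idealMul K w Λ := by
      intro e he
      unfold idealMul at he
      induction he using AddSubgroup.closure_induction with
      | mem e he =>
        obtain ⟨c, hc, o, ho, rfl⟩ := he
        rw [← mul_assoc, ← Algebra.commutes (c : K) x, mul_assoc]
        exact mem_idealMul hc (hΛ.1 x hx o ho)
      | zero => rw [mul_zero]; exact AddSubgroup.zero_mem _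
      | add e e' _ _ h1 h2 => rw [mul_add]; exact AddSubgroup.add_mem _ h1 h2
      | neg e _ h => rw [mul_neg]; exact AddSubgroup.neg_mem _ h
    obtain ⟨b, hb, hb2⟩ := hgen z hz
    have haz : (a : D) * z ∈ Λ := a.2 z hz
    apply sb_cancel hw hm0 haz
    apply sb_cancel hw hm0 (hΛ.smul_mem hO m0 haz)
    have h4 : algebraMap K D (m0 : K) * (algebraMap K D (m0 : K) * ((a : D) * z)) =
        x * (f a : D) * b := by
      rw [← mul_assoc (algebraMap K D (m0 : K)) (a : D) z, Algebra.commutes (m0 : K) (a : D),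
        mul_assoc, hb2, hxf]
      simp only [mul_assoc]
    rw [h4]
    exact idealMul_mul_mem (fun y hy => hΛ.1 y hy b hb) (h3 _ h2)

end Theta

section Aux

variable {K : Type*} [Field K] [NumberField K] {E : Type*} [DivisionRing E] [Algebra K E]

private lemma sb_idealMul_one (M : AddSubgroup E) : M ≤ idealMul K (1 : Ideal (𝓞 K)) M := by
  intro x hx
  have h : (1 : 𝓞 K) ∈ (1 : Ideal (𝓞 K)) := by
    rw [Ideal.one_eq_top]; trivial
  have := mem_idealMul (K := K) h hx
  simpa using this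

private lemma sb_inter_prod {M : AddSubgroup E} {x : E} (hx : x ∈ M)
    (W : Finset (Ideal (𝓞 K))) (hW : ∀ w ∈ W, w.IsMaximal)
    (h : ∀ w ∈ W, x ∈ idealMul K w M) : x ∈ idealMul K (∏ w ∈ W, w) M := by
  classical
  induction W using Finset.induction_on with
  | empty =>
    rw [Finset.prod_empty]
    exact sb_idealMul_one M hx
  | insert a s ha ih =>
    rw [Finset.prod_insert ha]
    have h1 := ih (fun w hw => hW w (Finset.mem_insert_of_mem hw))
      (fun w hw => h w (Finset.mem_insert_of_mem hw))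
    have h2 := h a (Finset.mem_insert_self a s)
    have hcop : IsCoprime a (∏ w ∈ s, w) := by
      apply IsCoprime.prod_right
      intro w hw
      have hne : a ≠ w := fun h' => ha (h' ▸ hw)
      rw [Ideal.isCoprime_iff_sup_eq]
      exact (hW a (Finset.mem_insert_self a s)).coprime_of_ne
        (hW w (Finset.mem_insert_of_mem hw)) hne
    rw [Ideal.isCoprime_iff_exists] at hcop
    obtain ⟨p, hp, q, hq, hpq⟩ := hcop
    have e1 : x = algebraMap K E (p : K) * x + algebraMap K E (q : K) * x := by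
      rw [← add_mul, ← map_add]
      have : ((p : K) + (q : K)) = 1 := by
        have := congrArg (fun z : 𝓞 K => (z : K)) hpq
        simpa using this
      rw [this, map_one, one_mul]
    rw [e1]
    apply AddSubgroup.add_mem
    · have := mem_idealMul (K := K) hp h1
      rwa [idealMul_mul] at this
    · have := mem_idealMul (K := K) hq h2
      rwa [idealMul_mul, mul_comm] at this

/-- local uniformiser -/
private lemma sb_uniformizer {v : Ideal (𝓞 K)} (hv : v.IsMaximal) :
    ∃ p ∈ v, p ≠ 0 ∧ ∃ c : 𝓞 K, c ∉ v ∧ ∀ a ∈ v, ∃ b : 𝓞 K, c * a = p * b := by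
  have hv0 : v ≠ ⊥ :=
    Ring.ne_bot_of_isMaximal_of_not_isField hv (NumberField.RingOfIntegers.not_isField K)
  have hlt : v ^ 2 < v := by
    have := Ideal.pow_right_strictAnti v hv0 hv.ne_top (show 1 < 2 by norm_num)
    simpa using this
  obtain ⟨p, hpv, hp2⟩ := SetLike.exists_of_lt hlt
  have hp0 : p ≠ 0 := by
    rintro rfl
    exact hp2 (Ideal.zero_mem _)
  have hdvd : v ∣ Ideal.span {p} := by
    rw [Ideal.dvd_span_singleton]; exact hpv
  obtain ⟨I, hI⟩ := hdvd
  have hnI : ¬ I ≤ v := by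
    intro hle
    apply hp2
    have h1 : Ideal.span {p} ≤ v ^ 2 := by
      rw [hI, pow_two]
      exact Ideal.mul_mono_right hle
    exact h1 (Ideal.mem_span_singleton_self p)
  obtain ⟨c, hcI, hcv⟩ := SetLike.not_le_iff_exists.mp hnI
  refine ⟨p, hpv, hp0, c, hcv, ?_⟩
  intro a ha
  have h2 : c * a ∈ Ideal.span {p} := by
    rw [hI, mul_comm v I]
    exact Ideal.mul_mem_mul hcI ha
  rw [Ideal.mem_span_singleton] at h2
  obtain ⟨b, hb⟩ := h2
  exact ⟨b, hb⟩

end Aux

variable {F F' : Type*} [Field F] [NumberField F] [Field F'] [NumberField F'] [Algebra F F']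
  [IsGalois F F']
  {B D : Type*} [DivisionRing B] [DivisionRing D] [Algebra F B] [Algebra F' D]
  [MulSemiringAction (F' ≃ₐ[F] F') D] {O : Subring D} {n : ℕ} {H : Set D}
  {y : AddSubgroup D × Set D} {γ : (F' ≃ₐ[F] F') → Dˣ} {ι : B →+* D}
  {r : ℕ} {e e' : Fin r → 𝓞 F'} {m : ℕ}

private lemma sb_casimir {v : Ideal (𝓞 F)} (hg : Good e e' m v) (x : 𝓞 F') :
    ∃ t : Fin r → 𝓞 F, (∀ j, algebraMap (𝓞 F) (𝓞 F') (t j) =
      ∑ σ : F' ≃ₐ[F] F', σ • (e' j * x)) ∧
      (m : 𝓞 F') * x = ∑ j, e j * algebraMap (𝓞 F) (𝓞 F') (t j) := by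
  classical
  have htr : ∀ i, ∃ t : 𝓞 F,
      algebraMap (𝓞 F) (𝓞 F') t = ∑ σ : F' ≃ₐ[F] F', σ • (e' i * x) := by
    intro i
    have hinv : ∀ τ : F' ≃ₐ[F] F', τ • (∑ σ : F' ≃ₐ[F] F', σ • (e' i * x)) =
        ∑ σ : F' ≃ₐ[F] F', σ • (e' i * x) := by
      intro τ
      rw [Finset.smul_sum]
      simp_rw [smul_smul]
      exact Fintype.sum_equiv (Equiv.mulLeft τ) _ _ (fun σ => rfl)
    exact Algebra.IsInvariant.isInvariant (A := 𝓞 F) (G := F' ≃ₐ[F] F') _ hinv
  choose t ht2 using htr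
  refine ⟨t, ht2, ?_⟩
  simp_rw [ht2, Finset.mul_sum, smul_mul']
  rw [Finset.sum_comm]
  have h1 : ∀ σ : F' ≃ₐ[F] F', ∑ i, e i * (σ • e' i * σ • x) =
      (∑ i, e i * σ • e' i) * σ • x := by
    intro σ
    rw [Finset.sum_mul]
    exact Finset.sum_congr rfl fun i _ => by ring
  simp_rw [h1]
  rw [Finset.sum_eq_single (1 : F' ≃ₐ[F] F')]
  · simp_rw [one_smul]
    rw [hg.cas1]
  · intro σ _ hσ
    rw [hg.cas σ hσ, zero_mul]
  · intro h
    exact absurd (Finset.mem_univ _) h

/-- division by the uniformiser -/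
private lemma sb_div (hdat : Datum O n H y γ ι) {v : Ideal (𝓞 F)} {p c : 𝓞 F} (hp0 : p ≠ 0)
    (hcp : ∀ a ∈ v, ∃ b : 𝓞 F, c * a = p * b) {z : D}
    (hz : z ∈ idealMul F' (v.map (algebraMap (𝓞 F) (𝓞 F'))) y.1) :
    algebraMap F' D (algebraMap F F' ((p : F)⁻¹ * (c : F))) * z ∈ y.1 := by
  have hdiv : ∀ q ∈ v.map (algebraMap (𝓞 F) (𝓞 F')), ∃ s : 𝓞 F',
      algebraMap (𝓞 F) (𝓞 F') c * q = algebraMap (𝓞 F) (𝓞 F') p * s := by
    intro q hq
    rw [Ideal.map] at hq
    induction hq using Submodule.span_induction with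
    | mem a ha =>
      obtain ⟨a0, ha0, rfl⟩ := ha
      obtain ⟨b, hb⟩ := hcp a0 ha0
      exact ⟨algebraMap _ _ b, by rw [← map_mul, ← map_mul, hb]⟩
    | zero => exact ⟨0, by rw [mul_zero, mul_zero]⟩
    | add a a' _ _ h h' =>
      obtain ⟨s, hs⟩ := h
      obtain ⟨s', hs'⟩ := h'
      exact ⟨s + s', by rw [mul_add, mul_add, hs, hs']⟩
    | smul t a _ h =>
      obtain ⟨s, hs⟩ := h
      exact ⟨t * s, by rw [smul_eq_mul, mul_left_comm, hs, mul_left_comm]⟩
  induction hz using AddSubgroup.closure_induction with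
  | mem z hz =>
    obtain ⟨q, hq, x, hx, rfl⟩ := hz
    obtain ⟨s, hs⟩ := hdiv q hq
    have hp1 : (p : F) ≠ 0 := by
      intro h
      exact hp0 (NumberField.RingOfIntegers.ext h)
    have hp2 : algebraMap F F' (p : F) ≠ 0 := by
      rw [Ne, map_eq_zero]; exact hp1
    have e0 : algebraMap F F' (c : F) * (q : F') = algebraMap F F' (p : F) * (s : F') :=
      congrArg (fun z : 𝓞 F' => (z : F')) hs
    have e1 : algebraMap F F' ((p : F)⁻¹ * (c : F)) * (q : F') = (s : F') := by
      rw [map_mul, map_inv₀, mul_assoc, e0, ← mul_assoc, inv_mul_cancel₀ hp2, one_mul]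
    rw [← mul_assoc, ← map_mul, e1]
    exact hdat.hy.1.smul_mem hdat.hO s hx
  | zero => rw [mul_zero]; exact AddSubgroup.zero_mem _
  | add x x' _ _ h h' => rw [mul_add]; exact AddSubgroup.add_mem _ h h'
  | neg x _ h => rw [mul_neg]; exact AddSubgroup.neg_mem _ h

/-- an element which is divisible at all primes over `v` -/
private lemma sb_div' (hdat : Datum O n H y γ ι) {v : Ideal (𝓞 F)} (hg : Good e e' m v)
    {p c : 𝓞 F} (hp0 : p ≠ 0) (hcp : ∀ a ∈ v, ∃ b : 𝓞 F, c * a = p * b) {z : D} (hz0 : z ∈ y.1)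
    (hz : ∀ w ∈ overSet F' v, z ∈ idealMul F' w y.1) :
    algebraMap F' D (algebraMap F F' ((p : F)⁻¹ * (c : F))) * z ∈ y.1 := by
  apply sb_div hdat hp0 hcp
  rw [← hg.prod_eq]
  apply sb_inter_prod hz0
  · intro w hw
    rw [Set.Finite.mem_toFinset] at hw
    exact hw.1
  · intro w hw
    rw [Set.Finite.mem_toFinset] at hw
    exact hz w hw

/-- divisibility of an element of the order of `B` -/
private lemma sb_mem (hdat : Datum O n H y γ ι) {v : Ideal (𝓞 F)} (hv : v.IsMaximal)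
    {p c : 𝓞 F} (hpv : p ∈ v) (hp0 : p ≠ 0) (hc : c ∉ v) {b : B} (hb : b ∈ OB ι y.1)
    (h : ∀ z ∈ y.1, algebraMap F' D (algebraMap F F' ((p : F)⁻¹ * (c : F))) * (ι b * z) ∈ y.1) :
    b ∈ idealMul F v (OB ι y.1).toAddSubgroup := by
  have hp1 : (p : F) ≠ 0 := by
    intro h
    exact hp0 (NumberField.RingOfIntegers.ext h)
  have hA : algebraMap F B ((p : F)⁻¹ * (c : F)) * b ∈ (OB ι y.1).toAddSubgroup := by
    intro x hx
    rw [map_mul, hdat.hι, mul_assoc]
    exact h x hx
  have hB : algebraMap F B (c : F) * b ∈ idealMul F v (OB ι y.1).toAddSubgroup := by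
    have := mem_idealMul (K := F) hpv hA
    rwa [← mul_assoc, ← map_mul, ← mul_assoc, mul_inv_cancel₀ hp1, one_mul] at this
  exact sb_cancel hv hc hb hB

/-- twisting -/
private lemma sb_twist (hdat : Datum O n H y γ ι) (σ : F' ≃ₐ[F] F') {w : Ideal (𝓞 F')} {b : B}
    (h : ∀ z ∈ y.1, ι b * z ∈ idealMul F' w y.1) :
    ∀ z ∈ y.1, ι b * z ∈ idealMul F' (σ • w) y.1 := by
  intro z hz
  have hΛ : σ • y.1 = γ σ • y.1 := congrArg Prod.fst (hdat.hγ σ)
  have h1 : γ σ • z ∈ σ • y.1 := by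
    rw [hΛ]
    exact AddSubgroup.smul_mem_pointwise_smul _ _ _ hz
  obtain ⟨z0, hz0, hz1⟩ := h1
  have hz2 : σ • z0 = (γ σ : D) * z := hz1
  have h2 : σ • (ι b * z0) ∈ σ • idealMul F' w y.1 :=
    AddSubgroup.smul_mem_pointwise_smul _ _ _ (h z0 hz0)
  have hbσ : (σ • ι b) * (γ σ : D) = (γ σ : D) * ι b := (hdat.hB (ι b)).1 ⟨b, rfl⟩ σ
  rw [← idealMul_gal_smul (P := F' ≃ₐ[F] F') (fun τ a => hdat.hact τ a) σ w, hΛ,
    idealMul_units_smul, smul_mul', hz2, ← mul_assoc, hbσ, mul_assoc] at h2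
  exact (AddSubgroup.smul_mem_pointwise_smul_iff (a := γ σ)).mp h2


/-- the map of orders -/
private def sbJ (ι : B →+* D) (Λ : AddSubgroup D) : OB ι Λ →+* OB (RingHom.id D) Λ where
  toFun b := ⟨ι b, b.2⟩
  map_one' := Subtype.ext (map_one ι)
  map_mul' a b := Subtype.ext (map_mul ι (a : B) (b : B))
  map_zero' := Subtype.ext (map_zero ι)
  map_add' a b := Subtype.ext (map_add ι (a : B) (b : B))

private lemma sbJ_coe (Λ : AddSubgroup D) (b : OB ι Λ) : (sbJ ι Λ b : D) = ι (b : B) := rfl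

private lemma sb_scal (hdat : Datum O n H y γ ι) {w : Ideal (𝓞 F')}
    {θ : OB (RingHom.id D) y.1 →+* Matrix (Fin 2) (Fin 2) (𝓞 F' ⧸ w)}
    (hθm : ∀ (c : 𝓞 F') (a b : OB (RingHom.id D) y.1),
      (b : D) = algebraMap F' D (c : F') * (a : D) → θ b = (Ideal.Quotient.mk w c) • θ a)
    (c : 𝓞 F) (a b : OB ι y.1) (h : (b : B) = algebraMap F B (c : F) * (a : B)) :
    θ (sbJ ι y.1 b) =
      (Ideal.Quotient.mk w (algebraMap (𝓞 F) (𝓞 F') c)) • θ (sbJ ι y.1 a) := by
  apply hθm
  rw [sbJ_coe, sbJ_coe, h, map_mul, hdat.hι]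
  rfl

private lemma sb_scal_mem (hdat : Datum O n H y γ ι) (c : 𝓞 F) {a : B} (ha : a ∈ OB ι y.1) :
    algebraMap F B (c : F) * a ∈ OB ι y.1 := by
  intro z hz
  rw [map_mul, hdat.hι, mul_assoc]
  exact hdat.hy.1.smul_mem hdat.hO (algebraMap (𝓞 F) (𝓞 F') c) (ha z hz)

private lemma sb_kernel (hdat : Datum O n H y γ ι) {v : Ideal (𝓞 F)} (hg : Good e e' m v)
    {w : Ideal (𝓞 F')} (hw : w ∈ overSet F' v)
    {θ : OB (RingHom.id D) y.1 →+* Matrix (Fin 2) (Fin 2) (𝓞 F' ⧸ w)}
    (hθm : ∀ (c : 𝓞 F') (a b : OB (RingHom.id D) y.1),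
      (b : D) = algebraMap F' D (c : F') * (a : D) → θ b = (Ideal.Quotient.mk w c) • θ a)
    (hθ0 : ∀ a : OB (RingHom.id D) y.1, θ a = 0 → ∀ z ∈ y.1, (a : D) * z ∈ idealMul F' w y.1)
    (b : OB ι y.1) :
    θ (sbJ ι y.1 b) = 0 ↔ (b : B) ∈ idealMul F v (OB ι y.1).toAddSubgroup := by
  constructor
  · intro h0
    obtain ⟨p, hpv, hp0, c, hc, hcp⟩ := sb_uniformizer hg.max
    have h1 := hθ0 _ h0
    refine sb_mem hdat hg.max hpv hp0 hc b.2 (fun z hz => ?_)
    apply sb_div' hdat hg hp0 hcp (b.2 z hz)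
    intro w' hw'
    obtain ⟨σ, rfl⟩ := overSet_transitive hw hw'
    exact sb_twist hdat σ h1 z hz
  · intro hb
    have key : ∀ d ∈ idealMul F v (OB ι y.1).toAddSubgroup, ∃ hd : d ∈ OB ι y.1,
        θ (sbJ ι y.1 ⟨d, hd⟩) = 0 := by
      intro d hd
      unfold idealMul at hd
      induction hd using AddSubgroup.closure_induction with
      | mem d hd =>
        obtain ⟨c, hc, a, ha, rfl⟩ := hd
        refine ⟨sb_scal_mem hdat c ha, ?_⟩
        rw [sb_scal hdat hθm c ⟨a, ha⟩ ⟨_, sb_scal_mem hdat c ha⟩ rfl]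
        have h1 : algebraMap (𝓞 F) (𝓞 F') c ∈ w := by
          rw [← hw.2] at hc
          exact hc
        rw [Ideal.Quotient.eq_zero_iff_mem.2 h1, zero_smul]
      | zero =>
        refine ⟨Subring.zero_mem _, ?_⟩
        have h1 : (⟨0, Subring.zero_mem _⟩ : OB ι y.1) = 0 := rfl
        rw [h1, map_zero, map_zero]
      | add d d' _ _ h1 h2 =>
        obtain ⟨hd, h1⟩ := h1
        obtain ⟨hd', h2⟩ := h2
        refine ⟨Subring.add_mem _ hd hd', ?_⟩
        have h3 : (⟨d + d', Subring.add_mem _ hd hd'⟩ : OB ι y.1) = ⟨d, hd⟩ + ⟨d', hd'⟩ := rfl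
        rw [h3, map_add, map_add, h1, h2, add_zero]
      | neg d _ h1 =>
        obtain ⟨hd, h1⟩ := h1
        refine ⟨Subring.neg_mem _ hd, ?_⟩
        have h3 : (⟨-d, Subring.neg_mem _ hd⟩ : OB ι y.1) = -⟨d, hd⟩ := rfl
        rw [h3, map_neg, map_neg, h1, neg_zero]
    obtain ⟨_, h⟩ := key _ hb
    exact h

/-- the image spans -/
private lemma sb_span (hdat : Datum O n H y γ ι) {v : Ideal (𝓞 F)} (hg : Good e e' m v)
    {w : Ideal (𝓞 F')} (hw : w ∈ overSet F' v)
    {θ : OB (RingHom.id D) y.1 →+* Matrix (Fin 2) (Fin 2) (𝓞 F' ⧸ w)}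
    (hθs : Function.Surjective θ)
    (hθm : ∀ (c : 𝓞 F') (a b : OB (RingHom.id D) y.1),
      (b : D) = algebraMap F' D (c : F') * (a : D) → θ b = (Ideal.Quotient.mk w c) • θ a)
    (A : Matrix (Fin 2) (Fin 2) (𝓞 F' ⧸ w)) :
    A ∈ Submodule.span (𝓞 F' ⧸ w) (Set.range fun b : OB ι y.1 => θ (sbJ ι y.1 b)) := by
  have hmw : (m : 𝓞 F') ∉ w := by
    intro h
    apply hg.mv
    rw [← hw.2, Ideal.mem_comap, map_natCast]
    exact h
  obtain ⟨u, i, hi, hui⟩ := hw.1.exists_inv hmw
  have hmu : Ideal.Quotient.mk w u * Ideal.Quotient.mk w (m : 𝓞 F') = 1 := by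
    rw [← map_mul, ← map_one (Ideal.Quotient.mk w), ← hui, map_add,
      Ideal.Quotient.eq_zero_iff_mem.2 hi, add_zero]
  obtain ⟨a, rfl⟩ := hθs A
  have hΛ : ∀ σ : F' ≃ₐ[F] F', σ • y.1 = γ σ • y.1 := fun σ => congrArg Prod.fst (hdat.hγ σ)
  have h1 := average_mem hdat hg.cas1 hg.cas
    (fun a x hx => hdat.hy.1.smul_mem hdat.hO a hx) hΛ (fun z hz => a.2 z hz)
  have key : ∀ d ∈ AddSubgroup.closure
      {z | ∃ (a : 𝓞 F') (β : B), (∀ x ∈ y.1, ι β * x ∈ y.1) ∧
        z = algebraMap F' D (a : F') * ι β}, ∃ hd : d ∈ OB (RingHom.id D) y.1,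
      θ ⟨d, hd⟩ ∈
        Submodule.span (𝓞 F' ⧸ w) (Set.range fun b : OB ι y.1 => θ (sbJ ι y.1 b)) := by
    intro d hd
    induction hd using AddSubgroup.closure_induction with
    | mem d hd =>
      obtain ⟨c, β, hβ, rfl⟩ := hd
      have h2 : algebraMap F' D (c : F') * ι β ∈ OB (RingHom.id D) y.1 := by
        intro z hz
        rw [RingHom.id_apply, mul_assoc]
        exact hdat.hy.1.smul_mem hdat.hO c (hβ z hz)
      refine ⟨h2, ?_⟩
      rw [hθm c (sbJ ι y.1 ⟨β, hβ⟩) ⟨_, h2⟩ rfl]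
      exact Submodule.smul_mem _ _ (Submodule.subset_span ⟨⟨β, hβ⟩, rfl⟩)
    | zero =>
      refine ⟨Subring.zero_mem _, ?_⟩
      have h1 : (⟨0, Subring.zero_mem _⟩ : OB (RingHom.id D) y.1) = 0 := rfl
      rw [h1, map_zero]
      exact Submodule.zero_mem _
    | add d d' _ _ h1 h2 =>
      obtain ⟨hd, h1⟩ := h1
      obtain ⟨hd', h2⟩ := h2
      refine ⟨Subring.add_mem _ hd hd', ?_⟩
      have h3 : (⟨d + d', Subring.add_mem _ hd hd'⟩ : OB (RingHom.id D) y.1) =
        ⟨d, hd⟩ + ⟨d', hd'⟩ := rfl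
      rw [h3, map_add]
      exact Submodule.add_mem _ h1 h2
    | neg d _ h1 =>
      obtain ⟨hd, h1⟩ := h1
      refine ⟨Subring.neg_mem _ hd, ?_⟩
      have h3 : (⟨-d, Subring.neg_mem _ hd⟩ : OB (RingHom.id D) y.1) = -⟨d, hd⟩ := rfl
      rw [h3, map_neg]
      exact Submodule.neg_mem _ h1
  obtain ⟨hd, h2⟩ := key _ h1
  rw [hθm (m : 𝓞 F') a ⟨_, hd⟩ (by simp)] at h2
  have h3 := Submodule.smul_mem _ (Ideal.Quotient.mk w u) h2
  rwa [smul_smul, hmu, one_smul] at h3

/-- the conjugates of an element which is divisible -/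
private lemma sb_sigma (hdat : Datum O n H y γ ι) {k : ℕ} {b : Fin k → B} {x : Fin k → 𝓞 F'}
    {q : F} (h : ∀ z ∈ y.1, algebraMap F' D (algebraMap F F' q) *
      ((∑ i, algebraMap F' D (x i : F') * ι (b i)) * z) ∈ y.1) (σ : F' ≃ₐ[F] F') :
    ∀ z ∈ y.1, algebraMap F' D (algebraMap F F' q) *
      ((∑ i, algebraMap F' D ((σ • x i : 𝓞 F') : F') * ι (b i)) * z) ∈ y.1 := by
  intro z hz
  have hΛ : σ • y.1 = γ σ • y.1 := congrArg Prod.fst (hdat.hγ σ)
  have h1 : γ σ • z ∈ σ • y.1 := by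
    rw [hΛ]
    exact AddSubgroup.smul_mem_pointwise_smul _ _ _ hz
  obtain ⟨z0, hz0, hz1⟩ := h1
  have hz2 : σ • z0 = (γ σ : D) * z := hz1
  have h2 := AddSubgroup.smul_mem_pointwise_smul _ σ _ (h z0 hz0)
  have h3 : σ • (algebraMap F' D (algebraMap F F' q) *
      ((∑ i, algebraMap F' D (x i : F') * ι (b i)) * z0)) =
      γ σ • (algebraMap F' D (algebraMap F F' q) *
      ((∑ i, algebraMap F' D ((σ • x i : 𝓞 F') : F') * ι (b i)) * z)) := by
    have hs : (σ • ∑ i, algebraMap F' D (x i : F') * ι (b i)) * (γ σ : D) =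
        (γ σ : D) * ∑ i, algebraMap F' D ((σ • x i : 𝓞 F') : F') * ι (b i) := by
      rw [Finset.smul_sum, Finset.sum_mul, Finset.mul_sum]
      refine Finset.sum_congr rfl fun i _ => ?_
      have hbσ : (σ • ι (b i)) * (γ σ : D) = (γ σ : D) * ι (b i) :=
        (hdat.hB (ι (b i))).1 ⟨b i, rfl⟩ σ
      rw [smul_mul', hdat.hact, mul_assoc, hbσ, ← mul_assoc, ← mul_assoc,
        Algebra.commutes _ (γ σ : D)]
      rfl
    rw [smul_mul', smul_mul', hz2, hdat.hact, AlgEquiv.commutes, ← mul_assoc (σ • _) (γ σ : D) z,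
      hs, Units.smul_def, smul_eq_mul]
    simp only [← mul_assoc]
    rw [Algebra.commutes _ (γ σ : D)]
  rw [h3, hΛ] at h2
  exact (AddSubgroup.smul_mem_pointwise_smul_iff (a := γ σ)).mp h2

private lemma sb_indep (hdat : Datum O n H y γ ι) {v : Ideal (𝓞 F)} (hg : Good e e' m v)
    {w : Ideal (𝓞 F')} (hw : w ∈ overSet F' v)
    {θ : OB (RingHom.id D) y.1 →+* Matrix (Fin 2) (Fin 2) (𝓞 F' ⧸ w)}
    (hθm : ∀ (c : 𝓞 F') (a b : OB (RingHom.id D) y.1),
      (b : D) = algebraMap F' D (c : F') * (a : D) → θ b = (Ideal.Quotient.mk w c) • θ a)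
    (hθ0 : ∀ a : OB (RingHom.id D) y.1, θ a = 0 → ∀ z ∈ y.1, (a : D) * z ∈ idealMul F' w y.1)
    {k : ℕ} (b : Fin k → OB ι y.1) (l : Fin k → 𝓞 F')
    (h0 : ∑ i, Ideal.Quotient.mk w (l i) • θ (sbJ ι y.1 (b i)) = 0)
    (hind : ∀ t : Fin k → 𝓞 F, ∑ i, Ideal.Quotient.mk w (algebraMap (𝓞 F) (𝓞 F') (t i)) •
      θ (sbJ ι y.1 (b i)) = 0 → ∀ i, t i ∈ v) : ∀ i, l i ∈ w := by
  classical
  -- an element which is one at `w` and zero at the other primes
  have hμ : ∃ μ : 𝓞 F', μ ∉ w ∧ ∀ w' ∈ overSet F' v, w' ≠ w → μ ∈ w' := by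
    have hcop : IsCoprime w
        (∏ w' ∈ (overSet_finite (F' := F') hg.max).toFinset.erase w, w') := by
      apply IsCoprime.prod_right
      intro w' hw'
      rw [Finset.mem_erase, Set.Finite.mem_toFinset] at hw'
      rw [Ideal.isCoprime_iff_sup_eq]
      exact hw.1.coprime_of_ne hw'.2.1 (Ne.symm hw'.1)
    rw [Ideal.isCoprime_iff_exists] at hcop
    obtain ⟨p, hp, q, hq, hpq⟩ := hcop
    refine ⟨q, ?_, ?_⟩
    · intro hqw
      apply hw.1.ne_top
      rw [Ideal.eq_top_iff_one, ← hpq]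
      exact w.add_mem hp hqw
    · intro w' hw' hne
      have hle : ∏ w' ∈ (overSet_finite (F' := F') hg.max).toFinset.erase w, w' ≤ w' :=
        Ideal.le_of_dvd (Finset.dvd_prod_of_mem (fun w => w) (by
          rw [Finset.mem_erase, Set.Finite.mem_toFinset]
          exact ⟨hne, hw'⟩))
      exact hle hq
  obtain ⟨μ, hμw, hμ'⟩ := hμ
  obtain ⟨p, hpv, hp0, c, hc, hcp⟩ := sb_uniformizer hg.max
  have hmem : ∀ (x : Fin k → 𝓞 F'), ∀ z ∈ y.1,
      (∑ i, algebraMap F' D (x i : F') * ι (b i)) * z ∈ y.1 := by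
    intro x z hz
    rw [Finset.sum_mul]
    refine AddSubgroup.sum_mem _ fun i _ => ?_
    rw [mul_assoc]
    exact hdat.hy.1.smul_mem hdat.hO (x i) ((b i).2 z hz)
  have hθsum : ∀ (x : Fin k → 𝓞 F') (a : OB (RingHom.id D) y.1),
      (a : D) = ∑ i, algebraMap F' D (x i : F') * ι (b i) →
      θ a = ∑ i, Ideal.Quotient.mk w (x i) • θ (sbJ ι y.1 (b i)) := by
    intro x a ha
    have h1 : ∀ i, algebraMap F' D (x i : F') * ι (b i) ∈ OB (RingHom.id D) y.1 := by
      intro i z hz
      rw [RingHom.id_apply, mul_assoc]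
      exact hdat.hy.1.smul_mem hdat.hO (x i) ((b i).2 z hz)
    have h2 : a = ∑ i, (⟨algebraMap F' D (x i : F') * ι (b i), h1 i⟩ :
        OB (RingHom.id D) y.1) := by
      apply Subtype.ext
      rw [ha, AddSubmonoidClass.coe_finset_sum]
    rw [h2, map_sum]
    exact Finset.sum_congr rfl fun i _ => hθm (x i) (sbJ ι y.1 (b i)) _ rfl
  -- divisibility of `μ` times the combination
  have hdiv : ∀ z ∈ y.1, algebraMap F' D (algebraMap F F' ((p : F)⁻¹ * (c : F))) *
      ((∑ i, algebraMap F' D ((μ * l i : 𝓞 F') : F') * ι (b i)) * z) ∈ y.1 := by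
    intro z hz
    apply sb_div' hdat hg hp0 hcp (hmem (fun i => μ * l i) z hz)
    intro w' hw'
    by_cases hww : w' = w
    · subst hww
      have hd : (∑ i, algebraMap F' D ((μ * l i : 𝓞 F') : F') * ι (b i)) ∈
          OB (RingHom.id D) y.1 := fun z hz => hmem (fun i => μ * l i) z hz
      refine hθ0 ⟨_, hd⟩ ?_ z hz
      rw [hθsum (fun i => μ * l i) ⟨_, hd⟩ rfl]
      have h1 : ∑ i, Ideal.Quotient.mk w' (μ * l i) • θ (sbJ ι y.1 (b i)) =
          Ideal.Quotient.mk w' μ • ∑ i, Ideal.Quotient.mk w' (l i) • θ (sbJ ι y.1 (b i)) := by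
        rw [Finset.smul_sum]
        exact Finset.sum_congr rfl fun i _ => by rw [map_mul, smul_smul]
      rw [h1, h0, smul_zero]
    · have h1 : (∑ i, algebraMap F' D ((μ * l i : 𝓞 F') : F') * ι (b i)) * z =
          algebraMap F' D (μ : F') * ((∑ i, algebraMap F' D (l i : F') * ι (b i)) * z) := by
        rw [← mul_assoc, Finset.mul_sum]
        congr 1
        refine Finset.sum_congr rfl fun i _ => ?_
        rw [← mul_assoc, ← map_mul]
        rfl
      rw [h1]
      exact mem_idealMul (hμ' w' hw' hww) (hmem l z hz)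
  choose t ht htm using fun i => sb_casimir hg (μ * l i)
  have htv : ∀ j i, t i j ∈ v := by
    intro j
    apply hind
    -- the element of the order of `B`
    have hτ : ∀ i, algebraMap F B (t i j : F) * (b i : B) ∈ OB ι y.1 :=
      fun i => sb_scal_mem hdat (t i j) (b i).2
    have h1 : θ (sbJ ι y.1 (∑ i, (⟨algebraMap F B (t i j : F) * (b i : B), hτ i⟩ :
        OB ι y.1))) = ∑ i, Ideal.Quotient.mk w (algebraMap (𝓞 F) (𝓞 F') (t i j)) •
      θ (sbJ ι y.1 (b i)) := by
      rw [map_sum, map_sum]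
      exact Finset.sum_congr rfl fun i _ => sb_scal hdat hθm (t i j) (b i) _ rfl
    rw [← h1, sb_kernel hdat hg hw hθm hθ0]
    refine sb_mem hdat hg.max hpv hp0 hc (Subtype.mem _) ?_
    intro z hz
    have h2 : ι ((∑ i, (⟨algebraMap F B (t i j : F) * (b i : B), hτ i⟩ : OB ι y.1) :
        OB ι y.1) : B) = ∑ σ : F' ≃ₐ[F] F',
        ∑ i, algebraMap F' D ((σ • (e' j * (μ * l i)) : 𝓞 F') : F') * ι (b i) := by
      have h3 : ((∑ i, (⟨algebraMap F B (t i j : F) * (b i : B), hτ i⟩ : OB ι y.1) :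
          OB ι y.1) : B) = ∑ i, algebraMap F B (t i j : F) * (b i : B) :=
        map_sum (OB ι y.1).subtype _ _
      rw [h3, map_sum, Finset.sum_comm]
      refine Finset.sum_congr rfl fun i _ => ?_
      rw [map_mul, hdat.hι, ← Finset.sum_mul]
      congr 1
      have h4 := congrArg (fun z : 𝓞 F' => algebraMap F' D (z : F')) (ht i j)
      have h5 : algebraMap F' D ((algebraMap (𝓞 F) (𝓞 F') (t i j) : 𝓞 F') : F') =
          algebraMap F' D (algebraMap F F' (t i j : F)) := rfl
      rw [← h5]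
      refine h4.trans ?_
      show ((algebraMap F' D).comp (algebraMap (𝓞 F') F')) _ = _
      rw [map_sum]
      rfl
    rw [h2, Finset.sum_mul, Finset.mul_sum]
    refine AddSubgroup.sum_mem _ fun σ _ => ?_
    refine sb_sigma hdat (x := fun i => e' j * (μ * l i)) ?_ σ z hz
    intro z hz
    have h6 : algebraMap F' D (algebraMap F F' ((p : F)⁻¹ * (c : F))) *
        ((∑ i, algebraMap F' D ((e' j * (μ * l i) : 𝓞 F') : F') * ι (b i)) * z) =
        algebraMap F' D (e' j : F') * (algebraMap F' D (algebraMap F F' ((p : F)⁻¹ * (c : F))) *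
        ((∑ i, algebraMap F' D ((μ * l i : 𝓞 F') : F') * ι (b i)) * z)) := by
      have h7 : (∑ i, algebraMap F' D ((e' j * (μ * l i) : 𝓞 F') : F') * ι (b i)) =
          algebraMap F' D (e' j : F') *
            ∑ i, algebraMap F' D ((μ * l i : 𝓞 F') : F') * ι (b i) := by
        rw [Finset.mul_sum]
        refine Finset.sum_congr rfl fun i _ => ?_
        have h8 : algebraMap F' D ((e' j * (μ * l i) : 𝓞 F') : F') =
            algebraMap F' D (e' j : F') * algebraMap F' D ((μ * l i : 𝓞 F') : F') :=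
          map_mul (algebraMap F' D) (e' j : F') ((μ * l i : 𝓞 F') : F')
        rw [h8, mul_assoc]
      rw [h7, ← mul_assoc, ← mul_assoc, Algebra.commutes _ (algebraMap F' D (e' j : F')),
        mul_assoc, mul_assoc]
    rw [h6]
    exact hdat.hy.1.smul_mem hdat.hO (e' j) (hdiv z hz)
  intro i
  have hmw : (m : 𝓞 F') ∉ w := by
    intro h
    apply hg.mv
    rw [← hw.2, Ideal.mem_comap, map_natCast]
    exact h
  have h1 : (m : 𝓞 F') * (μ * l i) ∈ w := by
    rw [htm i]
    refine Ideal.sum_mem _ fun j _ => ?_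
    apply Ideal.mul_mem_left
    have := htv j i
    rw [← hw.2] at this
    exact this
  rcases hw.1.isPrime.mem_or_mem h1 with h | h
  · exact absurd h hmw
  · rcases hw.1.isPrime.mem_or_mem h with h | h
    · exact absurd h hμw
    · exact h

private theorem sb_assemble {A K L S : Type*} [CommRing A] [Field K] [Field L] [Finite K]
    [Finite L] [Algebra K L] [Ring S] (q : A →+* K) (hq : Function.Surjective q)
    (ψ : S →+* Matrix (Fin 2) (Fin 2) L)
    (hsc : ∀ c : A, ∃ s : S, ψ s = algebraMap K L (q c) • (1 : Matrix (Fin 2) (Fin 2) L))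
    (hspan : ∀ M, M ∈ Submodule.span L (Set.range ψ))
    (hind : ∀ (k : ℕ) (b : Fin k → S) (l : Fin k → L), ∑ i, l i • ψ (b i) = 0 →
      (∀ t : Fin k → A, ∑ i, algebraMap K L (q (t i)) • ψ (b i) = 0 → ∀ i, q (t i) = 0) →
      ∀ i, l i = 0) :
    ∃ π : S →+* Matrix (Fin 2) (Fin 2) K, Function.Surjective π ∧ (∀ a, π a = 0 ↔ ψ a = 0) ∧
      ∀ (c : A) (a b : S), ψ b = algebraMap K L (q c) • ψ a → π b = q c • π a := by
  let R : Subalgebra K (Matrix (Fin 2) (Fin 2) L) :=
    { carrier := Set.range ψ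
      mul_mem' := by
        rintro _ _ ⟨a, rfl⟩ ⟨b, rfl⟩
        exact ⟨a * b, map_mul ψ a b⟩
      add_mem' := by
        rintro _ _ ⟨a, rfl⟩ ⟨b, rfl⟩
        exact ⟨a + b, map_add ψ a b⟩
      algebraMap_mem' := by
        intro c
        obtain ⟨c0, rfl⟩ := hq c
        obtain ⟨s, hs⟩ := hsc c0
        refine ⟨s, ?_⟩
        rw [hs, algebraMap_smul]
        exact (Algebra.algebraMap_eq_smul_one (q c0)).symm }
  have hR : ∀ a, ψ a ∈ R := fun a => ⟨a, rfl⟩
  have h1 : Submodule.span L (R : Set (Matrix (Fin 2) (Fin 2) L)) = ⊤ := by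
    rw [Submodule.eq_top_iff']
    exact hspan
  have h2 : ∀ (k : ℕ) (f : Fin k → Matrix (Fin 2) (Fin 2) L), (∀ i, f i ∈ R) →
      LinearIndependent K f → LinearIndependent L f := by
    intro k f hf hfi
    choose b hb using hf
    rw [Fintype.linearIndependent_iff] at hfi ⊢
    intro l hl
    apply hind k b l
    · rw [← hl]
      exact Finset.sum_congr rfl fun i _ => by rw [hb]
    · intro t ht
      apply hfi (fun i => q (t i))
      rw [← ht]
      exact Finset.sum_congr rfl fun i _ => by rw [hb, algebraMap_smul]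
  obtain ⟨e⟩ := sb_form h1 h2
  let ψ' : S →+* R :=
    { toFun := fun a => ⟨ψ a, hR a⟩
      map_one' := Subtype.ext (map_one ψ)
      map_mul' := fun a b => Subtype.ext (map_mul ψ a b)
      map_zero' := Subtype.ext (map_zero ψ)
      map_add' := fun a b => Subtype.ext (map_add ψ a b) }
  have hπ : ∀ a, ((e : R →+* Matrix (Fin 2) (Fin 2) K).comp ψ') a = e (ψ' a) := fun _ => rfl
  refine ⟨(e : R →+* Matrix (Fin 2) (Fin 2) K).comp ψ', ?_, ?_, ?_⟩
  · intro M
    obtain ⟨⟨_, a, rfl⟩, hr⟩ := e.surjective M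
    exact ⟨a, hr⟩
  · intro a
    rw [hπ, map_eq_zero_iff e e.injective]
    exact Subtype.ext_iff
  · intro c a b h
    rw [hπ, hπ, ← map_smul]
    congr 1
    apply Subtype.ext
    show ψ b = q c • ψ a
    rw [h, algebraMap_smul]

theorem Datum.split_OB (hdat : Datum O n H y γ ι) {v : Ideal (𝓞 F)} (hg : Good e e' m v)
    (hsplit : ∀ w ∈ overSet F' v, Split F' O w) : Split F (OB ι y.1) v := by
  obtain ⟨w, hw⟩ := overSet_nonempty (F' := F') hg.max
  obtain ⟨θ, hθs, hθm, hθ0⟩ := sb_theta hdat.hO hdat.hy.1 hw.1 (hsplit w hw)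
  have hvmax : v.IsMaximal := hg.max
  have hwmax : w.IsMaximal := hw.1
  let : Field (𝓞 F ⧸ v) := Ideal.Quotient.field v
  let : Field (𝓞 F' ⧸ w) := Ideal.Quotient.field w
  have : Finite (𝓞 F ⧸ v) := v.finiteQuotientOfFreeOfNeBot
    (v.bot_lt_of_maximal (NumberField.RingOfIntegers.not_isField F)).ne'
  have : Finite (𝓞 F' ⧸ w) := w.finiteQuotientOfFreeOfNeBot
    (w.bot_lt_of_maximal (NumberField.RingOfIntegers.not_isField F')).ne'
  let : Algebra (𝓞 F ⧸ v) (𝓞 F' ⧸ w) :=
    (Ideal.quotientMap w (algebraMap (𝓞 F) (𝓞 F')) (le_of_eq hw.2.symm)).toAlgebra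
  have halg : ∀ c : 𝓞 F, algebraMap (𝓞 F ⧸ v) (𝓞 F' ⧸ w) (Ideal.Quotient.mk v c) =
      Ideal.Quotient.mk w (algebraMap (𝓞 F) (𝓞 F') c) := fun c => rfl
  obtain ⟨π, hπs, hπ0, hπm⟩ := sb_assemble (Ideal.Quotient.mk v) Ideal.Quotient.mk_surjective
    (θ.comp (sbJ ι y.1)) (by
      intro c
      refine ⟨⟨algebraMap F B (c : F) * 1, sb_scal_mem hdat c (Subring.one_mem _)⟩, ?_⟩
      rw [halg]
      refine (sb_scal hdat hθm c 1 _ rfl).trans ?_
      rw [map_one, map_one])
    (sb_span hdat hg hw hθs hθm) (by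
      intro k b l hl ht
      choose l0 hl0 using fun i => Ideal.Quotient.mk_surjective (I := w) (l i)
      intro i
      rw [← hl0 i]
      apply Ideal.Quotient.eq_zero_iff_mem.2
      revert i
      apply sb_indep hdat hg hw hθm hθ0 b l0
      · rw [← hl]
        exact Finset.sum_congr rfl fun i _ => by rw [hl0]; rfl
      · intro t h0 i
        exact Ideal.Quotient.eq_zero_iff_mem.1 (ht t h0 i))
  refine ⟨π, hπs, ?_, ?_⟩
  · intro a
    rw [hπ0]
    exact sb_kernel hdat hg hw hθm hθ0 a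
  · intro c a b h
    apply hπm
    rw [halg]
    exact sb_scal hdat hθm c a b h

end Pool.Agent.Helper93.WS
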