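import Pool.Agent.Helper93.WS.Main4
import Pool.Agent.Helper93.WS.FrobC
import Pool.Agent.Helper93.WS.SplitB

/-!
# The criterion
-/

open scoped Pointwise NumberField TensorProduct

namespace Pool.Agent.Helper93.WS

universe u

theorem criterion_main {p : ℕ} [Fact p.Prime] {k : Type u} [Field k] [CharP k p] [IsAlgClosed k]
    {F F' L D : Type u} [Field F] [NumberField F] [Field F'] [NumberField F']
    [Field L] [NumberField L] [Algebra F F'] [Algebra F L] [Algebra F' L] [IsScalarTower F F' L]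
    [IsGalois F F'] [IsGalois F L] (hP : IsPGroup p (F' ≃ₐ[F] F'))
    (ρ : (L ≃ₐ[F] L) →* Matrix.GeneralLinearGroup (Fin 2) k)
    [DivisionRing D] [Algebra F' D] [Algebra.IsCentral F' D] (hD : Module.finrank F' D = 4)
    [MulSemiringAction (F' ≃ₐ[F] F') D]
    (hact : ∀ (σ : F' ≃ₐ[F] F') (a : F'), σ • algebraMap F' D a = algebraMap F' D (σ a))
    (O : Subring D) (hO : IsOrder F' O) (hOP : ∀ (σ : F' ≃ₐ[F] F'), ∀ a ∈ O, σ • a ∈ O)
    (n : ℕ) (hn : n ≠ 0) (H : Set D) (hH : IsLevel O n H)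
    (hHP : ∀ (σ : F' ≃ₐ[F] F'), ∀ h ∈ H, σ • h ∈ H)
    (hsmall : ∀ y, IsPair F' O n H y → ∀ d : Dˣ, d • y = y →
      ∃ a : F', (d : D) = algebraMap F' D a) :
    (∀ (B : Type u) [DivisionRing B] [Algebra F B] (y : AddSubgroup D × Set D)
      (γ : (F' ≃ₐ[F] F') → Dˣ) (ι : B →+* D), IsTwistedForm O n H y γ ι →
        Nonempty ((F' ⊗[F] B) ≃ₐ[F'] D) ∧ IsOrder F (OB ι y.1) ∧
        IsLevel (OB ι y.1) n (HB ι y) ∧
        (NumberField.IsTotallyReal F' → TotallyDefinite F' D → TotallyDefinite F B)) ∧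
    ∃ N₀ : ℕ, N₀ ≠ 0 ∧ ∀ N : ℕ, N ≠ 0 → N₀ ∣ N → n ∣ N →
      (∀ w : Ideal (𝓞 F'), w.IsMaximal → (N : 𝓞 F') ∉ w → Split F' O w) →
      (∀ Q : Ideal (𝓞 L), Q.IsMaximal → (N : 𝓞 L) ∉ Q → ∀ τ : L ≃ₐ[F] L,
        (∀ x : 𝓞 L, τ • x - x ∈ Q) → ρ τ = 1) →
      (∀ (B : Type u) [DivisionRing B] [Algebra F B] (y : AddSubgroup D × Set D)
        (γ : (F' ≃ₐ[F] F') → Dˣ) (ι : B →+* D), IsTwistedForm O n H y γ ι →
          ∀ v : Ideal (𝓞 F), v.IsMaximal → (N : 𝓞 F) ∉ v → Split F (OB ι y.1) v) ∧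
      ((∃ f ∈ eigenSpace F F' ρ O n H N, (∀ (σ : F' ≃ₐ[F] F') y, f (σ • y) = f y) ∧
          f ∉ properTraces (F' ≃ₐ[F] F') (eigenSpace F F' ρ O n H N)) ↔
        ∃ (B : Type u) (_ : DivisionRing B) (_ : Algebra F B) (y : AddSubgroup D × Set D)
          (γ : (F' ≃ₐ[F] F') → Dˣ) (ι : B →+* D) (g : AddSubgroup B × Set B → k),
          IsTwistedForm O n H y γ ι ∧ IsForm F (OB ι y.1) n (HB ι y) g ∧ g ≠ 0 ∧
          ∀ v : Ideal (𝓞 F), v.IsMaximal → (N : 𝓞 F) ∉ v →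
            ∀ (φ : L ≃ₐ[F] L) (Q : Ideal (𝓞 L)), IsFrob F φ Q v →
              hecke F (OB ι y.1) n (HB ι y) v g =
                Matrix.trace (ρ φ : Matrix (Fin 2) (Fin 2) k) • g) ∧
      (¬ p ∣ Module.finrank k (eigenSpace F F' ρ O n H N) →
        ∃ f ∈ eigenSpace F F' ρ O n H N, (∀ (σ : F' ≃ₐ[F] F') y, f (σ • y) = f y) ∧
          f ∉ properTraces (F' ≃ₐ[F] F') (eigenSpace F F' ρ O n H N)) := by
  classical
  have hfdD : FiniteDimensional F' D := Module.finite_of_finrank_pos (by rw [hD]; norm_num)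
  refine ⟨?_, ?_⟩
  · intro B _ _ y γ ι h
    have hdat := h.datum hact hO hOP hn hH hHP hsmall
    refine ⟨hdat.form, hdat.isOrder, hdat.subLevel_HB.lev, ?_⟩
    intro hreal hdef
    obtain ⟨e⟩ := hdat.form
    exact TotallyDefinite.descend e hdef
  obtain ⟨r, e, e', m, hm, cas1, cas⟩ := exists_casimir (F := F) (F' := F')
  refine ⟨m, hm, fun N hN hmN hnN hsplit hram => ?_⟩
  -- the systems of eigenvalues
  let Θ : Ideal (𝓞 F') → k := fun w =>
    if h : ∃ (φ : L ≃ₐ[F'] L) (Q : Ideal (𝓞 L)), IsFrob F' φ Q w then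
      Matrix.trace (ρ (h.choose.restrictScalars F) : Matrix (Fin 2) (Fin 2) k) else 0
  let c : Ideal (𝓞 F) → k := fun v =>
    if h : ∃ (φ : L ≃ₐ[F] L) (Q : Ideal (𝓞 L)), IsFrob F φ Q v then
      Matrix.trace (ρ h.choose : Matrix (Fin 2) (Fin 2) k) else 0
  have hΘeq : ∀ (w : Ideal (𝓞 F')), (N : 𝓞 F') ∉ w → ∀ (φ : L ≃ₐ[F'] L) (Q : Ideal (𝓞 L)),
      IsFrob F' φ Q w →
      Θ w = Matrix.trace (ρ (φ.restrictScalars F) : Matrix (Fin 2) (Fin 2) k) := by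
    intro w hw φ Q hφ
    have h : ∃ (φ : L ≃ₐ[F'] L) (Q : Ideal (𝓞 L)), IsFrob F' φ Q w := ⟨φ, Q, hφ⟩
    have h1 : Θ w = Matrix.trace (ρ (h.choose.restrictScalars F) : Matrix (Fin 2) (Fin 2) k) :=
      dif_pos h
    rw [h1]
    exact frob_trace_unique' ρ hram hw h.choose_spec.choose_spec hφ
  have hceq : ∀ (v : Ideal (𝓞 F)), (N : 𝓞 F) ∉ v → ∀ (φ : L ≃ₐ[F] L) (Q : Ideal (𝓞 L)),
      IsFrob F φ Q v → c v = Matrix.trace (ρ φ : Matrix (Fin 2) (Fin 2) k) := by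
    intro v hv φ Q hφ
    have h : ∃ (φ : L ≃ₐ[F] L) (Q : Ideal (𝓞 L)), IsFrob F φ Q v := ⟨φ, Q, hφ⟩
    have h1 : c v = Matrix.trace (ρ h.choose : Matrix (Fin 2) (Fin 2) k) := dif_pos h
    rw [h1]
    exact frob_trace_unique ρ hram hv h.choose_spec.choose_spec hφ
  have hΘc : ∀ v : Ideal (𝓞 F), v.IsMaximal → (N : 𝓞 F) ∉ v → ∃ f₀ : ℕ,
      f₀ * (overSet F' v).ncard = Nat.card (F' ≃ₐ[F] F') ∧
        ∀ w ∈ overSet F' v, Θ w = c v ^ f₀ := by
    intro v hv hNv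
    obtain ⟨φ, Q, hφ⟩ := exists_frob (F := F) (L := L) hv
    obtain ⟨f₀, hf₀, h⟩ := frob_power hP ρ (⟨hv, cas1, cas, notMem_of_dvd hmN hNv⟩ :
      Good e e' m v) hφ
    refine ⟨f₀, hf₀, fun w hw => ?_⟩
    obtain ⟨φ', Q', h1, h2⟩ := h w hw
    rw [hΘeq w (over_notMem hNv hw) φ' Q' h1, h2, hceq v hNv φ Q hφ]
  have hset : eigenSet F F' ρ O n H N = thetaSet F' O n H N Θ := by
    ext f
    constructor
    · rintro ⟨h1, h2⟩
      refine ⟨h1, fun w hw hNw => ?_⟩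
      obtain ⟨φ, Q, hφ⟩ := exists_frob' F (L := L) hw
      rw [hΘeq w hNw φ Q hφ]
      exact h2 w hw hNw φ Q hφ
    · rintro ⟨h1, h2⟩
      refine ⟨h1, fun w hw hNw φ Q hφ => ?_⟩
      have h3 := h2 w hw hNw
      rw [hΘeq w hNw φ Q hφ] at h3
      exact h3
  have hspan : eigenSpace F F' ρ O n H N = Submodule.span k (thetaSet F' O n H N Θ) := by
    unfold eigenSpace
    rw [hset]
  have hspan2 : eigenSpace F F' ρ O n H N = Submodule.span k
      (absEigen Dˣ {y | IsPair F' O n H y} (heckeFam k hO n H N) (fun i => Θ i.1)) := by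
    rw [hspan, thetaSet_eq k hO]
  have hsub := absEigen_submodule (G := Dˣ) {y | IsPair F' O n H y}
    (finite_classes hO hn hH) (heckeFam k hO n H N) (fun i => Θ i.1)
  have hEform : ∀ f ∈ eigenSpace F F' ρ O n H N, ∀ (d : Dˣ) (x : AddSubgroup D × Set D),
      f (d • x) = f x := by
    intro f hf
    rw [hspan2] at hf
    exact (hsub.1 f hf).1.2
  have habs : (¬ p ∣ Module.finrank k (eigenSpace F F' ρ O n H N) ∨
      ∃ f ∈ eigenSpace F F' ρ O n H N, (∀ (σ : F' ≃ₐ[F] F') y, f (σ • y) = f y) ∧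
        f ∉ properTraces (F' ≃ₐ[F] F') (eigenSpace F F' ρ O n H N)) →
      ∃ f ∈ thetaSet F' O n H N Θ, (∀ (σ : F' ≃ₐ[F] F') x, f (σ • x) = f x) ∧
        ∃ y, IsPair F' O n H y ∧ f y ≠ 0 ∧ ∀ σ : F' ≃ₐ[F] F', ∃ d : Dˣ, σ • y = d • y := by
    intro hE
    rw [hspan2] at hE
    obtain ⟨f, hf, hfP, y, hy, hfy, hfix⟩ := abs_main (G := Dˣ) hP {y | IsPair F' O n H y}
      (fun g x => isPair_units_smul g)
      (fun σ x => isPair_gal_smul (hact_smul hact) hOP hHP σ)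
      (fun σ g => ⟨_, fun x => gal_units_smul_pair σ g x⟩) (finite_classes hO hn hH)
      (heckeFam k hO n H N) (fun i => Θ i.1)
      (fun i f hf => IsForm.hecke i.1 hf)
      (fun i j f => hecke_comm hO hH i.2.1 j.2.1 (notMem_of_dvd hnN i.2.2)
        (notMem_of_dvd hnN j.2.2) f)
      (by
        intro σ i
        refine ⟨⟨σ⁻¹ • i.1, idx_smul σ⁻¹ i.2⟩, ?_, ?_⟩
        · -- the eigenvalues are invariant
          have hw : i.1 ∈ overSet F' (i.1.comap (algebraMap (𝓞 F) (𝓞 F'))) := ⟨i.2.1, rfl⟩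
          have hw' := (overSet_smul σ⁻¹).2 hw
          have hv : (i.1.comap (algebraMap (𝓞 F) (𝓞 F'))).IsMaximal := by
            have := i.2.1
            exact Ideal.isMaximal_comap_of_isIntegral_of_isMaximal i.1
          have hNv : (N : 𝓞 F) ∉ i.1.comap (algebraMap (𝓞 F) (𝓞 F')) := by
            intro h
            rw [Ideal.mem_comap, map_natCast] at h
            exact i.2.2 h
          obtain ⟨f₀, _, h⟩ := hΘc _ hv hNv
          show Θ (σ⁻¹ • i.1) = Θ i.1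
          rw [h _ hw, h _ hw']
        · intro f
          funext y
          show hecke F' O n H (σ⁻¹ • i.1) (fun x => f (σ • x)) y = hecke F' O n H i.1 f (σ • y)
          rw [← hecke_gal_smul (hact_smul hact) hOP hHP σ (σ⁻¹ • i.1) f y, smul_inv_smul])
      hE
    refine ⟨f, ?_, hfP, y, hy, hfy, hfix⟩
    rw [thetaSet_eq k hO]
    exact hf
  refine ⟨?_, ⟨?_, ?_⟩, ?_⟩
  · intro B _ _ y γ ι h v hv hNv
    have hdat := h.datum hact hO hOP hn hH hHP hsmall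
    exact hdat.split_OB (⟨hv, cas1, cas, notMem_of_dvd hmN hNv⟩ : Good e e' m v)
      fun w hw => hsplit w hw.1 (over_notMem hNv hw)
  · intro hE
    obtain ⟨f, hf, hfP, y, hy, hfy, hfix⟩ := habs (Or.inr hE)
    obtain ⟨γ, hdat⟩ := exists_datum hact hO hOP hn hH hHP hsmall hy hfix
    letI : Algebra F (twFix γ) := algFix hact γ
    obtain ⟨g, hg, hg0, hgeig⟩ := exists_eigenform hP hdat hdat.subLevel_HB cas1 cas hmN hnN
      hsplit hΘc hf hfP hfy
    refine ⟨twFix γ, inferInstance, inferInstance, y, γ, (twFix γ).subtype, g,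
      ⟨hy, hdat.hγ, hdat.hι, hdat.hB⟩, hg, hg0, ?_⟩
    intro v hv hNv φ Q hφ
    rw [hgeig v hv hNv, hceq v hNv φ Q hφ]
  · rintro ⟨B, _, _, y, γ, ι, g, htw, hg, hg0, hgeig⟩
    have hdat := htw.datum hact hO hOP hn hH hHP hsmall
    obtain ⟨f, hf, hfP, hfT⟩ := exists_theta_of_eigenform hP hdat hsmall cas1 cas hmN hnN
      hsplit hΘc hg hg0 (by
        intro v hv hNv
        obtain ⟨φ, Q, hφ⟩ := exists_frob (F := F) (L := L) hv
        rw [hceq v hNv φ Q hφ]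
        exact hgeig v hv hNv φ Q hφ)
    rw [hspan]
    exact ⟨f, Submodule.subset_span hf, hfP, hfT⟩
  · intro hp
    obtain ⟨f, hf, hfP, y, hy, hfy, hfix⟩ := habs (Or.inl hp)
    refine ⟨f, ?_, hfP, ?_⟩
    · rw [hspan]
      exact Submodule.subset_span hf
    · intro hmem
      exact hfy (properTraces_vanish (G := Dˣ) hP _ hEform hmem hfix)

end Pool.Agent.Helper93.WS
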