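import Pool.Agent.Helper93.WS.Latt

/-!
# Products of Hecke operators at different primes
-/

open scoped Pointwise NumberField

namespace Pool.Agent.Helper93.WS

variable {K : Type*} [Field K] [NumberField K] {D : Type*} [DivisionRing D] [Algebra K D]
  {O : Subring D} {n : ℕ} {H : Set D}

/-- `1 = i + j` with `i` in one of two coprime ideals and `j` in the other. -/
private theorem split_one {I J : Ideal (𝓞 K)} (h : I ⊔ J = ⊤) :
    ∃ i ∈ I, ∃ j ∈ J, i + j = 1 := by
  have h1 : (1 : 𝓞 K) ∈ I ⊔ J := by rw [h]; exact Submodule.mem_top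
  rw [Submodule.mem_sup] at h1
  obtain ⟨i, hi, j, hj, h2⟩ := h1
  exact ⟨i, hi, j, hj, h2⟩

private theorem coprime_max {w w' : Ideal (𝓞 K)} (hw : w.IsMaximal) (hw' : w'.IsMaximal)
    (h : w ≠ w') : w ⊔ w' = ⊤ := hw.coprime_of_ne hw' h

private theorem coprime_prod {w : Ideal (𝓞 K)} {W : Finset (Ideal (𝓞 K))} (hw : w.IsMaximal)
    (hW : ∀ w' ∈ W, w'.IsMaximal) (hwW : w ∉ W) : w ⊔ ∏ w' ∈ W, w' = ⊤ := by
  rw [← Ideal.isCoprime_iff_sup_eq]
  refine IsCoprime.prod_right (fun w' hw' => ?_)
  rw [Ideal.isCoprime_iff_sup_eq]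
  exact coprime_max hw (hW w' hw') (fun h => hwW (h ▸ hw'))

private theorem split_elt {i j : 𝓞 K} (h : i + j = 1) (x : D) :
    x = algebraMap K D (i : K) * x + algebraMap K D (j : K) * x := by
  rw [← add_mul, ← map_add, ← map_add (algebraMap (𝓞 K) K) i j, h, map_one, map_one, one_mul]

/-- The intermediate lattice is a lattice. -/
private theorem isLat_sup (hO : IsOrder K O) {w J : Ideal (𝓞 K)} (hw : w.IsMaximal)
    (hwJ : w ⊔ J = ⊤) {Λ M : AddSubgroup D} (hΛ : IsLat K O Λ) (hM : IsLat K O M)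
    (hle : M ≤ Λ) (hJ : idealMul K (w * J) Λ ≤ M) : IsLat K O (M ⊔ idealMul K w Λ) := by
  have hJM : ∀ j ∈ J, ∀ x ∈ M ⊔ idealMul K w Λ, algebraMap K D (j : K) * x ∈ M := by
    intro j hj x hx
    rw [AddSubgroup.mem_sup] at hx
    obtain ⟨a, ha, b, hb, rfl⟩ := hx
    rw [mul_add]
    refine M.add_mem (hM.smul_mem hO j ha) (hJ ?_)
    rw [mul_comm w J, ← idealMul_mul]
    exact mem_idealMul hj hb
  have hΛ' : M ⊔ idealMul K w Λ ≤ Λ := sup_le hle (idealMul_le_self hO hΛ w)
  refine ⟨?_, ?_⟩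
  · intro x hx a ha
    rw [AddSubgroup.mem_sup] at hx ⊢
    obtain ⟨u, hu, v, hv, rfl⟩ := hx
    exact ⟨u * a, hM.1 u hu a ha, v * a, idealMul_mul_mem (fun x hx => hΛ.1 x hx a ha) hv,
      (add_mul u v a).symm⟩
  · intro w0 hw0
    by_cases h0 : w0 = w
    · subst h0
      obtain ⟨x, hx, hx0, m, hm, hgen⟩ := hM.2 w0 hw0
      obtain ⟨i, hi, j, hj, hij⟩ := split_one hwJ
      have hjw : j ∉ w0 := by
        intro h
        apply hw0.ne_top
        rw [Ideal.eq_top_iff_one, ← hij]
        exact w0.add_mem hi h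
      refine ⟨x, AddSubgroup.mem_sup_left hx, hx0, m * j, ?_, ?_⟩
      · intro h
        rcases hw0.isPrime.mem_or_mem h with h | h
        · exact hm h
        · exact hjw h
      · intro y hy
        obtain ⟨a, ha, h⟩ := hgen _ (hJM j hj y hy)
        refine ⟨a, ha, ?_⟩
        rw [← h, ← mul_assoc, ← map_mul, ← map_mul]
    · obtain ⟨x, hx, hx0, m, hm, hgen⟩ := hΛ.2 w0 hw0
      obtain ⟨i, hi, j, hj, hij⟩ := split_one (coprime_max hw hw0 (fun h => h0 h.symm))
      have hiw : i ∉ w0 := by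
        intro h
        apply hw0.ne_top
        rw [Ideal.eq_top_iff_one, ← hij]
        exact w0.add_mem h hj
      have hi0 : algebraMap K D (i : K) ≠ 0 := by
        intro h
        have h1 : (i : K) = 0 := (map_eq_zero (algebraMap K D)).1 h
        have h2 : i = 0 := by exact_mod_cast h1
        rw [h2] at hiw
        exact hiw w0.zero_mem
      refine ⟨algebraMap K D (i : K) * x, AddSubgroup.mem_sup_right (mem_idealMul hi hx),
        mul_ne_zero hi0 hx0, i * m, ?_, ?_⟩
      · intro h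
        rcases hw0.isPrime.mem_or_mem h with h | h
        · exact hiw h
        · exact hm h
      · intro y hy
        obtain ⟨a, ha, h⟩ := hgen y (hΛ' hy)
        refine ⟨a, ha, ?_⟩
        rw [mul_assoc, ← h, ← mul_assoc, ← map_mul, ← map_mul]

/-- Chains `y → x → z` of a `w`-neighbour and a `W`-neighbour correspond uniquely to
`insert w W`-neighbours. -/
theorem nbW_insert (hO : IsOrder K O) (hH : IsLevel O n H) {w : Ideal (𝓞 K)}
    {W : Finset (Ideal (𝓞 K))} (hw : w.IsMaximal) (hW : ∀ w' ∈ W, w'.IsMaximal) (hwW : w ∉ W)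
    (hnw : (n : 𝓞 K) ∉ w) (y z : AddSubgroup D × Set D) :
    (NbW K O n H (insert w W) y z ↔ ∃ x, Nb K O n H w y x ∧ NbW K O n H W x z) ∧
    ∀ x x', Nb K O n H w y x → NbW K O n H W x z → Nb K O n H w y x' → NbW K O n H W x' z →
      x = x' := by
  have hcop := coprime_prod hw hW hwW
  have hprod : ∏ w' ∈ insert w W, w' = w * ∏ w' ∈ W, w' := Finset.prod_insert hwW
  -- the intermediate lattice is determined
  have huniq : ∀ x, Nb K O n H w y x → NbW K O n H W x z → x.1 = z.1 ⊔ idealMul K w y.1 := by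
    intro x hx hz
    obtain ⟨_, hxp, h1, h2, _⟩ := hx
    obtain ⟨_, _, h3, h4, _, _⟩ := hz
    apply le_antisymm
    · intro t ht
      obtain ⟨i, hi, j, hj, hij⟩ := split_one hcop
      rw [split_elt hij t]
      refine (z.1 ⊔ idealMul K w y.1).add_mem ?_ ?_
      · exact AddSubgroup.mem_sup_right (mem_idealMul hi (h2.le ht))
      · exact AddSubgroup.mem_sup_left (h3 (mem_idealMul hj ht))
    · exact sup_le h4 h1.le
  refine ⟨⟨?_, ?_⟩, ?_⟩
  · rintro ⟨hy, hz, h1, h2, h3, h4⟩
    rw [hprod] at h1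
    have hlat := isLat_sup hO hw hcop hy.1 hz.1 h2 h1
    have hle : z.1 ⊔ idealMul K w y.1 ≤ y.1 := sup_le h2 (idealMul_le_self hO hy.1 w)
    obtain ⟨u, hu, t, hut⟩ := exists_unit_mod (K := K) (n := n) (J := w) (by
      intro w0 hw0 hle
      rw [← hw.eq_of_le hw0.ne_top hle]
      exact hnw)
    have hpair : IsPair K O n H (z.1 ⊔ idealMul K w y.1,
        y.2 ∩ ((z.1 ⊔ idealMul K w y.1 : AddSubgroup D) : Set D)) :=
      hy.sub_pair hO hH hlat hle (fun x hx => AddSubgroup.mem_sup_right (mem_idealMul hu hx)) hut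
    refine ⟨(z.1 ⊔ idealMul K w y.1, y.2 ∩ ((z.1 ⊔ idealMul K w y.1 : AddSubgroup D) : Set D)),
      ⟨hy, hpair, ?_, ?_, rfl⟩, ⟨hpair, hz, ?_, le_sup_left, ?_, ?_⟩⟩
    · refine lt_of_le_of_ne le_sup_right (fun h => ?_)
      apply (h3 w (Finset.mem_insert_self w W)).2
      change idealMul K w y.1 = z.1 ⊔ idealMul K w y.1 at h
      rw [h]
      exact le_sup_left
    · exact lt_of_le_of_ne hle (h3 w (Finset.mem_insert_self w W)).1
    · rw [idealMul_le_iff]
      intro j hj x hx
      change x ∈ z.1 ⊔ idealMul K w y.1 at hx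
      rw [AddSubgroup.mem_sup] at hx
      obtain ⟨a, ha, b, hb, rfl⟩ := hx
      rw [mul_add]
      refine z.1.add_mem (hz.1.smul_mem hO j ha) (h1 ?_)
      rw [mul_comm w, ← idealMul_mul]
      exact mem_idealMul hj hb
    · intro w' hw'
      have h5 := h3 w' (Finset.mem_insert_of_mem hw')
      constructor
      · intro h
        apply h5.1
        change z.1 ⊔ idealMul K w' (z.1 ⊔ idealMul K w y.1) = z.1 ⊔ idealMul K w y.1 at h
        apply le_antisymm (sup_le h2 (idealMul_le_self hO hy.1 w'))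
        intro x hx
        obtain ⟨i, hi, j, hj, hij⟩ :=
          split_one (coprime_max hw (hW w' hw') (fun e => hwW (e ▸ hw')))
        rw [split_elt hij x]
        refine (z.1 ⊔ idealMul K w' y.1).add_mem ?_ (AddSubgroup.mem_sup_right (mem_idealMul hj hx))
        have h6 : algebraMap K D (i : K) * x ∈ z.1 ⊔ idealMul K w y.1 :=
          AddSubgroup.mem_sup_right (mem_idealMul hi hx)
        rw [← h] at h6
        exact (sup_le_sup_left (idealMul_mono le_rfl hle) z.1) h6
      · intro h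
        exact h5.2 (h.trans (idealMul_mono le_rfl hle))
    · change z.2 = (y.2 ∩ ((z.1 ⊔ idealMul K w y.1 : AddSubgroup D) : Set D)) ∩ (z.1 : Set D)
      rw [h4]
      ext s
      constructor
      · rintro ⟨hs1, hs2⟩
        exact ⟨⟨hs1, (le_sup_left : z.1 ≤ z.1 ⊔ idealMul K w y.1) hs2⟩, hs2⟩
      · rintro ⟨⟨hs1, _⟩, hs2⟩
        exact ⟨hs1, hs2⟩
  · rintro ⟨x, ⟨hy, hx, h1, h2, h3⟩, ⟨_, hz, h4, h5, h6, h7⟩⟩
    have key : ∀ w' ∈ W, ∀ t ∈ idealMul K w' y.1, ∀ j ∈ w,
        algebraMap K D (j : K) * t ∈ idealMul K w' x.1 := by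
      intro w' _ t ht j hj
      have : algebraMap K D (j : K) * t ∈ idealMul K w (idealMul K w' y.1) := mem_idealMul hj ht
      rw [idealMul_mul, mul_comm, ← idealMul_mul] at this
      exact idealMul_mono le_rfl h1.le this
    refine ⟨hy, hz, ?_, h5.trans h2.le, ?_, ?_⟩
    · rw [hprod, mul_comm, ← idealMul_mul]
      exact (idealMul_mono le_rfl h1.le).trans h4
    · intro w' hw'
      rw [Finset.mem_insert] at hw'
      rcases hw' with rfl | hw'
      · constructor
        · intro h
          have : z.1 ⊔ idealMul K w' y.1 ≤ x.1 := sup_le h5 h1.le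
          rw [h] at this
          exact absurd h2 (not_lt_of_ge this)
        · intro h
          apply absurd h1
          apply not_lt_of_ge
          intro t ht
          obtain ⟨i, hi, j, hj, hij⟩ := split_one hcop
          rw [split_elt hij t]
          exact (idealMul K w' y.1).add_mem (mem_idealMul hi (h2.le ht))
            (h (h4 (mem_idealMul hj ht)))
      · have hcop' := coprime_max hw (hW w' hw') (fun e => hwW (e ▸ hw'))
        obtain ⟨j, hj, i, hi, hij⟩ := split_one hcop'
        constructor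
        · intro h
          apply (h6 w' hw').1
          apply le_antisymm (sup_le h5 (idealMul_le_self hO hx.1 w'))
          intro t ht
          have ht' : t ∈ z.1 ⊔ idealMul K w' y.1 := by rw [h]; exact h2.le ht
          rw [AddSubgroup.mem_sup] at ht'
          obtain ⟨a, ha, b, hb, hab⟩ := ht'
          rw [split_elt hij t]
          refine (z.1 ⊔ idealMul K w' x.1).add_mem ?_
            (AddSubgroup.mem_sup_right (mem_idealMul hi ht))
          rw [← hab, mul_add]
          exact (z.1 ⊔ idealMul K w' x.1).add_mem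
            (AddSubgroup.mem_sup_left (hz.1.smul_mem hO j ha))
            (AddSubgroup.mem_sup_right (key w' hw' b hb j hj))
        · intro h
          apply (h6 w' hw').2
          intro t ht
          rw [split_elt hij t]
          exact (idealMul K w' x.1).add_mem (key w' hw' t (h ht) j hj) (mem_idealMul hi (h5 ht))
    · rw [h7, h3]
      ext s
      constructor
      · rintro ⟨⟨hs1, _⟩, hs2⟩
        exact ⟨hs1, hs2⟩
      · rintro ⟨hs1, hs2⟩
        exact ⟨⟨hs1, h5 hs2⟩, hs2⟩
  · intro x x' hx hz hx' hz'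
    have e1 := huniq x hx hz
    have e2 := huniq x' hx' hz'
    have e3 : x.1 = x'.1 := by rw [e1, e2]
    apply Prod.ext e3
    rw [hx.2.2.2.2, hx'.2.2.2.2, e3]

theorem nbW_singleton {w : Ideal (𝓞 K)} (y z : AddSubgroup D × Set D) (hO : IsOrder K O) :
    NbW K O n H {w} y z ↔ Nb K O n H w y z := by
  unfold NbW Nb
  rw [Finset.prod_singleton]
  constructor
  · rintro ⟨hy, hz, h1, h2, h3, h4⟩
    have h5 := h3 w (Finset.mem_singleton_self w)
    refine ⟨hy, hz, lt_of_le_of_ne h1 (fun h => h5.2 h.ge), lt_of_le_of_ne h2 (fun h => ?_), h4⟩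
    apply h5.1
    rw [sup_eq_left.2 h1]
    exact h
  · rintro ⟨hy, hz, h1, h2, h4⟩
    refine ⟨hy, hz, h1.le, h2.le, ?_, h4⟩
    intro w' hw'
    rw [Finset.mem_singleton] at hw'
    subst hw'
    rw [sup_eq_left.2 h1.le]
    exact ⟨h2.ne, fun h => absurd h1 (not_lt_of_ge h)⟩

private theorem snd_sub (hH : IsLevel O n H) {y : AddSubgroup D × Set D}
    (hy : IsPair K O n H y) : y.2 ⊆ (y.1 : Set D) := by
  intro s hs
  exact (hy.of_mem hH hs).1

theorem nbW_empty (hO : IsOrder K O) (hH : IsLevel O n H) (y z : AddSubgroup D × Set D) :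
    NbW K O n H ∅ y z ↔ IsPair K O n H y ∧ z = y := by
  unfold NbW
  rw [Finset.prod_empty]
  have htop : y.1 ≤ idealMul K (1 : Ideal (𝓞 K)) y.1 := by
    intro x hx
    have h1 : (1 : 𝓞 K) ∈ (1 : Ideal (𝓞 K)) := by
      rw [Ideal.one_eq_top]
      exact Submodule.mem_top
    have := mem_idealMul (K := K) h1 hx
    simpa using this
  constructor
  · rintro ⟨hy, hz, h1, h2, _, h4⟩
    refine ⟨hy, ?_⟩
    have e : z.1 = y.1 := le_antisymm h2 (htop.trans h1)
    apply Prod.ext e
    rw [h4, e]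
    exact Set.inter_eq_left.2 (snd_sub hH hy)
  · rintro ⟨hy, rfl⟩
    refine ⟨hy, hy, idealMul_le_self hO hy.1 _, le_rfl, ?_, ?_⟩
    · intro w hw
      simp at hw
    · exact (Set.inter_eq_left.2 (snd_sub hH hy)).symm

/-- `T_{insert w W} = T_w ∘ T_W`. -/
theorem heckeW_insert {k : Type*} [AddCommMonoid k] (hO : IsOrder K O) (hH : IsLevel O n H)
    {w : Ideal (𝓞 K)} {W : Finset (Ideal (𝓞 K))} (hw : w.IsMaximal)
    (hW : ∀ w' ∈ W, w'.IsMaximal) (hwW : w ∉ W) (hnw : (n : 𝓞 K) ∉ w)
    (f : AddSubgroup D × Set D → k) :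
    heckeW K O n H (insert w W) f = hecke K O n H w (heckeW K O n H W f) := by
  funext y
  have h := finsum_mem_biUnion (f := f) (I := {x | Nb K O n H w y x})
    (t := fun x => {z | NbW K O n H W x z}) (by
      intro x hx x' hx' hne
      change Disjoint {z | NbW K O n H W x z} {z | NbW K O n H W x' z}
      rw [Set.disjoint_left]
      intro z hz hz'
      exact hne ((nbW_insert hO hH hw hW hwW hnw y z).2 x x' hx hz hx' hz'))
    (nb_finite hO hw y) (fun x _ => nbW_finite hO hW x)
  have hset : (⋃ x ∈ {x | Nb K O n H w y x}, {z | NbW K O n H W x z}) =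
      {z | NbW K O n H (insert w W) y z} := by
    ext z
    simp only [Set.mem_iUnion, exists_prop]
    constructor
    · rintro ⟨x, hx, hz⟩
      exact (nbW_insert hO hH hw hW hwW hnw y z).1.2 ⟨x, hx, hz⟩
    · intro hz
      obtain ⟨x, hx, hz⟩ := (nbW_insert hO hH hw hW hwW hnw y z).1.1 hz
      exact ⟨x, hx, hz⟩
  rw [hset] at h
  exact h

theorem heckeW_empty {k : Type*} [AddCommMonoid k] (hO : IsOrder K O) (hH : IsLevel O n H)
    {f : AddSubgroup D × Set D → k} (hf : IsForm K O n H f) :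
    heckeW K O n H ∅ f = f := by
  funext y
  unfold heckeW
  simp only [nbW_empty hO hH]
  by_cases hy : IsPair K O n H y
  · simp only [hy, true_and]
    exact finsum_cond_eq_left
  · simp only [hy, false_and, finsum_false, finsum_zero]
    exact (hf.1 y hy).symm

/-- The Hecke operators commute. -/
theorem hecke_comm {k : Type*} [AddCommMonoid k] (hO : IsOrder K O) (hH : IsLevel O n H)
    {w w' : Ideal (𝓞 K)} (hw : w.IsMaximal) (hw' : w'.IsMaximal) (hnw : (n : 𝓞 K) ∉ w)
    (hnw' : (n : 𝓞 K) ∉ w') (f : AddSubgroup D × Set D → k) :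
    hecke K O n H w (hecke K O n H w' f) = hecke K O n H w' (hecke K O n H w f) := by
  by_cases h : w = w'
  · rw [h]
  have hs : ∀ v : Ideal (𝓞 K), heckeW K O n H {v} f = hecke K O n H v f := by
    intro v
    funext y
    unfold heckeW hecke
    simp only [nbW_singleton _ _ hO]
  rw [← hs w', ← hs w, ← heckeW_insert hO hH hw (by simpa using hw') (by simpa using h) hnw,
    ← heckeW_insert hO hH hw' (by simpa using hw) (by simpa using fun e => h e.symm) hnw',
    Finset.pair_comm]

end Pool.Agent.Helper93.WS
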