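import Pool.Agent.Helper93.WS.Latt

/-!
# The twisted action attached to a pair with Galois-invariant class
-/

open scoped Pointwise NumberField

namespace Pool.Agent.Helper93.WS

variable {F F' : Type*} [Field F] [NumberField F] [Field F'] [NumberField F'] [Algebra F F']
  {D : Type*} [DivisionRing D] [Algebra F' D]
  [MulSemiringAction (F' ≃ₐ[F] F') D] {O : Subring D} {n : ℕ} {H : Set D}

section Aux

variable {P E : Type*} [Group P] [Ring E] [MulSemiringAction P E]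

/-- The action of `σ` on a unit. -/
private def galUnit (σ : P) (d : Eˣ) : Eˣ :=
  Units.map (MulSemiringAction.toRingHom P E σ : E →* E) d

private theorem galUnit_val (σ : P) (d : Eˣ) : (galUnit σ d : E) = σ • (d : E) := rfl

private theorem gal_unit_smul_elt (σ : P) (d : Eˣ) (x : E) :
    σ • (d • x) = galUnit σ d • (σ • x) := by
  rw [Units.smul_def, Units.smul_def, galUnit_val, smul_eq_mul, smul_eq_mul, smul_mul']

private theorem gal_unit_smul (σ : P) (d : Eˣ) (z : AddSubgroup E × Set E) :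
    σ • (d • z) = galUnit σ d • (σ • z) := by
  apply Prod.ext
  · change σ • (d • z.1) = galUnit σ d • (σ • z.1)
    ext x
    simp only [AddSubgroup.mem_smul_pointwise_iff_exists]
    constructor
    · rintro ⟨_, ⟨s, hs, rfl⟩, rfl⟩
      exact ⟨σ • s, ⟨s, hs, rfl⟩, (gal_unit_smul_elt σ d s).symm⟩
    · rintro ⟨_, ⟨s, hs, rfl⟩, rfl⟩
      exact ⟨d • s, ⟨s, hs, rfl⟩, gal_unit_smul_elt σ d s⟩
  · change σ • (d • z.2) = galUnit σ d • (σ • z.2)
    ext x
    simp only [Set.mem_smul_set]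
    constructor
    · rintro ⟨_, ⟨s, hs, rfl⟩, rfl⟩
      exact ⟨σ • s, ⟨s, hs, rfl⟩, (gal_unit_smul_elt σ d s).symm⟩
    · rintro ⟨_, ⟨s, hs, rfl⟩, rfl⟩
      exact ⟨d • s, ⟨s, hs, rfl⟩, gal_unit_smul_elt σ d s⟩

private theorem smul_galUnit_inv (σ : P) (d : Eˣ) : galUnit σ d⁻¹ = (galUnit σ d)⁻¹ := by
  rw [galUnit, galUnit, map_inv]

end Aux

theorem exists_datum
    (hact : ∀ (σ : F' ≃ₐ[F] F') (a : F'), σ • algebraMap F' D a = algebraMap F' D (σ a))
    (hO : IsOrder F' O) (hOP : ∀ (σ : F' ≃ₐ[F] F'), ∀ a ∈ O, σ • a ∈ O)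
    (hn : n ≠ 0) (hH : IsLevel O n H) (hHP : ∀ (σ : F' ≃ₐ[F] F'), ∀ h ∈ H, σ • h ∈ H)
    (hsmall : ∀ y, IsPair F' O n H y → ∀ d : Dˣ, d • y = y → ∃ a : F', (d : D) = algebraMap F' D a)
    {y : AddSubgroup D × Set D} (hy : IsPair F' O n H y)
    (hfix : ∀ σ : F' ≃ₐ[F] F', ∃ d : Dˣ, σ • y = d • y) :
    ∃ γ : (F' ≃ₐ[F] F') → Dˣ,
      letI := algFix hact γ
      Datum O n H y γ (twFix γ).subtype := by
  classical
  choose γ hγ using hfix
  refine ⟨γ, ?_⟩
  letI := algFix hact γ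
  have hact' : ∀ (σ : F' ≃ₐ[F] F') (a : F'), σ • algebraMap F' D a = algebraMap F' D (σ • a) :=
    fun σ a => hact σ a
  -- the unit `γ 1`
  have h1y : γ 1 • y = y := by rw [← hγ 1, one_smul]
  -- the defect units
  have key : ∀ σ τ : F' ≃ₐ[F] F',
      ((γ (σ * τ))⁻¹ * (galUnit σ (γ τ) * γ σ)) • y = y := by
    intro σ τ
    have e1 : (σ * τ) • y = (galUnit σ (γ τ) * γ σ) • y := by
      rw [mul_smul σ τ y, hγ τ, gal_unit_smul, hγ σ, ← mul_smul]
    rw [mul_smul, ← e1, hγ (σ * τ), inv_smul_smul]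
  have hfixall : ∀ σ τ : F' ≃ₐ[F] F', ∀ z, IsPair F' O n H z →
      ((γ (σ * τ))⁻¹ * (galUnit σ (γ τ) * γ σ)) • z = z := by
    intro σ τ
    obtain ⟨a, ha⟩ := hsmall y hy _ (key σ τ)
    exact central_fixes hO hn hH hy ha (key σ τ)
  refine
    { hact := hact
      hO := hO
      hOP := hOP
      hn := hn
      hH := hH
      hHP := hHP
      hy := hy
      hγ := hγ
      hγ1 := ?_
      hγmul := ?_
      hι := ?_
      hB := ?_
      hcen1 := hsmall y hy _ h1y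
      hcen := ?_ }
  · obtain ⟨a, ha⟩ := hsmall y hy _ h1y
    exact central_fixes hO hn hH hy ha h1y
  · intro σ τ z hz
    have hz1 : IsPair F' O n H ((σ * τ) • z) :=
      (isPair_gal_smul hact' hOP hHP (σ * τ)).2 hz
    have hz2 : IsPair F' O n H ((γ (σ * τ))⁻¹ • (σ * τ) • z) :=
      (isPair_units_smul _).2 hz1
    -- right hand side
    have e1 : (γ σ)⁻¹ • σ • (γ τ)⁻¹ • τ • z =
        ((galUnit σ (γ τ) * γ σ))⁻¹ • ((σ * τ) • z) := by
      rw [gal_unit_smul, smul_galUnit_inv, ← mul_smul, ← mul_inv_rev, ← mul_smul σ τ z]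
    rw [e1]
    have e2 := hfixall σ τ _ hz2
    have e3 : (galUnit σ (γ τ) * γ σ)⁻¹ • (σ * τ) • z =
        ((γ (σ * τ))⁻¹ * (galUnit σ (γ τ) * γ σ))⁻¹ • ((γ (σ * τ))⁻¹ • (σ * τ) • z) := by
      rw [← mul_smul, mul_inv_rev ((γ (σ * τ))⁻¹), inv_inv, mul_assoc, mul_inv_cancel, mul_one]
    rw [e3, eq_comm, inv_smul_eq_iff, e2]
  · intro a
    rfl
  · intro d
    constructor
    · rintro ⟨b, rfl⟩ σ
      exact b.2 σ
    · intro hd
      exact ⟨⟨d, hd⟩, rfl⟩
  · intro σ τ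
    obtain ⟨a, ha⟩ := hsmall y hy _ (key σ τ)
    have hne : a ≠ 0 := by
      rintro rfl
      rw [map_zero] at ha
      exact Units.ne_zero _ ha
    refine ⟨a⁻¹, ?_⟩
    have e1 : (galUnit σ (γ τ) : D) * (γ σ : D) = (γ (σ * τ) : D) * algebraMap F' D a := by
      rw [← ha, ← Units.val_mul, ← Units.val_mul, mul_inv_cancel_left]
    rw [galUnit_val] at e1
    rw [e1, mul_assoc, ← map_mul, mul_inv_cancel₀ hne, map_one, mul_one]

end Pool.Agent.Helper93.WS
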